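import Pool.Agent.H833.EK.Kim

/-!
# Antisymmetric zero-cycles on the powers of images of powers
-/

set_option autoImplicit false
set_option linter.unusedSectionVars false

namespace Pool.Agent.H833.EK

open FF Polynomial

variable {k : Type} [Field k] [CharZero k]

theorem exceeds_of_lt {m N : ℕ} {Γ : Set (Equiv.Perm (Fin m) × (Fin m → Bool))}
    (h1 : ((1, fun _ => false) : Equiv.Perm (Fin m) × (Fin m → Bool)) ∈ Γ) (h : 2 ^ m < N) :
    Exceeds Γ N := by
  intro T
  right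
  obtain ⟨i, i', hi, hT⟩ := Fintype.exists_ne_map_eq_of_card_lt T (by simpa using h)
  refine ⟨i, i', hi, _, h1, _, h1, ?_, ?_, ?_⟩
  · intro j hj
    rw [← hT]
    exact hj
  · intro j hj
    rw [hT]
    exact hj
  · simp [sgT]

namespace Geo

variable [IsAlgClosed k] {G X X' : Geo k} {m N : ℕ}

theorem alt_mem (hG : G.Nice) {o : G.Pt k} (hS : G.Sw (N * m) o) (h : 2 ^ m < N)
    (z : (Fin (N * m) → G.Pt k) →₀ ℚ) : alt z ∈ G.Rat (N * m) := by
  refine wedgeQuot (Γ := {(1, fun _ => false)}) (ι := Hom.idn G) hG hS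
    (exceeds_of_lt rfl h) ?_ z ?_
  · intro g hg j hj
    rw [Set.mem_singleton_iff] at hg
    subst hg
    simp at hj
  · intro g hg i
    rw [Set.mem_singleton_iff] at hg
    subst hg
    have h1 : sact ((Hom.idn G).map k)
        (inBlk i ((1, fun _ => false) : Equiv.Perm (Fin m) × (Fin m → Bool))) = id := by
      funext x l
      obtain ⟨⟨a, j⟩, rfl⟩ := finProdFinEquiv.surjective l
      rw [sact_inBlk]
      split_ifs <;> rfl
    rw [h1, Finsupp.mapDomain_id, sub_self]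
    exact Submodule.zero_mem _

/-- The class of an antisymmetrisation. -/
noncomputable def altC (X : Geo k) (N : ℕ) : ((Fin N → X.Pt k) →₀ ℚ) →ₗ[ℚ] X.CH N :=
  ∑ σ : Equiv.Perm (Fin N), ((σ.sign : ℤ) : ℚ) • (X.Rat N).mkQ.comp
    (Finsupp.lmapDomain ℚ ℚ fun (x : Fin N → X.Pt k) j => x (σ j))

theorem altC_single (x : Fin N → X.Pt k) (q : ℚ) : altC X N (Finsupp.single x q) =
    q • ∑ σ : Equiv.Perm (Fin N), ((σ.sign : ℤ) : ℚ) • X.cl fun j => x (σ j) := by
  unfold altC
  rw [LinearMap.sum_apply, Finset.smul_sum]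
  refine Finset.sum_congr rfl fun σ _ => ?_
  rw [LinearMap.smul_apply, LinearMap.comp_apply, Finsupp.lmapDomain_apply,
    Finsupp.mapDomain_single, smul_comm q]
  unfold cl
  rw [← map_smul (X.Rat N).mkQ q, Finsupp.smul_single, smul_eq_mul, mul_one]

theorem wedge_iff : Wedge X N ↔ ∀ x : Fin N → X.Pt k,
    ∑ σ : Equiv.Perm (Fin N), ((σ.sign : ℤ) : ℚ) • X.cl (fun j => x (σ j)) = 0 := by
  have h1 : ∀ z : (Fin N → X.Pt k) →₀ ℚ, altC X N z = (X.Rat N).mkQ
      (∑ σ : Equiv.Perm (Fin N), ((σ.sign : ℤ) : ℚ) •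
        Finsupp.mapDomain (fun x j => x (σ j)) z) := by
    intro z
    unfold altC
    rw [map_sum, LinearMap.sum_apply]
    refine Finset.sum_congr rfl fun σ _ => ?_
    rw [LinearMap.smul_apply, LinearMap.comp_apply, Finsupp.lmapDomain_apply, map_smul]
  have h2 : Wedge X N ↔ ∀ z, altC X N z = 0 := by
    refine forall_congr' fun z => ?_
    rw [h1, Submodule.mkQ_apply, Submodule.Quotient.mk_eq_zero]
  rw [h2]
  constructor
  · intro h x
    have h3 := h (Finsupp.single x 1)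
    rwa [altC_single, one_smul] at h3
  · intro h z
    induction z using Finsupp.induction_linear with
    | zero => exact map_zero _
    | add a b h3 h4 => rw [map_add, h3, h4, add_zero]
    | single x q => rw [altC_single, h, smul_zero]

theorem Onto.wedge (hG : G.Nice) {o : G.Pt k} (hS : G.Sw (N * m) o) (hm : 2 ^ m < N)
    (hX : X.Nice) (h : Onto G m X) : Wedge X N := by
  classical
  rw [wedge_iff]
  intro x
  choose p hp using fun a => h.onto (x a)
  let f : (Fin (N * m) → G.Pt k) → (Fin N → X.Pt k) := fun y a =>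
    h.map k fun j => y (finProdFinEquiv (a, j))
  have hf : G.Rat (N * m) ≤ (X.Rat N).comap (Finsupp.lmapDomain ℚ ℚ f) := by
    refine Submodule.span_le.2 ?_
    rintro _ ⟨K, i1, i2, i3, F, P, φ, hF, hφ, rfl⟩
    refine Submodule.subset_span ⟨K, i1, i2, i3, F,
      fun a => h.map K fun j => P (finProdFinEquiv (a, j)), fun v => f (φ v), hF, fun v a => ?_, ?_⟩
    · exact h.sp v _ _ fun j => hφ v _
    · unfold Finsupp.sum
      rw [map_sum]
      refine Finset.sum_congr rfl fun v _ => ?_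
      rw [Finsupp.lmapDomain_apply, Finsupp.mapDomain_single]
  let y : Fin (N * m) → G.Pt k := fun l => p (finProdFinEquiv.symm l).1 (finProdFinEquiv.symm l).2
  have h1 := hf (alt_mem (N := N) (m := m) hG hS hm (Finsupp.single y 1))
  rw [Submodule.mem_comap, ← Submodule.Quotient.mk_eq_zero, ← Submodule.mkQ_apply] at h1
  unfold alt at h1
  rw [map_sum, map_sum] at h1
  rw [← h1]
  refine Finset.sum_congr rfl fun σ _ => ?_
  rw [map_smul, map_smul]
  congr 1
  rw [Finsupp.mapDomain_single, Finsupp.lmapDomain_apply, Finsupp.mapDomain_single]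
  change _ = X.cl _
  refine cl_congr fun j => ?_
  have h2 : f (fun l => y (blk σ l)) j = h.map k (p (σ j)) := by
    change h.map k (fun j' => y (blk σ (finProdFinEquiv (j, j')))) = _
    congr 1
    funext j'
    rw [blk_pair]
    change p (finProdFinEquiv.symm (finProdFinEquiv (σ j, j'))).1
      (finProdFinEquiv.symm (finProdFinEquiv (σ j, j'))).2 = _
    rw [Equiv.symm_apply_apply]
  rw [h2]
  exact (RLine.eqv hX (hp (σ j))).symm

theorem Resolves.wedge (hX : X.Nice) {π : Hom X' X} (h : Resolves π) (hw : Wedge X N) :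
    Wedge X' N := by
  rw [wedge_iff] at hw ⊢
  intro x
  obtain ⟨Ψ, hΨ⟩ := h.exists_psi hX N
  have h1 := congrArg Ψ (hw fun j => π.map k (x j))
  rw [map_zero, map_sum] at h1
  rw [← h1]
  refine Finset.sum_congr rfl fun σ _ => ?_
  rw [map_smul]
  congr 1
  exact hΨ _ _ fun j => same_refl hX _

end Geo

section

variable [IsAlgClosed k] {m N : ℕ}

theorem EllK3.sw {S : Geo k} (h : EllK3 S) : S.Nice ∧ ∃ o, ∀ n, S.Sw n o := by
  cases h with
  | cover e c hc =>
    obtain ⟨o, ho⟩ := exists_ram c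
    exact ⟨dcover_nice hc, o, fun n => sw_dcover hc ho⟩
  | res e c _ π hc hπ =>
    obtain ⟨o, ho⟩ := exists_ram c
    obtain ⟨σ, hσ⟩ := Geo.exists_section (dcover_nice hc) hπ
    exact ⟨hπ.nice, σ o, fun n => hπ.sw (dcover_nice hc) (hσ o) (sw_dcover hc ho)⟩
  | genusOne _ a b r T hG ha hb hr =>
    obtain ⟨K, i1, i2, i3, u, D, hu, hD⟩ := T.multi
    obtain ⟨v, -⟩ := exists_zero (k := k) (K := K) hu
    obtain ⟨o, -⟩ := hD v
    exact ⟨hG, o, fun n _ _ hi _ x x' => T.Wd_zero hG ha hb hr hi o x x'⟩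

theorem EllK3.wedge {S : Geo k} (h : EllK3 S) (hm : 2 ^ m < N) {X : Geo k} (hX : X.Nice)
    (f : Onto S m X) : Wedge X N := by
  obtain ⟨hS, o, ho⟩ := h.sw
  exact Geo.Onto.wedge hS (ho _) hm hX f

theorem EllK3.wedgeQuot {S : Geo k} (h : EllK3 S)
    {Γ : Set (Equiv.Perm (Fin m) × (Fin m → Bool))} (hN : Exceeds Γ N)
    (hΓ : ∀ g ∈ Γ, ∀ j, g.2 j = false) : WedgeQuot S id m Γ N := by
  obtain ⟨hS, o, ho⟩ := h.sw
  refine Geo.wedgeQuot (ι := Geo.Hom.idn S) hS (ho _) hN fun g hg j hj => ?_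
  rw [hΓ g hg j] at hj
  exact absurd hj (by simp)

theorem wedgeQuot_dcover {e : ℕ} {c : Fin 5 → MvPolynomial (Fin 2) k} (hc : Wts e c)
    {Γ : Set (Equiv.Perm (Fin m) × (Fin m → Bool))} (hN : Exceeds Γ N) :
    WedgeQuot (dcover e c) DPt.opp m Γ N := by
  obtain ⟨o, ho⟩ := exists_ram c
  exact Geo.wedgeQuot (ι := oppHom e c) (dcover_nice hc) (sw_dcover hc ho) hN
    fun _ _ _ _ x => opp_all hc ho x

theorem wedgeQuot_res {e : ℕ} {c : Fin 5 → MvPolynomial (Fin 2) k} (hc : Wts e c)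
    {Γ : Set (Equiv.Perm (Fin m) × (Fin m → Bool))} (hN : Exceeds Γ N) {S : Geo k}
    {π : Geo.Hom S (dcover e c)} (hπ : Geo.Resolves π) {ι : Geo.Hom S S}
    (hι : ∀ x, (dcover e c).Same (π.map k (ι.map k x)) (DPt.opp (π.map k x))) :
    WedgeQuot S (ι.map k) m Γ N := by
  obtain ⟨o, ho⟩ := exists_ram c
  obtain ⟨σ, hσ⟩ := Geo.exists_section (dcover_nice hc) hπ
  exact Geo.wedgeQuot (ι := ι) hπ.nice (hπ.sw (dcover_nice hc) (hσ o) (sw_dcover hc ho)) hN
    fun _ _ _ _ x => hπ.opp (dcover_nice hc) (hσ o) (hι x) (opp_all hc ho _)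

end

end Pool.Agent.H833.EK
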