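import Pool.Agent.H833.EK.Eps
import Pool.Graph.R_pool_sql_team_seeded_3997aac3.Q41.RC.Curve

/-!
# Rational curves through the general point
-/

set_option autoImplicit false
set_option linter.unusedSectionVars false

namespace Pool.Agent.H833.EK

open Polynomial Pool.Agent.Q41.RC

section

variable {k : Type} [Field k]

/-- The value at `α` of the quadratic polynomial with coefficients `e₁`, `e₂`. -/
def fac {R : Type} [CommRing R] [Algebra k R] (e₁ e₂ : R) (α : k) : R :=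
  algebraMap k R α ^ 2 - algebraMap k R α * e₁ + e₂

/-- The product of the values. -/
def LM {R : Type} [CommRing R] [Algebra k R] (M : Multiset k) (e₁ e₂ : R) : R :=
  (M.map (fac e₁ e₂)).prod

/-- The norm of a polynomial. -/
noncomputable def nm {R : Type} [CommRing R] [Algebra k R] (p : k[X]) (e₁ e₂ : R) : R :=
  algebraMap k R (p.leadingCoeff ^ 2) * LM p.roots e₁ e₂

theorem LM_map {R S : Type} [CommRing R] [Algebra k R] [CommRing S] [Algebra k S]
    (φ : R →ₐ[k] S) (M : Multiset k) (e₁ e₂ : R) : φ (LM M e₁ e₂) = LM M (φ e₁) (φ e₂) := by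
  unfold LM
  rw [map_multiset_prod, Multiset.map_map]
  congr 1
  refine Multiset.map_congr rfl fun α _ => ?_
  simp [fac]

theorem nm_map {R S : Type} [CommRing R] [Algebra k R] [CommRing S] [Algebra k S]
    (φ : R →ₐ[k] S) (p : k[X]) (e₁ e₂ : R) : φ (nm p e₁ e₂) = nm p (φ e₁) (φ e₂) := by
  unfold nm
  rw [map_mul, LM_map, φ.commutes]

theorem LM_add {R : Type} [CommRing R] [Algebra k R] (M₁ M₂ : Multiset k) (e₁ e₂ : R) :
    LM (M₁ + M₂) e₁ e₂ = LM M₁ e₁ e₂ * LM M₂ e₁ e₂ := by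
  unfold LM
  rw [Multiset.map_add, Multiset.prod_add]

theorem nm_eq [IsAlgClosed k] {R : Type} [CommRing R] [Algebra k R] (p : k[X]) (u v : R) :
    nm p (u + v) (u * v) = aeval u p * aeval v p := by
  have h1 := (IsAlgClosed.splits p).eq_prod_roots
  have h2 : ∀ w : R, aeval w p = algebraMap k R p.leadingCoeff *
      (p.roots.map fun α => w - algebraMap k R α).prod := by
    intro w
    conv_lhs => rw [h1]
    rw [map_mul, aeval_C, map_multiset_prod, Multiset.map_map]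
    congr 2
    refine Multiset.map_congr rfl fun α _ => ?_
    simp
  rw [h2, h2]
  unfold nm LM
  have h3 : (p.roots.map (fac (u + v) (u * v) : k → R)).prod =
      (p.roots.map fun α => u - algebraMap k R α).prod *
      (p.roots.map fun α => v - algebraMap k R α).prod := by
    rw [← Multiset.prod_map_mul]
    congr 1
    refine Multiset.map_congr rfl fun α _ => ?_
    unfold fac
    ring
  rw [h3, map_pow]
  ring

theorem fac_natDegree {R : Type} [CommRing R] [Algebra k R] {e₁ e₂ : R[X]}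
    (h₁ : e₁.natDegree ≤ 1) (h₂ : e₂.natDegree ≤ 1) (α : k) :
    (fac e₁ e₂ α).natDegree ≤ 1 := by
  unfold fac
  rw [IsScalarTower.algebraMap_apply k R R[X]]
  refine (natDegree_add_le _ _).trans (max_le ((natDegree_sub_le _ _).trans (max_le ?_ ?_)) h₂)
  · change (C (algebraMap k R α) ^ 2).natDegree ≤ 1
    rw [← C_pow, natDegree_C]; omega
  · change (C (algebraMap k R α) * e₁).natDegree ≤ 1
    exact (natDegree_C_mul_le _ _).trans h₁

theorem LM_natDegree {R : Type} [CommRing R] [Algebra k R] {e₁ e₂ : R[X]}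
    (h₁ : e₁.natDegree ≤ 1) (h₂ : e₂.natDegree ≤ 1) (M : Multiset k) :
    (LM M e₁ e₂).natDegree ≤ M.card := by
  unfold LM
  induction M using Multiset.induction_on with
  | empty => simp
  | cons a s ih =>
    rw [Multiset.map_cons, Multiset.prod_cons, Multiset.card_cons]
    refine natDegree_mul_le.trans ?_
    have := fac_natDegree h₁ h₂ a
    omega

theorem nm_natDegree {R : Type} [CommRing R] [Algebra k R] {e₁ e₂ : R[X]}
    (h₁ : e₁.natDegree ≤ 1) (h₂ : e₂.natDegree ≤ 1) (p : k[X]) :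
    (nm p e₁ e₂).natDegree ≤ p.natDegree := by
  unfold nm
  rw [IsScalarTower.algebraMap_apply k R R[X]]
  refine (natDegree_C_mul_le _ _).trans ((LM_natDegree h₁ h₂ _).trans (card_roots' p))

/-- The equation of the rational curves. -/
noncomputable def FF4 {R : Type} [CommRing R] [Algebra k R] (a b : k[X]) (M₁ M₂ : Multiset k)
    (τ₁ τ₂ : k) (e₁ e₂ x : R) : R :=
  4 * x ^ 3 - 12 * nm a e₁ e₂ * x + 54 * nm b e₁ e₂ -
    (algebraMap k R τ₁ * LM M₁ e₁ e₂ + algebraMap k R τ₂ * LM M₂ e₁ e₂)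

theorem FF4_map {R S : Type} [CommRing R] [Algebra k R] [CommRing S] [Algebra k S]
    (φ : R →ₐ[k] S) (a b : k[X]) (M₁ M₂ : Multiset k) (τ₁ τ₂ : k) (e₁ e₂ x : R) :
    φ (FF4 a b M₁ M₂ τ₁ τ₂ e₁ e₂ x) = FF4 a b M₁ M₂ τ₁ τ₂ (φ e₁) (φ e₂) (φ x) := by
  unfold FF4
  rw [map_sub, map_add, map_sub, map_mul, map_mul, map_mul, map_mul, map_pow, map_add, map_mul,
    map_mul, nm_map, nm_map, LM_map, LM_map, φ.commutes, φ.commutes, map_ofNat, map_ofNat,
    map_ofNat]

/-- The degrees of the unknowns `e₁`, `e₂`, `x`, `g`, `κ`. -/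
def wts : Fin 5 → ℕ := ![1, 1, 4, 5, 2]

end

variable {k : Type} [Field k] [CharZero k] [IsAlgClosed k]

theorem const_of_cubic {A c : k} (hΔ : c ^ 2 ≠ 64 * A ^ 3) {x g κ : k[X]} (hκ : κ.natDegree ≤ 2)
    (hκ0 : κ.eval 0 = 1) (hg : g.eval 0 ≠ 0)
    (h : κ * g ^ 2 = 4 * x ^ 3 - C (12 * A) * x + C c) :
    x = C (x.eval 0) ∧ κ = 1 ∧ g = C (g.eval 0) := by
  have hg0 : g ≠ 0 := by
    rintro rfl
    simp at hg
  have hκ' : κ ≠ 0 := by
    rintro rfl
    simp at hκ0
  have hδ : c ^ 2 - 64 * A ^ 3 ≠ 0 := sub_ne_zero.2 hΔ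
  -- the derivative
  have h1 : g * (derivative κ * g + 2 * κ * derivative g) =
      (x ^ 2 - C A) * (12 * derivative x) := by
    have h2 := congrArg derivative h
    simp only [derivative_mul, derivative_pow, derivative_sub, derivative_add, derivative_C] at h2
    have h4 : derivative (4 : k[X]) = 0 := derivative_ofNat 4
    rw [h4] at h2
    have h12 : C (12 * A) = 12 * C A := by rw [C_mul]; rfl
    rw [h12] at h2
    simp only [Nat.cast_ofNat, Nat.add_one_sub_one, pow_one] at h2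
    have h2' : C (2 : k) = 2 := rfl
    have h3' : C (3 : k) = 3 := rfl
    rw [h2', h3'] at h2
    linear_combination h2
  have hcop : IsCoprime g (x ^ 2 - C A) := by
    refine ⟨C (c ^ 2 - 64 * A ^ 3)⁻¹ * (κ * g * (C c + 8 * C A * x)),
      C (c ^ 2 - 64 * A ^ 3)⁻¹ * (64 * C A ^ 2 - 4 * x * (C c + 8 * C A * x)), ?_⟩
    have h3 : C (c ^ 2 - 64 * A ^ 3)⁻¹ * C (c ^ 2 - 64 * A ^ 3) = (1 : k[X]) := by
      rw [← C_mul, inv_mul_cancel₀ hδ, C_1]
    rw [← h3]
    have h12 : C (12 * A) = 12 * C A := by rw [C_mul]; rfl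
    have h64 : C (c ^ 2 - 64 * A ^ 3) = C c ^ 2 - 64 * C A ^ 3 := by
      rw [C_sub, C_mul, C_pow, C_pow]; rfl
    rw [h12] at h
    rw [h64]
    linear_combination C (c ^ 2 - 64 * A ^ 3)⁻¹ * (C c + 8 * C A * x) * h
  have hdvd : g ∣ 12 * derivative x := hcop.dvd_of_dvd_mul_left ⟨_, h1.symm⟩
  have hx' : derivative x = 0 := by
    by_contra hx
    have hx12 : (12 : k[X]) * derivative x ≠ 0 := mul_ne_zero (by norm_num) hx
    have h4 := natDegree_le_of_dvd hdvd hx12
    have hn : 0 < x.natDegree := by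
      by_contra hn
      have : x.natDegree = 0 := by omega
      rw [eq_C_of_natDegree_eq_zero this, derivative_C] at hx
      exact hx rfl
    have h5 : (12 * derivative x : k[X]).natDegree < x.natDegree := by
      have h6 : (12 * derivative x : k[X]).natDegree ≤ (derivative x).natDegree := by
        have : (12 : k[X]) = C 12 := rfl
        rw [this]
        exact natDegree_C_mul_le _ _
      exact lt_of_le_of_lt h6 (natDegree_derivative_lt hn.ne')
    have h6 : (4 * x ^ 3 - C (12 * A) * x + C c : k[X]).natDegree = 3 * x.natDegree := by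
      have h7 : (4 * x ^ 3 : k[X]).natDegree = 3 * x.natDegree := by
        have : (4 : k[X]) = C 4 := rfl
        rw [this, natDegree_C_mul (by norm_num), natDegree_pow]
      have h8 : (C (12 * A) * x : k[X]).natDegree ≤ x.natDegree := natDegree_C_mul_le _ _
      rw [natDegree_add_eq_left_of_natDegree_lt, natDegree_sub_eq_left_of_natDegree_lt, h7]
      · rw [h7]; omega
      · rw [natDegree_sub_eq_left_of_natDegree_lt, h7, natDegree_C]
        · omega
        · rw [h7]; omega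
    have h7 : (κ * g ^ 2).natDegree = κ.natDegree + 2 * g.natDegree := by
      rw [natDegree_mul hκ' (pow_ne_zero 2 hg0), natDegree_pow]
    rw [h, h6] at h7
    omega
  have hxC : x = C (x.eval 0) := by
    have h8 := derivative_eq_zero.1 hx'
    rw [eq_C_of_natDegree_eq_zero h8]
    simp
  refine ⟨hxC, ?_⟩
  have h9 : (κ * g ^ 2).natDegree = 0 := by
    rw [h, hxC]
    have : (4 * C (eval 0 x) ^ 3 - C (12 * A) * C (eval 0 x) + C c : k[X]) =
        C (4 * (eval 0 x) ^ 3 - 12 * A * eval 0 x + c) := by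
      simp only [C_add, C_sub, C_mul, C_pow]; rfl
    rw [this, natDegree_C]
  rw [natDegree_mul hκ' (pow_ne_zero 2 hg0), natDegree_pow] at h9
  have h10 : κ.natDegree = 0 := by omega
  have h11 : g.natDegree = 0 := by omega
  refine ⟨?_, ?_⟩
  · rw [eq_C_of_natDegree_eq_zero h10] at hκ0 ⊢
    rw [eval_C] at hκ0
    rw [hκ0, C_1]
  · rw [eq_C_of_natDegree_eq_zero h11]
    simp

theorem exists_rat_curve (a b : k[X]) (ha : a.natDegree ≤ 8) (hb : b.natDegree ≤ 12)
    (M₁ M₂ : Multiset k) (h₁ : M₁.card ≤ 12) (h₂ : M₂.card ≤ 12) (τ₁ τ₂ e₁ e₂ x η : k)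
    (heq : η ^ 2 = FF4 a b M₁ M₂ τ₁ τ₂ e₁ e₂ x) (hη : η ≠ 0)
    (hΔ : (54 * nm b e₁ e₂ - (τ₁ * LM M₁ e₁ e₂ + τ₂ * LM M₂ e₁ e₂)) ^ 2 ≠
      64 * (nm a e₁ e₂) ^ 3) :
    ∃ (c₁ c₂ k₁ k₂ : k) (x' g : k[X]), (c₁ ≠ 0 ∨ c₂ ≠ 0) ∧ x'.eval 0 = x ∧ g.eval 0 = η ∧
      (1 + C k₁ * X + C k₂ * X ^ 2) * g ^ 2 =
        FF4 a b M₁ M₂ τ₁ τ₂ (C e₁ + C c₁ * X) (C e₂ + C c₂ * X) x' := by
  classical
  let U := (i : Fin 5) × Fin (wts i)
  let R := MvPolynomial U k
  let a₀ : Fin 5 → k := ![e₁, e₂, x, η, 1]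
  let G : Fin 5 → R[X] := gen wts (fun i => MvPolynomial.C (a₀ i)) (fun s => MvPolynomial.X s)
  let P : R[X] := FF4 a b M₁ M₂ τ₁ τ₂ (G 0) (G 1) (G 2) - G 4 * G 3 ^ 2
  let p : (U → k) → k[X] := fun c =>
    FF4 a b M₁ M₂ τ₁ τ₂ (gen wts a₀ c 0) (gen wts a₀ c 1) (gen wts a₀ c 2) -
      gen wts a₀ c 4 * gen wts a₀ c 3 ^ 2
  have hG : ∀ (c : U → k) (i : Fin 5), Polynomial.mapAlgHom (MvPolynomial.aeval c : R →ₐ[k] k)
      (G i) = gen wts a₀ c i := by
    intro c i
    change (G i).map (MvPolynomial.aeval c : R →ₐ[k] k).toRingHom = _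
    rw [gen_map]
    congr 1
    · funext i
      exact MvPolynomial.aeval_C c (a₀ i)
    · funext s
      exact MvPolynomial.aeval_X c s
  have hP : ∀ c : U → k, P.map (MvPolynomial.eval c) = p c := by
    intro c
    have h3 : P.map (MvPolynomial.eval c) =
        Polynomial.mapAlgHom (MvPolynomial.aeval c : R →ₐ[k] k) P := by
      change _ = P.map _
      congr 1
    rw [h3]
    simp only [P, p]
    rw [map_sub, map_mul, map_pow, FF4_map, hG, hG, hG, hG, hG]
  have hcard : Fintype.card (Fin 12) < Fintype.card U := by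
    have : Fintype.card U = ∑ i, wts i := by
      simp only [U, Fintype.card_sigma, Fintype.card_fin]
    rw [this, Fintype.card_fin]
    decide
  have hdeg : ∀ c : U → k, (p c).natDegree ≤ 12 := by
    intro c
    have g0 : (gen wts a₀ c 0).natDegree ≤ 1 := gen_natDegree _ _ _ _
    have g1 : (gen wts a₀ c 1).natDegree ≤ 1 := gen_natDegree _ _ _ _
    have g2 : (gen wts a₀ c 2).natDegree ≤ 4 := gen_natDegree _ _ _ _
    have g3 : (gen wts a₀ c 3).natDegree ≤ 5 := gen_natDegree _ _ _ _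
    have g4 : (gen wts a₀ c 4).natDegree ≤ 2 := gen_natDegree _ _ _ _
    have n1 := (nm_natDegree g0 g1 a).trans ha
    have n2 := (nm_natDegree g0 g1 b).trans hb
    have n3 := (LM_natDegree g0 g1 M₁).trans h₁
    have n4 := (LM_natDegree g0 g1 M₂).trans h₂
    simp only [p, FF4]
    have c4 : (4 : k[X]) = C 4 := rfl
    have c12 : (12 : k[X]) = C 12 := rfl
    have c54 : (54 : k[X]) = C 54 := rfl
    rw [c4, c12, c54]
    refine (natDegree_sub_le _ _).trans (max_le ((natDegree_sub_le _ _).trans (max_le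
      ((natDegree_add_le _ _).trans (max_le ((natDegree_sub_le _ _).trans (max_le ?_ ?_)) ?_))
      ((natDegree_add_le _ _).trans (max_le ?_ ?_)))) ?_)
    · refine (natDegree_C_mul_le _ _).trans (natDegree_pow_le.trans ?_)
      omega
    · refine natDegree_mul_le.trans ?_
      have := (natDegree_C_mul_le (12 : k) (nm a (gen wts a₀ c 0) (gen wts a₀ c 1)))
      omega
    · exact (natDegree_C_mul_le _ _).trans n2
    · exact (natDegree_C_mul_le _ _).trans n3
    · exact (natDegree_C_mul_le _ _).trans n4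
    · refine natDegree_mul_le.trans ?_
      have : (gen wts a₀ c 3 ^ 2).natDegree ≤ 2 * (gen wts a₀ c 3).natDegree := natDegree_pow_le
      omega
  have hev0 : ∀ c : U → k, (p c).eval 0 = 0 := by
    intro c
    have h3 : (p c).eval 0 = aeval (0 : k) (p c) := by rw [coe_aeval_eq_eval]
    rw [h3]
    simp only [p]
    rw [map_sub, map_mul, map_pow, FF4_map]
    simp only [coe_aeval_eq_eval, gen_eval]
    change FF4 a b M₁ M₂ τ₁ τ₂ e₁ e₂ x - 1 * η ^ 2 = 0
    rw [heq]; ring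
  obtain ⟨c, hc0, hc⟩ := Pool.Agent.H952R2.Sextic.exists_common_zero hcard
    (fun j : Fin 12 => P.coeff ((j : ℕ) + 1)) (fun j => by
      have h3 : MvPolynomial.eval (0 : U → k) (P.coeff ((j : ℕ) + 1)) =
          (p 0).coeff ((j : ℕ) + 1) := by rw [← hP, coeff_map]
      rw [h3]
      have h4 : p 0 = C ((p 0).eval 0) := by
        have h5 : ∀ i, gen wts a₀ (0 : U → k) i = C (a₀ i) := fun i => gen_zero _ _ _
        simp only [p, h5]
        have h6 : FF4 a b M₁ M₂ τ₁ τ₂ (C (a₀ 0)) (C (a₀ 1)) (C (a₀ 2)) =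
            (C (FF4 a b M₁ M₂ τ₁ τ₂ (a₀ 0) (a₀ 1) (a₀ 2)) : k[X]) :=
          (FF4_map (Algebra.ofId k k[X]) a b M₁ M₂ τ₁ τ₂ (a₀ 0) (a₀ 1) (a₀ 2)).symm
        rw [h6, ← C_pow, ← C_mul, ← C_sub, eval_C]
      rw [h4, coeff_C_succ])
  have hpc : p c = 0 := by
    ext j
    rw [coeff_zero]
    rcases Nat.eq_zero_or_pos j with rfl | hj
    · rw [coeff_zero_eq_eval_zero]; exact hev0 c
    · by_cases hj12 : j ≤ 12
      · have h3 := hc ⟨j - 1, by omega⟩
        simp only at h3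
        have h4 : j - 1 + 1 = j := by omega
        rw [h4] at h3
        rw [← hP, coeff_map]; exact h3
      · exact coeff_eq_zero_of_natDegree_lt (lt_of_le_of_lt (hdeg c) (not_le.1 hj12))
  -- the explicit form of the generic polynomials
  have gl : ∀ i : Fin 5, ∀ h1 : wts i = 1,
      gen wts a₀ c i = C (a₀ i) + C (c ⟨i, ⟨0, by omega⟩⟩) * X := by
    intro i h1
    unfold gen
    congr 1
    rw [Finset.sum_eq_single (⟨0, by omega⟩ : Fin (wts i))]
    · simp
    · intro m _ hm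
      exfalso
      apply hm
      have := m.2
      ext
      simp only
      omega
    · intro h; exact absurd (Finset.mem_univ _) h
  have g0 : gen wts a₀ c 0 = C e₁ + C (c ⟨0, ⟨0, by decide⟩⟩) * X := gl 0 rfl
  have g1 : gen wts a₀ c 1 = C e₂ + C (c ⟨1, ⟨0, by decide⟩⟩) * X := gl 1 rfl
  have g4 : gen wts a₀ c 4 = 1 + C (c ⟨4, ⟨0, by decide⟩⟩) * X +
      C (c ⟨4, ⟨1, by decide⟩⟩) * X ^ 2 := by
    unfold gen
    have : (∑ m : Fin (wts 4), C (c ⟨4, m⟩) * X ^ ((m : ℕ) + 1) : k[X]) =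
        ∑ m : Fin 2, C (c ⟨4, m⟩) * X ^ ((m : ℕ) + 1) := rfl
    rw [this, Fin.sum_univ_two]
    have h1 : a₀ 4 = 1 := rfl
    rw [h1, C_1]
    simp only [Fin.val_zero, Fin.val_one, zero_add, pow_one]
    rw [← add_assoc]
    rfl
  refine ⟨c ⟨0, ⟨0, by decide⟩⟩, c ⟨1, ⟨0, by decide⟩⟩, c ⟨4, ⟨0, by decide⟩⟩,
    c ⟨4, ⟨1, by decide⟩⟩, gen wts a₀ c 2, gen wts a₀ c 3, ?_, gen_eval _ _ _ _,
    gen_eval _ _ _ _, ?_⟩
  · by_contra hcon
    push Not at hcon
    obtain ⟨hc1, hc2⟩ := hcon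
    rw [hc1, C_0, zero_mul, add_zero] at g0
    rw [hc2, C_0, zero_mul, add_zero] at g1
    have h3 : gen wts a₀ c 4 * gen wts a₀ c 3 ^ 2 = 4 * gen wts a₀ c 2 ^ 3 -
        C (12 * nm a e₁ e₂) * gen wts a₀ c 2 +
          C (54 * nm b e₁ e₂ - (τ₁ * LM M₁ e₁ e₂ + τ₂ * LM M₂ e₁ e₂)) := by
      have h4 := hpc
      simp only [p] at h4
      rw [g0, g1] at h4
      have h5 : nm a (C e₁) (C e₂) = (C (nm a e₁ e₂) : k[X]) :=
        (nm_map (Algebra.ofId k k[X]) a e₁ e₂).symm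
      have h6 : nm b (C e₁) (C e₂) = (C (nm b e₁ e₂) : k[X]) :=
        (nm_map (Algebra.ofId k k[X]) b e₁ e₂).symm
      have h7 : LM M₁ (C e₁) (C e₂) = (C (LM M₁ e₁ e₂) : k[X]) :=
        (LM_map (Algebra.ofId k k[X]) M₁ e₁ e₂).symm
      have h8 : LM M₂ (C e₁) (C e₂) = (C (LM M₂ e₁ e₂) : k[X]) :=
        (LM_map (Algebra.ofId k k[X]) M₂ e₁ e₂).symm
      unfold FF4 at h4
      rw [h5, h6, h7, h8] at h4
      have c12 : (12 : k[X]) = C 12 := rfl
      have c54 : (54 : k[X]) = C 54 := rfl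
      rw [C_sub, C_add, C_mul, C_mul, C_mul, C_mul, ← c12, ← c54]
      change _ - _ + _ - (C τ₁ * _ + C τ₂ * _) - _ = _ at h4
      linear_combination -h4
    have d4 : (gen wts a₀ c 4).natDegree ≤ 2 := gen_natDegree _ _ _ _
    have d5 : (gen wts a₀ c 4).eval 0 = 1 := gen_eval _ _ _ _
    have d6 : (gen wts a₀ c 3).eval 0 ≠ 0 := by
      rw [gen_eval]; exact hη
    obtain ⟨r1, r2, r3⟩ := const_of_cubic (A := nm a e₁ e₂)
      (c := 54 * nm b e₁ e₂ - (τ₁ * LM M₁ e₁ e₂ + τ₂ * LM M₂ e₁ e₂)) hΔ d4 d5 d6 h3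
    apply hc0
    funext s
    obtain ⟨i, m⟩ := s
    have h5 := gen_coeff wts a₀ c i m
    rw [← h5]
    fin_cases i
    · change (gen wts a₀ c 0).coeff _ = 0
      rw [g0, coeff_C_succ]
    · change (gen wts a₀ c 1).coeff _ = 0
      rw [g1, coeff_C_succ]
    · change (gen wts a₀ c 2).coeff _ = 0
      rw [r1, coeff_C_succ]
    · change (gen wts a₀ c 3).coeff _ = 0
      rw [r3, coeff_C_succ]
    · change (gen wts a₀ c 4).coeff _ = 0
      rw [r2, ← C_1, coeff_C_succ]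
  · rw [← g0, ← g1, ← g4]
    exact (sub_eq_zero.1 hpc).symm

end Pool.Agent.H833.EK
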