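import Pool.Agent.H833.EK.DFib

/-!
# Rational equivalences on double covers: the points of ramification and the singular fibres
-/

set_option autoImplicit false
set_option linter.unusedSectionVars false

namespace Pool.Agent.H833.EK

open FF Polynomial

section

variable {k : Type} [Field k] [CharZero k] [IsAlgClosed k] {n : ℕ}
variable {e : ℕ} {c : Fin 5 → MvPolynomial (Fin 2) k}

/-- The point with scaled coordinates. -/
noncomputable def DPt.scale (h : Wts e c) (x : DPt c k) {ρ μ : k} (hρ : ρ ≠ 0) (hμ : μ ≠ 0) :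
    DPt c k where
  s := ρ * x.s
  t := ρ * x.t
  v := ρ ^ e * μ * x.v
  w := μ * x.w
  y := ρ ^ (e + 2) * μ ^ 2 * x.y
  base := fun hh => x.base ⟨(mul_eq_zero.1 hh.1).resolve_left hρ,
    (mul_eq_zero.1 hh.2).resolve_left hρ⟩
  fib := fun hh => x.fib ⟨(mul_eq_zero.1 hh.1).resolve_left (mul_ne_zero (pow_ne_zero _ hρ) hμ),
    (mul_eq_zero.1 hh.2).resolve_left hμ⟩
  eq := by
    have h1 := qf_smul h hρ μ x.s x.t x.v x.w
    rw [mul_pow _ x.y, x.eq', ← h1]
    rfl

theorem NN_scale (h : Wts e c) (x : DPt c k) {ρ μ : k} (hρ : ρ ≠ 0) (hμ : μ ≠ 0) (i : Fin n)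
    (y : Fin n → (dcover e c).Pt k) : NN e c i y x = NN e c i y (x.scale h hρ hμ) := by
  unfold NN
  have h1 : (dcover e c).Eqv n x (x.scale h hρ hμ) := eqv_scale h hρ hμ rfl rfl rfl rfl rfl
  have h2 : (dcover e c).Eqv n x.opp (x.scale h hρ hμ).opp :=
    eqv_scale h hρ hμ rfl rfl rfl rfl (by
      change -(ρ ^ (e + 2) * μ ^ 2 * x.y) = ρ ^ (e + 2) * μ ^ 2 * (-x.y); ring)
  rw [h1 i y, h2 i y]

/-- The class of a fibre of the double cover does not depend on the point. -/
theorem NN_const (h : Wts e c) (x x' : DPt c k) (i : Fin n) (y : Fin n → (dcover e c).Pt k) :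
    NN e c i y x = NN e c i y x' := by
  by_cases hst : x.s * x'.t = x'.s * x.t
  · obtain ⟨ρ, hρ, h1, h2⟩ := exists_prop x.base x'.base hst
    rw [NN_scale h x hρ one_ne_zero]
    exact NN_fib h h1 h2 i y
  obtain ⟨K, _, _, _, τ, ζ, hτ, hζ⟩ := exists_sqrt (k := k)
    (fv (c 0) (C x.s + X * C x'.s) (C x.t + X * C x'.t))
  have hζ' : ζ ^ 2 = fv (c 0) (algebraMap k K x.s + τ * algebraMap k K x'.s)
      (algebraMap k K x.t + τ * algebraMap k K x'.t) := by
    rw [hζ, fv_map]
    simp only [map_add, map_mul, aeval_C, aeval_X]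
  have hb : ¬(algebraMap k K x.s + τ * algebraMap k K x'.s = 0 ∧
      algebraMap k K x.t + τ * algebraMap k K x'.t = 0) := by
    rintro ⟨h1, h2⟩
    apply hst
    apply (algebraMap k K).injective
    rw [map_mul, map_mul]
    linear_combination algebraMap k K x'.t * h1 - algebraMap k K x'.s * h2
  let P : DPt c K := ⟨algebraMap k K x.s + τ * algebraMap k K x'.s,
    algebraMap k K x.t + τ * algebraMap k K x'.t, 1, 0, ζ, hb, fun hh => one_ne_zero hh.1, by
      rw [hζ']; ring⟩
  have hτ0 : τ ≠ 0 := not_const hτ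
  refine Geo.pair_const (dcover_nice h) i y (P := P) (P' := P.opp) hτ (fun a ha => ?_)
    (fun a ha => ?_)
  · have h0 := hasVal_zero_of_pos ha
    obtain ⟨p, hp, h1, h2, -⟩ := exists_spec h a P (ρ := 1) (μ := 1) (s₀ := x.s) (t₀ := x.t)
      (v₀ := 1) (w₀ := 0) one_ne_zero one_ne_zero
      (((HasVal.const a x.s).add (h0.mul (HasVal.const a x'.s))).congr (by
        change _ = 1 * (algebraMap k K x.s + τ * algebraMap k K x'.s); ring) (by ring))
      (((HasVal.const a x.t).add (h0.mul (HasVal.const a x'.t))).congr (by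
        change _ = 1 * (algebraMap k K x.t + τ * algebraMap k K x'.t); ring) (by ring)) x.base
      ((HasVal.one a).congr (by change _ = 1 ^ e * 1 * (1 : K); ring) rfl)
      ((HasVal.zero a).congr (by change _ = 1 * (0 : K); ring) rfl) (fun hh => one_ne_zero hh.1)
    exact ⟨p, p.opp, hp, hp.opp, (NN_fib h h1 h2 i y).symm⟩
  · have ha' : 0 < a.ord τ⁻¹ := by rw [a.ord_inv]; omega
    have h0 := hasVal_zero_of_pos ha'
    obtain ⟨p, hp, h1, h2, -⟩ := exists_spec h a P (ρ := τ⁻¹) (μ := τ ^ e) (s₀ := x'.s)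
      (t₀ := x'.t) (v₀ := 1) (w₀ := 0) (inv_ne_zero hτ0) (pow_ne_zero _ hτ0)
      (((h0.mul (HasVal.const a x.s)).add (HasVal.const a x'.s)).congr (by
        change _ = τ⁻¹ * (algebraMap k K x.s + τ * algebraMap k K x'.s); field_simp) (by ring))
      (((h0.mul (HasVal.const a x.t)).add (HasVal.const a x'.t)).congr (by
        change _ = τ⁻¹ * (algebraMap k K x.t + τ * algebraMap k K x'.t); field_simp) (by ring))
      x'.base
      ((HasVal.one a).congr (by
        change _ = τ⁻¹ ^ e * τ ^ e * (1 : K)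
        rw [inv_pow, inv_mul_cancel₀ (pow_ne_zero _ hτ0), one_mul]) rfl)
      ((HasVal.zero a).congr (by change _ = τ ^ e * (0 : K); ring) rfl)
      (fun hh => one_ne_zero hh.1)
    exact ⟨p, p.opp, hp, hp.opp, (NN_fib h h1 h2 i y).symm⟩

/-- There is a point of ramification. -/
theorem exists_ram (c : Fin 5 → MvPolynomial (Fin 2) k) : ∃ o : DPt c k, o.y = 0 := by
  obtain ⟨v, w, hvw, h0⟩ := exists_zero4 (fc c (1 : k) 0)
  refine ⟨⟨1, 0, v, w, 0, fun hh => one_ne_zero hh.1, hvw, ?_⟩, rfl⟩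
  rw [zero_pow two_ne_zero]
  exact h0.symm

variable {o x : DPt c k}

theorem opp_all (h : Wts e c) (ho : o.y = 0) (x : DPt c k) : (dcover e c).Opp n o x x.opp := by
  intro i y
  have h1 : NN e c i y x = NN e c i y o := NN_const h x o i y
  unfold NN at h1
  rw [DPt.opp_eq ho] at h1
  rw [h1, two_smul]

theorem eqv_of_two {G : Geo k} {o x : G.Pt k} (h : G.Opp n o x x) : G.Eqv n x o := by
  intro i y
  have h1 := h i y
  rw [← two_smul ℚ] at h1
  have h2 := congrArg (fun z => (2⁻¹ : ℚ) • z) h1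
  simp only [smul_smul] at h2
  norm_num at h2
  exact h2

theorem eqv_ram (h : Wts e c) (ho : o.y = 0) (hx : x.y = 0) : (dcover e c).Eqv n x o := by
  have h1 := opp_all (n := n) h ho x
  rw [DPt.opp_eq hx] at h1
  exact eqv_of_two h1

theorem qf_am {K : Type} [Field K] [Algebra k K] {A : Fin 5 → k} {p q p' q' p₂ q₂ p₃ q₃ : k}
    (hA : A = mulQ (mulL p q p' q') (mulL p₂ q₂ p₃ q₃)) (ξ η : K) :
    qf (am K A) ξ η = (algebraMap k K p * ξ + algebraMap k K q * η) *
      (algebraMap k K p' * ξ + algebraMap k K q' * η) *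
      ((algebraMap k K p₂ * ξ + algebraMap k K q₂ * η) *
        (algebraMap k K p₃ * ξ + algebraMap k K q₃ * η)) := by
  subst hA
  unfold qf am mulQ mulL
  simp
  ring

theorem qf_am' {A : Fin 5 → k} {p q p' q' p₂ q₂ p₃ q₃ : k}
    (hA : A = mulQ (mulL p q p' q') (mulL p₂ q₂ p₃ q₃)) (ξ η : k) :
    qf A ξ η = (p * ξ + q * η) * (p' * ξ + q' * η) *
      ((p₂ * ξ + q₂ * η) * (p₃ * ξ + q₃ * η)) := by
  subst hA
  rw [qf_mulQ, qd_mulL, qd_mulL]

/-- The points of a fibre with a double point. -/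
theorem eqv_double (h : Wts e c) (ho : o.y = 0) {p q p₂ q₂ p₃ q₃ : k}
    (hA : fc c x.s x.t = mulQ (mulL p q p q) (mulL p₂ q₂ p₃ q₃)) : (dcover e c).Eqv n x o := by
  by_cases hy : x.y = 0
  · exact eqv_ram h ho hy
  have hx := x.eq'
  rw [qf_am' hA] at hx
  have hl : p * x.v + q * x.w ≠ 0 := by
    intro hl
    rw [hl, zero_mul, zero_mul] at hx
    exact hy (pow_eq_zero_iff two_ne_zero |>.1 hx)
  obtain ⟨z, hz⟩ : ∃ z, x.y = (p * x.v + q * x.w) * z :=
    ⟨x.y / (p * x.v + q * x.w), by field_simp⟩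
  have hz2 : z ^ 2 = (p₂ * x.v + q₂ * x.w) * (p₃ * x.v + q₃ * x.w) := by
    rw [hz] at hx
    refine mul_left_cancel₀ (pow_ne_zero 2 hl) ?_
    linear_combination hx
  have hz0 : z ≠ 0 := by
    rintro rfl
    exact hy (by rw [hz, mul_zero])
  have hl₂ : p₂ * x.v + q₂ * x.w ≠ 0 := by
    intro hl
    rw [hl, zero_mul] at hz2
    exact hz0 (pow_eq_zero_iff two_ne_zero |>.1 hz2)
  have hX : (RatFunc.X : RatFunc k) ≠ 0 := not_const RatFunc.transcendental_X
  set T : RatFunc k := RatFunc.X with hT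
  have htr : Transcendental k T := RatFunc.transcendental_X
  have hcv : ∀ z : k, T ≠ algebraMap k _ z := fun z hz => htr (by rw [hz]; exact isAlg_const z)
  by_cases hΔ : p₂ * q₃ - p₃ * q₂ = 0
  · -- the conic is a double line
    have hfib : ¬(algebraMap k (RatFunc k) x.v + T * algebraMap k _ q₂ = 0 ∧
        algebraMap k (RatFunc k) x.w - T * algebraMap k _ p₂ = 0) := by
      rintro ⟨h1, h2⟩
      apply hl₂
      apply (algebraMap k (RatFunc k)).injective
      rw [map_add, map_mul, map_mul, map_zero]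
      linear_combination algebraMap k _ p₂ * h1 + algebraMap k _ q₂ * h2
    have hΔ' : algebraMap k (RatFunc k) p₂ * algebraMap k (RatFunc k) q₃ -
        algebraMap k (RatFunc k) p₃ * algebraMap k (RatFunc k) q₂ = 0 := by
      rw [← map_mul, ← map_mul, ← map_sub, hΔ, map_zero]
    have hz2' : algebraMap k (RatFunc k) z ^ 2 =
        (algebraMap k (RatFunc k) p₂ * algebraMap k (RatFunc k) x.v +
          algebraMap k (RatFunc k) q₂ * algebraMap k (RatFunc k) x.w) *
        (algebraMap k (RatFunc k) p₃ * algebraMap k (RatFunc k) x.v +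
          algebraMap k (RatFunc k) q₃ * algebraMap k (RatFunc k) x.w) := by
      rw [← map_pow, hz2]
      simp only [map_add, map_mul]
    have heq : ((algebraMap k (RatFunc k) p * (algebraMap k (RatFunc k) x.v +
        T * algebraMap k _ q₂) + algebraMap k (RatFunc k) q * (algebraMap k (RatFunc k) x.w -
        T * algebraMap k _ p₂)) * algebraMap k (RatFunc k) z) ^ 2 =
        qf (am (RatFunc k) (fc c x.s x.t)) (algebraMap k (RatFunc k) x.v + T * algebraMap k _ q₂)
          (algebraMap k (RatFunc k) x.w - T * algebraMap k _ p₂) := by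
      rw [qf_am hA, mul_pow, hz2']
      linear_combination (algebraMap k (RatFunc k) p * (algebraMap k (RatFunc k) x.v +
        T * algebraMap k _ q₂) + algebraMap k (RatFunc k) q * (algebraMap k (RatFunc k) x.w -
        T * algebraMap k _ p₂)) ^ 2 * (algebraMap k (RatFunc k) p₂ * algebraMap k _ x.v +
          algebraMap k (RatFunc k) q₂ * algebraMap k _ x.w) * T * hΔ'
    have hx'f : ¬(q₂ = 0 ∧ -p₂ = 0) := by
      rintro ⟨h1, h2⟩
      exact hl₂ (by rw [h1, neg_eq_zero.1 h2]; ring)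
    let x' : DPt c k := ⟨x.s, x.t, q₂, -p₂, 0, x.base, hx'f, by
      have h1 := qf_am' hA q₂ (-p₂)
      rw [show p₂ * q₂ + q₂ * -p₂ = 0 by ring, zero_mul, mul_zero] at h1
      rw [zero_pow two_ne_zero]
      exact h1.symm⟩
    refine Geo.Eqv.trans ?_ (eqv_ram (n := n) h ho (x := x') rfl)
    refine Geo.Eqv.of_family (dcover_nice h) (P := fpt x.s x.t _ _ _ x.base hfib heq) htr
      (fun a ha => ?_) (fun a ha => ?_)
    · have h0 := hasVal_zero_of_pos ha
      have e1 : HasVal a (algebraMap k (RatFunc k) x.v + T * algebraMap k _ q₂) x.v :=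
        ((HasVal.const a x.v).add (h0.mul (HasVal.const a q₂))).congr rfl (by ring)
      have e2 : HasVal a (algebraMap k (RatFunc k) x.w - T * algebraMap k _ p₂) x.w :=
        ((HasVal.const a x.w).sub (h0.mul (HasVal.const a p₂))).congr rfl (by ring)
      refine ⟨1, 1, one_ne_zero, one_ne_zero, ?_, ?_, ?_, ?_, ?_⟩
      · rw [one_mul]; exact HasVal.const a _
      · rw [one_mul]; exact HasVal.const a _
      · rw [one_pow, one_mul, one_mul]; exact e1
      · rw [one_mul]; exact e2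
      · rw [one_pow, one_pow, one_mul, one_mul]
        exact ((((HasVal.const a p).mul e1).add ((HasVal.const a q).mul e2)).mul
          (HasVal.const a z)).congr rfl hz.symm
    · have ha' : 0 < a.ord T⁻¹ := by rw [a.ord_inv]; omega
      have h0 := hasVal_zero_of_pos ha'
      have e1 : HasVal a (T⁻¹ * (algebraMap k (RatFunc k) x.v + T * algebraMap k _ q₂)) q₂ :=
        ((h0.mul (HasVal.const a x.v)).add (HasVal.const a q₂)).congr (by field_simp) (by ring)
      have e2 : HasVal a (T⁻¹ * (algebraMap k (RatFunc k) x.w - T * algebraMap k _ p₂)) (-p₂) :=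
        ((h0.mul (HasVal.const a x.w)).sub (HasVal.const a p₂)).congr (by field_simp) (by ring)
      refine ⟨1, T⁻¹, one_ne_zero, inv_ne_zero hX, ?_, ?_, ?_, ?_, ?_⟩
      · rw [one_mul]; exact HasVal.const a _
      · rw [one_mul]; exact HasVal.const a _
      · rw [one_pow, one_mul]; exact e1
      · exact e2
      · rw [one_pow, one_mul]
        exact ((((HasVal.const a p).mul e1).add ((HasVal.const a q).mul e2)).mul
          (h0.mul (HasVal.const a z))).congr (by
            change _ = T⁻¹ ^ 2 * ((algebraMap k (RatFunc k) p * (algebraMap k (RatFunc k) x.v +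
              T * algebraMap k _ q₂) + algebraMap k (RatFunc k) q *
              (algebraMap k (RatFunc k) x.w - T * algebraMap k _ p₂)) *
              algebraMap k (RatFunc k) z)
            ring) (by change _ = (0 : k); ring)
  · -- a smooth conic
    set Δ := p₂ * q₃ - p₃ * q₂ with hΔdef
    obtain ⟨m₀, hm₀⟩ := IsAlgClosed.exists_pow_nat_eq ((p₂ * x.v + q₂ * x.w) / Δ) (n := 2)
      (by norm_num)
    obtain ⟨ν, hν⟩ := IsAlgClosed.exists_pow_nat_eq ((p₃ * x.v + q₃ * x.w) / Δ) (n := 2)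
      (by norm_num)
    rw [eq_div_iff hΔ] at hm₀ hν
    have h1 : (m₀ * ν * Δ) ^ 2 = z ^ 2 := by
      rw [hz2, ← hm₀, ← hν]; ring
    obtain ⟨m, hm, hmz⟩ : ∃ m, m ^ 2 * Δ = p₂ * x.v + q₂ * x.w ∧ m * ν * Δ = z := by
      rcases sq_eq_sq_iff_eq_or_eq_neg.1 h1 with h2 | h2
      · exact ⟨m₀, hm₀, h2⟩
      · exact ⟨-m₀, by rw [neg_sq, hm₀], by linear_combination -h2⟩
    have hxv : q₃ * m ^ 2 - q₂ * ν ^ 2 = x.v := by
      refine mul_right_cancel₀ hΔ ?_
      linear_combination q₃ * hm - q₂ * hν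
    have hxw : p₂ * ν ^ 2 - p₃ * m ^ 2 = x.w := by
      refine mul_right_cancel₀ hΔ ?_
      linear_combination p₂ * hν - p₃ * hm
    have hΔ' : algebraMap k (RatFunc k) Δ = algebraMap k (RatFunc k) p₂ *
        algebraMap k (RatFunc k) q₃ - algebraMap k (RatFunc k) p₃ *
        algebraMap k (RatFunc k) q₂ := by
      rw [← map_mul, ← map_mul, ← map_sub]
    obtain ⟨ξ, hξ⟩ : ∃ ξ : RatFunc k, ξ = algebraMap k _ q₃ * (algebraMap k _ m + T) ^ 2 -
      algebraMap k _ q₂ * algebraMap k _ ν ^ 2 := ⟨_, rfl⟩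
    obtain ⟨η, hη⟩ : ∃ η : RatFunc k, η = algebraMap k _ p₂ * algebraMap k _ ν ^ 2 -
      algebraMap k _ p₃ * (algebraMap k _ m + T) ^ 2 := ⟨_, rfl⟩
    obtain ⟨ζ, hζ⟩ : ∃ ζ : RatFunc k, ζ = (algebraMap k _ p * ξ + algebraMap k _ q * η) *
      (algebraMap k _ Δ * (algebraMap k _ m + T) * algebraMap k _ ν) := ⟨_, rfl⟩
    have hfib : ¬(ξ = 0 ∧ η = 0) := by
      rintro ⟨h1, h2⟩
      have h3 : algebraMap k (RatFunc k) Δ * (algebraMap k _ m + T) ^ 2 = 0 := by
        rw [hΔ']
        rw [hξ] at h1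
        rw [hη] at h2
        linear_combination algebraMap k _ p₂ * h1 + algebraMap k _ q₂ * h2
      have h4 := (mul_eq_zero.1 h3).resolve_left (fun hh => hΔ ((map_eq_zero _).1 hh))
      have h5 := pow_eq_zero_iff two_ne_zero |>.1 h4
      exact hcv (-m) (by rw [map_neg]; linear_combination h5)
    have heq : ζ ^ 2 = qf (am (RatFunc k) (fc c x.s x.t)) ξ η := by
      rw [qf_am hA, hζ, hΔ']
      have e1 : algebraMap k (RatFunc k) p₂ * ξ + algebraMap k _ q₂ * η =
          (algebraMap k (RatFunc k) p₂ * algebraMap k (RatFunc k) q₃ -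
            algebraMap k (RatFunc k) p₃ * algebraMap k (RatFunc k) q₂) *
            (algebraMap k _ m + T) ^ 2 := by
        rw [hξ, hη]; ring
      have e2 : algebraMap k (RatFunc k) p₃ * ξ + algebraMap k _ q₃ * η =
          (algebraMap k (RatFunc k) p₂ * algebraMap k (RatFunc k) q₃ -
            algebraMap k (RatFunc k) p₃ * algebraMap k (RatFunc k) q₂) *
            algebraMap k _ ν ^ 2 := by
        rw [hξ, hη]; ring
      rw [e1, e2]
      ring
    have hx'f : ¬(q₃ = 0 ∧ -p₃ = 0) := by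
      rintro ⟨h1, h2⟩
      exact hΔ (by rw [hΔdef, h1, neg_eq_zero.1 h2]; ring)
    let x' : DPt c k := ⟨x.s, x.t, q₃, -p₃, 0, x.base, hx'f, by
      have h1 := qf_am' hA q₃ (-p₃)
      rw [show p₃ * q₃ + q₃ * -p₃ = 0 by ring, mul_zero, mul_zero] at h1
      rw [zero_pow two_ne_zero]
      exact h1.symm⟩
    refine Geo.Eqv.trans ?_ (eqv_ram (n := n) h ho (x := x') rfl)
    refine Geo.Eqv.of_family (dcover_nice h) (P := fpt x.s x.t ξ η ζ x.base hfib heq) htr
      (fun a ha => ?_) (fun a ha => ?_)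
    · have h0 := hasVal_zero_of_pos ha
      have e0 : HasVal a (algebraMap k (RatFunc k) m + T) m :=
        ((HasVal.const a m).add h0).congr rfl (by ring)
      have e1 : HasVal a ξ x.v := (((HasVal.const a q₃).mul (e0.pow 2)).sub
        ((HasVal.const a q₂).mul ((HasVal.const a ν).pow 2))).congr hξ.symm hxv
      have e2 : HasVal a η x.w := (((HasVal.const a p₂).mul ((HasVal.const a ν).pow 2)).sub
        ((HasVal.const a p₃).mul (e0.pow 2))).congr hη.symm hxw
      refine ⟨1, 1, one_ne_zero, one_ne_zero, ?_, ?_, ?_, ?_, ?_⟩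
      · rw [one_mul]; exact HasVal.const a _
      · rw [one_mul]; exact HasVal.const a _
      · rw [one_pow, one_mul, one_mul]; exact e1
      · rw [one_mul]; exact e2
      · rw [one_pow, one_pow, one_mul, one_mul]
        exact ((((HasVal.const a p).mul e1).add ((HasVal.const a q).mul e2)).mul
          (((HasVal.const a Δ).mul e0).mul (HasVal.const a ν))).congr hζ.symm (by
            rw [hz, ← hmz]; ring)
    · have ha' : 0 < a.ord T⁻¹ := by rw [a.ord_inv]; omega
      have h0 := hasVal_zero_of_pos ha'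
      have e0 : HasVal a (T⁻¹ * (algebraMap k (RatFunc k) m + T)) 1 :=
        ((h0.mul (HasVal.const a m)).add (HasVal.one a)).congr (by field_simp) (by ring)
      have e1 : HasVal a (T⁻¹ ^ 2 * ξ) q₃ := (((HasVal.const a q₃).mul (e0.pow 2)).sub
        ((HasVal.const a q₂).mul ((h0.mul (HasVal.const a ν)).pow 2))).congr (by
          rw [hξ]; ring) (by ring)
      have e2 : HasVal a (T⁻¹ ^ 2 * η) (-p₃) :=
        (((HasVal.const a p₂).mul ((h0.mul (HasVal.const a ν)).pow 2)).sub
          ((HasVal.const a p₃).mul (e0.pow 2))).congr (by rw [hη]; ring) (by ring)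
      refine ⟨1, T⁻¹ ^ 2, one_ne_zero, pow_ne_zero 2 (inv_ne_zero hX), ?_, ?_, ?_, ?_, ?_⟩
      · rw [one_mul]; exact HasVal.const a _
      · rw [one_mul]; exact HasVal.const a _
      · rw [one_pow, one_mul]; exact e1
      · exact e2
      · rw [one_pow, one_mul]
        exact ((((HasVal.const a p).mul e1).add ((HasVal.const a q).mul e2)).mul
          (((HasVal.const a Δ).mul e0).mul (h0.mul (HasVal.const a ν)))).congr (by
            change _ = (T⁻¹ ^ 2) ^ 2 * ζ
            rw [hζ]; ring) (by change _ = (0 : k); ring)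

theorem mulQ_comm' {R : Type} [CommRing R] (Q P : Fin 3 → R) : mulQ Q P = mulQ P Q := by
  unfold mulQ
  funext j
  fin_cases j <;> simp <;> ring

theorem eqv_par (h : Wts e c) (ho : o.y = 0) {p q p' q' p₂ q₂ p₃ q₃ : k}
    (hA : fc c x.s x.t = mulQ (mulL p q p' q') (mulL p₂ q₂ p₃ q₃)) (hp : p * q' - p' * q = 0) :
    (dcover e c).Eqv n x o := by
  by_cases h0 : p = 0 ∧ q = 0
  · have h1 := x.eq'
    rw [qf_am' hA, h0.1, h0.2] at h1
    refine eqv_ram h ho (pow_eq_zero_iff two_ne_zero |>.1 (h1.trans (by ring)))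
  · obtain ⟨κ, h1, h2⟩ : ∃ κ, p' = κ * p ∧ q' = κ * q := by
      by_cases hp0 : p = 0
      · have hq0 : q ≠ 0 := fun hq => h0 ⟨hp0, hq⟩
        have hp' : p' = 0 := by
          rw [hp0, zero_mul, zero_sub, neg_eq_zero] at hp
          exact (mul_eq_zero.1 hp).resolve_right hq0
        exact ⟨q' / q, by rw [hp', hp0, mul_zero], by field_simp⟩
      · refine ⟨p' / p, by field_simp, ?_⟩
        field_simp
        linear_combination hp
    refine eqv_double (p := p) (q := q) (p₂ := κ * p₂) (q₂ := κ * q₂) (p₃ := p₃) (q₃ := q₃) h ho ?_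
    rw [hA, h1, h2]
    unfold mulQ mulL
    funext j
    fin_cases j <;> simp <;> ring

/-- The points of the singular fibres. -/
theorem eqv_disc (h : Wts e c) (ho : o.y = 0)
    (hd : 4 * qI (fc c x.s x.t) ^ 3 - qJ (fc c x.s x.t) ^ 2 = 0) : (dcover e c).Eqv n x o := by
  obtain ⟨p, q, hpq⟩ := exists_mul4 (fc c x.s x.t)
  rw [hpq, disc_mul4] at hd
  have h27 : (27 : k) ≠ 0 := by norm_num
  simp only [mul_eq_zero, pow_eq_zero_iff, h27, ne_eq, OfNat.ofNat_ne_zero, not_false_eq_true,
    false_or] at hd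
  rcases hd with (hd | hd) | (hd | hd) | (hd | hd)
  · exact eqv_par h ho hpq hd
  · exact eqv_par h ho (hpq.trans (mulQ_comm' _ _)) hd
  · exact eqv_par h ho (hpq.trans (mul4_eq₁ p q)) hd
  · exact eqv_par h ho (hpq.trans (mul4_eq₂ p q)) hd
  · exact eqv_par h ho ((hpq.trans (mul4_eq₂ p q)).trans (mulQ_comm' _ _)) hd
  · exact eqv_par h ho ((hpq.trans (mul4_eq₁ p q)).trans (mulQ_comm' _ _)) hd

end

end Pool.Agent.H833.EK
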