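import Pool.Agent.H833.EK.DCov

/-!
# Charts, and points over extensions
-/

set_option autoImplicit false
set_option linter.unusedSectionVars false

namespace Pool.Agent.H833.EK

open FF Polynomial
open Pool.Agent.Y107.VC (Lies isFF_up)

section deg

variable {k : Type} [Field k] {e : ℕ} {c : Fin 5 → MvPolynomial (Fin 2) k}

theorem deg2 (h : Wts e c) (b : k) {i j : Fin 5} (hij : (i : ℕ) + j = 4) :
    (cp b (c i) * cp b (c j)).natDegree ≤ 8 := by
  have h0 : ∀ l, c l = 0 → cp b (c l) = 0 := fun l hl => by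
    unfold cp; rw [hl, fv_zero]
  rcases h i with hi | ⟨m, hm, hm'⟩
  · rw [h0 i hi, zero_mul]; simp
  rcases h j with hj | ⟨m₁, hm₁, hm₁'⟩
  · rw [h0 j hj, mul_zero]; simp
  refine natDegree_mul_le.trans ?_
  have h1 := natDegree_cp hm b
  have h2 := natDegree_cp hm₁ b
  have h3 : ((i : ℕ) + j) * e = 4 * e := by rw [hij]
  have h4 : m + m₁ = 8 := by nlinarith
  omega

theorem deg3 (h : Wts e c) (b : k) {i j l : Fin 5} (hij : (i : ℕ) + j + l = 6) :
    (cp b (c i) * cp b (c j) * cp b (c l)).natDegree ≤ 12 := by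
  have h0 : ∀ l, c l = 0 → cp b (c l) = 0 := fun l hl => by
    unfold cp; rw [hl, fv_zero]
  rcases h i with hi | ⟨m, hm, hm'⟩
  · rw [h0 i hi, zero_mul, zero_mul]; simp
  rcases h j with hj | ⟨m₁, hm₁, hm₁'⟩
  · rw [h0 j hj, mul_zero, zero_mul]; simp
  rcases h l with hl | ⟨m₂, hm₂, hm₂'⟩
  · rw [h0 l hl, mul_zero]; simp
  refine natDegree_mul_le.trans ((Nat.add_le_add_right natDegree_mul_le _).trans ?_)
  have h1 := natDegree_cp hm b
  have h2 := natDegree_cp hm₁ b
  have h5 := natDegree_cp hm₂ b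
  have h3 : ((i : ℕ) + j + l) * e = 6 * e := by rw [hij]
  have h4 : m + m₁ + m₂ = 12 := by nlinarith
  omega

/-- The coefficient `a` of the Jacobian in a chart. -/
noncomputable def pa (b : k) (c : Fin 5 → MvPolynomial (Fin 2) k) : k[X] :=
  C (-(1 / 3)) * qI fun j => cp b (c j)

/-- The coefficient `b` of the Jacobian in a chart. -/
noncomputable def pb (b : k) (c : Fin 5 → MvPolynomial (Fin 2) k) : k[X] :=
  C (-(1 / 27)) * qJ fun j => cp b (c j)

theorem natDegree_C_mul_le' {a : k} {p : k[X]} {N : ℕ} (h : p.natDegree ≤ N) :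
    (C a * p).natDegree ≤ N := (natDegree_C_mul_le _ _).trans h

theorem nadd {p q : k[X]} {N : ℕ} (hp : p.natDegree ≤ N) (hq : q.natDegree ≤ N) :
    (p + q).natDegree ≤ N := (natDegree_add_le _ _).trans (max_le hp hq)

theorem nsub {p q : k[X]} {N : ℕ} (hp : p.natDegree ≤ N) (hq : q.natDegree ≤ N) :
    (p - q).natDegree ≤ N := (natDegree_sub_le _ _).trans (max_le hp hq)

theorem natDegree_pa (h : Wts e c) (b : k) : (pa b c).natDegree ≤ 8 := by
  unfold pa
  refine natDegree_C_mul_le' ?_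
  have h1 : (qI fun j => cp b (c j)) = C 12 * (cp b (c 0) * cp b (c 4)) -
      C 3 * (cp b (c 1) * cp b (c 3)) + cp b (c 2) * cp b (c 2) := by
    unfold qI
    rw [map_ofNat, map_ofNat]
    ring
  rw [h1]
  refine nadd (nsub (natDegree_C_mul_le' (k := k) ?_)
    (natDegree_C_mul_le' (k := k) ?_)) ?_
  · exact deg2 h b rfl
  · exact deg2 h b rfl
  · exact deg2 h b rfl

theorem natDegree_pb (h : Wts e c) (b : k) : (pb b c).natDegree ≤ 12 := by
  unfold pb
  refine natDegree_C_mul_le' ?_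
  have h1 : (qJ fun j => cp b (c j)) = C 72 * (cp b (c 0) * cp b (c 2) * cp b (c 4)) +
      C 9 * (cp b (c 1) * cp b (c 2) * cp b (c 3)) -
      C 27 * (cp b (c 0) * cp b (c 3) * cp b (c 3)) -
      C 27 * (cp b (c 4) * cp b (c 1) * cp b (c 1)) -
      C 2 * (cp b (c 2) * cp b (c 2) * cp b (c 2)) := by
    unfold qJ
    simp only [map_ofNat]
    ring
  rw [h1]
  refine nsub (nsub (nsub
    (nadd (natDegree_C_mul_le' (k := k) ?_) (natDegree_C_mul_le' (k := k) ?_))
    (natDegree_C_mul_le' (k := k) ?_)) (natDegree_C_mul_le' (k := k) ?_)) (natDegree_C_mul_le' (k := k) ?_)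
  · exact deg3 h b rfl
  · exact deg3 h b rfl
  · exact deg3 h b rfl
  · exact deg3 h b rfl
  · exact deg3 h b rfl

theorem qI_map {R R' : Type} [CommRing R] [CommRing R'] (φ : R →+* R') (A : Fin 5 → R) :
    φ (qI A) = qI fun j => φ (A j) := by
  unfold qI
  simp only [map_add, map_sub, map_mul, map_pow, map_ofNat]

theorem qJ_map {R R' : Type} [CommRing R] [CommRing R'] (φ : R →+* R') (A : Fin 5 → R) :
    φ (qJ A) = qJ fun j => φ (A j) := by
  unfold qJ
  simp only [map_add, map_sub, map_mul, map_pow, map_ofNat]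

variable [CharZero k]

theorem aeval_pa (b : k) (c : Fin 5 → MvPolynomial (Fin 2) k) {K : Type} [Field K] [Algebra k K]
    (u : K) : aeval u (pa b c) = -(1 / 3) * qI (fc c (1 + algebraMap k K b * u) u) := by
  unfold pa
  rw [map_mul, aeval_C, map_neg, map_div₀, map_one, map_ofNat]
  congr 1
  have h1 := qI_map (aeval (R := k) u).toRingHom fun j => cp b (c j)
  simp only [AlgHom.toRingHom_eq_coe, RingHom.coe_coe, aeval_cp] at h1
  exact h1

theorem aeval_pb (b : k) (c : Fin 5 → MvPolynomial (Fin 2) k) {K : Type} [Field K] [Algebra k K]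
    (u : K) : aeval u (pb b c) = -(1 / 27) * qJ (fc c (1 + algebraMap k K b * u) u) := by
  unfold pb
  rw [map_mul, aeval_C, map_neg, map_div₀, map_one, map_ofNat]
  congr 1
  have h1 := qJ_map (aeval (R := k) u).toRingHom fun j => cp b (c j)
  simp only [AlgHom.toRingHom_eq_coe, RingHom.coe_coe, aeval_cp] at h1
  exact h1

theorem eval_disc [IsAlgClosed k] (b : k) (c : Fin 5 → MvPolynomial (Fin 2) k) (u : k) :
    (disc (pa b c) (pb b c)).eval u = -(1 / 27) * (4 * qI (fc c (1 + b * u) u) ^ 3 -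
      qJ (fc c (1 + b * u) u) ^ 2) := by
  have h1 := aeval_pa b c u
  have h2 := aeval_pb b c u
  rw [coe_aeval_eq_eval] at h1 h2
  rw [disc_eval]
  change 4 * (eval u (pa b c)) ^ 3 + 27 * (eval u (pb b c)) ^ 2 = _
  have h3 : eval u (pa b c) = -(1 / 3) * qI (fc c (1 + b * u) u) := h1
  have h4 : eval u (pb b c) = -(1 / 27) * qJ (fc c (1 + b * u) u) := h2
  rw [h3, h4]
  ring

end deg

section ext

variable {k : Type} [Field k] [CharZero k] [IsAlgClosed k]

/-- Existence of points over a given point of the Jacobian. -/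
theorem exists_cov {Ω : Type} [Field Ω] [CharZero Ω] [IsAlgClosed Ω] (A : Fin 5 → Ω) {X Y : Ω}
    (h : Y ^ 2 = X ^ 3 + (-(1 / 3) * qI A) * X + (-(1 / 27) * qJ A)) : ∃ v w y : Ω,
      ¬(v = 0 ∧ w = 0) ∧ y ^ 2 = qf A v w ∧ 12 * y ^ 2 * X = q4 A v w ∧
      8 * y ^ 3 * Y = q6 A v w := by
  obtain ⟨v, w, hvw, h0⟩ := exists_zero4 (k := Ω)
    ![12 * X * A 0 - (3 * A 1 ^ 2 - 8 * A 0 * A 2), 12 * X * A 1 - 4 * (A 1 * A 2 - 6 * A 0 * A 3),
      12 * X * A 2 - 2 * (2 * A 2 ^ 2 - 24 * A 0 * A 4 - 3 * A 1 * A 3),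
      12 * X * A 3 - 4 * (A 2 * A 3 - 6 * A 1 * A 4), 12 * X * A 4 - (3 * A 3 ^ 2 - 8 * A 2 * A 4)]
  have h1 : 12 * qf A v w * X = q4 A v w := by
    rw [← sub_eq_zero, ← h0]
    unfold qf q4
    simp
    ring
  obtain ⟨y, hy⟩ := IsAlgClosed.exists_pow_nat_eq (qf A v w) (n := 2) (by norm_num)
  have h2 : (q6 A v w) ^ 2 = (8 * y ^ 3 * Y) ^ 2 := by
    have h3 := syzygy A v w
    have h4 : (8 * y ^ 3 * Y) ^ 2 = 64 * qf A v w ^ 3 * Y ^ 2 := by
      rw [← hy]; ring
    rw [h4, h]
    rw [← h1] at h3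
    linear_combination (1 / 27) * h3
  rcases sq_eq_sq_iff_eq_or_eq_neg.1 h2 with h3 | h3
  · exact ⟨v, w, y, hvw, hy, by rw [hy]; exact h1, h3.symm⟩
  · exact ⟨v, w, -y, hvw, by rw [neg_sq]; exact hy, by rw [neg_sq, hy]; exact h1, by
      rw [h3]; ring⟩

/-- Finite extensions of function fields. -/
theorem exists_ext {K : Type} [Field K] [Algebra k K] [IsFF k K]
    (T : Finset (AlgebraicClosure K)) : ∃ (L : Type) (_ : Field L) (_ : Algebra k L)
    (_ : IsFF k L) (j : K →ₐ[k] L) (i : L →+* AlgebraicClosure K), (∀ x ∈ T, ∃ y, i y = x) ∧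
      ∀ x, i (j x) = algebraMap K (AlgebraicClosure K) x := by
  let L := IntermediateField.adjoin K (T : Set (AlgebraicClosure K))
  have : FiniteDimensional K L :=
    IntermediateField.finiteDimensional_adjoin
      (fun x _ => (Algebra.IsAlgebraic.isAlgebraic (R := K) x).isIntegral)
  have : IsFF k L := isFF_up (K := K)
  refine ⟨L, inferInstance, inferInstance, inferInstance, IsScalarTower.toAlgHom k K L,
    (L.val : L →+* AlgebraicClosure K), fun x hx => ?_, fun x => rfl⟩
  exact ⟨⟨x, IntermediateField.subset_adjoin _ _ hx⟩, rfl⟩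

variable {K L : Type} [Field K] [Algebra k K] [Field L] [Algebra k L] {j : K →ₐ[k] L}
  {b : Place k L} {v : Place k K}

theorem HasVal.lies (hl : Lies j b v) {x : K} {x₀ : k} (h : HasVal v x x₀) :
    HasVal b (j x) x₀ := by
  obtain ⟨m, hm, hl⟩ := hl
  by_cases hx : x = algebraMap k K x₀
  · rw [hx, AlgHom.commutes]
    exact HasVal.const b x₀
  · have h1 := (h.sub (HasVal.const v x₀)).congr rfl (sub_self x₀)
    have h2 := h1.ord_pos (sub_ne_zero.2 hx)
    have h3 : 0 < b.ord (j (x - algebraMap k K x₀)) := by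
      rw [hl]
      have : (0 : ℤ) < m := by exact_mod_cast hm
      positivity
    have h4 := (hasVal_zero_of_pos h3).add (HasVal.const b x₀)
    exact h4.congr (by rw [map_sub, AlgHom.commutes]; ring) (by ring)

theorem reg_of_lies (hl : Lies j b v) {x : K} (h : b.Reg (j x)) : v.Reg x := by
  by_contra hcon
  obtain ⟨h0, h1⟩ := not_reg_iff.1 hcon
  obtain ⟨m, hm, hl⟩ := hl
  have h3 : j x ≠ 0 := fun h3 => h0 ((map_eq_zero j).1 h3)
  have h2 := (b.reg_iff h3).1 h
  rw [hl] at h2
  have : (0 : ℤ) < m := by exact_mod_cast hm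
  nlinarith

variable {e : ℕ} {c : Fin 5 → MvPolynomial (Fin 2) k}

/-- Lifts of points of the Jacobian. -/
theorem exists_lift {K : Type} [Field K] [Algebra k K] [IsFF k K] (β : k) {ι : Type} [Fintype ι]
    (P : ι → T3 K) (hP : ∀ i, OnS (pa β c) (pb β c) (P i)) : ∃ (L : Type) (_ : Field L)
    (_ : Algebra k L) (_ : IsFF k L) (j : K →ₐ[k] L) (x : ι → DPt c L), ∀ i,
      (x i).s = 1 + algebraMap k L β * j (P i).1 ∧ (x i).t = j (P i).1 ∧
      Cov (x i) (j (P i).2.1) (j (P i).2.2) := by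
  classical
  have : CharZero K := charZero_of_injective_algebraMap (algebraMap k K).injective
  have : CharZero (AlgebraicClosure K) :=
    charZero_of_injective_algebraMap (algebraMap K (AlgebraicClosure K)).injective
  let f : K →+* AlgebraicClosure K := algebraMap K (AlgebraicClosure K)
  have h1 : ∀ i, ∃ v w y : AlgebraicClosure K, ¬(v = 0 ∧ w = 0) ∧
      y ^ 2 = qf (fun l => f (fc c (1 + algebraMap k K β * (P i).1) (P i).1 l)) v w ∧
      12 * y ^ 2 * f (P i).2.1 =
        q4 (fun l => f (fc c (1 + algebraMap k K β * (P i).1) (P i).1 l)) v w ∧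
      8 * y ^ 3 * f (P i).2.2 =
        q6 (fun l => f (fc c (1 + algebraMap k K β * (P i).1) (P i).1 l)) v w := by
    intro i
    refine exists_cov _ ?_
    have h2 := hP i
    unfold OnS at h2
    rw [aeval_pa, aeval_pb] at h2
    have h3 := congrArg f h2
    simp only [map_add, map_mul, map_pow, map_neg, map_div₀, map_one, map_ofNat, qI_map,
      qJ_map] at h3
    exact h3
  choose v w y hvw h2 h3 h4 using h1
  obtain ⟨L, i1, i2, i3, j, g, hg, hgj⟩ := exists_ext (k := k) (K := K)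
    (Finset.univ.image v ∪ (Finset.univ.image w ∪ Finset.univ.image y))
  have hv : ∀ i, ∃ v', g v' = v i := fun i => hg _ (Finset.mem_union_left _
    (Finset.mem_image_of_mem _ (Finset.mem_univ i)))
  have hw : ∀ i, ∃ w', g w' = w i := fun i => hg _ (Finset.mem_union_right _
    (Finset.mem_union_left _ (Finset.mem_image_of_mem _ (Finset.mem_univ i))))
  have hy : ∀ i, ∃ y', g y' = y i := fun i => hg _ (Finset.mem_union_right _
    (Finset.mem_union_right _ (Finset.mem_image_of_mem _ (Finset.mem_univ i))))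
  choose v' hv' using hv
  choose w' hw' using hw
  choose y' hy' using hy
  have hgi : Function.Injective g := g.injective
  have hfc : ∀ i l, g (fc c (1 + algebraMap k L β * j (P i).1) (j (P i).1) l) =
      f (fc c (1 + algebraMap k K β * (P i).1) (P i).1 l) := by
    intro i l
    rw [← hgj]
    congr 1
    unfold fc
    rw [fv_map j, map_add, map_mul, map_one, AlgHom.commutes]
  refine ⟨L, i1, i2, i3, j, fun i => ⟨1 + algebraMap k L β * j (P i).1, j (P i).1, v' i, w' i,
    y' i, ?_, ?_, ?_⟩, fun i => ⟨rfl, rfl, ?_, ?_⟩⟩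
  · rintro ⟨e1, e2⟩
    rw [e2, mul_zero, add_zero] at e1
    exact one_ne_zero e1
  · rintro ⟨e1, e2⟩
    apply hvw i
    rw [← hv', ← hw', e1, e2, map_zero]
    exact ⟨rfl, rfl⟩
  · apply hgi
    rw [map_pow, hy', h2 i]
    change _ = g (qf (fc c (1 + algebraMap k L β * j (P i).1) (j (P i).1)) (v' i) (w' i))
    rw [qf_map, hv', hw']
    simp only [hfc]
  · apply hgi
    change g (12 * y' i ^ 2 * j (P i).2.1) =
      g (q4 (fc c (1 + algebraMap k L β * j (P i).1) (j (P i).1)) (v' i) (w' i))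
    have h5 : g (q4 (fc c (1 + algebraMap k L β * j (P i).1) (j (P i).1)) (v' i) (w' i)) =
        q4 (fun l => g (fc c (1 + algebraMap k L β * j (P i).1) (j (P i).1) l)) (g (v' i))
          (g (w' i)) := by
      unfold q4
      simp only [map_add, map_sub, map_mul, map_pow, map_ofNat]
    rw [h5, hv', hw']
    simp only [hfc]
    rw [← h3 i, map_mul, map_mul, map_pow, hy', map_ofNat, hgj]
  · apply hgi
    change g (8 * y' i ^ 3 * j (P i).2.2) =
      g (q6 (fc c (1 + algebraMap k L β * j (P i).1) (j (P i).1)) (v' i) (w' i))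
    have h5 : g (q6 (fc c (1 + algebraMap k L β * j (P i).1) (j (P i).1)) (v' i) (w' i)) =
        q6 (fun l => g (fc c (1 + algebraMap k L β * j (P i).1) (j (P i).1) l)) (g (v' i))
          (g (w' i)) := by
      unfold q6
      simp only [map_add, map_sub, map_mul, map_pow, map_ofNat]
    rw [h5, hv', hw']
    simp only [hfc]
    rw [← h4 i, map_mul, map_mul, map_pow, hy', map_ofNat, hgj]

theorem hasVal_q4 {K : Type} [Field K] [Algebra k K] {a : Place k K} {A : Fin 5 → K}
    {A₀ : Fin 5 → k} (hA : ∀ j, HasVal a (A j) (A₀ j)) {v w : K} {v₀ w₀ : k}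
    (hv : HasVal a v v₀) (hw : HasVal a w w₀) : HasVal a (q4 A v w) (q4 A₀ v₀ w₀) := by
  unfold q4
  repeat' first
    | exact hv
    | exact hw
    | exact hA _
    | exact HasVal.ofNat a _
    | apply HasVal.add
    | apply HasVal.sub
    | apply HasVal.mul
    | apply HasVal.pow

theorem hasVal_q6 {K : Type} [Field K] [Algebra k K] {a : Place k K} {A : Fin 5 → K}
    {A₀ : Fin 5 → k} (hA : ∀ j, HasVal a (A j) (A₀ j)) {v w : K} {v₀ w₀ : k}
    (hv : HasVal a v v₀) (hw : HasVal a w w₀) : HasVal a (q6 A v w) (q6 A₀ v₀ w₀) := by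
  unfold q6
  repeat' first
    | exact hv
    | exact hw
    | exact hA _
    | exact HasVal.ofNat a _
    | apply HasVal.add
    | apply HasVal.sub
    | apply HasVal.mul
    | apply HasVal.pow

end ext

end Pool.Agent.H833.EK
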