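import Pool.Agent.H833.EK.DKap

/-!
# Points of the double cover with the same image in the Jacobian
-/

set_option autoImplicit false
set_option linter.unusedSectionVars false

namespace Pool.Agent.H833.EK

open FF Polynomial

section

variable {k : Type} [Field k] [CharZero k] [IsAlgClosed k] {n : ℕ}
variable {e : ℕ} {c : Fin 5 → MvPolynomial (Fin 2) k} {o x x' : DPt c k}

/-- The point `x` lies over the point `(X, Y)` of the Jacobian
`Y² = X³ - (I / 3) X - J / 27`. -/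
def Cov {K : Type} [Field K] [Algebra k K] (x : DPt c K) (X Y : K) : Prop :=
  12 * x.y ^ 2 * X = q4 (fc c x.s x.t) x.v x.w ∧ 8 * x.y ^ 3 * Y = q6 (fc c x.s x.t) x.v x.w

theorem Cov.opp {K : Type} [Field K] [Algebra k K] {x : DPt c K} {X Y : K} (h : Cov x X Y) :
    Cov x.opp X (-Y) := by
  obtain ⟨h1, h2⟩ := h
  refine ⟨?_, ?_⟩
  · change 12 * (-x.y) ^ 2 * X = _
    rw [neg_sq]
    exact h1
  · change 8 * (-x.y) ^ 3 * -Y = _
    rw [show 8 * (-x.y) ^ 3 * -Y = 8 * x.y ^ 3 * Y by ring]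
    exact h2

/-- The factorisations of a quartic. -/
def Fac (A : Fin 5 → k) (Q P : Fin 3 → k) : Prop := A = mulQ Q P

theorem kR_ne {A : Fin 5 → k} {Q P : Fin 3 → k} (hA : A = mulQ Q P)
    (hd : 4 * qI A ^ 3 - qJ A ^ 2 ≠ 0) : kR Q P ≠ 0 ∧ dd Q ≠ 0 ∧ dd P ≠ 0 := by
  subst hA
  rw [disc_mulQ] at hd
  refine ⟨?_, ?_, ?_⟩
  · intro h; exact hd (by rw [h]; ring)
  · intro h; exact hd (by rw [h]; ring)
  · intro h; exact hd (by rw [h]; ring)

/-- Two quadratic forms with a common zero. -/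
theorem kR_zero {Q P : Fin 3 → k} {v w : k} (h : ¬(v = 0 ∧ w = 0)) (hQ : qd Q v w = 0)
    (hP : qd P v w = 0) : kR Q P = 0 := by
  by_contra hR
  have h1 : ∀ v' w', (v * w' - v' * w) * (v' * kw Q P v w - w' * kv Q P v w) = 0 := by
    intro v' w'
    rw [← kD_kv, ← kD_eq, hQ, hP]
    ring
  have h2 := qd_left Q P v w
  have hk := kvw_ne hR h
  rcases not_and_or.1 h with hv | hw
  · have h3 := h1 0 1
    have h4 := h1 1 1
    have h5 := h1 (-1) 1
    simp only [mul_one, zero_mul, sub_zero, one_mul, zero_sub] at h3 h4 h5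
    have h6 : kv Q P v w = 0 := by
      have := (mul_eq_zero.1 h3).resolve_left hv
      exact neg_eq_zero.1 this
    rw [h6] at h4 h5
    have h7 : v * kw Q P v w = 0 := by linear_combination (1/2) * h4 - (1/2) * h5
    exact hk ⟨h6, (mul_eq_zero.1 h7).resolve_left hv⟩
  · have h3 := h1 1 0
    have h4 := h1 1 1
    have h5 := h1 1 (-1)
    simp only [mul_zero, zero_sub, one_mul, zero_mul, sub_zero, mul_one] at h3 h4 h5
    have h6 : kw Q P v w = 0 := (mul_eq_zero.1 h3).resolve_left (neg_ne_zero.2 hw)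
    rw [h6] at h4 h5
    have h7 : w * kv Q P v w = 0 := by linear_combination (1/2) * h4 - (1/2) * h5
    exact hk ⟨(mul_eq_zero.1 h7).resolve_left hw, h6⟩

/-- The quartic covariant does not vanish at the points of ramification. -/
theorem q4_ne (x : DPt c k)
    (hd : 4 * qI (fc c x.s x.t) ^ 3 - qJ (fc c x.s x.t) ^ 2 ≠ 0)
    (hy : x.y = 0) : q4 (fc c x.s x.t) x.v x.w ≠ 0 := by
  obtain ⟨p, q, hpq⟩ := exists_mul4 (fc c x.s x.t)
  obtain ⟨h1, h2, h3⟩ := kR_ne hpq hd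
  have h4 := x.eq'
  intro h5
  rw [hpq] at h4 h5
  unfold mul4 at h4 h5
  rw [hy, zero_pow two_ne_zero, qf_mulQ] at h4
  rw [q4_mulQ] at h5
  rcases mul_eq_zero.1 h4.symm with h6 | h6
  · rw [h6] at h5
    have h7 : qd (mulL (p 2) (q 2) (p 3) (q 3)) x.v x.w ≠ 0 := fun h7 =>
      h1 (kR_zero x.fib h6 h7)
    refine mul_ne_zero h2 (pow_ne_zero 2 h7) ?_
    linear_combination (1 / 3) * h5
  · rw [h6] at h5
    have h7 : qd (mulL (p 0) (q 0) (p 1) (q 1)) x.v x.w ≠ 0 := fun h7 =>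
      h1 (kR_zero x.fib h7 h6)
    refine mul_ne_zero h3 (pow_ne_zero 2 h7) ?_
    linear_combination (1 / 3) * h5

theorem Cov.ne (hd : 4 * qI (fc c x.s x.t) ^ 3 - qJ (fc c x.s x.t) ^ 2 ≠ 0) {X Y : k}
    (h : Cov x X Y) : x.y ≠ 0 := by
  intro hy
  apply q4_ne x hd hy
  rw [← h.1, hy]
  ring

/-- A fixed point of an involution. -/
theorem eqv_fix (h : Wts e c) (ho : o.y = 0) {Q P : Fin 3 → k} (hA : fc c x.s x.t = mulQ Q P)
    (hR : kR Q P ≠ 0) (hD : kD Q P x.v x.w x.v x.w = 0) : (dcover e c).Eqv n x o := by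
  rw [kD_kv] at hD
  obtain ⟨κ, hκ, h1, h2⟩ := exists_prop x.fib (kvw_ne hR x.fib) (by linear_combination hD)
  have h3 : kR Q P = κ ^ 2 := by
    have h4 := kv_kv Q P x.v x.w
    have h5 := kw_kw Q P x.v x.w
    rw [h1, h2, kv_smul, h1] at h4
    rw [h1, h2, kw_smul, h2] at h5
    rcases not_and_or.1 x.fib with h6 | h6
    · refine mul_right_cancel₀ h6 ?_
      linear_combination -h4
    · refine mul_right_cancel₀ h6 ?_
      linear_combination -h5
  have h4 : (dcover e c).Eqv n x (x.kap hA hR) :=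
    eqv_scale' h hκ rfl rfl h1 h2 (by change kR Q P * x.y = _; rw [h3])
  have h5 := opp_kap (n := n) h ho x hA hR
  refine eqv_of_two ?_
  intro i y
  have h6 := h5 i y
  rw [← h4 i y] at h6
  exact h6

/-- The points over the points of order two of the Jacobian. -/
theorem eqv_six (h : Wts e c) (ho : o.y = 0)
    (hd : 4 * qI (fc c x.s x.t) ^ 3 - qJ (fc c x.s x.t) ^ 2 ≠ 0)
    (h6 : q6 (fc c x.s x.t) x.v x.w = 0) : (dcover e c).Eqv n x o := by
  obtain ⟨p, q, hpq⟩ := exists_mul4 (fc c x.s x.t)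
  have h1 := kR_ne hpq hd
  have h2 := kR_ne (hpq.trans (mul4_eq₁ p q)) hd
  have h3 := kR_ne (hpq.trans (mul4_eq₂ p q)) hd
  have h4 := h6
  rw [hpq] at h4
  unfold mul4 at h4
  rw [q6_mulQ] at h4
  rcases mul_eq_zero.1 h4 with h5 | h5
  · exact eqv_fix h ho hpq h1.1 h5
  · have h7 := kD_mul_kD (p 0) (q 0) (p 1) (q 1) (p 2) (q 2) (p 3) (q 3) x.v x.w x.v x.w
    have h8 : kD (mulL (p 0) (q 0) (p 2) (q 2)) (mulL (p 1) (q 1) (p 3) (q 3)) x.v x.w x.v x.w *
      kD (mulL (p 0) (q 0) (p 3) (q 3)) (mulL (p 1) (q 1) (p 2) (q 2)) x.v x.w x.v x.w = 0 := by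
      rw [← h7]
      linear_combination h5
    rcases mul_eq_zero.1 h8 with h9 | h9
    · exact eqv_fix h ho (hpq.trans (mul4_eq₁ p q)) h2.1 h9
    · exact eqv_fix h ho (hpq.trans (mul4_eq₂ p q)) h3.1 h9

theorem Cov.six {X : k} {x : DPt c k} (h : Cov x X 0) : q6 (fc c x.s x.t) x.v x.w = 0 := by
  rw [← h.2]; ring

/-- Points which are exchanged by an involution. -/
theorem eqv_kap (h : Wts e c) (ho : o.y = 0) (hs : x'.s = x.s) (ht : x'.t = x.t)
    (hd : 4 * qI (fc c x.s x.t) ^ 3 - qJ (fc c x.s x.t) ^ 2 ≠ 0) {X Y : k} (hx : Cov x X Y)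
    (hx' : Cov x' X Y) {Q P : Fin 3 → k} (hA : fc c x.s x.t = mulQ Q P)
    (hD : kD Q P x.v x.w x'.v x'.w = 0) : (dcover e c).Eqv n x x' := by
  have hR := (kR_ne hA hd).1
  have hfc : fc c x'.s x'.t = fc c x.s x.t := by rw [hs, ht]
  rw [kD_kv] at hD
  obtain ⟨κ, hκ, h1, h2⟩ := exists_prop (kvw_ne hR x.fib) x'.fib (by linear_combination -hD)
  have h3 : x'.y ^ 2 = (κ ^ 2 * (kR Q P * x.y)) ^ 2 := by
    rw [x'.eq', hfc, h1, h2, qf_hom, hA, qf_mulQ, qd_left, qd_right]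
    have h4 := x.eq'
    rw [hA, qf_mulQ] at h4
    linear_combination -κ ^ 4 * kR Q P ^ 2 * h4
  have h5 := opp_kap (n := n) h ho x hA hR
  have h6 := opp_all (n := n) h ho (x.kap hA hR)
  rcases sq_eq_sq_iff_eq_or_eq_neg.1 h3 with h4 | h4
  · have h7 : Y = 0 := by
      have h8 := hx'.2
      have h9 := hx.2
      rw [hfc, h1, h2, q6_hom, hA, q6_kap, ← hA, ← h9, h4] at h8
      have h10 : 16 * (κ ^ 2 * (kR Q P * x.y)) ^ 3 * Y = 0 := by linear_combination h8
      refine (mul_eq_zero.1 h10).resolve_left ?_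
      refine mul_ne_zero (by norm_num) (pow_ne_zero 3 (mul_ne_zero (pow_ne_zero 2 hκ)
        (mul_ne_zero hR (hx.ne hd))))
    subst h7
    exact (eqv_six h ho hd hx.six).trans (eqv_six h ho (by rw [hfc]; exact hd) hx'.six).symm
  · have h7 : (dcover e c).Eqv n (x.kap hA hR).opp x' := eqv_scale' h hκ hs ht h1 h2 (by
      change x'.y = κ ^ 2 * -(kR Q P * x.y); rw [h4]; ring)
    refine Geo.Eqv.trans ?_ h7
    intro i y
    have h8 := h5 i y
    have h9 := h6 i y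
    rw [← h9, add_comm] at h8
    exact add_left_cancel h8

/-- Points with the same image in the Jacobian are equivalent. -/
theorem eqv_cov (h : Wts e c) (hs : x'.s = x.s) (ht : x'.t = x.t)
    (hd : 4 * qI (fc c x.s x.t) ^ 3 - qJ (fc c x.s x.t) ^ 2 ≠ 0) {X Y : k} (hx : Cov x X Y)
    (hx' : Cov x' X Y) : (dcover e c).Eqv n x x' := by
  obtain ⟨o, ho⟩ := exists_ram c
  have hfc : fc c x'.s x'.t = fc c x.s x.t := by rw [hs, ht]
  obtain ⟨p, q, hpq⟩ := exists_mul4 (fc c x.s x.t)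
  have h1 : q4 (fc c x.s x.t) x.v x.w * qf (fc c x.s x.t) x'.v x'.w -
      q4 (fc c x.s x.t) x'.v x'.w * qf (fc c x.s x.t) x.v x.w = 0 := by
    have h2 := hx'.1
    have h3 := x'.eq'
    rw [hfc] at h2 h3
    rw [← h2, ← h3, ← hx.1, ← x.eq']
    ring
  rw [hpq] at h1
  unfold mul4 at h1
  rw [q4_eq, kD_mul_kD] at h1
  have h3 : (3 : k) ≠ 0 := by norm_num
  rcases mul_eq_zero.1 h1 with h2 | h2
  · rcases mul_eq_zero.1 ((mul_eq_zero.1 h2).resolve_left h3) with h4 | h4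
    · rcases same_or_opp (n := n) h hs ht (by linear_combination h4) with ⟨h5, -⟩ |
        ⟨-, -, μ, hμ, h6, h7, h8⟩
      · exact h5
      · have h9 : Y = 0 := by
          have h9 := hx'.2
          rw [hfc, h6, h7, q6_hom, ← hx.2, h8] at h9
          have h10 : 16 * (μ ^ 2 * x.y) ^ 3 * Y = 0 := by linear_combination -h9
          refine (mul_eq_zero.1 h10).resolve_left ?_
          exact mul_ne_zero (by norm_num) (pow_ne_zero 3 (mul_ne_zero (pow_ne_zero 2 hμ)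
            (hx.ne hd)))
        subst h9
        exact (eqv_six h ho hd hx.six).trans
          (eqv_six h ho (by rw [hfc]; exact hd) hx'.six).symm
    · exact eqv_kap h ho hs ht hd hx hx' hpq h4
  · rcases mul_eq_zero.1 h2 with h4 | h4
    · exact eqv_kap h ho hs ht hd hx hx' (hpq.trans (mul4_eq₁ p q)) h4
    · exact eqv_kap h ho hs ht hd hx hx' (hpq.trans (mul4_eq₂ p q)) h4

end

end Pool.Agent.H833.EK
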