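import Pool.Agent.H833.EK.Quart

/-!
# Rational equivalences on double covers
-/

set_option autoImplicit false
set_option linter.unusedSectionVars false

namespace Pool.Agent.H833.EK

open FF Polynomial

section

variable {k : Type} [Field k] [CharZero k] [IsAlgClosed k] {n : ℕ}

namespace Geo

variable {G : Geo k}

/-- The sum of two families over the line is constant. -/
theorem pair_const (hG : G.Nice) {K : Type} [Field K] [Algebra k K] [IsFF k K] (i : Fin n)
    (y : Fin n → G.Pt k) {P P' : G.Pt K} {f : K} (hf : Transcendental k f) {c₀ c₁ : G.CH n}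
    (h₀ : ∀ a : Place k K, 0 < a.ord f → ∃ p p', G.Sp a P p ∧ G.Sp a P' p' ∧
      G.cl (Function.update y i p) + G.cl (Function.update y i p') = c₀)
    (h₁ : ∀ a : Place k K, a.ord f < 0 → ∃ p p', G.Sp a P p ∧ G.Sp a P' p' ∧
      G.cl (Function.update y i p) + G.cl (Function.update y i p') = c₁) : c₀ = c₁ := by
  have h2 : ∀ a : Place k K, ∃ p p', G.Sp a P p ∧ G.Sp a P' p' ∧
      (0 < a.ord f → G.cl (Function.update y i p) + G.cl (Function.update y i p') = c₀) ∧
      (a.ord f < 0 → G.cl (Function.update y i p) + G.cl (Function.update y i p') = c₁) := by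
    intro a
    rcases lt_trichotomy (a.ord f) 0 with h3 | h3 | h3
    · obtain ⟨p, p', h4, h5, h6⟩ := h₁ a h3
      exact ⟨p, p', h4, h5, fun h => by omega, fun _ => h6⟩
    · obtain ⟨p, hp⟩ := hG.prop K a P
      obtain ⟨p', hp'⟩ := hG.prop K a P'
      exact ⟨p, p', hp, hp', fun h => by omega, fun h => by omega⟩
    · obtain ⟨p, p', h4, h5, h6⟩ := h₀ a h3
      exact ⟨p, p', h4, h5, fun _ => h6, fun h => by omega⟩
  choose φ φ' h3 h4 h5 h6 using h2
  have e1 := Ad.slot hG i y h3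
  have e2 := Ad.slot hG i y h4
  exact Ad.const (Submodule.add_mem _ e1 e2) hf (fun a ha => h5 a ha) (fun a ha => h6 a ha)

end Geo

/-- The function field of a double cover of the line. -/
theorem exists_sqrt (F : k[X]) : ∃ (K : Type) (_ : Field K) (_ : Algebra k K) (_ : IsFF k K)
    (ξ ζ : K), Transcendental k ξ ∧ ζ ^ 2 = aeval ξ F := by
  classical
  obtain ⟨z, hz⟩ := IsAlgClosed.exists_pow_nat_eq
    (aeval (algebraMap (RatFunc k) (Om k) RatFunc.X) F) (n := 2) (by norm_num)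
  obtain ⟨L, i1, i2, i3, φ, hφ⟩ := exists_FF
    ({algebraMap (RatFunc k) (Om k) RatFunc.X, z} : Finset (Om k))
  obtain ⟨ξ, hξ⟩ := hφ _ (Finset.mem_insert_self _ _)
  obtain ⟨ζ, hζ⟩ := hφ z (Finset.mem_insert_of_mem (Finset.mem_singleton_self _))
  refine ⟨L, i1, i2, i3, ξ, ζ, transcendental_of_map φ ?_, ?_⟩
  · rw [hξ]; exact transcendental_X'
  · have h1 : φ (ζ ^ 2) = φ (aeval ξ F) := by
      rw [map_pow, hζ, hz, ← hξ, aeval_algHom_apply]
    exact φ.injective h1

/-- The coefficients in an extension. -/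
def am (K : Type) [Field K] [Algebra k K] (A : Fin 5 → k) : Fin 5 → K :=
  fun j => algebraMap k K (A j)

theorem qf_map {R R' : Type} [CommRing R] [CommRing R'] (φ : R →+* R') (A : Fin 5 → R) (v w : R) :
    φ (qf A v w) = qf (fun j => φ (A j)) (φ v) (φ w) := by
  unfold qf
  simp only [map_add, map_mul, map_pow]

variable {e : ℕ} {c : Fin 5 → MvPolynomial (Fin 2) k}

theorem fc_map (K : Type) [Field K] [Algebra k K] (s t : k) :
    fc c (algebraMap k K s) (algebraMap k K t) = am K (fc c s t) := by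
  funext j
  exact (fv_map (Algebra.ofId k K) (c j) s t).symm

theorem DPt.ext' {K : Type} [Field K] [Algebra k K] {P P' : DPt c K} (hs : P.s = P'.s)
    (ht : P.t = P'.t) (hv : P.v = P'.v) (hw : P.w = P'.w) (hy : P.y = P'.y) : P = P' := by
  cases P; cases P'
  simp only at hs ht hv hw hy
  subst hs; subst ht; subst hv; subst hw; subst hy
  rfl

theorem DPt.opp_opp {K : Type} [Field K] [Algebra k K] (P : DPt c K) : P.opp.opp = P :=
  DPt.ext' rfl rfl rfl rfl (neg_neg _)

theorem DPt.opp_eq {K : Type} [Field K] [Algebra k K] {P : DPt c K} (h : P.y = 0) : P.opp = P :=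
  DPt.ext' rfl rfl rfl rfl (by change -P.y = P.y; rw [h, neg_zero])

theorem DSp.opp {K : Type} [Field K] [Algebra k K] {a : Place k K} {P : DPt c K} {p : DPt c k}
    (h : DSp e a P p) : DSp e a P.opp p.opp := by
  obtain ⟨ρ, μ, h1, h2, h3, h4, h5, h6, h7⟩ := h
  exact ⟨ρ, μ, h1, h2, h3, h4, h5, h6, h7.neg.congr (by change _ = _ * -P.y; ring) rfl⟩

/-- Scaling. -/
theorem eqv_scale (h : Wts e c) {x x' : DPt c k} {ρ μ : k} (hρ : ρ ≠ 0) (hμ : μ ≠ 0)
    (hs : x'.s = ρ * x.s) (ht : x'.t = ρ * x.t) (hv : x'.v = ρ ^ e * μ * x.v)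
    (hw : x'.w = μ * x.w) (hy : x'.y = ρ ^ (e + 2) * μ ^ 2 * x.y) :
    (dcover e c).Eqv n x x' := by
  refine Geo.Eqv.of_family (dcover_nice h) (K := RatFunc k) (P := DPt.cst _ x)
    (f := RatFunc.X) RatFunc.transcendental_X (fun a _ => ?_) (fun a _ => ?_)
  · refine ⟨1, 1, one_ne_zero, one_ne_zero, ?_, ?_, ?_, ?_, ?_⟩
    · rw [one_mul]; exact HasVal.const a _
    · rw [one_mul]; exact HasVal.const a _
    · rw [one_pow, one_mul, one_mul]; exact HasVal.const a _
    · rw [one_mul]; exact HasVal.const a _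
    · rw [one_pow, one_pow, one_mul, one_mul]; exact HasVal.const a _
  · refine ⟨algebraMap k _ ρ, algebraMap k _ μ, (_root_.map_ne_zero _).2 hρ, (_root_.map_ne_zero _).2 hμ, ?_, ?_,
      ?_, ?_, ?_⟩
    · rw [hs]; exact (HasVal.const a _).mul (HasVal.const a _)
    · rw [ht]; exact (HasVal.const a _).mul (HasVal.const a _)
    · rw [hv]; exact (((HasVal.const a _).pow e).mul (HasVal.const a _)).mul (HasVal.const a _)
    · rw [hw]; exact (HasVal.const a _).mul (HasVal.const a _)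
    · rw [hy]; exact (((HasVal.const a _).pow _).mul ((HasVal.const a _).pow 2)).mul
        (HasVal.const a _)

/-- Scaling in a fibre. -/
theorem eqv_scale' (h : Wts e c) {x x' : DPt c k} {μ : k} (hμ : μ ≠ 0)
    (hs : x'.s = x.s) (ht : x'.t = x.t) (hv : x'.v = μ * x.v)
    (hw : x'.w = μ * x.w) (hy : x'.y = μ ^ 2 * x.y) :
    (dcover e c).Eqv n x x' :=
  eqv_scale h one_ne_zero hμ (by rw [one_mul]; exact hs) (by rw [one_mul]; exact ht)
    (by rw [one_pow, one_mul]; exact hv) hw (by rw [one_pow, one_mul]; exact hy)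

theorem exists_prop {v w v' w' : k} (h : ¬(v = 0 ∧ w = 0)) (h' : ¬(v' = 0 ∧ w' = 0))
    (he : v * w' = v' * w) : ∃ μ : k, μ ≠ 0 ∧ v' = μ * v ∧ w' = μ * w := by
  by_cases hv : v = 0
  · have hw : w ≠ 0 := fun hw => h ⟨hv, hw⟩
    have hv' : v' = 0 := by
      rw [hv, zero_mul] at he
      exact (mul_eq_zero.1 he.symm).resolve_right hw
    refine ⟨w' / w, div_ne_zero (fun hh => h' ⟨hv', hh⟩) hw, by rw [hv, hv', mul_zero], ?_⟩
    field_simp
  · refine ⟨v' / v, div_ne_zero (fun hh => ?_) hv, by field_simp, by field_simp; rw [mul_comm]; exact he⟩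
    rw [hh, zero_mul] at he
    exact h' ⟨hh, (mul_eq_zero.1 he).resolve_left hv⟩

/-- Two points of a fibre over the same point of the line. -/
theorem same_or_opp (h : Wts e c) {x x' : DPt c k} (hs : x'.s = x.s) (ht : x'.t = x.t)
    (hvw : x.v * x'.w = x'.v * x.w) :
    ((dcover e c).Eqv n x x' ∧ (dcover e c).Eqv n x.opp x'.opp ∧
      ∃ μ, μ ≠ 0 ∧ x'.v = μ * x.v ∧ x'.w = μ * x.w ∧ x'.y = μ ^ 2 * x.y) ∨
    ((dcover e c).Eqv n x.opp x' ∧ (dcover e c).Eqv n x x'.opp ∧
      ∃ μ, μ ≠ 0 ∧ x'.v = μ * x.v ∧ x'.w = μ * x.w ∧ x'.y = -(μ ^ 2 * x.y)) := by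
  obtain ⟨μ, hμ, hv, hw⟩ := exists_prop x.fib x'.fib hvw
  have h1 : x'.y ^ 2 = (μ ^ 2 * x.y) ^ 2 := by
    rw [x'.eq', hs, ht, hv, hw, qf_hom, mul_pow, x.eq']
    ring
  rcases sq_eq_sq_iff_eq_or_eq_neg.1 h1 with h2 | h2
  · exact Or.inl ⟨eqv_scale' h hμ hs ht hv hw h2, eqv_scale' h hμ hs ht hv hw (by
      change -x'.y = _ * -x.y; rw [h2]; ring), μ, hμ, hv, hw, h2⟩
  · exact Or.inr ⟨eqv_scale' h hμ hs ht hv hw (by
      change x'.y = _ * -x.y; rw [h2]; ring), eqv_scale' h hμ hs ht hv hw (by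
      change -x'.y = _ * x.y; rw [h2]; ring), μ, hμ, hv, hw, h2⟩

/-- The class of a fibre of the double cover. -/
noncomputable def NN (e : ℕ) (c : Fin 5 → MvPolynomial (Fin 2) k) {n : ℕ} (i : Fin n)
    (y : Fin n → (dcover e c).Pt k) (x : DPt c k) : (dcover e c).CH n :=
  (dcover e c).cl (Function.update y i x) + (dcover e c).cl (Function.update y i x.opp)

theorem NN_prop (h : Wts e c) {x x' : DPt c k} (hs : x'.s = x.s) (ht : x'.t = x.t)
    (hvw : x.v * x'.w = x'.v * x.w) (i : Fin n) (y : Fin n → (dcover e c).Pt k) :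
    NN e c i y x = NN e c i y x' := by
  unfold NN
  rcases same_or_opp (n := n) h hs ht hvw with ⟨h1, h2, -⟩ | ⟨h1, h2, -⟩
  · rw [h1 i y, h2 i y]
  · rw [h1 i y, h2 i y, add_comm]

/-- A point of a fibre over an extension. -/
noncomputable def fpt {K : Type} [Field K] [Algebra k K] (s t : k) (ξ η ζ : K)
    (hb : ¬(s = 0 ∧ t = 0)) (hf : ¬(ξ = 0 ∧ η = 0))
    (he : ζ ^ 2 = qf (am K (fc c s t)) ξ η) : DPt c K where
  s := algebraMap k K s
  t := algebraMap k K t
  v := ξ
  w := η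
  y := ζ
  base := fun h => hb ⟨(map_eq_zero _).1 h.1, (map_eq_zero _).1 h.2⟩
  fib := hf
  eq := by
    rw [he, ← fc_map]
    rfl

theorem fpt_spec (h : Wts e c) {K : Type} [Field K] [Algebra k K] [IsFF k K] {s t : k}
    {ξ η ζ : K} (hb : ¬(s = 0 ∧ t = 0)) (hf : ¬(ξ = 0 ∧ η = 0))
    (he : ζ ^ 2 = qf (am K (fc c s t)) ξ η) (a : Place k K) : ∃ (p : DPt c k) (μ : K),
      DSp e a (fpt s t ξ η ζ hb hf he) p ∧ p.s = s ∧ p.t = t ∧ μ ≠ 0 ∧
      HasVal a (μ * ξ) p.v ∧ HasVal a (μ * η) p.w ∧ HasVal a (μ ^ 2 * ζ) p.y := by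
  obtain ⟨μ, v₀, w₀, hμ, hv, hw, hvw⟩ := exists_prim a hf
  obtain ⟨p, hp, h1, h2, h3, h4, h5⟩ := exists_spec h a (fpt s t ξ η ζ hb hf he)
    (ρ := 1) (μ := μ) (s₀ := s) (t₀ := t) (v₀ := v₀) (w₀ := w₀) one_ne_zero hμ
    (by rw [one_mul]; exact HasVal.const a s) (by rw [one_mul]; exact HasVal.const a t) hb
    (hv.congr (by rw [one_pow, one_mul]; rfl) rfl) hw hvw
  refine ⟨p, μ, hp, h1, h2, hμ, ?_, ?_, ?_⟩
  · rw [h3]; exact hv
  · rw [h4]; exact hw
  · exact h5.congr (by rw [one_pow, one_mul]; rfl) rfl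

theorem NN_fib (h : Wts e c) {x x' : DPt c k} (hs : x'.s = x.s) (ht : x'.t = x.t) (i : Fin n)
    (y : Fin n → (dcover e c).Pt k) : NN e c i y x = NN e c i y x' := by
  by_cases hvw : x.v * x'.w = x'.v * x.w
  · exact NN_prop h hs ht hvw i y
  obtain ⟨K, _, _, _, ξ, ζ, hξ, hζ⟩ := exists_sqrt (k := k)
    (qf (fun j => C (fc c x.s x.t j)) X 1)
  have hζ' : ζ ^ 2 = qf (am K (fc c x.s x.t)) ξ 1 := by
    rw [hζ]
    have := qf_map (aeval (R := k) ξ).toRingHom (fun j => C (fc c x.s x.t j)) X 1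
    simp only [AlgHom.toRingHom_eq_coe, RingHom.coe_coe, aeval_X, map_one, aeval_C] at this
    exact this
  have hff : ¬(ξ = 0 ∧ (1 : K) = 0) := fun hh => one_ne_zero hh.2
  have hd : algebraMap k K x'.w * ξ - algebraMap k K x'.v ≠ 0 := by
    intro hd
    by_cases hw : x'.w = 0
    · rw [hw, map_zero, zero_mul, zero_sub, neg_eq_zero, map_eq_zero] at hd
      exact x'.fib ⟨hd, hw⟩
    · apply hξ
      have : ξ = algebraMap k K (x'.v / x'.w) := by
        rw [map_div₀, eq_div_iff ((_root_.map_ne_zero _).2 hw)]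
        linear_combination hd
      rw [this]
      exact isAlg_const _
  have hn : algebraMap k K x.w * ξ - algebraMap k K x.v ≠ 0 := by
    intro hd
    by_cases hw : x.w = 0
    · rw [hw, map_zero, zero_mul, zero_sub, neg_eq_zero, map_eq_zero] at hd
      exact x.fib ⟨hd, hw⟩
    · apply hξ
      have : ξ = algebraMap k K (x.v / x.w) := by
        rw [map_div₀, eq_div_iff ((_root_.map_ne_zero _).2 hw)]
        linear_combination hd
      rw [this]
      exact isAlg_const _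
  have hf : Transcendental k ((algebraMap k K x.w * ξ - algebraMap k K x.v) /
      (algebraMap k K x'.w * ξ - algebraMap k K x'.v)) := by
    intro hal
    obtain ⟨d, hd'⟩ := exists_const_of_isAlgebraic hal
    rw [eq_div_iff hd] at hd'
    by_cases hw : x.w = d * x'.w
    · have h1 : algebraMap k K (x.v - d * x'.v) = 0 := by
        rw [map_sub, map_mul]
        rw [hw, map_mul] at hd'
        linear_combination hd'
      rw [map_eq_zero] at h1
      apply hvw
      rw [hw, sub_eq_zero.1 h1]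
      ring
    · apply hξ
      have h1 : x.w - d * x'.w ≠ 0 := sub_ne_zero.2 hw
      have : ξ = algebraMap k K ((x.v - d * x'.v) / (x.w - d * x'.w)) := by
        rw [map_div₀, eq_div_iff ((_root_.map_ne_zero _).2 h1), map_sub, map_sub, map_mul, map_mul]
        linear_combination -hd'
      rw [this]
      exact isAlg_const _
  refine Geo.pair_const (dcover_nice h) i y (P := fpt x.s x.t ξ 1 ζ x.base hff hζ')
    (P' := (fpt x.s x.t ξ 1 ζ x.base hff hζ').opp) hf (fun a ha => ?_) (fun a ha => ?_)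
  · obtain ⟨p, μ, hp, h1, h2, h3, h4, h5, h6⟩ := fpt_spec h x.base hff hζ' a
    refine ⟨p, p.opp, hp, hp.opp, ?_⟩
    have h7 := (((HasVal.const a x.w).mul h4).sub ((HasVal.const a x.v).mul h5))
    have h8 := (((HasVal.const a x'.w).mul h4).sub ((HasVal.const a x'.v).mul h5))
    have h9 := (hasVal_zero_of_pos ha).mul h8
    have h10 := h7.unique (h9.congr (by rw [div_mul_eq_mul_div, div_eq_iff hd]; ring) rfl)
    rw [zero_mul] at h10
    exact (NN_prop h h1 h2 (by linear_combination -h10) i y).symm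
  · obtain ⟨p, μ, hp, h1, h2, h3, h4, h5, h6⟩ := fpt_spec h x.base hff hζ' a
    refine ⟨p, p.opp, hp, hp.opp, ?_⟩
    have h7 := (((HasVal.const a x.w).mul h4).sub ((HasVal.const a x.v).mul h5))
    have h8 := (((HasVal.const a x'.w).mul h4).sub ((HasVal.const a x'.v).mul h5))
    have ha' : 0 < a.ord ((algebraMap k K x'.w * ξ - algebraMap k K x'.v) /
        (algebraMap k K x.w * ξ - algebraMap k K x.v)) := by
      rw [← inv_div, a.ord_inv]
      omega
    have h9 := (hasVal_zero_of_pos ha').mul h7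
    have h10 := h8.unique (h9.congr (by rw [div_mul_eq_mul_div, div_eq_iff hn]; ring) rfl)
    rw [zero_mul] at h10
    exact (NN_prop h (h1.trans hs.symm) (h2.trans ht.symm) (by linear_combination -h10) i y).symm

end

end Pool.Agent.H833.EK
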