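import Pool.Agent.H833.EK.DefA

/-!
# Double covers of rational ruled surfaces
-/

set_option autoImplicit false

namespace Pool.Agent.H833.EK

open FF Polynomial

variable {k : Type} [Field k]

/-- The value of a binary form. -/
noncomputable def fv {R : Type} [CommRing R] [Algebra k R] (F : MvPolynomial (Fin 2) k)
    (s t : R) : R := MvPolynomial.aeval ![s, t] F

/-- The points over `K` of the double cover `y² = c₀(s,t) v⁴ + c₁(s,t) v³ w + … + c₄(s,t) w⁴` of
the ruled surface over the projective line, in homogeneous coordinates. -/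
structure DPt (c : Fin 5 → MvPolynomial (Fin 2) k) (K : Type) [Field K] [Algebra k K] where
  s : K
  t : K
  v : K
  w : K
  y : K
  base : ¬(s = 0 ∧ t = 0)
  fib : ¬(v = 0 ∧ w = 0)
  eq : y ^ 2 = fv (c 0) s t * v ^ 4 + fv (c 1) s t * v ^ 3 * w + fv (c 2) s t * v ^ 2 * w ^ 2 +
    fv (c 3) s t * v * w ^ 3 + fv (c 4) s t * w ^ 4

/-- The specialisation of the point `P` over a function field at the place `a` is the point `p`:
this is expressed in homogeneous coordinates, with the scalings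
`(s, t, v, w, y) ↦ (ρ s, ρ t, ρᵉ μ v, μ w, ρᵉ⁺² μ² y)`. -/
def DSp (e : ℕ) {c : Fin 5 → MvPolynomial (Fin 2) k} {K : Type} [Field K] [Algebra k K]
    (a : Place k K) (P : DPt c K) (p : DPt c k) : Prop :=
  ∃ ρ μ : K, ρ ≠ 0 ∧ μ ≠ 0 ∧ HasVal a (ρ * P.s) p.s ∧ HasVal a (ρ * P.t) p.t ∧
    HasVal a (ρ ^ e * μ * P.v) p.v ∧ HasVal a (μ * P.w) p.w ∧
    HasVal a (ρ ^ (e + 2) * μ ^ 2 * P.y) p.y

/-- The double cover of the ruled surface `F_e`. -/
def dcover (e : ℕ) (c : Fin 5 → MvPolynomial (Fin 2) k) : Geo k where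
  Pt := DPt c
  Sp := DSp e

/-- The coefficient `c_j` is a binary form of degree `4 + j e - 2 e`. -/
def Wts (e : ℕ) (c : Fin 5 → MvPolynomial (Fin 2) k) : Prop :=
  ∀ j, c j = 0 ∨ ∃ m, (c j).IsHomogeneous m ∧ m + 2 * e = 4 + j * e

/-- The covering involution. -/
def DPt.opp {c : Fin 5 → MvPolynomial (Fin 2) k} {K : Type} [Field K] [Algebra k K]
    (P : DPt c K) : DPt c K where
  s := P.s
  t := P.t
  v := P.v
  w := P.w
  y := -P.y
  base := P.base
  fib := P.fib
  eq := by rw [neg_sq]; exact P.eq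

end Pool.Agent.H833.EK
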