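import Pool.Agent.H833.EK.Hom
import Pool.Agent.H833.EK.DefB

/-!
# Double covers of rational ruled surfaces
-/

set_option autoImplicit false
set_option linter.unusedSectionVars false

namespace Pool.Agent.H833.EK

open FF Polynomial

section forms

variable {k : Type} [Field k]

variable {R : Type} [CommRing R] [Algebra k R] {F : MvPolynomial (Fin 2) k} {m : ℕ}

theorem fv_eq (F : MvPolynomial (Fin 2) k) (s t : R) :
    fv F s t = ∑ d ∈ F.support, algebraMap k R (F.coeff d) * (s ^ d 0 * t ^ d 1) := by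
  unfold fv
  rw [MvPolynomial.aeval_def, MvPolynomial.eval₂_eq']
  refine Finset.sum_congr rfl fun d _ => ?_
  rw [Fin.prod_univ_two]
  rfl

theorem deg_of_mem (h : F.IsHomogeneous m) {d : Fin 2 →₀ ℕ} (hd : d ∈ F.support) :
    d 0 + d 1 = m := by
  have h1 := h (MvPolynomial.mem_support_iff.1 hd)
  rw [Finsupp.weight_apply, Finsupp.sum_fintype _ _ (by simp), Fin.sum_univ_two] at h1
  simpa using h1

theorem fv_smul (h : F.IsHomogeneous m) (r s t : R) : fv F (r * s) (r * t) = r ^ m * fv F s t := by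
  rw [fv_eq, fv_eq, Finset.mul_sum]
  refine Finset.sum_congr rfl fun d hd => ?_
  rw [← deg_of_mem h hd, pow_add]
  ring

theorem fv_zero (s t : R) : fv (0 : MvPolynomial (Fin 2) k) s t = 0 := by
  unfold fv
  rw [map_zero]

theorem fv_map {R' : Type} [CommRing R'] [Algebra k R'] (φ : R →ₐ[k] R')
    (F : MvPolynomial (Fin 2) k) (s t : R) : φ (fv F s t) = fv F (φ s) (φ t) := by
  rw [fv_eq, fv_eq, map_sum]
  refine Finset.sum_congr rfl fun d _ => ?_
  rw [map_mul, map_mul, map_pow, map_pow, AlgHom.commutes]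

theorem hasVal_fv {K : Type} [Field K] [Algebra k K] {v : Place k K} {s t : K} {s₀ t₀ : k}
    (hs : HasVal v s s₀) (ht : HasVal v t t₀) (F : MvPolynomial (Fin 2) k) :
    HasVal v (fv F s t) (fv F s₀ t₀) := by
  unfold fv
  induction F using MvPolynomial.induction_on with
  | C a =>
    rw [MvPolynomial.aeval_C, MvPolynomial.aeval_C]
    exact HasVal.const v a
  | add p q hp hq => rw [map_add, map_add]; exact hp.add hq
  | mul_X p i hp =>
    rw [map_mul, map_mul, MvPolynomial.aeval_X, MvPolynomial.aeval_X]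
    refine hp.mul ?_
    fin_cases i
    · exact hs
    · exact ht

/-- The polynomial of a form in the chart `(s, t) = (1 + c u, u)`. -/
noncomputable def cp (c : k) (F : MvPolynomial (Fin 2) k) : k[X] := fv F (1 + C c * X) X

theorem aeval_cp (c : k) (F : MvPolynomial (Fin 2) k) {K : Type} [Field K] [Algebra k K] (u : K) :
    aeval u (cp c F) = fv F (1 + algebraMap k K c * u) u := by
  unfold cp
  rw [fv_map]
  simp

theorem eval_cp (c : k) (F : MvPolynomial (Fin 2) k) (u : k) :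
    (cp c F).eval u = fv F (1 + c * u) u := by
  have := aeval_cp c F u
  rw [← coe_aeval_eq_eval]
  simpa using this

theorem natDegree_cp (h : F.IsHomogeneous m) (c : k) : (cp c F).natDegree ≤ m := by
  unfold cp
  rw [fv_eq]
  refine natDegree_sum_le_of_forall_le _ _ fun d hd => ?_
  rw [← deg_of_mem h hd]
  refine (natDegree_C_mul_le _ _).trans (natDegree_mul_le.trans ?_)
  refine Nat.add_le_add (natDegree_pow_le.trans ?_) (natDegree_pow_le.trans ?_)
  · have h1 : (1 + C c * X : k[X]).natDegree ≤ 1 := by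
      refine (natDegree_add_le _ _).trans (max_le (by simp) ?_)
      exact (natDegree_C_mul_le _ _).trans natDegree_X_le
    calc d 0 * (1 + C c * X : k[X]).natDegree ≤ d 0 * 1 := Nat.mul_le_mul_left _ h1
      _ = d 0 := mul_one _
  · calc d 1 * (X : k[X]).natDegree ≤ d 1 * 1 := Nat.mul_le_mul_left _ natDegree_X_le
      _ = d 1 := mul_one _

end forms

section

variable {k : Type} [Field k]

/-- The quartic form. -/
def qf {R : Type} [CommRing R] (A : Fin 5 → R) (v w : R) : R :=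
  A 0 * v ^ 4 + A 1 * v ^ 3 * w + A 2 * v ^ 2 * w ^ 2 + A 3 * v * w ^ 3 + A 4 * w ^ 4

variable {e : ℕ} {c : Fin 5 → MvPolynomial (Fin 2) k}

/-- The coefficients of the quartic of the fibre. -/
noncomputable def fc (c : Fin 5 → MvPolynomial (Fin 2) k) {R : Type} [CommRing R] [Algebra k R]
    (s t : R) : Fin 5 → R := fun j => fv (c j) s t

theorem DPt.eq' {K : Type} [Field K] [Algebra k K] (P : DPt c K) :
    P.y ^ 2 = qf (fc c P.s P.t) P.v P.w := P.eq

theorem Wts.smul (h : Wts e c) {R : Type} [CommRing R] [Algebra k R] (r s t : R) (j : Fin 5) :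
    r ^ (2 * e) * fc c (r * s) (r * t) j = r ^ (4 + j * e) * fc c s t j := by
  unfold fc
  rcases h j with h | ⟨m, h, hm⟩
  · rw [h, fv_zero, fv_zero, mul_zero, mul_zero]
  · rw [fv_smul h, ← mul_assoc, ← pow_add, add_comm, hm]

theorem qf_smul (h : Wts e c) {R : Type} [CommRing R] [Algebra k R] [IsDomain R] {r : R}
    (hr : r ≠ 0) (m s t v w : R) :
    qf (fc c (r * s) (r * t)) (r ^ e * m * v) (m * w) =
      (r ^ (e + 2) * m ^ 2) ^ 2 * qf (fc c s t) v w := by
  have h1 := fun j => h.smul r s t j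
  have h0 := h1 0
  have h2 := h1 1
  have h3 := h1 2
  have h4 := h1 3
  have h5 := h1 4
  simp only [Fin.val_zero, Fin.val_one, Fin.val_two, zero_mul, one_mul, add_zero] at h0 h2 h3
  have e3 : ((3 : Fin 5) : ℕ) = 3 := rfl
  have e4 : ((4 : Fin 5) : ℕ) = 4 := rfl
  rw [e3] at h4
  rw [e4] at h5
  refine mul_left_cancel₀ (pow_ne_zero (2 * e) hr) ?_
  unfold qf
  have hh : r ^ (2 * e) = (r ^ e) ^ 2 := by rw [mul_comm, pow_mul]
  have g0 : (r ^ e) ^ 2 * fc c (r * s) (r * t) 0 = r ^ 4 * fc c s t 0 := by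
    rw [← hh, h0]
  have g1 : (r ^ e) ^ 2 * fc c (r * s) (r * t) 1 = r ^ 4 * r ^ e * fc c s t 1 := by
    rw [← hh, h2, pow_add]
  have g2 : (r ^ e) ^ 2 * fc c (r * s) (r * t) 2 = r ^ 4 * (r ^ e) ^ 2 * fc c s t 2 := by
    rw [← hh, h3, pow_add, hh]
  have g3 : (r ^ e) ^ 2 * fc c (r * s) (r * t) 3 = r ^ 4 * (r ^ e) ^ 3 * fc c s t 3 := by
    rw [← hh, h4, pow_add, mul_comm 3 e, pow_mul]
  have g4 : (r ^ e) ^ 2 * fc c (r * s) (r * t) 4 = r ^ 4 * (r ^ e) ^ 4 * fc c s t 4 := by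
    rw [← hh, h5, pow_add, mul_comm 4 e, pow_mul]
  rw [hh, pow_add r e 2]
  linear_combination (r ^ e * m * v) ^ 4 * g0 + (r ^ e * m * v) ^ 3 * (m * w) * g1 +
    (r ^ e * m * v) ^ 2 * (m * w) ^ 2 * g2 + (r ^ e * m * v) * (m * w) ^ 3 * g3 +
    (m * w) ^ 4 * g4

theorem hasVal_qf {K : Type} [Field K] [Algebra k K] {a : Place k K} {A : Fin 5 → K}
    {A₀ : Fin 5 → k} (hA : ∀ j, HasVal a (A j) (A₀ j)) {v w : K} {v₀ w₀ : k}
    (hv : HasVal a v v₀) (hw : HasVal a w w₀) : HasVal a (qf A v w) (qf A₀ v₀ w₀) := by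
  unfold qf
  exact (((((hA 0).mul (hv.pow 4)).add (((hA 1).mul (hv.pow 3)).mul hw)).add
    (((hA 2).mul (hv.pow 2)).mul (hw.pow 2))).add (((hA 3).mul hv).mul (hw.pow 3))).add
    ((hA 4).mul (hw.pow 4))

/-- Primitive multiples of pairs. -/
theorem exists_prim {K : Type} [Field K] [Algebra k K] [CharZero k] [IsAlgClosed k] [IsFF k K]
    (a : Place k K) {x y : K} (h : ¬(x = 0 ∧ y = 0)) : ∃ (r : K) (x₀ y₀ : k), r ≠ 0 ∧
      HasVal a (r * x) x₀ ∧ HasVal a (r * y) y₀ ∧ ¬(x₀ = 0 ∧ y₀ = 0) := by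
  by_cases h1 : x ≠ 0 ∧ a.Reg (y / x)
  · obtain ⟨y₀, hy⟩ := exists_hasVal h1.2
    refine ⟨x⁻¹, 1, y₀, inv_ne_zero h1.1, ?_, ?_, fun hh => one_ne_zero hh.1⟩
    · rw [inv_mul_cancel₀ h1.1]
      exact HasVal.one a
    · exact hy.congr (by rw [div_eq_inv_mul]) rfl
  · have h2 : y ≠ 0 := by
      rintro rfl
      have hx : x ≠ 0 := fun hx => h ⟨hx, rfl⟩
      apply h1
      refine ⟨hx, ?_⟩
      rw [zero_div]
      exact (HasVal.zero a).reg
    have h3 : HasVal a (x / y) 0 ∨ a.Reg (x / y) := by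
      by_cases hx : x = 0
      · left
        rw [hx, zero_div]
        exact HasVal.zero a
      · left
        have h4 : ¬ a.Reg (y / x) := fun hh => h1 ⟨hx, hh⟩
        obtain ⟨h5, h6⟩ := not_reg_iff.1 h4
        refine hasVal_zero_of_pos ?_
        rw [← inv_div, a.ord_inv]
        omega
    obtain ⟨x₀, hx₀⟩ : ∃ x₀, HasVal a (x / y) x₀ := by
      rcases h3 with h3 | h3
      · exact ⟨0, h3⟩
      · exact exists_hasVal h3
    refine ⟨y⁻¹, x₀, 1, inv_ne_zero h2, ?_, ?_, fun hh => one_ne_zero hh.2⟩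
    · exact hx₀.congr (by rw [div_eq_inv_mul]) rfl
    · rw [inv_mul_cancel₀ h2]
      exact HasVal.one a

variable [CharZero k] [IsAlgClosed k]

/-- The specialisation of a point with primitive coordinates in the base and in the fibre. -/
theorem exists_spec (h : Wts e c) {K : Type} [Field K] [Algebra k K] [IsFF k K] (a : Place k K)
    (P : DPt c K) {ρ μ : K} {s₀ t₀ v₀ w₀ : k} (hρ : ρ ≠ 0) (hμ : μ ≠ 0)
    (hs : HasVal a (ρ * P.s) s₀) (ht : HasVal a (ρ * P.t) t₀) (hst : ¬(s₀ = 0 ∧ t₀ = 0))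
    (hv : HasVal a (ρ ^ e * μ * P.v) v₀) (hw : HasVal a (μ * P.w) w₀)
    (hvw : ¬(v₀ = 0 ∧ w₀ = 0)) : ∃ p : DPt c k, DSp e a P p ∧ p.s = s₀ ∧ p.t = t₀ ∧ p.v = v₀ ∧
      p.w = w₀ ∧ HasVal a (ρ ^ (e + 2) * μ ^ 2 * P.y) p.y := by
  have h1 : HasVal a ((ρ ^ (e + 2) * μ ^ 2 * P.y) ^ 2) (qf (fc c s₀ t₀) v₀ w₀) := by
    have h2 := hasVal_qf (A := fc c (ρ * P.s) (ρ * P.t)) (A₀ := fc c s₀ t₀)
      (fun j => hasVal_fv hs ht (c j)) hv hw
    refine h2.congr ?_ rfl
    rw [qf_smul h hρ, ← P.eq', mul_pow _ P.y]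
  obtain ⟨y₀, hy₀, hy⟩ := h1.of_pow two_ne_zero
  exact ⟨⟨s₀, t₀, v₀, w₀, y₀, hst, hvw, hy⟩, ⟨ρ, μ, hρ, hμ, hs, ht, hv, hw, hy₀⟩, rfl, rfl, rfl,
    rfl, hy₀⟩

/-- The constant point. -/
noncomputable def DPt.cst (K : Type) [Field K] [Algebra k K] (p : DPt c k) : DPt c K where
  s := algebraMap k K p.s
  t := algebraMap k K p.t
  v := algebraMap k K p.v
  w := algebraMap k K p.w
  y := algebraMap k K p.y
  base := fun h => p.base ⟨(map_eq_zero _).1 h.1, (map_eq_zero _).1 h.2⟩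
  fib := fun h => p.fib ⟨(map_eq_zero _).1 h.1, (map_eq_zero _).1 h.2⟩
  eq := by
    have h1 : ∀ F : MvPolynomial (Fin 2) k, fv F (algebraMap k K p.s) (algebraMap k K p.t) =
        algebraMap k K (fv F p.s p.t) := fun F => (fv_map (Algebra.ofId k K) F p.s p.t).symm
    simp only [h1, ← map_pow, ← map_mul, ← map_add]
    rw [p.eq]

theorem dcover_nice (h : Wts e c) : (dcover e c).Nice where
  cst := fun K _ _ p => ⟨DPt.cst K p, fun a => ⟨1, 1, one_ne_zero, one_ne_zero, by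
    rw [one_mul]; exact HasVal.const a _, by rw [one_mul]; exact HasVal.const a _, by
    rw [one_pow, one_mul, one_mul]; exact HasVal.const a _, by
    rw [one_mul]; exact HasVal.const a _, by
    rw [one_pow, one_pow, one_mul, one_mul]; exact HasVal.const a _⟩⟩
  prop := fun K _ _ _ a P => by
    obtain ⟨ρ, s₀, t₀, hρ, hs, ht, hst⟩ := exists_prim a P.base
    have h1 : ¬(ρ ^ e * P.v = 0 ∧ P.w = 0) := by
      rintro ⟨h1, h2⟩
      exact P.fib ⟨(mul_eq_zero.1 h1).resolve_left (pow_ne_zero _ hρ), h2⟩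
    obtain ⟨μ, v₀, w₀, hμ, hv, hw, hvw⟩ := exists_prim a h1
    obtain ⟨p, hp, -⟩ := exists_spec h a P hρ hμ hs ht hst
      (hv.congr (by ring) rfl) hw hvw
    exact ⟨p, hp⟩

end

end Pool.Agent.H833.EK
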