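import Pool.Agent.H833.EK.DBad

/-!
# Rational equivalences on double covers: the covering of the Jacobian
-/

set_option autoImplicit false
set_option linter.unusedSectionVars false

namespace Pool.Agent.H833.EK

open FF Polynomial

section

variable {k : Type} [Field k] [CharZero k] [IsAlgClosed k] {n : ℕ}
variable {e : ℕ} {c : Fin 5 → MvPolynomial (Fin 2) k} {o x : DPt c k}

theorem am_mulQ (K : Type) [Field K] [Algebra k K] (Q P : Fin 3 → k) :
    am K (mulQ Q P) = mulQ (fun j => algebraMap k K (Q j)) fun j => algebraMap k K (P j) := by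
  unfold am mulQ
  funext j
  fin_cases j <;> simp

theorem kv_smul {R : Type} [CommRing R] (Q P : Fin 3 → R) (m v w : R) :
    kv Q P (m * v) (m * w) = m * kv Q P v w := by
  unfold kv; ring

theorem kw_smul {R : Type} [CommRing R] (Q P : Fin 3 → R) (m v w : R) :
    kw Q P (m * v) (m * w) = m * kw Q P v w := by
  unfold kw; ring

theorem qd_smul {R : Type} [CommRing R] (Q : Fin 3 → R) (m v w : R) :
    qd Q (m * v) (m * w) = m ^ 2 * qd Q v w := by
  unfold qd; ring

theorem kvw_ne {R : Type} [Field R] {Q P : Fin 3 → R} (hR : kR Q P ≠ 0) {v w : R}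
    (h : ¬(v = 0 ∧ w = 0)) : ¬(kv Q P v w = 0 ∧ kw Q P v w = 0) := by
  rintro ⟨h1, h2⟩
  have h3 := kv_kv Q P v w
  have h4 := kw_kw Q P v w
  rw [h1, h2] at h3 h4
  have h5 : kv Q P 0 0 = 0 := by unfold kv; ring
  have h6 : kw Q P 0 0 = 0 := by unfold kw; ring
  rw [h5] at h3
  rw [h6] at h4
  exact h ⟨(mul_eq_zero.1 h3.symm).resolve_left hR, (mul_eq_zero.1 h4.symm).resolve_left hR⟩

theorem kv_map {R R' : Type} [CommRing R] [CommRing R'] (φ : R →+* R') (Q P : Fin 3 → R)
    (v w : R) : φ (kv Q P v w) = kv (fun j => φ (Q j)) (fun j => φ (P j)) (φ v) (φ w) := by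
  unfold kv kb kc
  simp only [map_neg, map_add, map_mul, map_sub]

theorem kR_map {R R' : Type} [CommRing R] [CommRing R'] (φ : R →+* R') (Q P : Fin 3 → R) :
    φ (kR Q P) = kR (fun j => φ (Q j)) (fun j => φ (P j)) := by
  unfold kR ka kb kc
  simp only [map_sub, map_mul, map_pow]

theorem hasVal_qd {K : Type} [Field K] [Algebra k K] {a : Place k K} (Q : Fin 3 → k)
    {v w : K} {v₀ w₀ : k} (hv : HasVal a v v₀) (hw : HasVal a w w₀) :
    HasVal a (qd (fun j => algebraMap k K (Q j)) v w) (qd Q v₀ w₀) := by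
  unfold qd
  exact ((((HasVal.const a _).mul (hv.pow 2)).add (((HasVal.const a _).mul hv).mul hw)).add
    ((HasVal.const a _).mul (hw.pow 2)))

theorem hasVal_kv {K : Type} [Field K] [Algebra k K] {a : Place k K} (Q P : Fin 3 → k)
    {v w : K} {v₀ w₀ : k} (hv : HasVal a v v₀) (hw : HasVal a w w₀) :
    HasVal a (kv (fun j => algebraMap k K (Q j)) (fun j => algebraMap k K (P j)) v w)
      (kv Q P v₀ w₀) := by
  have h : ∀ z : K, z = z := fun _ => rfl
  unfold kv
  have h1 : kb (fun j => algebraMap k K (Q j)) (fun j => algebraMap k K (P j)) =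
      algebraMap k K (kb Q P) := by unfold kb; simp only [map_sub, map_mul]
  have h2 : kc (fun j => algebraMap k K (Q j)) (fun j => algebraMap k K (P j)) =
      algebraMap k K (kc Q P) := by unfold kc; simp only [map_sub, map_mul]
  rw [h1, h2]
  exact ((((HasVal.const a _).mul hv).add ((HasVal.const a _).mul hw)).neg)

theorem hasVal_kw {K : Type} [Field K] [Algebra k K] {a : Place k K} (Q P : Fin 3 → k)
    {v w : K} {v₀ w₀ : k} (hv : HasVal a v v₀) (hw : HasVal a w w₀) :
    HasVal a (kw (fun j => algebraMap k K (Q j)) (fun j => algebraMap k K (P j)) v w)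
      (kw Q P v₀ w₀) := by
  unfold kw
  have h1 : ka (fun j => algebraMap k K (Q j)) (fun j => algebraMap k K (P j)) =
      algebraMap k K (ka Q P) := by unfold ka; simp only [map_sub, map_mul]
  have h2 : kb (fun j => algebraMap k K (Q j)) (fun j => algebraMap k K (P j)) =
      algebraMap k K (kb Q P) := by unfold kb; simp only [map_sub, map_mul]
  rw [h1, h2]
  exact (((HasVal.const a _).mul hv).add ((HasVal.const a _).mul hw))

/-- A quadratic polynomial does not vanish at a transcendental element. -/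
theorem qd_eq_zero {K : Type} [Field K] [Algebra k K] {ξ : K} (hξ : Transcendental k ξ)
    {Q : Fin 3 → k} (h : qd (fun j => algebraMap k K (Q j)) ξ 1 = 0) : Q = 0 := by
  have h1 : aeval ξ (C (Q 0) * X ^ 2 + C (Q 1) * X + C (Q 2) : k[X]) = 0 := by
    rw [← h]
    unfold qd
    simp
  have h2 := transcendental_iff.1 hξ _ h1
  funext j
  fin_cases j
  · have := congrArg (fun p => coeff p 2) h2
    simpa using this
  · have := congrArg (fun p => coeff p 1) h2
    simpa [coeff_X] using this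
  · have := congrArg (fun p => coeff p 0) h2
    simpa using this

/-- The involution attached to a factorisation of the quartic. -/
def DPt.kap (x : DPt c k) {Q P : Fin 3 → k} (hA : fc c x.s x.t = mulQ Q P) (hR : kR Q P ≠ 0) :
    DPt c k where
  s := x.s
  t := x.t
  v := kv Q P x.v x.w
  w := kw Q P x.v x.w
  y := kR Q P * x.y
  base := x.base
  fib := kvw_ne hR x.fib
  eq := by
    have h1 : (kR Q P * x.y) ^ 2 = qf (fc c x.s x.t) (kv Q P x.v x.w) (kw Q P x.v x.w) := by
      rw [mul_pow, x.eq', hA, qf_mulQ, qf_mulQ, qd_left, qd_right]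
      ring
    exact h1

theorem opp_kap (h : Wts e c) (ho : o.y = 0) (x : DPt c k) {Q P : Fin 3 → k}
    (hA : fc c x.s x.t = mulQ Q P) (hR : kR Q P ≠ 0) :
    (dcover e c).Opp n o x (x.kap hA hR) := by
  intro i y
  by_cases hQ : qd Q x.v x.w = 0
  · have h1 := x.eq'
    rw [hA, qf_mulQ, hQ, zero_mul] at h1
    have h2 := pow_eq_zero_iff two_ne_zero |>.1 h1
    have h3 : (x.kap hA hR).y = 0 := by change kR Q P * x.y = 0; rw [h2, mul_zero]
    rw [eqv_ram (n := n) h ho h2 i y, eqv_ram (n := n) h ho h3 i y, two_smul]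
  obtain ⟨K, _, _, _, ξ, ζ, hξ, hζ⟩ := exists_sqrt (k := k)
    (qf (fun j => C (fc c x.s x.t j)) X 1)
  have hζ' : ζ ^ 2 = qf (am K (fc c x.s x.t)) ξ 1 := by
    rw [hζ]
    have := qf_map (aeval (R := k) ξ).toRingHom (fun j => C (fc c x.s x.t j)) X 1
    simp only [AlgHom.toRingHom_eq_coe, RingHom.coe_coe, aeval_X, map_one, aeval_C] at this
    exact this
  have hff : ¬(ξ = 0 ∧ (1 : K) = 0) := fun hh => one_ne_zero hh.2
  set Q' : Fin 3 → K := fun j => algebraMap k K (Q j) with hQ'
  set P' : Fin 3 → K := fun j => algebraMap k K (P j) with hP'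
  have hRm : algebraMap k K (kR Q P) = kR Q' P' := kR_map (algebraMap k K) Q P
  have hR' : kR Q' P' ≠ 0 := by
    rw [← hRm]
    exact fun hh => hR ((map_eq_zero _).1 hh)
  have hζ2 : ζ ^ 2 = qd Q' ξ 1 * qd P' ξ 1 := by
    rw [hζ', hA, am_mulQ, qf_mulQ]
  have hζ'' : (algebraMap k K (kR Q P) * ζ) ^ 2 =
      qf (am K (fc c x.s x.t)) (kv Q' P' ξ 1) (kw Q' P' ξ 1) := by
    rw [mul_pow, hζ2, hA, am_mulQ, qf_mulQ, qd_left, qd_right, hRm]
    ring
  have hff' := kvw_ne hR' hff
  have hQξ : qd Q' ξ 1 ≠ 0 := by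
    intro h1
    have h2 := qd_eq_zero hξ h1
    apply hR
    rw [h2]
    unfold kR ka kb kc
    simp
  have hζ0 : ζ ≠ 0 := by
    rintro rfl
    rw [zero_pow two_ne_zero] at hζ2
    have h1 := (mul_eq_zero.1 hζ2.symm).resolve_left hQξ
    have h2 := qd_eq_zero hξ h1
    apply hR
    rw [h2]
    unfold kR ka kb kc
    simp
  set h₀ := x.y / qd Q x.v x.w with hh₀
  have hxy : x.y = h₀ * qd Q x.v x.w := by rw [hh₀]; field_simp
  have hxP : qd P x.v x.w = h₀ ^ 2 * qd Q x.v x.w := by
    have h1 := x.eq'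
    rw [hA, qf_mulQ, hxy] at h1
    refine mul_left_cancel₀ hQ ?_
    linear_combination -h1
  set f := ζ / qd Q' ξ 1 with hf
  have hfζ : f * qd Q' ξ 1 = ζ := by rw [hf]; field_simp
  have hfζ' : f * ζ = qd P' ξ 1 := by
    refine mul_left_cancel₀ hQξ ?_
    linear_combination ζ * hfζ + hζ2
  have htr : Transcendental k (f - algebraMap k K h₀) := by
    intro hal
    obtain ⟨d, hd⟩ := exists_const_of_isAlgebraic hal
    have h1 : f = algebraMap k K (d + h₀) := by rw [map_add, hd]; ring
    rw [h1] at hfζ hfζ'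
    have h2 : qd (fun j => algebraMap k K (P j - (d + h₀) ^ 2 * Q j)) ξ 1 = 0 := by
      have h3 : qd (fun j => algebraMap k K (P j - (d + h₀) ^ 2 * Q j)) ξ 1 =
          qd P' ξ 1 - algebraMap k K (d + h₀) ^ 2 * qd Q' ξ 1 := by
        unfold qd
        simp only [hQ', hP', map_sub, map_mul, map_pow]
        ring
      rw [h3, ← hfζ', ← hfζ]
      ring
    have h3 := qd_eq_zero hξ h2
    apply hR
    have h4 : ∀ j, P j = (d + h₀) ^ 2 * Q j := fun j => by
      have := congrFun h3 j
      simp only [Pi.zero_apply] at this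
      linear_combination this
    unfold kR ka kb kc
    rw [h4, h4, h4]
    ring
  have h2 := Geo.pair_const (dcover_nice h) i y (P := fpt x.s x.t ξ 1 ζ x.base hff hζ')
    (P' := fpt x.s x.t (kv Q' P' ξ 1) (kw Q' P' ξ 1) (algebraMap k K (kR Q P) * ζ) x.base hff' hζ'')
    htr (c₀ := (dcover e c).cl (Function.update y i x) +
      (dcover e c).cl (Function.update y i (x.kap hA hR)))
    (c₁ := (dcover e c).cl (Function.update y i o) + (dcover e c).cl (Function.update y i o))
    (fun a ha => ?_) (fun a ha => ?_)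
  · rw [h2, two_smul]
  · obtain ⟨p, μ, hp, h1, h2, h3, h4, h5, h6⟩ := fpt_spec h x.base hff hζ' a
    have hAp : fc c p.s p.t = mulQ Q P := by rw [h1, h2, hA]
    have hSp : DSp e a (fpt x.s x.t (kv Q' P' ξ 1) (kw Q' P' ξ 1)
        (algebraMap k K (kR Q P) * ζ) x.base hff' hζ'') (p.kap hAp hR) := by
      refine ⟨1, μ, one_ne_zero, h3, ?_, ?_, ?_, ?_, ?_⟩
      · rw [one_mul]; change HasVal a (algebraMap k K x.s) p.s; rw [h1]; exact HasVal.const a _
      · rw [one_mul]; change HasVal a (algebraMap k K x.t) p.t; rw [h2]; exact HasVal.const a _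
      · rw [one_pow, one_mul]
        exact (hasVal_kv Q P h4 h5).congr (kv_smul Q' P' μ ξ 1) rfl
      · exact (hasVal_kw Q P h4 h5).congr (kw_smul Q' P' μ ξ 1) rfl
      · rw [one_pow, one_mul]
        exact ((HasVal.const a (kR Q P)).mul h6).congr (by
          change _ = μ ^ 2 * (algebraMap k K (kR Q P) * ζ); ring) rfl
    refine ⟨p, p.kap hAp hR, hp, hSp, ?_⟩
    have hf0 : HasVal a f h₀ :=
      ((hasVal_zero_of_pos ha).add (HasVal.const a h₀)).congr (by ring) (by ring)
    have hpQ : h₀ * qd Q p.v p.w = p.y := by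
      refine ((hf0.mul (hasVal_qd Q h4 h5)).congr ?_ rfl).unique h6
      rw [← hfζ, qd_smul]
      ring
    have hpP : h₀ * p.y = qd P p.v p.w := by
      refine ((hf0.mul h6).congr ?_ rfl).unique (hasVal_qd P h4 h5)
      rw [qd_smul, ← hfζ']
      ring
    have h7 : (p.v * x.w - x.v * p.w) * kD Q P p.v p.w x.v x.w = 0 := by
      rw [← kD_eq, hxP, ← hpP, ← hpQ]
      ring
    rcases mul_eq_zero.1 h7 with h8 | h8
    · obtain ⟨κ, hκ, h9, h10⟩ := exists_prop x.fib p.fib (by linear_combination -h8)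
      have h11 : p.y = κ ^ 2 * x.y := by
        rw [← hpQ, h9, h10, qd_smul, hxy]; ring
      have e1 : (dcover e c).Eqv n x p := eqv_scale' h hκ h1 h2 h9 h10 h11
      have e2 : (dcover e c).Eqv n (x.kap hA hR) (p.kap hAp hR) :=
        eqv_scale' h hκ h1 h2 (by change kv Q P p.v p.w = _; rw [h9, h10, kv_smul]; rfl)
          (by change kw Q P p.v p.w = _; rw [h9, h10, kw_smul]; rfl)
          (by change kR Q P * p.y = κ ^ 2 * (kR Q P * x.y); rw [h11]; ring)
      rw [← e1 i y, ← e2 i y]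
    · have h8' : kD Q P x.v x.w p.v p.w = 0 := by
        rw [← h8]; unfold kD; ring
      rw [kD_kv] at h8'
      obtain ⟨κ, hκ, h9, h10⟩ := exists_prop (kvw_ne hR x.fib) p.fib (by linear_combination -h8')
      have h11 : p.y = κ ^ 2 * (kR Q P * x.y) := by
        rw [← hpQ, h9, h10, qd_smul, qd_left, hxy]; ring
      have e1 : (dcover e c).Eqv n (x.kap hA hR) p := eqv_scale' h hκ h1 h2 h9 h10 h11
      have e2 : (dcover e c).Eqv n x (p.kap hAp hR) :=
        eqv_scale' h (mul_ne_zero hκ hR) h1 h2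
          (by change kv Q P p.v p.w = _; rw [h9, h10, kv_smul, kv_kv]; ring)
          (by change kw Q P p.v p.w = _; rw [h9, h10, kw_smul, kw_kw]; ring)
          (by change kR Q P * p.y = _; rw [h11]; ring)
      rw [← e1 i y, ← e2 i y, add_comm]
  · obtain ⟨p, μ, hp, h1, h2, h3, h4, h5, h6⟩ := fpt_spec h x.base hff hζ' a
    have hAp : fc c p.s p.t = mulQ Q P := by rw [h1, h2, hA]
    have hSp : DSp e a (fpt x.s x.t (kv Q' P' ξ 1) (kw Q' P' ξ 1)
        (algebraMap k K (kR Q P) * ζ) x.base hff' hζ'') (p.kap hAp hR) := by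
      refine ⟨1, μ, one_ne_zero, h3, ?_, ?_, ?_, ?_, ?_⟩
      · rw [one_mul]; change HasVal a (algebraMap k K x.s) p.s; rw [h1]; exact HasVal.const a _
      · rw [one_mul]; change HasVal a (algebraMap k K x.t) p.t; rw [h2]; exact HasVal.const a _
      · rw [one_pow, one_mul]
        exact (hasVal_kv Q P h4 h5).congr (kv_smul Q' P' μ ξ 1) rfl
      · exact (hasVal_kw Q P h4 h5).congr (kw_smul Q' P' μ ξ 1) rfl
      · rw [one_pow, one_mul]
        exact ((HasVal.const a (kR Q P)).mul h6).congr (by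
          change _ = μ ^ 2 * (algebraMap k K (kR Q P) * ζ); ring) rfl
    refine ⟨p, p.kap hAp hR, hp, hSp, ?_⟩
    have hpQ : qd Q p.v p.w = 0 := by
      by_contra hpQ
      have h7 := h6.div (hasVal_qd Q h4 h5) hpQ
      have h8 := h7.sub (HasVal.const a h₀)
      have h9 : a.Reg (f - algebraMap k K h₀) := by
        have h10 : f = μ ^ 2 * ζ / qd (fun j => algebraMap k K (Q j)) (μ * ξ) (μ * 1) := by
          rw [qd_smul, ← hQ', mul_div_mul_left _ _ (pow_ne_zero 2 h3)]
        rw [h10]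
        exact h8.reg
      have h10 := (a.reg_iff (not_const htr)).1 h9
      omega
    have hpy : p.y = 0 := by
      have h7 := p.eq'
      rw [hAp, qf_mulQ, hpQ, zero_mul] at h7
      exact pow_eq_zero_iff two_ne_zero |>.1 h7
    have hpy' : (p.kap hAp hR).y = 0 := by change kR Q P * p.y = 0; rw [hpy, mul_zero]
    rw [eqv_ram (n := n) h ho hpy i y, eqv_ram (n := n) h ho hpy' i y]

end

end Pool.Agent.H833.EK
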