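import Pool.Agent.H833.EK.DPair

/-!
# The conjecture of Voisin for double covers of ruled surfaces
-/

set_option autoImplicit false
set_option linter.unusedSectionVars false

namespace Pool.Agent.H833.EK

open FF Polynomial

section

variable {k : Type} [Field k] [CharZero k] [IsAlgClosed k] {n : ℕ}
variable {e : ℕ} {c : Fin 5 → MvPolynomial (Fin 2) k} {o : DPt c k}

/-- A coordinate on the line which is regular at three given points. -/
theorem exists_chart {s₀ t₀ s₁ t₁ s₂ t₂ : k} (h₀ : ¬(s₀ = 0 ∧ t₀ = 0)) (h₁ : ¬(s₁ = 0 ∧ t₁ = 0))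
    (h₂ : ¬(s₂ = 0 ∧ t₂ = 0)) :
    ∃ β : k, s₀ - β * t₀ ≠ 0 ∧ s₁ - β * t₁ ≠ 0 ∧ s₂ - β * t₂ ≠ 0 := by
  have hne : ∀ {s t : k}, ¬(s = 0 ∧ t = 0) → (C s - X * C t : k[X]) ≠ 0 := by
    intro s t h h0
    have h1 := congrArg (fun p => coeff p 0) h0
    have h2 := congrArg (fun p => coeff p 1) h0
    simp at h1 h2
    exact h ⟨h1, h2⟩
  have h3 := mul_ne_zero (mul_ne_zero (hne h₀) (hne h₁)) (hne h₂)
  have : Infinite k := IsAlgClosed.instInfinite
  obtain ⟨β, hβ⟩ : ∃ β, eval β ((C s₀ - X * C t₀) * (C s₁ - X * C t₁) * (C s₂ - X * C t₂)) ≠ 0 := by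
    by_contra hcon
    push Not at hcon
    exact h3 (Polynomial.funext fun x => by rw [hcon x, eval_zero])
  rw [eval_mul, eval_mul] at hβ
  have h4 := left_ne_zero_of_mul hβ
  refine ⟨β, ?_, ?_, ?_⟩
  · have := left_ne_zero_of_mul h4
    rw [eval_sub, eval_mul, eval_X, eval_C, eval_C] at this
    exact this
  · have := right_ne_zero_of_mul h4
    rw [eval_sub, eval_mul, eval_X, eval_C, eval_C] at this
    exact this
  · have := right_ne_zero_of_mul hβ
    rw [eval_sub, eval_mul, eval_X, eval_C, eval_C] at this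
    exact this

/-- A point of the double cover and its image in the Jacobian. -/
theorem exists_point (h : Wts e c) (ho : o.y = 0) {x : DPt c k} {β : k}
    (hβ : x.s - β * x.t ≠ 0) : (dcover e c).Eqv n x o ∨
      ∃ p : T3 k, OnS (pa β c) (pb β c) p ∧ (disc (pa β c) (pb β c)).eval p.1 ≠ 0 ∧
        (dcover e c).Eqv n (pre β o p) x := by
  have hρ : (x.s - β * x.t)⁻¹ ≠ 0 := inv_ne_zero hβ
  set x' := x.scale h hρ one_ne_zero with hx'
  have hxx' : (dcover e c).Eqv n x x' := eqv_scale h hρ one_ne_zero rfl rfl rfl rfl rfl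
  have hs : x'.s = 1 + β * x'.t := by
    change (x.s - β * x.t)⁻¹ * x.s = 1 + β * ((x.s - β * x.t)⁻¹ * x.t)
    field_simp
    ring
  by_cases hy : x'.y = 0
  · exact Or.inl (hxx'.trans (eqv_ram h ho hy))
  by_cases hd : 4 * qI (fc c x'.s x'.t) ^ 3 - qJ (fc c x'.s x'.t) ^ 2 = 0
  · exact Or.inl (hxx'.trans (eqv_disc h ho hd))
  right
  set A := fc c x'.s x'.t with hA
  have hcov : Cov x' (q4 A x'.v x'.w / (12 * x'.y ^ 2)) (q6 A x'.v x'.w / (8 * x'.y ^ 3)) := by
    constructor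
    · rw [mul_div_cancel₀]
      exact mul_ne_zero (by norm_num) (pow_ne_zero 2 hy)
    · rw [mul_div_cancel₀]
      exact mul_ne_zero (by norm_num) (pow_ne_zero 3 hy)
  have hdisc : (disc (pa β c) (pb β c)).eval x'.t ≠ 0 := by
    rw [eval_disc, ← hs]
    exact mul_ne_zero (by norm_num) hd
  have hon : OnS (pa β c) (pb β c) ((x'.t, q4 A x'.v x'.w / (12 * x'.y ^ 2),
      q6 A x'.v x'.w / (8 * x'.y ^ 3)) : T3 k) := by
    change (q6 A x'.v x'.w / (8 * x'.y ^ 3)) ^ 2 = (q4 A x'.v x'.w / (12 * x'.y ^ 2)) ^ 3 +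
      aeval x'.t (pa β c) * (q4 A x'.v x'.w / (12 * x'.y ^ 2)) + aeval x'.t (pb β c)
    rw [aeval_pa, aeval_pb]
    change _ = (q4 A x'.v x'.w / (12 * x'.y ^ 2)) ^ 3 +
      (-(1 / 3) * qI (fc c (1 + β * x'.t) x'.t)) * (q4 A x'.v x'.w / (12 * x'.y ^ 2)) +
      (-(1 / 27) * qJ (fc c (1 + β * x'.t) x'.t))
    rw [← hs, ← hA]
    have h1 := syzygy A x'.v x'.w
    rw [← x'.eq'] at h1
    field_simp
    linear_combination (5184 : k) * h1
  exact ⟨_, hon, hdisc, (pre_eqv h β hon hdisc hs rfl hcov).trans hxx'.symm⟩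

/-- **The words vanish.** -/
theorem Wd_dcover (h : Wts e c) (ho : o.y = 0) {i i' : Fin n} (hi : i ≠ i')
    (y : Fin n → (dcover e c).Pt k) (x x' : DPt c k) : (dcover e c).Wd i i' y o x x' = 0 := by
  obtain ⟨s₀, t₀, h₀, hd₀⟩ := exists_disc_zero h
  obtain ⟨β, h1, h2, h3⟩ := exists_chart x.base x'.base h₀
  rcases exists_point (n := n) h ho h1 with h4 | ⟨p, hp, hpd, hpx⟩
  · exact Geo.Wd_zero_left hi h4
  rcases exists_point (n := n) h ho h2 with h4 | ⟨q, hq, hqd, hqx⟩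
  · exact Geo.Wd_zero_right hi h4
  have hroot : (disc (pa β c) (pb β c)).eval ((s₀ - β * t₀)⁻¹ * t₀) = 0 := by
    rw [eval_disc]
    have h5 := disc_smul h (inv_ne_zero h3) s₀ t₀
    have h6 : (s₀ - β * t₀)⁻¹ * s₀ = 1 + β * ((s₀ - β * t₀)⁻¹ * t₀) := by
      field_simp
      ring
    rw [h6, hd₀, mul_zero] at h5
    rw [h5, mul_zero]
  have key := (thePairing h β ho hi y).zero (natDegree_pa h β) (natDegree_pb h β) hroot hp hq
    hpd hqd
  have key' : (dcover e c).Wd i i' y o (pre β o p) (pre β o q) = 0 := key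
  rw [← key']
  exact ((Geo.Wd_left hi hpx).trans (Geo.Wd_right hi hqx)).symm

/-- **The conjecture of Voisin for double covers of ruled surfaces.** -/
theorem voisin_dcover (h : Wts e c) (hn : 2 ≤ n) : (dcover e c).Voisin n := by
  obtain ⟨o, ho⟩ := exists_ram c
  have hi : (⟨0, by omega⟩ : Fin n) ≠ ⟨1, by omega⟩ := by
    intro hh
    have := congrArg Fin.val hh
    simp at this
  exact Geo.voisin_of_Wd hi o fun y x x' => Wd_dcover h ho hi y x x'

end

end Pool.Agent.H833.EK
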