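import Pool.Agent.H833.EK.DCh

/-!
# The pairing on the Jacobian, and the vanishing of the words on double covers
-/

set_option autoImplicit false
set_option linter.unusedSectionVars false

namespace Pool.Agent.H833.EK

open FF Polynomial
open Pool.Agent.Y107.VC (Lies isFF_up mor mor_spec)

section

variable {k : Type} [Field k] [CharZero k] [IsAlgClosed k] {n : ℕ}
variable {e : ℕ} {c : Fin 5 → MvPolynomial (Fin 2) k} {o : DPt c k}

open Classical in
/-- A point over the point `p` of the Jacobian. -/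
noncomputable def pre (β : k) (o : DPt c k) (p : T3 k) : DPt c k :=
  if hp : ∃ x : DPt c k, x.s = 1 + β * p.1 ∧ x.t = p.1 ∧ Cov x p.2.1 p.2.2 then hp.choose else o

theorem pre_spec (β : k) {p : T3 k} (hp : OnS (pa β c) (pb β c) p) :
    (pre β o p).s = 1 + β * p.1 ∧ (pre β o p).t = p.1 ∧ Cov (pre β o p) p.2.1 p.2.2 := by
  have h : ∃ x : DPt c k, x.s = 1 + β * p.1 ∧ x.t = p.1 ∧ Cov x p.2.1 p.2.2 := by
    unfold OnS at hp
    rw [aeval_pa, aeval_pb] at hp
    obtain ⟨v, w, y, hvw, h1, h2, h3⟩ := exists_cov _ hp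
    refine ⟨⟨1 + β * p.1, p.1, v, w, y, ?_, hvw, h1⟩, rfl, rfl, h2, h3⟩
    rintro ⟨e1, e2⟩
    rw [e2, mul_zero, add_zero] at e1
    exact one_ne_zero e1
  unfold pre
  rw [dif_pos h]
  exact h.choose_spec

theorem disc_ne {β : k} {p : T3 k} (hd : (disc (pa β c) (pb β c)).eval p.1 ≠ 0) {x : DPt c k}
    (hs : x.s = 1 + β * p.1) (ht : x.t = p.1) :
    4 * qI (fc c x.s x.t) ^ 3 - qJ (fc c x.s x.t) ^ 2 ≠ 0 := by
  rw [eval_disc] at hd
  rw [hs, ht]
  exact fun h => hd (by rw [h, mul_zero])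

theorem pre_eqv (h : Wts e c) (β : k) {p : T3 k} (hp : OnS (pa β c) (pb β c) p)
    (hd : (disc (pa β c) (pb β c)).eval p.1 ≠ 0) {x : DPt c k} (hs : x.s = 1 + β * p.1)
    (ht : x.t = p.1) (hx : Cov x p.2.1 p.2.2) : (dcover e c).Eqv n (pre β o p) x := by
  obtain ⟨h1, h2, h3⟩ := pre_spec (o := o) β hp
  exact eqv_cov h (hs.trans h1.symm) (ht.trans h2.symm) (disc_ne hd h1 h2) h3 hx

/-- The specialisation of a lift. -/
theorem spec_cov (h : Wts e c) (ho : o.y = 0) {K L : Type} [Field K] [Algebra k K] [IsFF k K]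
    [Field L] [Algebra k L] [IsFF k L] {j : K →ₐ[k] L} {b : Place k L} {v : Place k K}
    (hl : Lies j b v) {β : k} {P : T3 K} (hP : OnS (pa β c) (pb β c) P) {x : DPt c L}
    (hs : x.s = 1 + algebraMap k L β * j P.1) (ht : x.t = j P.1)
    (hx : Cov x (j P.2.1) (j P.2.2)) {u₀ : k} (hu : HasVal v P.1 u₀) :
    ∃ p : DPt c k, DSp e b x p ∧
      ((disc (pa β c) (pb β c)).eval u₀ = 0 → (dcover e c).Eqv n p o) ∧
      ((disc (pa β c) (pb β c)).eval u₀ ≠ 0 →
        (∀ p₃, HasVal3 v P p₃ → (dcover e c).Eqv n (pre β o p₃) p) ∧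
        ((¬∃ p₃, HasVal3 v P p₃) → (dcover e c).Eqv n p o)) := by
  have hju := hu.lies hl
  have hxs : HasVal b x.s (1 + β * u₀) := by
    rw [hs]
    exact (HasVal.one b).add ((HasVal.const b β).mul hju)
  have hxt : HasVal b x.t u₀ := by rw [ht]; exact hju
  have hst : ¬(1 + β * u₀ = 0 ∧ u₀ = 0) := by
    rintro ⟨e1, e2⟩
    rw [e2, mul_zero, add_zero] at e1
    exact one_ne_zero e1
  obtain ⟨μ, v₀, w₀, hμ, hv, hw, hvw⟩ := exists_prim b x.fib
  obtain ⟨p, hp, h1, h2, h3, h4, h5⟩ := exists_spec h b x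
    (ρ := 1) (μ := μ) (s₀ := 1 + β * u₀) (t₀ := u₀) (v₀ := v₀) (w₀ := w₀) one_ne_zero hμ
    (by rw [one_mul]; exact hxs) (by rw [one_mul]; exact hxt) hst
    (hv.congr (by rw [one_pow, one_mul]) rfl) hw hvw
  rw [one_pow, one_mul] at h5
  have hA : ∀ l, HasVal b (fc c x.s x.t l) (fc c p.s p.t l) := fun l => by
    rw [h1, h2]; exact hasVal_fv hxs hxt (c l)
  rw [← h3] at hv
  rw [← h4] at hw
  have h6 := hasVal_q4 hA hv hw
  have h7 := hasVal_q6 hA hv hw
  rw [q4_hom, ← hx.1] at h6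
  rw [q6_hom, ← hx.2] at h7
  refine ⟨p, hp, fun hd => ?_, fun hd => ⟨fun p₃ hp₃ => ?_, fun hno => ?_⟩⟩
  · rw [eval_disc] at hd
    refine eqv_disc h ho ?_
    rw [h1, h2]
    refine (mul_eq_zero.1 hd).resolve_left (by norm_num)
  · have hu₃ := hp₃.1.unique hu
    refine pre_eqv h β (hp₃.onS hP) (by rw [hu₃]; exact hd) (by rw [h1, hu₃]) (by rw [h2, hu₃]) ?_
    refine ⟨?_, ?_⟩
    · refine HasVal.unique (v := b) ?_ h6
      exact (((HasVal.ofNat b 12).mul (h5.pow 2)).mul (hp₃.2.1.lies hl)).congr (by ring) rfl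
    · refine HasVal.unique (v := b) ?_ h7
      exact (((HasVal.ofNat b 8).mul (h5.pow 3)).mul (hp₃.2.2.lies hl)).congr (by ring) rfl
  · refine eqv_ram h ho ?_
    by_contra hy
    apply hno
    have hy2 := (HasVal.ofNat b 12).mul (h5.pow 2)
    have hX : HasVal b (j P.2.1) _ := (h6.div hy2 (mul_ne_zero (by norm_num)
      (pow_ne_zero 2 hy))).congr (by
        have e1 := hy2.ne_zero (mul_ne_zero (by norm_num) (pow_ne_zero 2 hy))
        rw [div_eq_iff e1]
        ring) rfl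
    have hy3 := (HasVal.ofNat b 8).mul (h5.pow 3)
    have hY : HasVal b (j P.2.2) _ := (h7.div hy3 (mul_ne_zero (by norm_num)
      (pow_ne_zero 3 hy))).congr (by
        have e1 := hy3.ne_zero (mul_ne_zero (by norm_num) (pow_ne_zero 3 hy))
        rw [div_eq_iff e1]
        ring) rfl
    obtain ⟨X₀, hX₀⟩ := exists_hasVal (reg_of_lies hl hX.reg)
    obtain ⟨Y₀, hY₀⟩ := exists_hasVal (reg_of_lies hl hY.reg)
    exact ⟨(u₀, X₀, Y₀), hu, hX₀, hY₀⟩

variable {i i' : Fin n} {y : Fin n → (dcover e c).Pt k}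

/-- The pairing on the Jacobian given by the words. -/
noncomputable def thePairing (h : Wts e c) (β : k) (ho : o.y = 0) (hi : i ≠ i')
    (y : Fin n → (dcover e c).Pt k) :
    Pairing k (pa β c) (pb β c) ((dcover e c).CH n) where
  W := fun p q => (dcover e c).Wd i i' y o (pre β o p) (pre β o q)
  alt := fun p q _ _ _ _ => Geo.Wd_alt _ _
  odd := fun p q hp _ hd _ => by
    obtain ⟨h1, h2, h3⟩ := pre_spec (o := o) β hp
    have h4 : (dcover e c).Eqv n (pre β o p.neg) (pre β o p).opp :=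
      pre_eqv h β hp.neg hd h1 h2 h3.opp
    exact (Geo.Wd_left hi h4).trans (Geo.Wd_opp hi (opp_all h ho _))
  family := by
    intro K _ _ _ ι _ P Q hP hQ f hf c₀ c₁ h₀ h₁
    obtain ⟨L, i1, i2, i3, j, x, hx⟩ := exists_lift (c := c) β (Sum.elim P Q) (by
      rintro (l | l)
      · exact hP l
      · exact hQ l)
    have hl : ∀ b : Place k L, Lies j b (mor j b) := mor_spec j
    have key : ∀ (R : T3 K) (z : DPt c L), OnS (pa β c) (pb β c) R →
        (z.s = 1 + algebraMap k L β * j R.1 ∧ z.t = j R.1 ∧ Cov z (j R.2.1) (j R.2.2)) →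
        ∀ b : Place k L, ∃ p : DPt c k, DSp e b z p ∧ ∀ u₀, HasVal (mor j b) R.1 u₀ →
        ((disc (pa β c) (pb β c)).eval u₀ = 0 → (dcover e c).Eqv n p o) ∧
        ((disc (pa β c) (pb β c)).eval u₀ ≠ 0 →
          (∀ p₃, HasVal3 (mor j b) R p₃ → (dcover e c).Eqv n (pre β o p₃) p) ∧
          ((¬∃ p₃, HasVal3 (mor j b) R p₃) → (dcover e c).Eqv n p o)) := by
      intro R z hR hz b
      by_cases hu : ∃ u₀, HasVal (mor j b) R.1 u₀
      · obtain ⟨u₀, hu⟩ := hu
        obtain ⟨p, hp, h1⟩ := spec_cov (n := n) h ho (hl b) hR hz.1 hz.2.1 hz.2.2 hu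
        refine ⟨p, hp, fun u₁ hu₁ => ?_⟩
        rw [hu₁.unique hu]
        exact h1
      · obtain ⟨p, hp⟩ := (dcover_nice h).prop L b z
        exact ⟨p, hp, fun u₁ hu₁ => absurd ⟨u₁, hu₁⟩ hu⟩
    choose φ hφ hφ' using fun (l : ι) => key (P l) (x (Sum.inl l)) (hP l) (hx (Sum.inl l))
    choose ψ hψ hψ' using fun (l : ι) => key (Q l) (x (Sum.inr l)) (hQ l) (hx (Sum.inr l))
    have hval : ∀ (l : ι) (b : Place k L),
        Adm (pa β c) (pb β c) (mor j b) (P l) (Q l) →
        (dcover e c).Wd i i' y o (φ l b) (ψ l b) =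
        wv (pa β c) (pb β c)
          (fun p q => (dcover e c).Wd i i' y o (pre β o p) (pre β o q)) (mor j b) (P l) (Q l) := by
      intro l b hadm
      have hz1 : (dcover e c).Eqv n (φ l b) o → (dcover e c).Wd i i' y o (φ l b) (ψ l b) = 0 :=
        fun h1 => Geo.Wd_zero_left hi h1
      have hz2 : (dcover e c).Eqv n (ψ l b) o → (dcover e c).Wd i i' y o (φ l b) (ψ l b) = 0 :=
        fun h1 => Geo.Wd_zero_right hi h1
      rcases hadm with ⟨u₀, u₁, hu₀, hu₁⟩ | ⟨u₀, hu₀, hd⟩ | ⟨u₁, hu₁, hd⟩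
      · by_cases hd₀ : (disc (pa β c) (pb β c)).eval u₀ = 0
        · rw [hz1 ((hφ' l b u₀ hu₀).1 hd₀), wv_zero_of_not]
          intro p q hp _ hp' _
          exact hp' (by rw [hp.1.unique hu₀]; exact hd₀)
        by_cases hd₁ : (disc (pa β c) (pb β c)).eval u₁ = 0
        · rw [hz2 ((hψ' l b u₁ hu₁).1 hd₁), wv_zero_of_not]
          intro p q _ hq _ hq'
          exact hq' (by rw [hq.1.unique hu₁]; exact hd₁)
        obtain ⟨a1, a2⟩ := (hφ' l b u₀ hu₀).2 hd₀
        obtain ⟨a3, a4⟩ := (hψ' l b u₁ hu₁).2 hd₁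
        by_cases hp : ∃ p₃, HasVal3 (mor j b) (P l) p₃
        · by_cases hq : ∃ q₃, HasVal3 (mor j b) (Q l) q₃
          · obtain ⟨p₃, hp⟩ := hp
            obtain ⟨q₃, hq⟩ := hq
            rw [wv_eq hp hq (by rw [hp.1.unique hu₀]; exact hd₀)
              (by rw [hq.1.unique hu₁]; exact hd₁)]
            exact ((Geo.Wd_left hi (a1 p₃ hp)).trans (Geo.Wd_right hi (a3 q₃ hq))).symm
          · rw [hz2 (a4 hq), wv_zero_of_not]
            intro p q _ hq' _ _
            exact hq ⟨q, hq'⟩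
        · rw [hz1 (a2 hp), wv_zero_of_not]
          intro p q hp' _ _ _
          exact hp ⟨p, hp'⟩
      · rw [hz1 ((hφ' l b u₀ hu₀).1 hd), wv_zero_of_not]
        intro p q hp _ hp' _
        exact hp' (by rw [hp.1.unique hu₀]; exact hd)
      · rw [hz2 ((hψ' l b u₁ hu₁).1 hd), wv_zero_of_not]
        intro p q _ hq _ hq'
        exact hq' (by rw [hq.1.unique hu₁]; exact hd)
    have hAd : (fun b => ∑ l, (dcover e c).Wd i i' y o (φ l b) (ψ l b)) ∈
        (dcover e c).Ad (n := n) L := by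
      have h1 : ∑ l, (fun b => (dcover e c).Wd i i' y o (φ l b) (ψ l b)) ∈
          (dcover e c).Ad (n := n) L :=
        Submodule.sum_mem _ fun l _ => Geo.Ad.Wd (dcover_nice h) hi (hφ l) (hψ l)
      have h2 : (∑ l, (fun b => (dcover e c).Wd i i' y o (φ l b) (ψ l b))) =
          fun b => ∑ l, (dcover e c).Wd i i' y o (φ l b) (ψ l b) := by
        funext b
        rw [Finset.sum_apply]
      rwa [h2] at h1
    have hjf : Transcendental k (j f) := fun hal =>
      hf ((isAlgebraic_algHom_iff j j.toRingHom.injective).1 hal)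
    have hord : ∀ b : Place k L, ∃ m : ℕ, 0 < m ∧ b.ord (j f) = m * (mor j b).ord f := by
      intro b
      obtain ⟨m, hm, h1⟩ := hl b
      exact ⟨m, hm, h1 f⟩
    refine Geo.Ad.const hAd hjf (fun b hb => ?_) (fun b hb => ?_)
    · obtain ⟨m, hm, h1⟩ := hord b
      rw [h1] at hb
      have hm' : (0 : ℤ) < m := by exact_mod_cast hm
      have h2 : 0 < (mor j b).ord f := by
        by_contra hcon
        push Not at hcon
        have := mul_nonpos_of_nonneg_of_nonpos hm'.le hcon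
        omega
      obtain ⟨h3, h4⟩ := h₀ _ h2
      rw [← h4]
      exact Finset.sum_congr rfl fun l _ => hval l b (h3 l)
    · obtain ⟨m, hm, h1⟩ := hord b
      rw [h1] at hb
      have hm' : (0 : ℤ) < m := by exact_mod_cast hm
      have h2 : (mor j b).ord f < 0 := by
        by_contra hcon
        push Not at hcon
        have := mul_nonneg hm'.le hcon
        omega
      obtain ⟨h3, h4⟩ := h₁ _ h2
      rw [← h4]
      exact Finset.sum_congr rfl fun l _ => hval l b (h3 l)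

/-- The discriminant is homogeneous. -/
theorem disc_smul (h : Wts e c) {r : k} (hr : r ≠ 0) (s t : k) :
    4 * qI (fc c (r * s) (r * t)) ^ 3 - qJ (fc c (r * s) (r * t)) ^ 2 =
      r ^ 24 * (4 * qI (fc c s t) ^ 3 - qJ (fc c s t) ^ 2) := by
  have h1 := fun j => h.smul r s t j
  have h0 := h1 0
  have h2 := h1 1
  have h3 := h1 2
  have h4 := h1 3
  have h5 := h1 4
  simp only [Fin.val_zero, Fin.val_one, Fin.val_two, zero_mul, one_mul, add_zero] at h0 h2 h3
  have e3 : ((3 : Fin 5) : ℕ) = 3 := rfl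
  have e4 : ((4 : Fin 5) : ℕ) = 4 := rfl
  rw [e3] at h4
  rw [e4] at h5
  set R := r ^ e with hR
  have hR0 : R ≠ 0 := pow_ne_zero _ hr
  have hh : r ^ (2 * e) = R ^ 2 := by rw [mul_comm, pow_mul]
  have g0 : fc c (r * s) (r * t) 0 = r ^ 4 * fc c s t 0 / R ^ 2 := by
    rw [eq_div_iff (pow_ne_zero 2 hR0), mul_comm, ← hh, h0]
  have g1 : fc c (r * s) (r * t) 1 = r ^ 4 * R * fc c s t 1 / R ^ 2 := by
    rw [eq_div_iff (pow_ne_zero 2 hR0), mul_comm, ← hh, h2, pow_add]
  have g2 : fc c (r * s) (r * t) 2 = r ^ 4 * R ^ 2 * fc c s t 2 / R ^ 2 := by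
    rw [eq_div_iff (pow_ne_zero 2 hR0), mul_comm, ← hh, h3, pow_add, hh]
  have g3 : fc c (r * s) (r * t) 3 = r ^ 4 * R ^ 3 * fc c s t 3 / R ^ 2 := by
    rw [eq_div_iff (pow_ne_zero 2 hR0), mul_comm, ← hh, h4, pow_add, mul_comm 3 e, pow_mul]
  have g4 : fc c (r * s) (r * t) 4 = r ^ 4 * R ^ 4 * fc c s t 4 / R ^ 2 := by
    rw [eq_div_iff (pow_ne_zero 2 hR0), mul_comm, ← hh, h5, pow_add, mul_comm 4 e, pow_mul]
  have hI : qI (fc c (r * s) (r * t)) = r ^ 8 * qI (fc c s t) := by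
    unfold qI
    rw [g0, g1, g2, g3, g4]
    field_simp
  have hJ : qJ (fc c (r * s) (r * t)) = r ^ 12 * qJ (fc c s t) := by
    unfold qJ
    rw [g0, g1, g2, g3, g4]
    field_simp
  rw [hI, hJ]
  ring

/-- The discriminant has a zero on the line. -/
theorem exists_disc_zero (h : Wts e c) : ∃ s t : k, ¬(s = 0 ∧ t = 0) ∧
    4 * qI (fc c s t) ^ 3 - qJ (fc c s t) ^ 2 = 0 := by
  by_contra hcon
  push Not at hcon
  -- the two polynomials
  have h1 : ∀ F : k[X], (∀ x, F.eval x ≠ 0) → ∃ d, d ≠ 0 ∧ F = C d := by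
    intro F hF
    have h2 : F.degree = 0 := by
      by_contra h3
      obtain ⟨x, hx⟩ := IsAlgClosed.exists_root F h3
      exact hF x hx
    refine ⟨F.coeff 0, ?_, eq_C_of_degree_eq_zero h2⟩
    intro h3
    have h4 := eq_C_of_degree_eq_zero h2
    exact hF 0 (by rw [h4, h3]; simp)
  have h2 : ∀ x : k, 4 * qI (fc c 1 x) ^ 3 - qJ (fc c 1 x) ^ 2 ≠ 0 := fun x =>
    hcon 1 x fun hh => absurd hh one_ne_zero
  have h3 : ∀ x : k, 4 * qI (fc c x 1) ^ 3 - qJ (fc c x 1) ^ 2 ≠ 0 := fun x =>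
    hcon x 1 fun _ => one_ne_zero
  obtain ⟨d, hd, hF⟩ := h1 (4 * qI (fc c (1 : k[X]) X) ^ 3 - qJ (fc c (1 : k[X]) X) ^ 2) (by
    intro x
    have h4 := h2 x
    have h5 : ∀ l, (fc c (1 : k[X]) X l).eval x = fc c 1 x l := fun l => by
      have := fv_map (aeval (R := k) x) (c l) (1 : k[X]) X
      rw [map_one, aeval_X] at this
      exact this
    have h6 : (qI (fc c (1 : k[X]) X)).eval x = qI (fc c 1 x) := by
      have := qI_map (evalRingHom x) (fc c (1 : k[X]) X)
      simp only [coe_evalRingHom, h5] at this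
      exact this
    have h7 : (qJ (fc c (1 : k[X]) X)).eval x = qJ (fc c 1 x) := by
      have := qJ_map (evalRingHom x) (fc c (1 : k[X]) X)
      simp only [coe_evalRingHom, h5] at this
      exact this
    rw [eval_sub, eval_mul, eval_pow, eval_pow, h6, h7]
    simpa using h4)
  obtain ⟨d', hd', hF'⟩ := h1 (4 * qI (fc c X (1 : k[X])) ^ 3 - qJ (fc c X (1 : k[X])) ^ 2) (by
    intro x
    have h4 := h3 x
    have h5 : ∀ l, (fc c X (1 : k[X]) l).eval x = fc c x 1 l := fun l => by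
      have := fv_map (aeval (R := k) x) (c l) X (1 : k[X])
      rw [map_one, aeval_X] at this
      exact this
    have h6 : (qI (fc c X (1 : k[X]))).eval x = qI (fc c x 1) := by
      have := qI_map (evalRingHom x) (fc c X (1 : k[X]))
      simp only [coe_evalRingHom, h5] at this
      exact this
    have h7 : (qJ (fc c X (1 : k[X]))).eval x = qJ (fc c x 1) := by
      have := qJ_map (evalRingHom x) (fc c X (1 : k[X]))
      simp only [coe_evalRingHom, h5] at this
      exact this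
    rw [eval_sub, eval_mul, eval_pow, eval_pow, h6, h7]
    simpa using h4)
  have h4 : ∀ x : k, 4 * qI (fc c 1 x) ^ 3 - qJ (fc c 1 x) ^ 2 = d := by
    intro x
    have h5 : ∀ l, (fc c (1 : k[X]) X l).eval x = fc c 1 x l := fun l => by
      have := fv_map (aeval (R := k) x) (c l) (1 : k[X]) X
      rw [map_one, aeval_X] at this
      exact this
    have h6 : (qI (fc c (1 : k[X]) X)).eval x = qI (fc c 1 x) := by
      have := qI_map (evalRingHom x) (fc c (1 : k[X]) X)
      simp only [coe_evalRingHom, h5] at this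
      exact this
    have h7 : (qJ (fc c (1 : k[X]) X)).eval x = qJ (fc c 1 x) := by
      have := qJ_map (evalRingHom x) (fc c (1 : k[X]) X)
      simp only [coe_evalRingHom, h5] at this
      exact this
    have h8 := congrArg (eval x) hF
    rw [eval_sub, eval_mul, eval_pow, eval_pow, h6, h7] at h8
    simpa using h8
  have h5 : ∀ x : k, 4 * qI (fc c x 1) ^ 3 - qJ (fc c x 1) ^ 2 = d' := by
    intro x
    have h5 : ∀ l, (fc c X (1 : k[X]) l).eval x = fc c x 1 l := fun l => by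
      have := fv_map (aeval (R := k) x) (c l) X (1 : k[X])
      rw [map_one, aeval_X] at this
      exact this
    have h6 : (qI (fc c X (1 : k[X]))).eval x = qI (fc c x 1) := by
      have := qI_map (evalRingHom x) (fc c X (1 : k[X]))
      simp only [coe_evalRingHom, h5] at this
      exact this
    have h7 : (qJ (fc c X (1 : k[X]))).eval x = qJ (fc c x 1) := by
      have := qJ_map (evalRingHom x) (fc c X (1 : k[X]))
      simp only [coe_evalRingHom, h5] at this
      exact this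
    have h8 := congrArg (eval x) hF'
    rw [eval_sub, eval_mul, eval_pow, eval_pow, h6, h7] at h8
    simpa using h8
  have h6 := disc_smul h (r := 2) two_ne_zero (1 : k) (1 / 2)
  have h7 : (2 : k) * (1 / 2) = 1 := by norm_num
  rw [h7, mul_one, h4, h5] at h6
  have h8 := h4 1
  rw [h5 1] at h8
  rw [h8] at h6
  have h9 : d * ((2 : k) ^ 24 - 1) = 0 := by linear_combination -h6
  rcases mul_eq_zero.1 h9 with h10 | h10
  · exact hd h10
  · norm_num at h10

end

end Pool.Agent.H833.EK
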