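import Pool.Graph.R_seed8.Helper386.D5V.Helper386_FF_RR

/-!
# Varieties, given by their points over function fields, and their zero-cycles
-/

set_option autoImplicit false

namespace Pool.Agent.H833.EK

open FF Polynomial

/-- The function `f` is regular at the place `v`, with the value `c`: the function `f - c` is zero or
has a zero at `v`. -/
def HasVal {k K : Type} [Field k] [Field K] [Algebra k K] (v : Place k K) (f : K) (c : k) : Prop :=
  f = algebraMap k K c ∨ 0 < v.ord (f - algebraMap k K c)

/-- A projective variety over `k`, given by its points over the extensions `K` of `k` and by the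
specialisations `Sp v P p` of the points `P` over function fields `K` of curves at the places `v`
of `K`. -/
structure Geo (k : Type) [Field k] where
  Pt : (K : Type) → [Field K] → [Algebra k K] → Type
  Sp : {K : Type} → [Field K] → [Algebra k K] → Place k K → Pt K → Pt k → Prop

/-- The zero-cycles on the `n`-th power of the variety which are rationally equivalent to zero:
the span of the push forwards of the divisors of functions `f` on smooth projective curves (given
by their function fields `K`) under the morphisms to the `n`-th power (given by points over `K`). -/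
noncomputable def Geo.Rat {k : Type} [Field k] [CharZero k] (G : Geo k) (n : ℕ) :
    Submodule ℚ ((Fin n → G.Pt k) →₀ ℚ) :=
  Submodule.span ℚ {c | ∃ (K : Type) (_ : Field K) (_ : Algebra k K) (_ : IsFF k K) (f : K)
    (P : Fin n → G.Pt K) (φ : Place k K → Fin n → G.Pt k), f ≠ 0 ∧
    (∀ v i, G.Sp v (P i) (φ v i)) ∧
    c = (divisor k f).sum fun v m => Finsupp.single (φ v) (m : ℚ)}

/-- The exterior product `a_1 × ⋯ × a_n` of zero-cycles on a variety with the set of points `S`, a
zero-cycle on the `n`-th power. -/
noncomputable def ext {S : Type} {n : ℕ} (a : Fin n → (S →₀ ℚ)) : (Fin n → S) →₀ ℚ :=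
  ∑ x ∈ Fintype.piFinset fun i => (a i).support, Finsupp.single x (∏ i, a i (x i))

namespace Geo

/-- Voisin's conjecture for the zero-cycles of degree zero on the `n`-th power of the variety. -/
def Voisin {k : Type} [Field k] [CharZero k] (G : Geo k) (n : ℕ) : Prop :=
  ∀ a : Fin n → (G.Pt k →₀ ℚ), (∀ i, ((a i).sum fun _ m => m) = 0) →
    ∑ σ : Equiv.Perm (Fin n), ((σ.sign : ℤ) : ℚ) • ext (fun i => a (σ i)) ∈ G.Rat n

variable {k : Type} [Field k]

/-- The formal properties of the points: there are constant points, and the variety is proper. -/
structure Nice (G : Geo k) : Prop where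
  cst : ∀ (K : Type) [Field K] [Algebra k K] (p : G.Pt k), ∃ P : G.Pt K, ∀ v : Place k K,
    G.Sp v P p
  prop : ∀ (K : Type) [Field K] [Algebra k K] [IsFF k K] (v : Place k K) (P : G.Pt K),
    ∃ p, G.Sp v P p

/-- A morphism of varieties. -/
structure Hom (G G' : Geo k) where
  map : (K : Type) → [Field K] → [Algebra k K] → G.Pt K → G'.Pt K
  sp : ∀ {K : Type} [Field K] [Algebra k K] (v : Place k K) (P : G.Pt K) (p : G.Pt k),
    G.Sp v P p → G'.Sp v (map K P) (map k p)

/-- The (homogeneous coordinates of the) points `p` and `p'` are the value of one morphism at one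
point of a curve: they represent the same point of the variety. -/
def Same (G : Geo k) (p p' : G.Pt k) : Prop :=
  ∃ (K : Type) (_ : Field K) (_ : Algebra k K) (v : Place k K) (P : G.Pt K),
    G.Sp v P p ∧ G.Sp v P p'

/-- The points `x` and `x'` are the values at `0` and `∞` of a morphism from the projective line. -/
def RLine (G : Geo k) (x x' : G.Pt k) : Prop :=
  ∃ P : G.Pt (RatFunc k), (∀ v : Place k (RatFunc k), 0 < v.ord RatFunc.X → G.Sp v P x) ∧
    ∀ v : Place k (RatFunc k), v.ord RatFunc.X < 0 → G.Sp v P x'

/-- The morphism `π` behaves like the minimal resolution of a projective surface with rational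
singularities: the morphisms from smooth curves lift, and the points of each fibre are connected
by chains of rational curves. -/
structure Resolves {G' G : Geo k} (π : Hom G' G) : Prop where
  nice : G'.Nice
  lift : ∀ (K : Type) [Field K] [Algebra k K] [IsFF k K] (P : G.Pt K), ∃ P' : G'.Pt K,
    ∀ (v : Place k K) (p : G.Pt k), G.Sp v P p →
      ∃ p' : G'.Pt k, G'.Sp v P' p' ∧ G.Same (π.map k p') p
  fib : ∀ x x' : G'.Pt k, (∃ p, G.Same (π.map k x) p ∧ G.Same (π.map k x') p) →
    Relation.EqvGen G'.RLine x x'

end Geo

end Pool.Agent.H833.EK
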