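import Pool.Agent.H833.EK.DefA

/-!
# Zero-cycles on the powers of a variety
-/

set_option autoImplicit false

namespace Pool.Agent.H833.EK

open FF Polynomial

/-- The degree of a zero-cycle. -/
def deg {S : Type} (a : S →₀ ℚ) : ℚ := a.sum fun _ m => m

/-- A morphism from the `m`-th to the `n`-th power of a variety with an involution `ι` and a point
`o`, given by its components: the constant `o` (`none`), a coordinate `x_i` (`some (i, false)`), or
`ι x_i` (`some (i, true)`). -/
abbrev Coord (m n : ℕ) : Type := Fin n → Option (Fin m × Bool)

namespace Coord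

variable {m n : ℕ}

/-- The morphism. -/
def act {S : Type} (ι : S → S) (o : S) (g : Coord m n) (x : Fin m → S) : Fin n → S := fun j =>
  match g j with
  | none => o
  | some (i, false) => x i
  | some (i, true) => ι (x i)

/-- The sign of a component. -/
def sgn (g : Coord m n) (j : Fin n) : ℚ :=
  match g j with
  | some (_, true) => -1
  | _ => 1

open Classical in
/-- Let `ω` be a two-form with `ι^* ω = -ω`, and let `ω_T` be the product of its pull backs under the
projections with index in `T`. Then `g^* ω_T'` is the sum over `T` of `hol g T T'` times `ω_T`,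
where `T` has the same number of elements as `T'`. -/
noncomputable def hol (g : Coord m n) (T : Finset (Fin m)) (T' : Finset (Fin n)) : ℚ :=
  if T'.image (fun j => (g j).map Prod.fst) = T.image some then ∏ j ∈ T', g.sgn j else 0

/-- The action on zero-cycles of a linear combination of the graphs of morphisms. -/
noncomputable def push {S : Type} (ι : S → S) (o : S) (Z : Coord m n →₀ ℚ) :
    ((Fin m → S) →₀ ℚ) →ₗ[ℚ] ((Fin n → S) →₀ ℚ) :=
  Z.sum fun g q => q • Finsupp.lmapDomain ℚ ℚ (g.act ι o)

end Coord

/-- The zero-cycles on the `n`-th power which are rationally equivalent to a sum of exterior products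
with at least `j` factors of degree zero. -/
noncomputable def Geo.Fil {k : Type} [Field k] [CharZero k] (G : Geo k) (n j : ℕ) :
    Submodule ℚ ((Fin n → G.Pt k) →₀ ℚ) :=
  G.Rat n ⊔ Submodule.span ℚ {c | ∃ (T : Finset (Fin n)) (a : Fin n → (G.Pt k →₀ ℚ)),
    j ≤ T.card ∧ (∀ i ∈ T, deg (a i) = 0) ∧ c = ext a}

end Pool.Agent.H833.EK
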