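import Pool.Agent.H833.EK.DefA

/-!
# Quotients of the powers of a variety by groups of signed permutations
-/

set_option autoImplicit false

namespace Pool.Agent.H833.EK

open FF Polynomial

/-- The exterior product of a zero-cycle on the `m`-th power and one on the `n`-th power. -/
noncomputable def cross {S : Type} {m n : ℕ} (a : (Fin m → S) →₀ ℚ) (b : (Fin n → S) →₀ ℚ) :
    (Fin (m + n) → S) →₀ ℚ :=
  a.sum fun x p => b.sum fun y q => Finsupp.single (Fin.append x y) (p * q)

/-- The sign by which a signed permutation which preserves `T` acts on the product of the two-forms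
with index in `T`. -/
def sgT {m : ℕ} (g : Equiv.Perm (Fin m) × (Fin m → Bool)) (T : Finset (Fin m)) : ℚ :=
  ∏ j ∈ T, if g.2 j then -1 else 1

/-- The action of a signed permutation `(σ, s)` on the `m`-th power of a variety with an involution
`ι`: the component with index `j` is `x_σ(j)` or `ι x_σ(j)`, according to the value of `s j`. -/
def sact {S : Type} {m : ℕ} (ι : S → S) (g : Equiv.Perm (Fin m) × (Fin m → Bool))
    (x : Fin m → S) : Fin m → S := fun j => if g.2 j then ι (x (g.1 j)) else x (g.1 j)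

/-- The conjecture of Voisin for the quotient of the `m`-th power of `G` by the group `Γ`. -/
def QuotVoisin {k : Type} [Field k] [CharZero k] (G : Geo k) (ι : G.Pt k → G.Pt k) (m : ℕ)
    (Γ : Set (Equiv.Perm (Fin m) × (Fin m → Bool))) : Prop :=
  ∀ a b : (Fin m → G.Pt k) →₀ ℚ, (a.sum fun _ q => q) = 0 → (b.sum fun _ q => q) = 0 →
    (∀ g ∈ Γ, Finsupp.mapDomain (sact ι g) a - a ∈ G.Rat m) →
    (∀ g ∈ Γ, Finsupp.mapDomain (sact ι g) b - b ∈ G.Rat m) →
    cross a b - cross b a ∈ G.Rat (m + m)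

/-- The condition on the group: there are no invariant holomorphic forms in the degrees `2, 4, …,
2 m - 2`. -/
def Strict {m : ℕ} (Γ : Set (Equiv.Perm (Fin m) × (Fin m → Bool))) : Prop :=
  ∀ T : Finset (Fin m), T.Nonempty → T ≠ Finset.univ →
    ∃ g ∈ Γ, (∀ j ∈ T, g.1 j ∈ T) ∧ sgT g T = -1

/-- The assertion on antisymmetric zero-cycles on the power with exponent `n + 1`. -/
def AntiVanish {k : Type} [Field k] [CharZero k] (G : Geo k) (n : ℕ) : Prop :=
  ∀ z : (Fin (n + 1) → G.Pt k) →₀ ℚ,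
    (∀ σ : Equiv.Perm (Fin (n + 1)),
      Finsupp.mapDomain (fun x j => x (σ j)) z - ((σ.sign : ℤ) : ℚ) • z ∈ G.Rat (n + 1)) →
    Finsupp.mapDomain (fun x (j : Fin n) => x j.castSucc) z ∈ G.Rat n →
    z ∈ G.Rat (n + 1) ∧ ∀ w : (Fin 1 → G.Pt k) →₀ ℚ,
      ∑ σ : Equiv.Perm (Fin (n + 1 + 1)), ((σ.sign : ℤ) : ℚ) •
        Finsupp.mapDomain (fun x j => x (σ j)) (cross z w) ∈ G.Rat (n + 1 + 1)

end Pool.Agent.H833.EK
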