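import Pool.Agent.H833.EK.DefA

/-!
# Fibrations in curves of genus one and their Jacobians
-/

set_option autoImplicit false

namespace Pool.Agent.H833.EK

open FF Polynomial

/-- Triples `(u, X, Y)`. -/
abbrev T3 (K : Type) : Type := K × K × K

/-- The point `(u, X, Y)` lies on the surface `Y ^ 2 = X ^ 3 + a(u) X + b(u)`. -/
def OnS {k : Type} [Field k] (a b : k[X]) {K : Type} [Field K] [Algebra k K] (P : T3 K) : Prop :=
  P.2.2 ^ 2 = P.2.1 ^ 3 + aeval P.1 a * P.2.1 + aeval P.1 b

/-- The discriminant. -/
noncomputable def disc {k : Type} [Field k] (a b : k[X]) : k[X] := 4 * a ^ 3 + 27 * b ^ 2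

/-- The inversion on the fibres. -/
def T3.neg {K : Type} [Field K] (P : T3 K) : T3 K := (P.1, P.2.1, -P.2.2)

/-- The value of a triple at a place. -/
def HasVal3 {k : Type} [Field k] {K : Type} [Field K] [Algebra k K] (v : Place k K) (P : T3 K)
    (p : T3 k) : Prop :=
  HasVal v P.1 p.1 ∧ HasVal v P.2.1 p.2.1 ∧ HasVal v P.2.2 p.2.2

/-- A fibration of the projective variety `G` in curves of genus one over the projective line with the
coordinate `u`, the Jacobian fibration being given by the Weierstrass equation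
`Y² = X³ + a(u) X + b(u)`, and the fibres over the zeros of the discriminant `4 a³ + 27 b²` and over
`u = ∞` being connected unions of rational curves. There may be multiple fibres. -/
structure GenusOne {k : Type} [Field k] [CharZero k] (G : Geo k) (a b : k[X]) where
  /-- The value of the coordinate `u` at a point of `G` (`none` if `u = ∞`). -/
  pr : G.Pt k → Option k
  /-- `dif x x' P`: the points `x` and `x'` with coordinates in `K` lie in the fibre over `P.1`, and
  the difference `x - x'` is the point `P` of the Jacobian, which is different from zero. -/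
  dif : {K : Type} → [Field K] → [Algebra k K] → G.Pt K → G.Pt K → T3 K → Prop
  /-- Inversion. -/
  neg : ∀ {x x' : G.Pt k} {p : T3 k}, dif x x' p → dif x' x p.neg
  /-- If `x - x' = z - z'` in the Jacobian, the zero-cycles `x - x'` and `z - z'` are rationally
  equivalent. -/
  uniq : ∀ {x x' z z' : G.Pt k} {p : T3 k}, dif x x' p → dif z z' p →
    Finsupp.single (fun _ => x) (1 : ℚ) - Finsupp.single (fun _ => x') 1 -
      (Finsupp.single (fun _ => z) 1 - Finsupp.single (fun _ => z') 1) ∈ G.Rat 1
  /-- Over a finite extension of the base field, all points of the smooth fibres of the Jacobian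
  are differences. -/
  lift : ∀ (K : Type) [Field K] [Algebra k K] [IsFF k K] {ι : Type} [Fintype ι] (P : ι → T3 K),
    (∀ i, OnS a b (P i)) → (∀ i, aeval (P i).1 (disc a b) ≠ 0) →
    ∃ (L : Type) (_ : Field L) (_ : Algebra k L) (_ : IsFF k L) (j : K →ₐ[k] L)
      (x x' : ι → G.Pt L), ∀ i, dif (x i) (x' i) (j (P i).1, j (P i).2.1, j (P i).2.2)
  /-- Compatibility with specialisation. -/
  spec : ∀ (K : Type) [Field K] [Algebra k K] [IsFF k K] (v : Place k K) (x x' : G.Pt K)
    (P : T3 K) (u₀ : k), dif x x' P → HasVal v P.1 u₀ → ∃ x₀ x₀' : G.Pt k,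
      G.Sp v x x₀ ∧ G.Sp v x' x₀' ∧ pr x₀ = some u₀ ∧ pr x₀' = some u₀ ∧
      ((disc a b).eval u₀ ≠ 0 → (∀ p, HasVal3 v P p → dif x₀ x₀' p) ∧
        ((¬∃ p, HasVal3 v P p) → x₀ = x₀'))
  /-- The group acts transitively on the smooth fibres. -/
  smooth : ∀ (x x' : G.Pt k) (u : k), pr x = some u → pr x' = some u →
    (disc a b).eval u ≠ 0 → x = x' ∨ ∃ p, OnS a b p ∧ p.1 = u ∧ dif x x' p
  /-- The points of a singular fibre are rationally equivalent. -/
  sing : ∀ x x' : G.Pt k, pr x = pr x' → (∀ u, pr x = some u → (disc a b).eval u = 0) →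
    Finsupp.single (fun _ => x) (1 : ℚ) - Finsupp.single (fun _ => x') 1 ∈ G.Rat 1
  /-- There is a curve on `G` which is not contained in a fibre. -/
  multi : ∃ (K : Type) (_ : Field K) (_ : Algebra k K) (_ : IsFF k K) (u : K) (D : G.Pt K),
    Transcendental k u ∧ ∀ v : Place k K, ∃ d, G.Sp v D d ∧
      (∀ u₀, HasVal v u u₀ → pr d = some u₀) ∧ ((¬∃ u₀, HasVal v u u₀) → pr d = none)

end Pool.Agent.H833.EK
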