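import Pool.Agent.H833.EK.DefB
import Pool.Agent.H833.EK.DefD
import Pool.Agent.H833.EK.DefF

/-!
# Antisymmetric zero-cycles on the powers of quotients of powers
-/

set_option autoImplicit false

namespace Pool.Agent.H833.EK

open FF Polynomial

/-- The antisymmetrisations of all zero-cycles on the `N`-th power of the variety `X` are rationally
equivalent to zero. -/
def Wedge {k : Type} [Field k] [CharZero k] (X : Geo k) (N : ℕ) : Prop :=
  ∀ z : (Fin N → X.Pt k) →₀ ℚ, ∑ σ : Equiv.Perm (Fin N), ((σ.sign : ℤ) : ℚ) •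
    Finsupp.mapDomain (fun x j => x (σ j)) z ∈ X.Rat N

/-- The permutation of the coordinates of `(S^m)^N` given by a permutation of the `N` blocks of `m`
coordinates. -/
def blk {m N : ℕ} (σ : Equiv.Perm (Fin N)) : Equiv.Perm (Fin (N * m)) :=
  (finProdFinEquiv.symm.trans (σ.prodCongr (Equiv.refl (Fin m)))).trans finProdFinEquiv

/-- The signed permutation `g` of the `m` coordinates in the block with index `i`. -/
def inBlk {m N : ℕ} (i : Fin N) (g : Equiv.Perm (Fin m) × (Fin m → Bool)) :
    Equiv.Perm (Fin (N * m)) × (Fin (N * m) → Bool) :=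
  ((finProdFinEquiv.symm.trans (Equiv.prodShear (Equiv.refl (Fin N))
    fun a => if a = i then g.1 else 1)).trans finProdFinEquiv,
    fun l => if (finProdFinEquiv.symm l).1 = i then g.2 (finProdFinEquiv.symm l).2 else false)

/-- The antisymmetrisations of all zero-cycles on the `N`-th power of the quotient `X` of the `m`-th
power of `G` by the group `Γ` of signed permutations are rationally equivalent to zero: the
zero-cycles on `X^N` are the zero-cycles on `(G^m)^N` which are invariant under `Γ` in every
block. -/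
def WedgeQuot {k : Type} [Field k] [CharZero k] (G : Geo k) (ι : G.Pt k → G.Pt k) (m : ℕ)
    (Γ : Set (Equiv.Perm (Fin m) × (Fin m → Bool))) (N : ℕ) : Prop :=
  ∀ z : (Fin (N * m) → G.Pt k) →₀ ℚ,
    (∀ g ∈ Γ, ∀ i : Fin N, Finsupp.mapDomain (sact ι (inBlk i g)) z - z ∈ G.Rat (N * m)) →
    ∑ σ : Equiv.Perm (Fin N), ((σ.sign : ℤ) : ℚ) •
      Finsupp.mapDomain (fun x l => x (blk σ l)) z ∈ G.Rat (N * m)

/-- Among `N` subsets of the coordinates there is one, `T`, such that the form `ω_T` is changed to
`- ω_T` by an element of the group `Γ`, or two which are mapped to each other by `Γ`. That is, `N` is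
larger than the number of the orbits of `Γ` on the `T` such that `ω_T` has a non-zero sum over
the group, which is the dimension of the space of invariant holomorphic forms. -/
def Exceeds {m : ℕ} (Γ : Set (Equiv.Perm (Fin m) × (Fin m → Bool))) (N : ℕ) : Prop :=
  ∀ T : Fin N → Finset (Fin m),
    (∃ i, ∃ g ∈ Γ, (∀ j ∈ T i, g.1 j ∈ T i) ∧ sgT g (T i) = -1) ∨
    ∃ i i', i ≠ i' ∧ ∃ g ∈ Γ, ∃ g' ∈ Γ, (∀ j ∈ T i, g.1 j ∈ T i') ∧
      (∀ j ∈ T i', g'.1 j ∈ T i) ∧ sgT g (T i) * sgT g' (T i') = 1

/-- A morphism from the `m`-th power of `G` to `X` which is surjective, or such that at least each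
point of `X` can be joined by a chain of rational curves to a point of the image. -/
structure Onto {k : Type} [Field k] (G : Geo k) (m : ℕ) (X : Geo k) where
  map : (K : Type) → [Field K] → [Algebra k K] → (Fin m → G.Pt K) → X.Pt K
  sp : ∀ {K : Type} [Field K] [Algebra k K] (v : Place k K) (P : Fin m → G.Pt K)
    (p : Fin m → G.Pt k), (∀ i, G.Sp v (P i) (p i)) → X.Sp v (map K P) (map k p)
  onto : ∀ x : X.Pt k, ∃ p, Relation.EqvGen X.RLine (map k p) x

/-- The surfaces: double covers of ruled surfaces, the resolutions of these, and the surfaces with a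
fibration in curves of genus one such that the Jacobian fibration has coefficients of degree at
most `8` and `12` and a singular fibre. -/
inductive EllK3 {k : Type} [Field k] [CharZero k] : Geo k → Prop
  | cover (e : ℕ) (c : Fin 5 → MvPolynomial (Fin 2) k) : Wts e c → EllK3 (dcover e c)
  | res (e : ℕ) (c : Fin 5 → MvPolynomial (Fin 2) k) (S : Geo k) (π : Geo.Hom S (dcover e c)) :
    Wts e c → Geo.Resolves π → EllK3 S
  | genusOne (S : Geo k) (a b : k[X]) (r : k) (T : GenusOne S a b) : S.Nice → a.natDegree ≤ 8 →
    b.natDegree ≤ 12 → (disc a b).eval r = 0 → EllK3 S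

end Pool.Agent.H833.EK
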