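import Pool.Agent.H833.EK.DefC

/-!
# Chow-Künneth decompositions and zero-cycles on powers
-/

set_option autoImplicit false

namespace Pool.Agent.H833.EK

open FF Polynomial

/-- The action on the zero-cycles and on the holomorphic forms of a Chow-Künneth decomposition
`π 0, …, π (4 m)` of the summand `(G^m, e)` of the motive of the `m`-th power of a K3 surface `G`:
the correspondences `e`, `π a` are linear combinations of graphs of morphisms, the `π a` are
orthogonal idempotents with sum `e`, and `π a` acts as `e` on the holomorphic forms of degree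
`4 m - a`, and as zero on those of the other degrees `2 i`. -/
structure CKDec {k : Type} [Field k] [CharZero k] (G : Geo k) (ι : G.Pt k → G.Pt k) (o : G.Pt k)
    (m : ℕ) (e : Coord m m →₀ ℚ) (π : Fin (4 * m + 1) → (Coord m m →₀ ℚ)) : Prop where
  idem : ∀ a z, Coord.push ι o (π a) (Coord.push ι o (π a) z) - Coord.push ι o (π a) z ∈ G.Rat m
  orth : ∀ a b z, a ≠ b → Coord.push ι o (π a) (Coord.push ι o (π b) z) ∈ G.Rat m
  sum : ∀ z, ∑ a, Coord.push ι o (π a) z - Coord.push ι o e z ∈ G.Rat m
  forms : ∀ (a : Fin (4 * m + 1)) (i : ℕ) (T T' : Finset (Fin m)), T.card = i → T'.card = i →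
    ((π a).sum fun g q => q * g.hol T T') =
      if (a : ℕ) + 2 * i = 4 * m then (e.sum fun g q => q * g.hol T T') else 0

/-- Step `ν` of the filtration on the zero-cycles given by the decomposition: the cycles which are
rationally equivalent to elements of `(π 0 + ⋯ + π (4 m - ν))_* CH_0`. -/
noncomputable def ckFil {k : Type} [Field k] [CharZero k] (G : Geo k) (ι : G.Pt k → G.Pt k)
    (o : G.Pt k) (m : ℕ) (π : Fin (4 * m + 1) → (Coord m m →₀ ℚ)) (ν : ℕ) :
    Submodule ℚ ((Fin m → G.Pt k) →₀ ℚ) :=
  G.Rat m ⊔ ⨆ a : {a : Fin (4 * m + 1) // (a : ℕ) + ν ≤ 4 * m},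
    LinearMap.range (Coord.push ι o (π a))

end Pool.Agent.H833.EK
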