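import Pool.Agent.H833.EK.DefA

/-!
# Double planes
-/

set_option autoImplicit false

namespace Pool.Agent.H833.EK

open FF Polynomial

variable {k : Type} [Field k]

/-- The points over `K` of the double plane `t² = F(x₀, x₁, x₂)` in the weighted projective space
`P(1, 1, 1, 3)`, in homogeneous coordinates. -/
structure PPt (F : MvPolynomial (Fin 3) k) (K : Type) [Field K] [Algebra k K] where
  x : Fin 3 → K
  t : K
  ne : x ≠ 0
  eq : t ^ 2 = MvPolynomial.aeval x F

/-- The specialisation of the point `P` over a function field at the place `a` is the point `p`. -/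
def PSp {F : MvPolynomial (Fin 3) k} {K : Type} [Field K] [Algebra k K] (a : Place k K)
    (P : PPt F K) (p : PPt F k) : Prop :=
  ∃ ρ : K, ρ ≠ 0 ∧ (∀ i, HasVal a (ρ * P.x i) (p.x i)) ∧ HasVal a (ρ ^ 3 * P.t) p.t

/-- The double plane with the branch curve `F = 0`. -/
def dplane (F : MvPolynomial (Fin 3) k) : Geo k where
  Pt := PPt F
  Sp := PSp

end Pool.Agent.H833.EK
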