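import Pool.Agent.H833.EK.Main

/-!
# From the general point to all points
-/

set_option autoImplicit false
set_option linter.unusedSectionVars false

namespace Pool.Agent.H833.EK

open FF Polynomial

variable {k : Type} [Field k] [CharZero k] [IsAlgClosed k] {a b : k[X]} {V : Type}
  [AddCommGroup V] [Module ℚ V]

theorem EqJ_prime {u₁ u₂ ν ν' x η : k} (h0 : ν ≠ 0) (h0' : ν' ≠ 0)
    (hν : (disc a b).eval u₁ * (ν * ν') ^ 6 = (disc a b).eval u₂)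
    (h : EqJ (α₁ a u₁ ν) (α₂ a u₂ ν) (ββ b u₁ u₂ ν) x η) :
    EqJ (α₁ a u₁ ν') (α₂ a u₂ ν') (ββ b u₁ u₂ ν') x η := by
  unfold α₁ α₂ ββ at h ⊢
  rw [eqJ_iff h0, ← disc_eval, ← disc_eval] at h
  rw [eqJ_iff h0', ← disc_eval, ← disc_eval, h]
  congr 1
  rw [← hν]
  field_simp
  ring

/-- The value of the pairing is zero at the general point of a cubic. -/
theorem gW_zero_general (B : Pairing k a b V) (ha : a.natDegree ≤ 8) (hb : b.natDegree ≤ 12) {r : k}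
    (hr : (disc a b).eval r = 0) {u₁ u₂ ν ν' x₁ x₂ : k} (h₁ : (disc a b).eval u₁ ≠ 0)
    (h₂ : (disc a b).eval u₂ ≠ 0) (h0 : ν ≠ 0) (h0' : ν' ≠ 0)
    (hν : (disc a b).eval u₁ * (ν * ν') ^ 6 = (disc a b).eval u₂)
    (hΔ : (54 * (b.eval u₁ * b.eval u₂) - ((disc a b).eval u₁ * ν ^ 6 +
      (disc a b).eval u₂ / ν ^ 6)) ^ 2 ≠ 64 * (a.eval u₁ * a.eval u₂) ^ 3)
    (hx : (ν ^ 3) ^ 2 * (x₁ ^ 3 + a.eval u₁ * x₁ + b.eval u₁) =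
      x₂ ^ 3 + a.eval u₂ * x₂ + b.eval u₂)
    (hd : x₂ / ν - ν * x₁ ≠ 0)
    (hgen : ∀ x : k, (x₂ / ν - ν * x₁) * (2 * x + α₁ a u₁ ν + α₂ a u₂ ν) =
      -3 * ((α₂ a u₂ ν - α₁ a u₁ ν) * (ν * x₁ + x₂ / ν) + 2 * ββ b u₁ u₂ ν) →
      4 * x ^ 3 - 12 * α₁ a u₁ ν * α₂ a u₂ ν * x - (4 * α₁ a u₁ ν ^ 3 + 4 * α₂ a u₂ ν ^ 3 +
        27 * ββ b u₁ u₂ ν ^ 2) ≠ 0 ∧ Lam (α₁ a u₁ ν) (α₂ a u₂ ν) x ≠ 0 ∧
        Lam (α₁ a u₁ ν') (α₂ a u₂ ν') x ≠ 0) :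
    gW B u₁ u₂ (ν ^ 3) x₁ x₂ = 0 := by
  have hcub : (x₂ / ν) ^ 3 + α₂ a u₂ ν * (x₂ / ν) + ββ b u₁ u₂ ν =
      (ν * x₁) ^ 3 + α₁ a u₁ ν * (ν * x₁) := by
    unfold α₁ α₂ ββ
    field_simp
    linear_combination -hx
  obtain ⟨x, η, hE, hline, hpp⟩ := exists_param hcub hd
  obtain ⟨g1, g2, g3⟩ := hgen x hline
  have hη : η ≠ 0 := by
    rintro rfl
    unfold EqJ at hE
    apply g1
    rw [← hE]; ring
  obtain ⟨q1, q2⟩ := hpp (qq_ne_zero g2)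
  have hG : Good a b u₁ u₂ ν x η := ⟨h₁, h₂, h0, hE, g2⟩
  have hG' : Good a b u₁ u₂ ν' x η := ⟨h₁, h₂, h0', EqJ_prime h0 h0' hν hE, g3⟩
  have hz := Wt_zero B ha hb hr hG hG' hν hη hΔ
  unfold Wt at hz
  rw [q1, q2, mul_div_cancel_left₀ _ h0, div_mul_cancel₀ _ h0] at hz
  exact hz

end Pool.Agent.H833.EK
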