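import Pool.Agent.H833.EK.Dens

/-!
# The exceptional points of a cubic
-/

set_option autoImplicit false
set_option linter.unusedSectionVars false

namespace Pool.Agent.H833.EK

open FF Polynomial

section

variable {k : Type} [Field k] [CharZero k]

theorem cubic_coeffs {A B C' D : k} (h : ∀ x : k, A * x ^ 3 + B * x ^ 2 + C' * x + D = 0) :
    A = 0 ∧ B = 0 ∧ C' = 0 ∧ D = 0 := by
  have h0 := h 0
  have h1 := h 1
  have h2 := h (-1)
  have h3 := h 2
  have e4 : D = 0 := by linear_combination h0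
  have e2 : B = 0 := by linear_combination (h1 + h2) / 2 - e4
  have e1 : A = 0 := by linear_combination h3 / 6 - (h1 - h2) / 6 - (4 * e2 + e4) / 6
  have e3 : C' = 0 := by linear_combination h1 - e1 - e2 - e4
  exact ⟨e1, e2, e3, e4⟩

theorem cubic_finite {A B C' D : k} (h : ¬ (A = 0 ∧ B = 0 ∧ C' = 0 ∧ D = 0)) :
    {x : k | A * x ^ 3 + B * x ^ 2 + C' * x + D = 0}.Finite := by
  classical
  let p : k[X] := C A * X ^ 3 + C B * X ^ 2 + C C' * X + C D
  have hp : p ≠ 0 := by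
    intro hp
    apply h
    refine cubic_coeffs fun x => ?_
    have h1 := congrArg (eval x) hp
    simpa [p] using h1
  refine (p.roots.toFinset.finite_toSet).subset fun x hx => ?_
  rw [Finset.mem_coe, Multiset.mem_toFinset, mem_roots hp]
  change p.eval x = 0
  simpa [p] using hx

/-- The cubic curve. -/
def onC (a₁ b₁ a₂ b₂ l : k) (z : k × k) : Prop :=
  l * (z.1 ^ 3 + a₁ * z.1 + b₁) = z.2 ^ 3 + a₂ * z.2 + b₂

/-- The condition on the cubic. -/
def Smo (a₁ b₁ a₂ b₂ l : k) : Prop :=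
  (54 * (b₁ * b₂) - ((4 * a₁ ^ 3 + 27 * b₁ ^ 2) * l + (4 * a₂ ^ 3 + 27 * b₂ ^ 2) / l)) ^ 2 ≠
    64 * (a₁ * a₂) ^ 3

theorem line_inter_finite {a₁ b₁ a₂ b₂ l : k} (hl : l ≠ 0) (hS : Smo a₁ b₁ a₂ b₂ l) (α β γ : k)
    (h : ¬ (α = 0 ∧ β = 0 ∧ γ = 0)) :
    {z : k × k | onC a₁ b₁ a₂ b₂ l z ∧ α * z.1 + β * z.2 + γ = 0}.Finite := by
  by_cases hβ : β = 0
  · by_cases hα : α = 0
    · have hγ : γ ≠ 0 := fun h1 => h ⟨hα, hβ, h1⟩
      convert Set.finite_empty
      ext z
      simp only [Set.mem_ofPred_eq, Set.mem_empty_iff_false, iff_false, not_and]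
      intro _ h1
      rw [hα, hβ] at h1
      apply hγ
      linear_combination h1
    · have hf := cubic_finite (k := k) (A := 1) (B := 0) (C' := a₂)
        (D := b₂ - l * ((-γ / α) ^ 3 + a₁ * (-γ / α) + b₁)) (fun h1 => one_ne_zero h1.1)
      refine (hf.image fun y => ((-γ / α, y) : k × k)).subset fun z hz => ?_
      obtain ⟨h1, h2⟩ := hz
      have h3 : z.1 = -γ / α := by
        rw [eq_div_iff hα]
        rw [hβ] at h2
        linear_combination h2
      refine ⟨z.2, ?_, Prod.ext h3.symm rfl⟩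
      unfold onC at h1
      rw [h3] at h1
      change 1 * z.2 ^ 3 + 0 * z.2 ^ 2 + a₂ * z.2 + (b₂ - l * ((-γ / α) ^ 3 + a₁ * (-γ / α) + b₁)) = 0
      linear_combination -h1
  · obtain ⟨m, hm⟩ : ∃ m, m = -α / β := ⟨_, rfl⟩
    obtain ⟨n, hn⟩ : ∃ n, n = -γ / β := ⟨_, rfl⟩
    have hf := cubic_finite (k := k) (A := m ^ 3 - l) (B := 3 * m ^ 2 * n)
      (C' := 3 * m * n ^ 2 + a₂ * m - l * a₁) (D := n ^ 3 + a₂ * n + b₂ - l * b₁) (by
        rintro ⟨e1, e2, e3, e4⟩
        have el : l = m ^ 3 := by linear_combination -e1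
        have hm0 : m ≠ 0 := by
          rintro rfl
          apply hl
          rw [el]; ring
        have hn0 : n = 0 := by
          have : 3 * m ^ 2 ≠ 0 := mul_ne_zero (by norm_num) (pow_ne_zero 2 hm0)
          exact (mul_eq_zero.1 e2).resolve_left this
        subst hn0
        have e5 : a₂ = m ^ 2 * a₁ := by
          apply mul_left_cancel₀ hm0
          rw [el] at e3
          linear_combination e3
        have e6 : b₂ = m ^ 3 * b₁ := by
          rw [el] at e4
          linear_combination e4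
        apply hS
        rw [el, e5, e6]
        field_simp
        ring)
    refine (hf.image fun y => ((y, m * y + n) : k × k)).subset fun z hz => ?_
    obtain ⟨h1, h2⟩ := hz
    have h3 : z.2 = m * z.1 + n := by
      rw [hm, hn]
      field_simp
      linear_combination h2
    refine ⟨z.1, ?_, Prod.ext rfl h3.symm⟩
    unfold onC at h1
    rw [h3] at h1
    change (m ^ 3 - l) * z.1 ^ 3 + (3 * m ^ 2 * n) * z.1 ^ 2 +
      (3 * m * n ^ 2 + a₂ * m - l * a₁) * z.1 + (n ^ 3 + a₂ * n + b₂ - l * b₁) = 0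
    linear_combination -h1

/-- The cubic has no singular points. -/
theorem smooth_pt {a₁ b₁ a₂ b₂ l : k} (hl : l ≠ 0) (hS : Smo a₁ b₁ a₂ b₂ l) {z : k × k}
    (hz : onC a₁ b₁ a₂ b₂ l z) : ¬ (3 * z.1 ^ 2 + a₁ = 0 ∧ 3 * z.2 ^ 2 + a₂ = 0) := by
  rintro ⟨h1, h2⟩
  apply hS
  unfold onC at hz
  have e1 : a₁ = -3 * z.1 ^ 2 := by linear_combination h1
  have e2 : a₂ = -3 * z.2 ^ 2 := by linear_combination h2
  have e3 : b₂ = l * (b₁ - 2 * z.1 ^ 3) + 2 * z.2 ^ 3 := by
    rw [e1, e2] at hz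
    linear_combination -hz
  rw [e1, e2, e3]
  field_simp
  ring

end

end Pool.Agent.H833.EK
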