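import Pool.Agent.H833.EK.Dens2

/-!
# All points of the smooth cubics
-/

set_option autoImplicit false
set_option linter.unusedSectionVars false

namespace Pool.Agent.H833.EK

open FF Polynomial

variable {k : Type} [Field k] [CharZero k] [IsAlgClosed k] {a b : k[X]} {V : Type}
  [AddCommGroup V] [Module ℚ V]

theorem exists_nth_root (c : k) {n : ℕ} (hn : 0 < n) : ∃ z : k, z ^ n = c :=
  IsAlgClosed.exists_pow_nat_eq c hn

/-- A monic quadratic polynomial has two roots. -/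
theorem quad_roots {l p q : k} (hl : l ≠ 0) : ∃ h₁ h₂ : k, ∀ h : k,
    l * h ^ 2 + p * h + q = l * ((h - h₁) * (h - h₂)) := by
  obtain ⟨s, h1⟩ : ∃ s : k, s ^ 2 = p ^ 2 - 4 * l * q := ⟨_, sq_spec _⟩
  refine ⟨(-p + s) / (2 * l), (-p - s) / (2 * l), fun h => ?_⟩
  field_simp
  linear_combination h1

/-- The exceptional points. -/
theorem exists_exceptional (B : Pairing k a b V) (ha : a.natDegree ≤ 8) (hb : b.natDegree ≤ 12)
    {r : k} (hr : (disc a b).eval r = 0) {u₁ u₂ t : k} (h₁ : (disc a b).eval u₁ ≠ 0)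
    (h₂ : (disc a b).eval u₂ ≠ 0) (ht : t ≠ 0)
    (hS : Smo (a.eval u₁) (b.eval u₁) (a.eval u₂) (b.eval u₂) (t ^ 2)) :
    ∃ Z : Set (k × k), Z.Finite ∧ ∀ z : k × k,
      onC (a.eval u₁) (b.eval u₁) (a.eval u₂) (b.eval u₂) (t ^ 2) z → z ∉ Z →
      gW B u₁ u₂ t z.1 z.2 = 0 := by
  obtain ⟨ν, hν3⟩ := exists_nth_root t (n := 3) (by norm_num)
  have h0 : ν ≠ 0 := by
    rintro rfl
    apply ht
    rw [← hν3]; ring
  obtain ⟨c, hc⟩ := exists_nth_root ((disc a b).eval u₂ / (disc a b).eval u₁) (n := 6)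
    (by norm_num)
  have hc0 : c ≠ 0 := by
    rintro rfl
    rw [zero_pow (by norm_num)] at hc
    exact div_ne_zero h₂ h₁ hc.symm
  obtain ⟨ν', hν'⟩ : ∃ ν', ν' = c / ν := ⟨_, rfl⟩
  have h0' : ν' ≠ 0 := by rw [hν']; exact div_ne_zero hc0 h0
  have hνν : (disc a b).eval u₁ * (ν * ν') ^ 6 = (disc a b).eval u₂ := by
    have : ν * ν' = c := by rw [hν']; field_simp
    rw [this, hc]
    field_simp
  have ht6 : t ^ 2 = ν ^ 6 := by rw [← hν3]; ring
  have hS' := hS
  rw [ht6] at hS'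
  have hl : (ν ^ 6 : k) ≠ 0 := pow_ne_zero 6 h0
  have hΔ : (54 * (b.eval u₁ * b.eval u₂) - ((disc a b).eval u₁ * ν ^ 6 +
      (disc a b).eval u₂ / ν ^ 6)) ^ 2 ≠ 64 * (a.eval u₁ * a.eval u₂) ^ 3 := by
    rw [disc_eval, disc_eval]; exact hS'
  set A := α₁ a u₁ ν with hA
  set A' := α₂ a u₂ ν with hA'
  set β := ββ b u₁ u₂ ν with hβ
  set C₁ := α₁ a u₁ ν' with hC₁
  set C₂ := α₂ a u₂ ν' with hC₂
  -- the exceptional values of `x`
  have hX : {x : k | 4 * x ^ 3 - 12 * A * A' * x - (4 * A ^ 3 + 4 * A' ^ 3 + 27 * β ^ 2) = 0 ∨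
      Lam A A' x = 0 ∨ Lam C₁ C₂ x = 0}.Finite := by
    have f1 := cubic_finite (k := k) (A := 4) (B := 0) (C' := -12 * A * A')
      (D := -(4 * A ^ 3 + 4 * A' ^ 3 + 27 * β ^ 2)) (fun h => by norm_num at h)
    have f2 := cubic_finite (k := k) (A := 1) (B := 0) (C' := -3 * A * A')
      (D := -A ^ 3 - A' ^ 3) (fun h => one_ne_zero h.1)
    have f3 := cubic_finite (k := k) (A := 1) (B := 0) (C' := -3 * C₁ * C₂)
      (D := -C₁ ^ 3 - C₂ ^ 3) (fun h => one_ne_zero h.1)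
    refine (f1.union (f2.union f3)).subset ?_
    rintro x (hx | hx | hx)
    · left
      change 4 * x ^ 3 + 0 * x ^ 2 + (-12 * A * A') * x + (-(4 * A ^ 3 + 4 * A' ^ 3 + 27 * β ^ 2)) = 0
      linear_combination hx
    · right; left
      unfold Lam at hx
      change 1 * x ^ 3 + 0 * x ^ 2 + (-3 * A * A') * x + (-A ^ 3 - A' ^ 3) = 0
      linear_combination hx
    · right; right
      unfold Lam at hx
      change 1 * x ^ 3 + 0 * x ^ 2 + (-3 * C₁ * C₂) * x + (-C₁ ^ 3 - C₂ ^ 3) = 0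
      linear_combination hx
  let CC : Set (k × k) := {z | onC (a.eval u₁) (b.eval u₁) (a.eval u₂) (b.eval u₂) (t ^ 2) z}
  let L : k → Set (k × k) := fun x => {z | onC (a.eval u₁) (b.eval u₁) (a.eval u₂) (b.eval u₂)
    (t ^ 2) z ∧ (-(2 * x + A + A') * ν + 3 * (A' - A) * ν) * z.1 +
      ((2 * x + A + A') / ν + 3 * (A' - A) / ν) * z.2 + 6 * β = 0}
  let L0 : Set (k × k) := {z | onC (a.eval u₁) (b.eval u₁) (a.eval u₂) (b.eval u₂)
    (t ^ 2) z ∧ (-ν) * z.1 + (1 / ν) * z.2 + 0 = 0}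
  have ht2 : t ^ 2 ≠ 0 := pow_ne_zero 2 ht
  refine ⟨L0 ∪ ⋃ x ∈ {x : k | 4 * x ^ 3 - 12 * A * A' * x - (4 * A ^ 3 + 4 * A' ^ 3 + 27 * β ^ 2) = 0 ∨
      Lam A A' x = 0 ∨ Lam C₁ C₂ x = 0}, L x, ?_, ?_⟩
  · refine Set.Finite.union ?_ (Set.Finite.biUnion hX fun x _ => ?_)
    · exact line_inter_finite ht2 hS _ _ _ fun h => h0 (neg_eq_zero.1 h.1)
    · refine line_inter_finite ht2 hS _ _ _ ?_
      rintro ⟨e1, e2, e3⟩
      have e4 : A' = A := by
        have e5 : (-(2 * x + A + A') + 3 * (A' - A)) * ν = 0 := by linear_combination e1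
        have e6 := (mul_eq_zero.1 e5).resolve_right h0
        have e7 : ((2 * x + A + A') + 3 * (A' - A)) / ν = 0 := by
          rw [← e2]; ring
        have e8 := (div_eq_zero_iff.1 e7).resolve_right h0
        linear_combination (e6 + e8) / 6
      have e5 : β = 0 := by linear_combination e3 / 6
      have e6 : a.eval u₂ = ν ^ 4 * a.eval u₁ := by
        rw [hA', hA] at e4
        unfold α₁ α₂ at e4
        field_simp at e4
        linear_combination e4
      have e7 : b.eval u₂ = ν ^ 6 * b.eval u₁ := by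
        rw [hβ] at e5
        unfold ββ at e5
        field_simp at e5
        linear_combination e5
      apply hS'
      rw [e6, e7]
      field_simp
      ring
  · intro z hz hzZ
    rw [Set.mem_union, not_or] at hzZ
    obtain ⟨hz0, hz1⟩ := hzZ
    rw [← hν3]
    refine gW_zero_general B ha hb hr h₁ h₂ h0 h0' hνν hΔ ?_ ?_ ?_
    · unfold onC at hz
      rw [ht6] at hz
      linear_combination hz
    · intro hd
      apply hz0
      refine ⟨hz, ?_⟩
      linear_combination hd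
    · intro x hx
      by_contra hcon
      apply hz1
      refine Set.mem_biUnion (x := x) ?_ ⟨hz, ?_⟩
      · change _ ∨ _ ∨ _
        by_contra h3
        push Not at h3
        exact hcon h3
      · field_simp at hx ⊢
        linear_combination hx

/-- The value of the pairing is zero at all points of the cubics. -/
theorem gW_zero (B : Pairing k a b V) (ha : a.natDegree ≤ 8) (hb : b.natDegree ≤ 12)
    {r : k} (hr : (disc a b).eval r = 0) {u₁ u₂ t : k} (h₁ : (disc a b).eval u₁ ≠ 0)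
    (h₂ : (disc a b).eval u₂ ≠ 0) (ht : t ≠ 0)
    (hS : Smo (a.eval u₁) (b.eval u₁) (a.eval u₂) (b.eval u₂) (t ^ 2)) {z : k × k}
    (hz : onC (a.eval u₁) (b.eval u₁) (a.eval u₂) (b.eval u₂) (t ^ 2) z) :
    gW B u₁ u₂ t z.1 z.2 = 0 := by
  obtain ⟨Z, hZ, hZ2⟩ := exists_exceptional B ha hb hr h₁ h₂ ht hS
  have hsm := smooth_pt (pow_ne_zero 2 ht) hS hz
  set a₁ := a.eval u₁ with ha₁
  set a₂ := a.eval u₂ with ha₂
  set b₁ := b.eval u₁ with hb₁
  set b₂ := b.eval u₂ with hb₂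
  -- the exceptional slopes
  have hfin : ({m : k | m ^ 3 - t ^ 2 = 0} ∪ {m : k | m * (3 * z.2 ^ 2 + a₂) -
      t ^ 2 * (3 * z.1 ^ 2 + a₁) = 0} ∪ ((fun w : k × k => (w.2 - z.2) / (w.1 - z.1)) '' Z)).Finite := by
    refine (Set.Finite.union ?_ ?_).union (hZ.image _)
    · have := cubic_finite (k := k) (A := 1) (B := 0) (C' := 0) (D := -t ^ 2)
        (fun h => one_ne_zero h.1)
      refine this.subset fun m hm => ?_
      change 1 * m ^ 3 + 0 * m ^ 2 + 0 * m + -t ^ 2 = 0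
      have hm' : m ^ 3 - t ^ 2 = 0 := hm
      linear_combination hm'
    · have := cubic_finite (k := k) (A := 0) (B := 0) (C' := 3 * z.2 ^ 2 + a₂)
        (D := -(t ^ 2 * (3 * z.1 ^ 2 + a₁))) (by
          rintro ⟨-, -, e1, e2⟩
          apply hsm
          refine ⟨?_, e1⟩
          exact (mul_eq_zero.1 (neg_eq_zero.1 e2)).resolve_left (pow_ne_zero 2 ht))
      refine this.subset fun m hm => ?_
      change 0 * m ^ 3 + 0 * m ^ 2 + (3 * z.2 ^ 2 + a₂) * m + -(t ^ 2 * (3 * z.1 ^ 2 + a₁)) = 0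
      have hm' : m * (3 * z.2 ^ 2 + a₂) - t ^ 2 * (3 * z.1 ^ 2 + a₁) = 0 := hm
      linear_combination hm'
  obtain ⟨m, hm⟩ := hfin.exists_notMem
  simp only [Set.mem_union, not_or] at hm
  obtain ⟨⟨hm1, hm2⟩, hm3⟩ := hm
  have hm1' : m ^ 3 - t ^ 2 ≠ 0 := hm1
  have hm2' : m * (3 * z.2 ^ 2 + a₂) - t ^ 2 * (3 * z.1 ^ 2 + a₁) ≠ 0 := hm2
  obtain ⟨g₁, g₂, hg⟩ := quad_roots (l := m ^ 3 - t ^ 2) (p := 3 * (m ^ 2 * z.2 - t ^ 2 * z.1))
    (q := m * (3 * z.2 ^ 2 + a₂) - t ^ 2 * (3 * z.1 ^ 2 + a₁)) hm1'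
  have hg0 := hg 0
  have hgg : g₁ ≠ 0 ∧ g₂ ≠ 0 := by
    constructor
    · rintro rfl
      apply hm2'
      linear_combination hg0
    · rintro rfl
      apply hm2'
      linear_combination hg0
  unfold onC at hz
  have hall : ∀ x : k, (m * x + (z.2 - m * z.1)) ^ 3 + a₂ * (m * x + (z.2 - m * z.1)) + b₂ -
      t ^ 2 * (x ^ 3 + a₁ * x + b₁) = (m ^ 3 - t ^ 2) *
        ∏ i, (x - (![z.1, z.1 + g₁, z.1 + g₂] : Fin 3 → k) i) := by
    intro x
    rw [Fin.prod_univ_three]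
    simp only [Matrix.cons_val_zero, Matrix.cons_val_one, Matrix.cons_val_two, Matrix.head_cons,
      Matrix.tail_cons]
    linear_combination (x - z.1) * hg (x - z.1) - hz
  have key := line3 B h₁ h₂ hm1' ![z.1, z.1 + g₁, z.1 + g₂] hall
  rw [Fin.sum_univ_three] at key
  simp only [Matrix.cons_val_zero, Matrix.cons_val_one, Matrix.cons_val_two, Matrix.head_cons,
    Matrix.tail_cons] at key
  have hother : ∀ g : k, g ≠ 0 → (g - g₁) * (g - g₂) = 0 →
      gW B u₁ u₂ t (z.1 + g) (m * (z.1 + g) + (z.2 - m * z.1)) = 0 := by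
    intro g hg0 hgr
    have e1 := hg g
    rw [hgr, mul_zero] at e1
    refine hZ2 (z.1 + g, m * (z.1 + g) + (z.2 - m * z.1)) ?_ ?_
    · unfold onC
      linear_combination -g * e1 + hz
    · intro hmem
      apply hm3
      refine ⟨_, hmem, ?_⟩
      simp only
      have : z.1 + g - z.1 = g := by ring
      rw [this, div_eq_iff hg0]
      ring
  rw [hother g₁ hgg.1 (by ring), hother g₂ hgg.2 (by ring), add_zero, add_zero] at key
  have : m * z.1 + (z.2 - m * z.1) = z.2 := by ring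
  rw [this] at key
  exact key

end Pool.Agent.H833.EK
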