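import Pool.Agent.H833.EK.Spec

/-!
# The involution `t ↦ D / t`
-/

set_option autoImplicit false
set_option linter.unusedSectionVars false

namespace Pool.Agent.H833.EK

open FF Polynomial

variable {k : Type} [Field k] [CharZero k] [IsAlgClosed k] {a b : k[X]} {V : Type}
  [AddCommGroup V] [Module ℚ V]

theorem isAlg_const {K : Type} [Field K] [Algebra k K] (c : k) :
    IsAlgebraic k (algebraMap k K c) := isAlgebraic_algebraMap c

theorem transcendental_div {K : Type} [Field K] [Algebra k K] {E : K} (hE : Transcendental k E)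
    {c d : k} (hcd : c ≠ d) :
    Transcendental k ((E - algebraMap k K c) / (E - algebraMap k K d)) := by
  intro h
  have h0 : E - algebraMap k K d ≠ 0 := by
    intro h0
    apply hE
    rw [sub_eq_zero.1 h0]
    exact isAlg_const d
  set f := (E - algebraMap k K c) / (E - algebraMap k K d) with hf
  have h1 : f * (E - algebraMap k K d) = E - algebraMap k K c := div_mul_cancel₀ _ h0
  have h2 : f - 1 ≠ 0 := by
    intro h2
    rw [sub_eq_zero.1 h2, one_mul] at h1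
    apply hcd
    have h3 := sub_right_injective h1
    exact ((algebraMap k K).injective h3).symm
  have h3 : E = (f * algebraMap k K d - algebraMap k K c) / (f - 1) := by
    rw [eq_div_iff h2]
    linear_combination h1
  apply hE
  rw [h3, div_eq_mul_inv]
  exact ((h.mul (isAlg_const d)).sub (isAlg_const c)).mul ((h.sub isAlgebraic_one).inv)

theorem hasVal_of_div_pos {K : Type} [Field K] [Algebra k K] {E : K} (hE : Transcendental k E)
    {c d : k} (hcd : c ≠ d) {v : Place k K}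
    (h : 0 < v.ord ((E - algebraMap k K c) / (E - algebraMap k K d))) : HasVal v E c := by
  have h0 : E - algebraMap k K d ≠ 0 := by
    intro h0
    apply hE
    rw [sub_eq_zero.1 h0]
    exact isAlg_const d
  set f := (E - algebraMap k K c) / (E - algebraMap k K d) with hf
  have h1 : f * (E - algebraMap k K d) = E - algebraMap k K c := div_mul_cancel₀ _ h0
  have hv := hasVal_zero_of_pos h
  have h4 := hv.sub (HasVal.one v)
  have h2 : f - 1 ≠ 0 := h4.ne_zero (by norm_num)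
  have h3 : E = (f * algebraMap k K d - algebraMap k K c) / (f - 1) := by
    rw [eq_div_iff h2]
    linear_combination h1
  refine (((hv.mul (HasVal.const v d)).sub (HasVal.const v c)).div h4 (by norm_num)).congr h3.symm ?_
  norm_num

theorem hasVal_of_div_neg {K : Type} [Field K] [Algebra k K] {E : K} (hE : Transcendental k E)
    {c d : k} (hcd : c ≠ d) {v : Place k K}
    (h : v.ord ((E - algebraMap k K c) / (E - algebraMap k K d)) < 0) : HasVal v E d := by
  refine hasVal_of_div_pos hE hcd.symm ?_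
  have h1 : (E - algebraMap k K d) / (E - algebraMap k K c) =
    ((E - algebraMap k K c) / (E - algebraMap k K d))⁻¹ := by rw [inv_div]
  rw [h1, v.ord_inv]
  omega

section

variable {K : Type} [Field K] [Algebra k K]

/-- The equations of a family, up to the denominators. -/
structure PreFam (a b : k[X]) (U₁ U₂ N X E y : K) : Prop where
  N0 : N ≠ 0
  eq : EqJ (αL₁ a U₁ N) (αL₂ a U₂ N) (βL b U₁ U₂ N) X E
  y : y ^ 2 = (pp₁ (αL₁ a U₁ N) (αL₂ a U₂ N) (βL b U₁ U₂ N) X E / N) ^ 3 +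
    aeval U₁ a * (pp₁ (αL₁ a U₁ N) (αL₂ a U₂ N) (βL b U₁ U₂ N) X E / N) + aeval U₁ b

theorem PreFam.of_map {F : Type} [Field F] [Algebra k F] (i : K →ₐ[k] F) {U₁ U₂ N X E y : K}
    (h : PreFam a b (i U₁) (i U₂) (i N) (i X) (i E) (i y)) : PreFam a b U₁ U₂ N X E y := by
  have hinj : ∀ {p q : K}, i p = i q → p = q := fun {p q} h => i.toRingHom.injective h
  obtain ⟨h1, h2, h3⟩ := h
  refine ⟨fun h0 => h1 (by rw [h0, map_zero]), ?_, ?_⟩
  · apply hinj
    unfold EqJ αL₁ αL₂ βL at h2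
    unfold αL₁ αL₂ βL
    simp only [map_pow, map_sub, map_add, map_mul, map_div₀, map_ofNat, ← aeval_algHom_apply]
    exact h2
  · apply hinj
    unfold pp₁ qq αL₁ αL₂ βL at h3
    unfold pp₁ qq αL₁ αL₂ βL
    simp only [map_pow, map_sub, map_add, map_mul, map_div₀, map_ofNat, ← aeval_algHom_apply]
    exact h3

theorem PreFam.isFam {U₁ U₂ N X E y : K} (h : PreFam a b U₁ U₂ N X E y) {v : Place k K}
    {u₁ u₂ ν x η : k} (hv : ValAt v U₁ U₂ N X E u₁ u₂ ν x η) (hg : Good a b u₁ u₂ ν x η) :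
    IsFam a b U₁ U₂ N X E y :=
  ⟨h.N0, h.eq, (hv.qq hg.ν0).ne_zero (qq_ne_zero hg.lam), h.y⟩

end

theorem Good.of_eta {u₁ u₂ ν x η : k} (h : Good a b u₁ u₂ ν x η) {e : k} (he : e ^ 2 = η ^ 2) :
    Good a b u₁ u₂ ν x e := by
  refine ⟨h.d₁, h.d₂, h.ν0, ?_, h.lam⟩
  have := h.eq
  unfold EqJ at this ⊢
  rw [he, this]

/-- The values of the pairing for the two values of `t` are opposite. -/
theorem Wt_eps (B : Pairing k a b V) {u₁ u₂ ν ν' x η : k} (h : Good a b u₁ u₂ ν x η)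
    (h' : Good a b u₁ u₂ ν' x η)
    (hν : (disc a b).eval u₁ * (ν * ν') ^ 6 = (disc a b).eval u₂) :
    Wt B u₁ u₂ ν x η + Wt B u₁ u₂ ν' x η = 0 := by
  classical
  have h0 := h.ν0
  have h0' := h'.ν0
  have htwo : ∀ w : V, w = -w → w = 0 := by
    intro w hw
    have h4 : (2 : ℚ) • w = 0 := by
      rw [two_smul]
      nth_rewrite 2 [hw]
      exact add_neg_cancel w
    exact (smul_eq_zero.1 h4).resolve_left (by norm_num)
  by_cases hη : η = 0
  · have h1 := (Wt_neg B h).1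
    have h2 := (Wt_neg B h').1
    rw [hη, neg_zero] at h1 h2
    rw [hη, htwo _ h1, htwo _ h2, add_zero]
  have heq := (eqJ_iff (A₁ := a.eval u₁) (A₂ := a.eval u₂) (B₁ := b.eval u₁) (B₂ := b.eval u₂)
    (x := x) (η := η) h0).1 h.eq
  rw [← disc_eval, ← disc_eval] at heq
  have hdd₁ := disc_eval a b u₁
  have hdd₂ := disc_eval a b u₂
  have hD₁0 := h.d₁
  have hD₂0 := h.d₂
  set D₁ := (disc a b).eval u₁
  set D₂ := (disc a b).eval u₂
  set c := ν * ν' with hc
  have hc0 : c ≠ 0 := mul_ne_zero h0 h0'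
  -- the functions
  obtain ⟨Y, hYt⟩ : ∃ Y : Om k, Transcendental k Y := ⟨_, transcendental_X'⟩
  obtain ⟨al, hal⟩ : ∃ al : k →+* Om k, al = algebraMap k (Om k) := ⟨_, rfl⟩
  obtain ⟨θ, hθ⟩ : ∃ θ : Om k, θ = 4 * (al x) ^ 3 - 12 * (al (a.eval u₁) * al (a.eval u₂)) * al x +
      54 * (al (b.eval u₁) * al (b.eval u₂)) - Y ^ 2 := ⟨_, rfl⟩
  obtain ⟨s, hs⟩ := IsAlgClosed.exists_pow_nat_eq (θ ^ 2 - 4 * al D₁ * al D₂) (n := 2)
    (by norm_num)
  have hD₁' : al D₁ ≠ 0 := (_root_.map_ne_zero _).2 hD₁0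
  have hD₂' : al D₂ ≠ 0 := (_root_.map_ne_zero _).2 hD₂0
  have hc' : al c ≠ 0 := (_root_.map_ne_zero _).2 hc0
  obtain ⟨N, hN⟩ := IsAlgClosed.exists_pow_nat_eq ((θ + s) / (2 * al D₁)) (n := 6) (by norm_num)
  have hq : al D₁ * (N ^ 6) ^ 2 - θ * N ^ 6 + al D₂ = 0 := by
    rw [hN]
    field_simp
    linear_combination hs
  have hN0 : N ≠ 0 := by
    rintro rfl
    apply hD₂'
    linear_combination hq
  have hN0' : al c / N ≠ 0 := div_ne_zero hc' hN0
  have hcD : al D₁ * (al c) ^ 6 = al D₂ := by rw [← map_pow, ← map_mul, hν]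
  have hevA : ∀ u : k, aeval (al u) a = al (a.eval u) := fun u => by
    rw [hal, aeval_algebraMap_apply, coe_aeval_eq_eval]
  have hevB : ∀ u : k, aeval (al u) b = al (b.eval u) := fun u => by
    rw [hal, aeval_algebraMap_apply, coe_aeval_eq_eval]
  have ed₁ : 4 * (al (a.eval u₁)) ^ 3 + 27 * (al (b.eval u₁)) ^ 2 = al D₁ := by
    rw [hdd₁, map_add, map_mul, map_mul, map_pow, map_pow, map_ofNat, map_ofNat]
  have ed₂ : 4 * (al (a.eval u₂)) ^ 3 + 27 * (al (b.eval u₂)) ^ 2 = al D₂ := by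
    rw [hdd₂, map_add, map_mul, map_mul, map_pow, map_pow, map_ofNat, map_ofNat]
  have E1 : EqJ (αL₁ a (al u₁) N) (αL₂ a (al u₂) N) (βL b (al u₁) (al u₂) N) (al x) Y := by
    unfold αL₁ αL₂ βL
    rw [hevA, hevA, hevB, hevB, eqJ_iff hN0, ed₁, ed₂]
    have : al D₁ * N ^ 6 + al D₂ / N ^ 6 = θ := by
      field_simp
      linear_combination hq
    rw [this, hθ]
    ring
  have E2 : EqJ (αL₁ a (al u₁) (al c / N)) (αL₂ a (al u₂) (al c / N))
      (βL b (al u₁) (al u₂) (al c / N)) (al x) Y := by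
    unfold αL₁ αL₂ βL
    rw [hevA, hevA, hevB, hevB, eqJ_iff hN0', ed₁, ed₂]
    have : al D₁ * (al c / N) ^ 6 + al D₂ / (al c / N) ^ 6 = θ := by
      rw [← hcD]
      have hq' := hq
      rw [← hcD] at hq'
      field_simp
      linear_combination hq'
    rw [this, hθ]
    ring
  obtain ⟨y₁, hy₁⟩ := IsAlgClosed.exists_pow_nat_eq
    ((pp₁ (αL₁ a (al u₁) N) (αL₂ a (al u₂) N) (βL b (al u₁) (al u₂) N) (al x) Y / N) ^ 3 +
    aeval (al u₁) a * (pp₁ (αL₁ a (al u₁) N) (αL₂ a (al u₂) N) (βL b (al u₁) (al u₂) N) (al x) Y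
      / N) + aeval (al u₁) b) (n := 2) (by norm_num)
  obtain ⟨y₂, hy₂⟩ := IsAlgClosed.exists_pow_nat_eq
    ((pp₁ (αL₁ a (al u₁) (al c / N)) (αL₂ a (al u₂) (al c / N)) (βL b (al u₁) (al u₂) (al c / N))
      (al x) Y / (al c / N)) ^ 3 +
    aeval (al u₁) a * (pp₁ (αL₁ a (al u₁) (al c / N)) (αL₂ a (al u₂) (al c / N))
      (βL b (al u₁) (al u₂) (al c / N)) (al x) Y / (al c / N)) + aeval (al u₁) b) (n := 2)
      (by norm_num)
  have F1 : PreFam a b (al u₁) (al u₂) N (al x) Y y₁ := ⟨hN0, E1, hy₁⟩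
  have F2 : PreFam a b (al u₁) (al u₂) (al c / N) (al x) Y y₂ := ⟨hN0', E2, hy₂⟩
  obtain ⟨K, _, _, _, i, hi⟩ := exists_FF ({Y, N, y₁, y₂} : Finset (Om k))
  obtain ⟨Y', hY'⟩ := hi Y (by simp)
  obtain ⟨N', hN'⟩ := hi N (by simp)
  obtain ⟨y₁', hy₁'⟩ := hi y₁ (by simp)
  obtain ⟨y₂', hy₂'⟩ := hi y₂ (by simp)
  have hi' : ∀ z : k, i (algebraMap k K z) = al z := fun z => by rw [hal]; exact i.commutes z
  have hinj : ∀ {p q : K}, i p = i q → p = q := fun {p q} h => i.toRingHom.injective h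
  have G1 : PreFam a b (algebraMap k K u₁) (algebraMap k K u₂) N' (algebraMap k K x) Y' y₁' := by
    apply PreFam.of_map i
    rw [hi', hi', hi', hN', hY', hy₁']
    exact F1
  have G2 : PreFam a b (algebraMap k K u₁) (algebraMap k K u₂) (algebraMap k K c / N')
      (algebraMap k K x) Y' y₂' := by
    apply PreFam.of_map i
    rw [map_div₀, hi', hi', hi', hi', hN', hY', hy₂']
    exact F2
  have hYt' : Transcendental k Y' := transcendental_of_map i (by rw [hY']; exact hYt)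
  have hq' : algebraMap k K D₁ * (N' ^ 6) ^ 2 - (4 * (algebraMap k K x) ^ 3 -
      12 * (algebraMap k K (a.eval u₁) * algebraMap k K (a.eval u₂)) * algebraMap k K x +
      54 * (algebraMap k K (b.eval u₁) * algebraMap k K (b.eval u₂)) - Y' ^ 2) * N' ^ 6 +
      algebraMap k K D₂ = 0 := by
    apply hinj
    simp only [map_add, map_sub, map_mul, map_pow, hi', hN', hY', map_ofNat, map_zero]
    rw [← hθ]
    exact hq
  -- the values at the places
  have hval : ∀ (v : Place k K) (e : k), e ^ 2 = η ^ 2 → HasVal v Y' e → ∃ μ : k,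
      HasVal v N' μ ∧ ((μ ^ 6 = ν ^ 6 ∧ (c / μ) ^ 6 = ν' ^ 6) ∨
        (μ ^ 6 = ν' ^ 6 ∧ (c / μ) ^ 6 = ν ^ 6)) := by
    intro v e he hv
    have t1 := (HasVal.const v x).pow 3
    have t2 := ((((HasVal.ofNat v 4).mul t1).sub (((HasVal.ofNat v 12).mul
      ((HasVal.const v (a.eval u₁)).mul (HasVal.const v (a.eval u₂)))).mul
      (HasVal.const v x))).add ((HasVal.ofNat v 54).mul ((HasVal.const v (b.eval u₁)).mul
      (HasVal.const v (b.eval u₂))))).sub (hv.pow 2)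
    obtain ⟨T, hT⟩ : ∃ T : k, HasVal v (algebraMap k K D₁ * N' ^ 6) T := by
      apply exists_hasVal
      refine reg_of_root (n := 2) (l := (1 : K)) (c := 1) ![algebraMap k K D₁ * algebraMap k K D₂,
        -(4 * (algebraMap k K x) ^ 3 -
      12 * (algebraMap k K (a.eval u₁) * algebraMap k K (a.eval u₂)) * algebraMap k K x +
      54 * (algebraMap k K (b.eval u₁) * algebraMap k K (b.eval u₂)) - Y' ^ 2)] ?_ (HasVal.one v)
        one_ne_zero ?_
      · intro j
        fin_cases j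
        · exact ((HasVal.const v D₁).mul (HasVal.const v D₂)).reg
        · exact t2.neg.reg
      · rw [Fin.sum_univ_two]
        simp only [Matrix.cons_val_zero, Matrix.cons_val_one, Fin.val_zero, Fin.val_one,
          pow_zero, pow_one]
        linear_combination algebraMap k K D₁ * hq'
    have t3 : (T - D₁ * ν ^ 6) * (T - D₁ * ν' ^ 6) = 0 := by
      have t4 := ((hT.pow 2).sub (t2.mul hT)).add ((HasVal.const v D₁).mul (HasVal.const v D₂))
      have t5 : T ^ 2 - (4 * x ^ 3 - 12 * (a.eval u₁ * a.eval u₂) * x +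
          54 * (b.eval u₁ * b.eval u₂) - e ^ 2) * T + D₁ * D₂ = 0 := by
        refine (t4.congr ?_ rfl).unique (HasVal.zero v)
        linear_combination algebraMap k K D₁ * hq'
      rw [he, heq] at t5
      have t6 : D₂ / ν ^ 6 = D₁ * ν' ^ 6 := by
        rw [div_eq_iff (pow_ne_zero 6 h0), ← hν, hc]; ring
      have t7 : D₂ = D₁ * ν' ^ 6 * ν ^ 6 := by rw [← hν, hc]; ring
      rw [t6] at t5
      rw [t7] at t5
      linear_combination t5
    have t8 : HasVal v (N' ^ 6) (T / D₁) := by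
      refine (hT.div (HasVal.const v D₁) hD₁0).congr ?_ rfl
      have : algebraMap k K D₁ ≠ 0 := (_root_.map_ne_zero _).2 hD₁0
      field_simp
    obtain ⟨μ, hμ, hμ2⟩ := t8.of_pow (by norm_num)
    refine ⟨μ, hμ, ?_⟩
    rcases mul_eq_zero.1 t3 with t9 | t9
    · left
      have t10 : μ ^ 6 = ν ^ 6 := by
        rw [hμ2, sub_eq_zero.1 t9]; field_simp
      refine ⟨t10, ?_⟩
      rw [div_pow, t10, hc]
      field_simp
    · right
      have t10 : μ ^ 6 = ν' ^ 6 := by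
        rw [hμ2, sub_eq_zero.1 t9]; field_simp
      refine ⟨t10, ?_⟩
      rw [div_pow, t10, hc]
      field_simp
  have hne : ∀ μ : k, ((μ ^ 6 = ν ^ 6 ∧ (c / μ) ^ 6 = ν' ^ 6) ∨
        (μ ^ 6 = ν' ^ 6 ∧ (c / μ) ^ 6 = ν ^ 6)) → μ ≠ 0 := by
    rintro μ h1 rfl
    rcases h1 with ⟨h1, -⟩ | ⟨h1, -⟩
    · rw [zero_pow (by norm_num)] at h1
      exact pow_ne_zero 6 h0 h1.symm
    · rw [zero_pow (by norm_num)] at h1
      exact pow_ne_zero 6 h0' h1.symm
  have hboth : ∀ (v : Place k K) (e : k), e ^ 2 = η ^ 2 → HasVal v Y' e →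
      ∃ μ : k, (ValAt v (algebraMap k K u₁) (algebraMap k K u₂) N' (algebraMap k K x) Y'
        u₁ u₂ μ x e ∧ Good a b u₁ u₂ μ x e) ∧
        (ValAt v (algebraMap k K u₁) (algebraMap k K u₂) (algebraMap k K c / N')
          (algebraMap k K x) Y' u₁ u₂ (c / μ) x e ∧ Good a b u₁ u₂ (c / μ) x e) ∧
        Wt B u₁ u₂ μ x e + Wt B u₁ u₂ (c / μ) x e = Wt B u₁ u₂ ν x e + Wt B u₁ u₂ ν' x e := by
    intro v e he hv
    obtain ⟨μ, hμ, hμ2⟩ := hval v e he hv
    have hμ0 := hne μ hμ2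
    refine ⟨μ, ⟨⟨HasVal.const v u₁, HasVal.const v u₂, hμ, HasVal.const v x, hv⟩, ?_⟩,
      ⟨⟨HasVal.const v u₁, HasVal.const v u₂, (HasVal.const v c).div hμ hμ0, HasVal.const v x, hv⟩,
        ?_⟩, ?_⟩
    · rcases hμ2 with ⟨h1, h2⟩ | ⟨h1, h2⟩
      · exact (h.of_eta he).six h1
      · exact (h'.of_eta he).six h1
    · rcases hμ2 with ⟨h1, h2⟩ | ⟨h1, h2⟩
      · exact (h'.of_eta he).six h2
      · exact (h.of_eta he).six h2
    · rcases hμ2 with ⟨h1, h2⟩ | ⟨h1, h2⟩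
      · rw [Wt_six B (h.of_eta he) h1, Wt_six B (h'.of_eta he) h2]
      · rw [Wt_six B (h'.of_eta he) h1, Wt_six B (h.of_eta he) h2, add_comm]
  -- the two families
  have hηη : η ≠ -η := by
    intro h1
    apply hη
    linear_combination h1 / 2
  obtain ⟨v₀, hv₀⟩ := exists_zero (transcendental_div hYt' hηη)
  obtain ⟨μ₀, ⟨m1, m2⟩, ⟨m3, m4⟩, -⟩ := hboth v₀ η rfl (hasVal_of_div_pos hYt' hηη hv₀)
  have H1 := G1.isFam m1 m2
  have H2 := G2.isFam m3 m4
  have hfam := B.family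
    (P := ![PL a b (algebraMap k K u₁) (algebraMap k K u₂) N' (algebraMap k K x) Y' y₁',
      PL a b (algebraMap k K u₁) (algebraMap k K u₂) (algebraMap k K c / N')
        (algebraMap k K x) Y' y₂'])
    (Q := ![QL a b (algebraMap k K u₁) (algebraMap k K u₂) N' (algebraMap k K x) Y' y₁',
      QL a b (algebraMap k K u₁) (algebraMap k K u₂) (algebraMap k K c / N')
        (algebraMap k K x) Y' y₂'])
    (by intro j; fin_cases j; exacts [H1.onP, H2.onP])
    (by intro j; fin_cases j; exacts [H1.onQ, H2.onQ])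
    (transcendental_div hYt' hηη) (Wt B u₁ u₂ ν x η + Wt B u₁ u₂ ν' x η)
    (Wt B u₁ u₂ ν x (-η) + Wt B u₁ u₂ ν' x (-η)) ?_ ?_
  · rw [(Wt_neg B h).1, (Wt_neg B h').1, ← neg_add] at hfam
    exact htwo _ hfam
  · intro v hv
    refine ⟨fun j => Or.inl ⟨u₁, u₂, ?_, ?_⟩, ?_⟩
    · fin_cases j <;> exact HasVal.const v u₁
    · fin_cases j <;> exact HasVal.const v u₂
    · obtain ⟨μ, ⟨m1, m2⟩, ⟨m3, m4⟩, m5⟩ := hboth v η rfl (hasVal_of_div_pos hYt' hηη hv)
      rw [Fin.sum_univ_two]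
      simp only [Matrix.cons_val_zero, Matrix.cons_val_one]
      rw [wv_fam B H1 m1 m2, wv_fam B H2 m3 m4, m5]
  · intro v hv
    refine ⟨fun j => Or.inl ⟨u₁, u₂, ?_, ?_⟩, ?_⟩
    · fin_cases j <;> exact HasVal.const v u₁
    · fin_cases j <;> exact HasVal.const v u₂
    · obtain ⟨μ, ⟨m1, m2⟩, ⟨m3, m4⟩, m5⟩ := hboth v (-η) (neg_sq η)
        (hasVal_of_div_neg hYt' hηη hv)
      rw [Fin.sum_univ_two]
      simp only [Matrix.cons_val_zero, Matrix.cons_val_one]
      rw [wv_fam B H1 m1 m2, wv_fam B H2 m3 m4, m5]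

end Pool.Agent.H833.EK
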