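import Pool.Agent.H833.EK.Fam

/-!
# Function fields generated by algebraic functions
-/

set_option autoImplicit false
set_option linter.unusedSectionVars false

namespace Pool.Agent.H833.EK

open FF Polynomial IntermediateField
open Pool.Agent.Y107.VC (isFF_up)

variable (k : Type) [Field k] [CharZero k] [IsAlgClosed k]

instance isFF_ratFunc : IsFF k (RatFunc k) := by
  have hX : Transcendental k (RatFunc.X : RatFunc k) := RatFunc.transcendental_X
  refine IsFF.of_finite hX ?_
  have h1 : k⟮(RatFunc.X : RatFunc k)⟯ = ⊤ := RatFunc.adjoin_X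
  rw [h1]
  exact Module.Finite.of_surjective (Algebra.linearMap (⊤ : IntermediateField k (RatFunc k))
    (RatFunc k)) fun x => ⟨⟨x, trivial⟩, rfl⟩

/-- An algebraic closure of the field of rational functions. -/
abbrev Om : Type := AlgebraicClosure (RatFunc k)

variable {k}

theorem exists_FF (T : Finset (Om k)) : ∃ (L : Type) (_ : Field L) (_ : Algebra k L)
    (_ : IsFF k L) (i : L →ₐ[k] Om k), ∀ x ∈ T, ∃ y, i y = x := by
  let L := IntermediateField.adjoin (RatFunc k) (T : Set (Om k))
  have : FiniteDimensional (RatFunc k) L :=
    IntermediateField.finiteDimensional_adjoin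
      (fun x _ => (Algebra.IsAlgebraic.isAlgebraic (R := RatFunc k) x).isIntegral)
  have : IsFF k L := isFF_up (K := RatFunc k)
  refine ⟨L, inferInstance, inferInstance, inferInstance, L.val.restrictScalars k, fun x hx => ?_⟩
  exact ⟨⟨x, IntermediateField.subset_adjoin _ _ hx⟩, rfl⟩

theorem transcendental_of_map {L : Type} [Field L] [Algebra k L] (i : L →ₐ[k] Om k) {x : L}
    (h : Transcendental k (i x)) : Transcendental k x := by
  intro hx
  exact h (hx.algHom i)

theorem transcendental_X' : Transcendental k (algebraMap (RatFunc k) (Om k) RatFunc.X) := by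
  have hX : Transcendental k (RatFunc.X : RatFunc k) := RatFunc.transcendental_X
  intro h
  exact hX ((isAlgebraic_algebraMap_iff (algebraMap (RatFunc k) (Om k)).injective).1 h)

end Pool.Agent.H833.EK
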