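import Pool.Agent.H833.EK.Val
import Pool.Agent.H833.EK.DefF

/-!
# Pairings on pairs of points of an elliptic surface which respect rational equivalence
-/

set_option autoImplicit false
set_option linter.unusedSectionVars false

namespace Pool.Agent.H833.EK

open FF Polynomial
open Pool.Agent.W603.LV (deg_one)

section

variable {k : Type} [Field k]

theorem OnS.neg {a b : k[X]} {K : Type} [Field K] [Algebra k K] {P : T3 K} (h : OnS a b P) :
    OnS a b P.neg := by
  unfold OnS at *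
  simp only [T3.neg]
  rw [neg_sq]; exact h

theorem HasVal3.unique {K : Type} [Field K] [Algebra k K] {v : Place k K} {P : T3 K} {p q : T3 k}
    (hp : HasVal3 v P p) (hq : HasVal3 v P q) : p = q :=
  Prod.ext (hp.1.unique hq.1) (Prod.ext (hp.2.1.unique hq.2.1) (hp.2.2.unique hq.2.2))

theorem HasVal3.onS {a b : k[X]} {K : Type} [Field K] [Algebra k K] {v : Place k K} {P : T3 K}
    {p : T3 k} (h : HasVal3 v P p) (hP : OnS a b P) : OnS a b p := by
  unfold OnS at *
  obtain ⟨h1, h2, h3⟩ := h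
  have h4 := h3.pow 2
  have h5 := ((h2.pow 3).add ((h1.aeval a).mul h2)).add (h1.aeval b)
  rw [← hP] at h5
  rw [← coe_aeval_eq_eval] at h5
  exact h4.unique h5

open Classical in
/-- The value of the pairing `W` at the place `v`, for two triples of functions: zero if one of the
two points is not defined or lies on a singular fibre. -/
noncomputable def wv {V : Type} [AddCommGroup V] (a b : k[X]) (W : T3 k → T3 k → V) {K : Type}
    [Field K] [Algebra k K] (v : Place k K) (P Q : T3 K) : V :=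
  if h : ∃ pq : T3 k × T3 k, (HasVal3 v P pq.1 ∧ HasVal3 v Q pq.2) ∧
    (disc a b).eval pq.1.1 ≠ 0 ∧ (disc a b).eval pq.2.1 ≠ 0 then W h.choose.1 h.choose.2 else 0

variable {V : Type} [AddCommGroup V] {a b : k[X]} {W : T3 k → T3 k → V} {K : Type}
  [Field K] [Algebra k K] {v : Place k K} {P Q : T3 K} {p q : T3 k}

theorem wv_eq (hP : HasVal3 v P p) (hQ : HasVal3 v Q q) (hp : (disc a b).eval p.1 ≠ 0)
    (hq : (disc a b).eval q.1 ≠ 0) : wv a b W v P Q = W p q := by
  unfold wv
  have h : ∃ pq : T3 k × T3 k, (HasVal3 v P pq.1 ∧ HasVal3 v Q pq.2) ∧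
    (disc a b).eval pq.1.1 ≠ 0 ∧ (disc a b).eval pq.2.1 ≠ 0 := ⟨(p, q), ⟨hP, hQ⟩, hp, hq⟩
  rw [dif_pos h]
  have h1 := h.choose_spec
  rw [h1.1.1.unique hP, h1.1.2.unique hQ]

theorem wv_zero_of_not (h : ∀ p q : T3 k, HasVal3 v P p → HasVal3 v Q q →
    (disc a b).eval p.1 ≠ 0 → (disc a b).eval q.1 ≠ 0 → False) : wv a b W v P Q = 0 := by
  unfold wv
  rw [dif_neg]
  rintro ⟨pq, ⟨h1, h2⟩, h3, h4⟩
  exact h _ _ h1 h2 h3 h4

/-- The condition that the pair `P`, `Q` is under control at the place `v`. -/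
def Adm (a b : k[X]) (v : Place k K) (P Q : T3 K) : Prop :=
  (∃ c d : k, HasVal v P.1 c ∧ HasVal v Q.1 d) ∨
    (∃ c : k, HasVal v P.1 c ∧ (disc a b).eval c = 0) ∨
    (∃ d : k, HasVal v Q.1 d ∧ (disc a b).eval d = 0)

end

/-- A pairing on the pairs of points of the affine surface `Y ^ 2 = X ^ 3 + a(u) X + b(u)` (outside
of the singular fibres), which is antisymmetric, odd, and constant in families over the line. -/
structure Pairing (k : Type) [Field k] [CharZero k] (a b : k[X]) (V : Type) [AddCommGroup V]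
    [Module ℚ V] where
  W : T3 k → T3 k → V
  alt : ∀ p q : T3 k, OnS a b p → OnS a b q → (disc a b).eval p.1 ≠ 0 → (disc a b).eval q.1 ≠ 0 →
    W q p = -W p q
  odd : ∀ p q : T3 k, OnS a b p → OnS a b q → (disc a b).eval p.1 ≠ 0 → (disc a b).eval q.1 ≠ 0 →
    W p.neg q = -W p q
  family : ∀ {K : Type} [Field K] [Algebra k K] [IsFF k K] {ι : Type} [Fintype ι]
    (P Q : ι → T3 K), (∀ i, OnS a b (P i)) → (∀ i, OnS a b (Q i)) → ∀ {f : K},
    Transcendental k f → ∀ (c₀ c₁ : V),
    (∀ v : Place k K, 0 < v.ord f → (∀ i, Adm a b v (P i) (Q i)) ∧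
      ∑ i, wv a b W v (P i) (Q i) = c₀) →
    (∀ v : Place k K, v.ord f < 0 → (∀ i, Adm a b v (P i) (Q i)) ∧
      ∑ i, wv a b W v (P i) (Q i) = c₁) → c₀ = c₁

namespace Pairing

variable {k : Type} [Field k] [CharZero k] [IsAlgClosed k] {a b : k[X]} {V : Type}
  [AddCommGroup V] [Module ℚ V] (B : Pairing k a b V)

theorem odd_right {p q : T3 k} (hp : OnS a b p) (hq : OnS a b q) (h1 : (disc a b).eval p.1 ≠ 0)
    (h2 : (disc a b).eval q.1 ≠ 0) : B.W p q.neg = -B.W p q := by
  rw [B.alt q.neg p hq.neg hp h2 h1, B.odd q p hq hp h2 h1, B.alt p q hp hq h1 h2, neg_neg]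

theorem even {p q : T3 k} (hp : OnS a b p) (hq : OnS a b q) (h1 : (disc a b).eval p.1 ≠ 0)
    (h2 : (disc a b).eval q.1 ≠ 0) : B.W p.neg q.neg = B.W p q := by
  rw [B.odd p q.neg hp hq.neg h1 h2, B.odd_right hp hq h1 h2, neg_neg]

theorem ord_sum_pos {K : Type} [Field K] [Algebra k K] [IsFF k K] {f : K}
    (hf : Transcendental k f) : ∃ N : ℚ, 0 < N ∧
      (∑ v ∈ (divisor k f).support with 0 < v.ord f, ((v.ord f : ℤ) : ℚ)) = N ∧
      (∑ v ∈ (divisor k f).support with ¬ 0 < v.ord f, ((v.ord f : ℤ) : ℚ)) = -N := by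
  have h1 : ddeg (divisor k f) = 0 := ddeg_divisor f
  have h2 : ((∑ v ∈ (divisor k f).support, v.ord f : ℤ) : ℚ) = 0 := by
    have h3 : (∑ v ∈ (divisor k f).support, v.ord f : ℤ) = ddeg (divisor k f) := by
      unfold ddeg Finsupp.sum
      refine Finset.sum_congr rfl fun v _ => ?_
      change v.ord f = v.ord f * (v.deg : ℤ)
      rw [deg_one v]; simp
    rw [h3, h1]; simp
  obtain ⟨S, hS, -, h4⟩ := zeros (k := k) hf
  have h5 : 0 < Module.finrank (IntermediateField.adjoin k {f}) K := by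
    have := IsFF.finite hf
    exact Module.finrank_pos
  have h6 : ∃ v : Place k K, 0 < v.ord f := by
    by_contra hcon
    push Not at hcon
    have h7 : S = ∅ := Finset.eq_empty_of_forall_notMem fun v hv => by
      have := (hS v).1 hv
      have := hcon v
      omega
    rw [h7, Finset.sum_empty] at h4
    omega
  refine ⟨_, ?_, rfl, ?_⟩
  · obtain ⟨v, hv⟩ := h6
    refine Finset.sum_pos (fun w hw => ?_) ⟨v, ?_⟩
    · exact_mod_cast (Finset.mem_filter.1 hw).2
    · rw [Finset.mem_filter, Finsupp.mem_support_iff, divisor_apply]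
      exact ⟨hv.ne', hv⟩
  · push_cast at h2
    rw [← Finset.sum_filter_add_sum_filter_not _ (fun v : Place k K => 0 < v.ord f)] at h2
    linarith

end Pairing

end Pool.Agent.H833.EK
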