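import Pool.Agent.H833.EK.Res

/-!
# Fibrations in curves of genus one and their Jacobians
-/

set_option autoImplicit false
set_option linter.unusedSectionVars false

namespace Pool.Agent.H833.EK

open FF Polynomial

namespace Geo

variable {k : Type} [Field k] [CharZero k] [IsAlgClosed k] {G : Geo k} {n : ℕ}

open Classical in
/-- Rational equivalence on the variety and in one slot. -/
theorem rat_slot (hG : G.Nice) (i : Fin n) (y : Fin n → G.Pt k) :
    G.Rat 1 ≤ LinearMap.ker (Finsupp.linearCombination ℚ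
      fun z : Fin 1 → G.Pt k => G.cl (Function.update y i (z 0))) := by
  refine Submodule.span_le.2 ?_
  rintro _ ⟨K, i1, i2, i3, f, P, φ, hf, hφ, rfl⟩
  rw [SetLike.mem_coe, LinearMap.mem_ker]
  unfold Finsupp.sum
  rw [map_sum]
  have h3 := Ad.sum_eq_zero (Ad.slot hG i y (P := P 0) (φ := fun v => φ v 0)
    fun v => hφ v 0) hf
  unfold Finsupp.sum at h3
  rw [← h3]
  refine Finset.sum_congr rfl fun v _ => ?_
  rw [Finsupp.linearCombination_single]

variable (G) (n) in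
open Classical in
/-- `[x] - [x'] = [z] - [z']` in all slots. -/
def DEq (x x' z z' : G.Pt k) : Prop := ∀ (i : Fin n) (y : Fin n → G.Pt k),
  G.cl (Function.update y i x) - G.cl (Function.update y i x') =
    G.cl (Function.update y i z) - G.cl (Function.update y i z')

theorem DEq.of_rat (hG : G.Nice) {x x' z z' : G.Pt k}
    (h : Finsupp.single (fun _ : Fin 1 => x) (1 : ℚ) - Finsupp.single (fun _ => x') 1 -
      (Finsupp.single (fun _ => z) 1 - Finsupp.single (fun _ => z') 1) ∈ G.Rat 1) :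
    G.DEq n x x' z z' := by
  intro i y
  have h1 := rat_slot hG i y h
  rw [LinearMap.mem_ker] at h1
  simp only [map_sub, Finsupp.linearCombination_single, one_smul] at h1
  exact sub_eq_zero.1 h1

theorem Eqv.of_rat (hG : G.Nice) {x x' : G.Pt k}
    (h : Finsupp.single (fun _ : Fin 1 => x) (1 : ℚ) - Finsupp.single (fun _ => x') 1 ∈
      G.Rat 1) : G.Eqv n x x' := by
  intro i y
  have h1 := rat_slot hG i y h
  rw [LinearMap.mem_ker] at h1
  simp only [map_sub, Finsupp.linearCombination_single, one_smul] at h1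
  exact sub_eq_zero.1 h1

variable (G) in
/-- The antisymmetrised class of `(x - x') × (z - z')`. -/
noncomputable def W4 (i i' : Fin n) (y : Fin n → G.Pt k) (x x' z z' : G.Pt k) : G.CH n :=
  (G.cl₂ i i' y x z - G.cl₂ i i' y x z' - (G.cl₂ i i' y x' z - G.cl₂ i i' y x' z')) -
    (G.cl₂ i i' y z x - G.cl₂ i i' y z x' - (G.cl₂ i i' y z' x - G.cl₂ i i' y z' x'))

variable {i i' : Fin n} {y : Fin n → G.Pt k}

theorem W4_eq (o x x' z z' : G.Pt k) : G.W4 i i' y x x' z z' =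
    (G.Wd i i' y o x z - G.Wd i i' y o x z') - (G.Wd i i' y o x' z - G.Wd i i' y o x' z') := by
  unfold W4 Wd
  abel

theorem W4_alt (x x' z z' : G.Pt k) : G.W4 i i' y z z' x x' = -G.W4 i i' y x x' z z' := by
  unfold W4
  abel

theorem W4_neg (x x' z z' : G.Pt k) : G.W4 i i' y x' x z z' = -G.W4 i i' y x x' z z' := by
  unfold W4
  abel

theorem W4_congr (hi : i ≠ i') {x x' x₁ x₁' : G.Pt k} (h : G.DEq n x x' x₁ x₁') (z z' : G.Pt k) :
    G.W4 i i' y x x' z z' = G.W4 i i' y x₁ x₁' z z' := by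
  have h1 : ∀ w, G.cl₂ i i' y w x - G.cl₂ i i' y w x' =
      G.cl₂ i i' y w x₁ - G.cl₂ i i' y w x₁' := fun w => h i' _
  have h2 : ∀ w, G.cl₂ i i' y x w - G.cl₂ i i' y x' w =
      G.cl₂ i i' y x₁ w - G.cl₂ i i' y x₁' w := by
    intro w
    rw [cl₂_comm_update hi, cl₂_comm_update hi, cl₂_comm_update hi, cl₂_comm_update hi]
    exact h i _
  have e1 : G.W4 i i' y x x' z z' =
      ((G.cl₂ i i' y x z - G.cl₂ i i' y x' z) - (G.cl₂ i i' y x z' - G.cl₂ i i' y x' z')) -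
      ((G.cl₂ i i' y z x - G.cl₂ i i' y z x') - (G.cl₂ i i' y z' x - G.cl₂ i i' y z' x')) := by
    unfold W4
    abel
  rw [e1, h1, h1, h2, h2]
  unfold W4
  abel

theorem W4_congr_right (hi : i ≠ i') {z z' z₁ z₁' : G.Pt k} (h : G.DEq n z z' z₁ z₁')
    (x x' : G.Pt k) : G.W4 i i' y x x' z z' = G.W4 i i' y x x' z₁ z₁' := by
  rw [W4_alt, W4_congr hi h, ← W4_alt]

theorem W4_eqv (hi : i ≠ i') {x x' : G.Pt k} (h : G.Eqv n x x') (z z' : G.Pt k) :
    G.W4 i i' y x x' z z' = 0 := by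
  have h1 : G.DEq n x x' x x := by
    intro j w
    rw [h j w]
  rw [W4_congr hi h1]
  unfold W4
  abel

theorem W4_eqv_right (hi : i ≠ i') {z z' : G.Pt k} (h : G.Eqv n z z') (x x' : G.Pt k) :
    G.W4 i i' y x x' z z' = 0 := by
  rw [W4_alt, W4_eqv hi h, neg_zero]

theorem Ad.W4 (hG : G.Nice) {K : Type} [Field K] [Algebra k K] (hi : i ≠ i')
    {P P' Q Q' : G.Pt K} {φ φ' ψ ψ' : Place k K → G.Pt k} (h : ∀ v, G.Sp v P (φ v))
    (h' : ∀ v, G.Sp v P' (φ' v)) (hh : ∀ v, G.Sp v Q (ψ v)) (hh' : ∀ v, G.Sp v Q' (ψ' v)) :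
    (fun v => G.W4 i i' y (φ v) (φ' v) (ψ v) (ψ' v)) ∈ G.Ad (n := n) K :=
  Submodule.sub_mem _ (Submodule.sub_mem _ (Submodule.sub_mem _ (Ad.slot₂ hG hi y h hh)
    (Ad.slot₂ hG hi y h hh')) (Submodule.sub_mem _ (Ad.slot₂ hG hi y h' hh)
    (Ad.slot₂ hG hi y h' hh'))) (Submodule.sub_mem _ (Submodule.sub_mem _
    (Ad.slot₂ hG hi y hh h) (Ad.slot₂ hG hi y hh h')) (Submodule.sub_mem _
    (Ad.slot₂ hG hi y hh' h) (Ad.slot₂ hG hi y hh' h')))

end Geo

end Pool.Agent.H833.EK
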