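import Pool.Agent.H833.EK.Fibr

/-!
# The conjecture of Voisin for fibrations in curves of genus one
-/

set_option autoImplicit false
set_option linter.unusedSectionVars false

namespace Pool.Agent.H833.EK

open FF Polynomial
open Pool.Agent.Y107.VC (Lies isFF_up mor mor_spec)

namespace GenusOne

variable {k : Type} [Field k] [CharZero k] [IsAlgClosed k] {G : Geo k} {n : ℕ} {a b : k[X]}
variable (T : GenusOne G a b)

include T in
theorem exists_rep {p : T3 k} (hp : OnS a b p) (hd : (disc a b).eval p.1 ≠ 0) :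
    ∃ x x' : G.Pt k, T.dif x x' p := by
  let K := RatFunc k
  let P : Unit → T3 K := fun _ =>
    (algebraMap k K p.1, algebraMap k K p.2.1, algebraMap k K p.2.2)
  obtain ⟨L, i1, i2, i3, j, x, x', hx⟩ := T.lift K P (fun _ => OnS_const.2 (by
      have h3 : p.2.2 ^ 2 = p.2.1 ^ 3 + a.eval p.1 * p.2.1 + b.eval p.1 := OnS_self.1 hp
      rw [← map_pow, h3]
      simp)) (fun _ => by
      change aeval (algebraMap k K p.1) (disc a b) ≠ 0
      rw [aeval_algebraMap_apply, coe_aeval_eq_eval]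
      exact fun h0 => hd ((map_eq_zero _).1 h0))
  obtain ⟨w, -⟩ := exists_zero (k := k) (K := L) (f := j RatFunc.X) (fun hal =>
    RatFunc.transcendental_X ((isAlgebraic_algHom_iff j j.toRingHom.injective).1 hal))
  have h1 := hx ()
  simp only [P, AlgHom.commutes] at h1
  obtain ⟨x₀, x₀', -, -, -, -, h2⟩ := T.spec L w _ _ _ p.1 h1 (HasVal.const w _)
  exact ⟨x₀, x₀', (h2 hd).1 p ⟨HasVal.const w _, HasVal.const w _, HasVal.const w _⟩⟩

open Classical in
/-- Two points whose difference is a given point of the Jacobian. -/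
noncomputable def rep (o : G.Pt k) (p : T3 k) : G.Pt k × G.Pt k :=
  if h : ∃ x : G.Pt k × G.Pt k, T.dif x.1 x.2 p then h.choose else (o, o)

theorem rep_spec (o : G.Pt k) {p : T3 k} (hp : OnS a b p) (hd : (disc a b).eval p.1 ≠ 0) :
    T.dif (T.rep o p).1 (T.rep o p).2 p := by
  obtain ⟨x, x', h⟩ := T.exists_rep hp hd
  have h1 : ∃ x : G.Pt k × G.Pt k, T.dif x.1 x.2 p := ⟨(x, x'), h⟩
  unfold rep
  rw [dif_pos h1]
  exact h1.choose_spec

variable {i i' : Fin n}

/-- The pairing on the Jacobian. -/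
noncomputable def pairing (hG : G.Nice) (o : G.Pt k) (hi : i ≠ i') (y : Fin n → G.Pt k) :
    Pairing k a b (G.CH n) where
  W := fun p q => G.W4 i i' y (T.rep o p).1 (T.rep o p).2 (T.rep o q).1 (T.rep o q).2
  alt := fun p q _ _ _ _ => Geo.W4_alt _ _ _ _
  odd := fun p q hp _ hd _ => by
    have h1 := T.rep_spec o hp hd
    have h2 := T.rep_spec o hp.neg hd
    rw [Geo.W4_congr hi (Geo.DEq.of_rat hG (T.uniq h2 (T.neg h1)))]
    exact Geo.W4_neg _ _ _ _
  family := by
    classical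
    intro K _ _ _ ι _ P Q hP hQ f hf c₀ c₁ h₀ h₁
    set W : T3 k → T3 k → G.CH n := fun p q =>
      G.W4 i i' y (T.rep o p).1 (T.rep o p).2 (T.rep o q).1 (T.rep o q).2 with hW
    let I := {l : ι // aeval (P l).1 (disc a b) ≠ 0 ∧ aeval (Q l).1 (disc a b) ≠ 0}
    obtain ⟨L, i1, i2, i3, j, x, x', hx⟩ := T.lift K
      (Sum.elim (fun l : I => P l.1) (fun l : I => Q l.1)) (by
      rintro (l | l)
      · exact hP l.1
      · exact hQ l.1) (by
      rintro (l | l)
      · exact l.2.1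
      · exact l.2.2)
    have hl : ∀ w : Place k L, Lies j w (mor j w) := mor_spec j
    have key : ∀ (R : T3 K) (z z' : G.Pt L), T.dif z z' (j R.1, j R.2.1, j R.2.2) →
        ∀ w : Place k L, ∃ x₀ x₀' : G.Pt k, G.Sp w z x₀ ∧ G.Sp w z' x₀' ∧
        ∀ u₀, HasVal (mor j w) R.1 u₀ → T.pr x₀ = some u₀ ∧ T.pr x₀' = some u₀ ∧
          ((disc a b).eval u₀ ≠ 0 → (∀ p, HasVal3 (mor j w) R p → T.dif x₀ x₀' p) ∧
            ((¬∃ p, HasVal3 (mor j w) R p) → x₀ = x₀')) := by
      intro R z z' hz w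
      by_cases hu : ∃ u₀, HasVal (mor j w) R.1 u₀
      · obtain ⟨u₀, hu⟩ := hu
        obtain ⟨x₀, x₀', h1, h2, h3, h4, h5⟩ := T.spec L w z z' _ u₀ hz (hu.lies (hl w))
        refine ⟨x₀, x₀', h1, h2, fun u₁ hu₁ => ?_⟩
        rw [hu₁.unique hu]
        refine ⟨h3, h4, fun hd => ⟨fun p hp => (h5 hd).1 p
          ⟨hp.1.lies (hl w), hp.2.1.lies (hl w), hp.2.2.lies (hl w)⟩, fun hno => (h5 hd).2 ?_⟩⟩
        rintro ⟨p, hp1, hp2, hp3⟩
        apply hno
        obtain ⟨X₀, hX₀⟩ := exists_hasVal (reg_of_lies (hl w) hp2.reg)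
        obtain ⟨Y₀, hY₀⟩ := exists_hasVal (reg_of_lies (hl w) hp3.reg)
        exact ⟨(u₀, X₀, Y₀), hu, hX₀, hY₀⟩
      · obtain ⟨x₀, h1⟩ := hG.prop L w z
        obtain ⟨x₀', h2⟩ := hG.prop L w z'
        exact ⟨x₀, x₀', h1, h2, fun u₁ hu₁ => absurd ⟨u₁, hu₁⟩ hu⟩
    choose φ φ' hφ hφ' hφφ using fun (l : I) =>
      key (P l.1) (x (Sum.inl l)) (x' (Sum.inl l)) (hx (Sum.inl l))
    choose ψ ψ' hψ hψ' hψψ using fun (l : I) =>
      key (Q l.1) (x (Sum.inr l)) (x' (Sum.inr l)) (hx (Sum.inr l))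
    have hsing : ∀ {z z' : G.Pt k} {u₀ : k}, T.pr z = some u₀ → T.pr z' = some u₀ →
        (disc a b).eval u₀ = 0 → G.Eqv n z z' := by
      intro z z' u₀ h1 h2 h3
      refine Geo.Eqv.of_rat hG (T.sing z z' (h1.trans h2.symm) fun u hu => ?_)
      rw [h1] at hu
      rw [← Option.some.inj hu]
      exact h3
    have hval : ∀ (l : I) (w : Place k L), Adm a b (mor j w) (P l.1) (Q l.1) →
        G.W4 i i' y (φ l w) (φ' l w) (ψ l w) (ψ' l w) = wv a b W (mor j w) (P l.1) (Q l.1) := by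
      intro l w hadm
      rcases hadm with ⟨u₀, u₁, hu₀, hu₁⟩ | ⟨u₀, hu₀, hd⟩ | ⟨u₁, hu₁, hd⟩
      · obtain ⟨e1, e2, e3⟩ := hφφ l w u₀ hu₀
        obtain ⟨g1, g2, g3⟩ := hψψ l w u₁ hu₁
        by_cases hd₀ : (disc a b).eval u₀ = 0
        · rw [Geo.W4_eqv hi (hsing e1 e2 hd₀), wv_zero_of_not]
          intro p q hp _ hp' _
          exact hp' (by rw [hp.1.unique hu₀]; exact hd₀)
        by_cases hd₁ : (disc a b).eval u₁ = 0
        · rw [Geo.W4_eqv_right hi (hsing g1 g2 hd₁), wv_zero_of_not]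
          intro p q _ hq _ hq'
          exact hq' (by rw [hq.1.unique hu₁]; exact hd₁)
        by_cases hp : ∃ p₃, HasVal3 (mor j w) (P l.1) p₃
        · by_cases hq : ∃ q₃, HasVal3 (mor j w) (Q l.1) q₃
          · obtain ⟨p₃, hp⟩ := hp
            obtain ⟨q₃, hq⟩ := hq
            have hdp : (disc a b).eval p₃.1 ≠ 0 := by rw [hp.1.unique hu₀]; exact hd₀
            have hdq : (disc a b).eval q₃.1 ≠ 0 := by rw [hq.1.unique hu₁]; exact hd₁
            rw [wv_eq hp hq hdp hdq]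
            have r1 := (e3 hd₀).1 p₃ hp
            have r2 := (g3 hd₁).1 q₃ hq
            have s1 := T.rep_spec o (hp.onS (hP l.1)) hdp
            have s2 := T.rep_spec o (hq.onS (hQ l.1)) hdq
            exact (Geo.W4_congr hi (Geo.DEq.of_rat hG (T.uniq r1 s1)) _ _).trans
              (Geo.W4_congr_right hi (Geo.DEq.of_rat hG (T.uniq r2 s2)) _ _)
          · rw [Geo.W4_eqv_right hi (by rw [(g3 hd₁).2 hq]; exact Geo.Eqv.refl _),
              wv_zero_of_not]
            intro p q _ hq' _ _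
            exact hq ⟨q, hq'⟩
        · rw [Geo.W4_eqv hi (by rw [(e3 hd₀).2 hp]; exact Geo.Eqv.refl _), wv_zero_of_not]
          intro p q hp' _ _ _
          exact hp ⟨p, hp'⟩
      · obtain ⟨e1, e2, -⟩ := hφφ l w u₀ hu₀
        rw [Geo.W4_eqv hi (hsing e1 e2 hd), wv_zero_of_not]
        intro p q hp _ hp' _
        exact hp' (by rw [hp.1.unique hu₀]; exact hd)
      · obtain ⟨g1, g2, -⟩ := hψψ l w u₁ hu₁
        rw [Geo.W4_eqv_right hi (hsing g1 g2 hd), wv_zero_of_not]
        intro p q _ hq _ hq'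
        exact hq' (by rw [hq.1.unique hu₁]; exact hd)
    have hsum : ∀ v : Place k K, ∑ l : I, wv a b W v (P l.1) (Q l.1) =
        ∑ l, wv a b W v (P l) (Q l) := by
      intro v
      have h2 : ∑ l with (aeval (P l).1 (disc a b) ≠ 0 ∧ aeval (Q l).1 (disc a b) ≠ 0),
          wv a b W v (P l) (Q l) = ∑ l : I, wv a b W v (P l.1) (Q l.1) :=
        Finset.sum_subtype _ (by simp) _
      rw [← h2]
      refine Finset.sum_filter_of_ne fun l _ hne => ?_
      by_contra hcon
      apply hne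
      refine wv_zero_of_not fun p q hp hq hp' hq' => hcon ⟨fun h0 => hp' ?_, fun h0 => hq' ?_⟩
      · have := hp.1.aeval (disc a b)
        rw [h0] at this
        exact (this.unique (HasVal.zero v))
      · have := hq.1.aeval (disc a b)
        rw [h0] at this
        exact (this.unique (HasVal.zero v))
    have hAd : (fun w => ∑ l, G.W4 i i' y (φ l w) (φ' l w) (ψ l w) (ψ' l w)) ∈
        G.Ad (n := n) L := by
      have h1 : ∑ l, (fun w => G.W4 i i' y (φ l w) (φ' l w) (ψ l w) (ψ' l w)) ∈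
          G.Ad (n := n) L :=
        Submodule.sum_mem _ fun l _ => Geo.Ad.W4 hG hi (hφ l) (hφ' l) (hψ l) (hψ' l)
      have h2 : (∑ l, (fun w => G.W4 i i' y (φ l w) (φ' l w) (ψ l w) (ψ' l w))) =
          fun w => ∑ l, G.W4 i i' y (φ l w) (φ' l w) (ψ l w) (ψ' l w) := by
        funext w
        rw [Finset.sum_apply]
      rwa [h2] at h1
    have hjf : Transcendental k (j f) := fun hal =>
      hf ((isAlgebraic_algHom_iff j j.toRingHom.injective).1 hal)
    refine Geo.Ad.const hAd hjf (fun w hw => ?_) (fun w hw => ?_)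
    · obtain ⟨m, hm, h1⟩ := hl w
      rw [h1 f] at hw
      have hm' : (0 : ℤ) < m := by exact_mod_cast hm
      have h2 : 0 < (mor j w).ord f := by
        by_contra hcon
        push Not at hcon
        have := mul_nonpos_of_nonneg_of_nonpos hm'.le hcon
        omega
      obtain ⟨h3, h4⟩ := h₀ _ h2
      rw [← h4, ← hsum]
      exact Finset.sum_congr rfl fun l _ => hval l w (h3 l.1)
    · obtain ⟨m, hm, h1⟩ := hl w
      rw [h1 f] at hw
      have hm' : (0 : ℤ) < m := by exact_mod_cast hm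
      have h2 : (mor j w).ord f < 0 := by
        by_contra hcon
        push Not at hcon
        have := mul_nonneg hm'.le hcon
        omega
      obtain ⟨h3, h4⟩ := h₁ _ h2
      rw [← h4, ← hsum]
      exact Finset.sum_congr rfl fun l _ => hval l w (h3 l.1)

variable {y : Fin n → G.Pt k}

include T in
/-- The words vanish for pairs of points in the same fibres. -/
theorem W4_zero (hG : G.Nice) (ha : a.natDegree ≤ 8) (hb : b.natDegree ≤ 12) {r : k}
    (hr : (disc a b).eval r = 0) (hi : i ≠ i') {x x' z z' : G.Pt k} (hx : T.pr x = T.pr x')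
    (hz : T.pr z = T.pr z') : G.W4 i i' y x x' z z' = 0 := by
  have key : ∀ w w' : G.Pt k, T.pr w = T.pr w' → G.Eqv n w w' ∨
      ∃ p, OnS a b p ∧ (disc a b).eval p.1 ≠ 0 ∧ T.dif w w' p := by
    intro w w' hw
    by_cases h1 : ∀ u, T.pr w = some u → (disc a b).eval u = 0
    · exact Or.inl (Geo.Eqv.of_rat hG (T.sing w w' hw h1))
    · push Not at h1
      obtain ⟨u, hu, hd⟩ := h1
      rcases T.smooth w w' u hu (hw ▸ hu) hd with h2 | ⟨p, hp, hpu, h2⟩
      · left; rw [h2]; exact Geo.Eqv.refl _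
      · right; exact ⟨p, hp, by rw [hpu]; exact hd, h2⟩
  rcases key x x' hx with h1 | ⟨p, hp, hpd, h1⟩
  · exact Geo.W4_eqv hi h1 _ _
  rcases key z z' hz with h2 | ⟨q, hq, hqd, h2⟩
  · exact Geo.W4_eqv_right hi h2 _ _
  have h3 : G.W4 i i' y (T.rep x p).1 (T.rep x p).2 (T.rep x q).1 (T.rep x q).2 = 0 :=
    (T.pairing hG x hi y).zero ha hb hr hp hq hpd hqd
  rw [← h3]
  exact (Geo.W4_congr hi (Geo.DEq.of_rat hG (T.uniq h1 (T.rep_spec x hp hpd))) _ _).trans
    (Geo.W4_congr_right hi (Geo.DEq.of_rat hG (T.uniq h2 (T.rep_spec x hq hqd))) _ _)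

/-- A function on the variety which is constant on the fibres and extends to a family over the
multisection is constant. -/
theorem fib_const (Φ : G.Pt k → G.CH n) (hΦ : ∀ x x', T.pr x = T.pr x' → Φ x = Φ x')
    (hAd : ∀ (K : Type) [Field K] [Algebra k K] (D : G.Pt K) (d : Place k K → G.Pt k),
      (∀ v, G.Sp v D (d v)) → (fun v => Φ (d v)) ∈ G.Ad (n := n) K) (x x' : G.Pt k) :
    Φ x = Φ x' := by
  obtain ⟨K, i1, i2, i3, u, D, hu, hD⟩ := T.multi
  choose d hd hd1 hd2 using hD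
  have hF := hAd K D d hd
  have hval : ∀ (v : Place k K) (c : k), 0 < v.ord (u - algebraMap k K c) → HasVal v u c := by
    intro v c hv
    have h4 := (hasVal_zero_of_pos hv).add (HasVal.const v c)
    rwa [sub_add_cancel, zero_add] at h4
  have hsub : ∀ c : k, Transcendental k (u - algebraMap k K c) := by
    intro c h
    apply hu
    have := h.add (isAlgebraic_algebraMap (A := K) c)
    rwa [sub_add_cancel] at this
  have hpole : ∀ (v : Place k K) (c : k), v.ord (u - algebraMap k K c) < 0 →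
      ¬∃ u₀, HasVal v u u₀ := by
    rintro v c hv ⟨u₀, hu₀⟩
    have h6 : v.Reg (u - algebraMap k K c) := (hu₀.sub (HasVal.const v c)).reg
    rcases h6 with h6 | h6
    · rw [h6, v.ord_zero] at hv
      exact lt_irrefl _ hv
    · omega
  have key : ∀ (c : k) (z z' : G.Pt k), T.pr z = some c → T.pr z' = none → Φ z = Φ z' := by
    intro c z z' hz hz'
    refine Geo.Ad.const hF (hsub c) (fun v hv => ?_) (fun v hv => ?_)
    · exact hΦ _ _ ((hd1 v c (hval v c hv)).trans hz.symm)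
    · exact hΦ _ _ ((hd2 v (hpole v c hv)).trans hz'.symm)
  rcases h1 : T.pr x with _ | c
  · rcases h2 : T.pr x' with _ | c'
    · exact hΦ _ _ (h1.trans h2.symm)
    · exact (key c' x' x h2 h1).symm
  · rcases h2 : T.pr x' with _ | c'
    · exact key c x x' h1 h2
    · by_cases hc : c = c'
      · exact hΦ _ _ (by rw [h1, h2, hc])
      · refine Geo.Ad.const hF (transcendental_div hu hc) (fun v hv => ?_) (fun v hv => ?_)
        · exact hΦ _ _ ((hd1 v c (hasVal_of_div_pos hu hc hv)).trans h1.symm)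
        · exact hΦ _ _ ((hd1 v c' (hasVal_of_div_neg hu hc hv)).trans h2.symm)

include T in
/-- **The words vanish.** -/
theorem Wd_zero (hG : G.Nice) (ha : a.natDegree ≤ 8) (hb : b.natDegree ≤ 12) {r : k}
    (hr : (disc a b).eval r = 0) (hi : i ≠ i') (o x z : G.Pt k) :
    G.Wd i i' y o x z = 0 := by
  have h1 : ∀ x x' : G.Pt k, T.pr x = T.pr x' → ∀ z,
      G.Wd i i' y o x z - G.Wd i i' y o x' z = 0 := by
    intro x x' hx z
    have h2 := T.fib_const (fun z => G.Wd i i' y o x z - G.Wd i i' y o x' z) (fun z z' hz => by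
      have h3 := T.W4_zero (y := y) hG ha hb hr hi hx hz
      rw [Geo.W4_eq o] at h3
      rw [← sub_eq_zero, ← h3]
      abel) (fun K _ _ D d hd => by
      obtain ⟨X, hX⟩ := hG.cst K x
      obtain ⟨X', hX'⟩ := hG.cst K x'
      exact Submodule.sub_mem _ (Geo.Ad.Wd hG hi hX hd) (Geo.Ad.Wd hG hi hX' hd)) z o
    rw [h2, Geo.Wd_zero_right hi (Geo.Eqv.refl o), Geo.Wd_zero_right hi (Geo.Eqv.refl o),
      sub_zero]
  have h2 := T.fib_const (fun x => G.Wd i i' y o x z)
    (fun x x' hx => sub_eq_zero.1 (h1 x x' hx z)) (fun K _ _ D d hd => by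
      obtain ⟨Z, hZ⟩ := hG.cst K z
      exact Geo.Ad.Wd hG hi hd hZ) x o
  change G.Wd i i' y o x z = G.Wd i i' y o o z at h2
  rw [h2, Geo.Wd_zero_left hi (Geo.Eqv.refl o)]

include T in
/-- **The conjecture of Voisin.** -/
theorem voisin (hG : G.Nice) (ha : a.natDegree ≤ 8) (hb : b.natDegree ≤ 12) {r : k}
    (hr : (disc a b).eval r = 0) (hn : 2 ≤ n) : G.Voisin n := by
  have hi : (⟨0, by omega⟩ : Fin n) ≠ ⟨1, by omega⟩ := by
    intro hh
    have := congrArg Fin.val hh
    simp at this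
  obtain ⟨K, i1, i2, i3, u, D, hu, hD⟩ := T.multi
  obtain ⟨v, -⟩ := exists_zero (k := k) (K := K) hu
  obtain ⟨o, -⟩ := hD v
  exact Geo.voisin_of_Wd hi o fun y x x' => T.Wd_zero hG ha hb hr hi o x x'

end GenusOne

end Pool.Agent.H833.EK
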