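import Pool.Agent.H833.EK.Multi

/-!
# The filtration of the zero-cycles on the powers, and correspondences between the powers
-/

set_option autoImplicit false
set_option linter.unusedSectionVars false

namespace Pool.Agent.H833.EK

open FF Polynomial

namespace Geo

variable {k : Type} [Field k] [CharZero k] (G : Geo k)

variable [IsAlgClosed k]

/-- The filtration of the Chow group. -/
noncomputable def FilC (n j : ℕ) : Submodule ℚ (G.CH n) :=
  Submodule.span ℚ {c | ∃ (T : Finset (Fin n)) (a : Fin n → (G.Pt k →₀ ℚ)),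
    j ≤ T.card ∧ (∀ i ∈ T, deg (a i) = 0) ∧ c = G.Λ n a}

variable {G} {m n j : ℕ}

theorem mem_Fil {c : (Fin n → G.Pt k) →₀ ℚ} : c ∈ G.Fil n j ↔ (G.Rat n).mkQ c ∈ G.FilC n j := by
  have h1 : G.FilC n j = (Submodule.span ℚ {c | ∃ (T : Finset (Fin n))
      (a : Fin n → (G.Pt k →₀ ℚ)), j ≤ T.card ∧ (∀ i ∈ T, deg (a i) = 0) ∧ c = ext a}).map
      (G.Rat n).mkQ := by
    rw [Submodule.map_span]
    unfold FilC
    congr 1
    ext c
    constructor
    · rintro ⟨T, a, h1, h2, rfl⟩
      exact ⟨ext a, ⟨T, a, h1, h2, rfl⟩, rfl⟩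
    · rintro ⟨_, ⟨T, a, h1, h2, rfl⟩, rfl⟩
      exact ⟨T, a, h1, h2, rfl⟩
  rw [h1, ← Submodule.mem_comap, Submodule.comap_map_eq, Submodule.ker_mkQ, sup_comm]
  rfl

variable {o : G.Pt k}

/-- The component of a point. -/
noncomputable def Ec (G : Geo k) (o : G.Pt k) (T : Finset (Fin n)) (w : Fin n → G.Pt k) : G.CH n :=
  G.Λ n (T.piecewise (fun j => Finsupp.single (w j) 1 - Finsupp.single o 1)
    (fun _ => Finsupp.single o 1))

theorem deg_sub (a b : G.Pt k →₀ ℚ) : deg (a - b) = deg a - deg b := by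
  classical
  unfold deg
  rw [Finsupp.sum_sub_index]
  intro _ _ _
  rfl

theorem deg_single (x : G.Pt k) (c : ℚ) : deg (Finsupp.single x c) = c := by
  unfold deg
  rw [Finsupp.sum_single_index rfl]

theorem cl_eq_sum (o : G.Pt k) (w : Fin n → G.Pt k) : G.cl w = ∑ T : Finset (Fin n), G.Ec o T w := by
  rw [← Λ_single]
  have h := (G.Λ n).map_add_univ (fun j => Finsupp.single (w j) 1 - Finsupp.single o 1)
    (fun _ => Finsupp.single o 1)
  unfold Ec
  rw [← h]
  congr 1
  funext j
  simp

theorem Ec_mem {T : Finset (Fin n)} (h : j ≤ T.card) (w : Fin n → G.Pt k) :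
    G.Ec o T w ∈ G.FilC n j := by
  refine Submodule.subset_span ⟨T, _, h, fun i hi => ?_, rfl⟩
  rw [Finset.piecewise_eq_of_mem _ _ _ hi, deg_sub, deg_single, deg_single, sub_self]

/-- A slot of zero-cycles which vanish in all products. -/
theorem Λ_slot_zero (o : G.Pt k) (i : Fin n) {p : G.Pt k →₀ ℚ}
    (hp : ∀ y : Fin n → G.Pt k, G.Λ n (Function.update (fun j => Finsupp.single (y j) 1) i p) = 0)
    (b : Fin n → (G.Pt k →₀ ℚ)) : G.Λ n (Function.update b i p) = 0 := by
  classical
  let dl : (G.Pt k →₀ ℚ) →ₗ[ℚ] ℚ := Finsupp.linearCombination ℚ fun _ => (1 : ℚ)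
  have hdl : ∀ (x : G.Pt k), dl (Finsupp.single x 1) = 1 := fun x => by
    simp [dl]
  let f : Fin n → ((G.Pt k →₀ ℚ) →ₗ[ℚ] (G.Pt k →₀ ℚ)) := fun j =>
    if j = i then dl.smulRight p else LinearMap.id
  have hf : ∀ (b : Fin n → (G.Pt k →₀ ℚ)), dl (b i) = 1 →
      (fun j => f j (b j)) = Function.update b i p := by
    intro b hb
    funext j
    by_cases hj : j = i
    · subst hj
      simp only [f, if_pos, Function.update_self, LinearMap.smulRight_apply, hb, one_smul]
    · simp only [f, if_neg hj, Function.update_of_ne hj, LinearMap.id_apply]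
  have h1 : (G.Λ n).compLinearMap f = 0 := by
    refine Module.Basis.ext_multilinear (fun _ => Finsupp.basisSingleOne) fun v => ?_
    rw [MultilinearMap.compLinearMap_apply, zero_apply]
    have h2 := hf (fun j => Finsupp.single (v j) (1 : ℚ)) (hdl _)
    simp only [Finsupp.coe_basisSingleOne] at *
    rw [h2]
    exact hp v
  have h2 := congrArg (fun F => F (Function.update b i (Finsupp.single o 1))) h1
  simp only [MultilinearMap.compLinearMap_apply, zero_apply] at h2
  rw [hf _ (by rw [Function.update_self]; exact hdl o), Function.update_idem] at h2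
  exact h2

/-- Cycles which can be exchanged for each other in all slots. -/
theorem Λ_congr (o : G.Pt k) {a b : Fin n → (G.Pt k →₀ ℚ)}
    (h : ∀ (i : Fin n) (y : Fin n → G.Pt k),
      G.Λ n (Function.update (fun j => Finsupp.single (y j) 1) i (a i)) =
      G.Λ n (Function.update (fun j => Finsupp.single (y j) 1) i (b i))) : G.Λ n a = G.Λ n b := by
  classical
  have h1 : ∀ (i : Fin n) (d : Fin n → (G.Pt k →₀ ℚ)),
      G.Λ n (Function.update d i (a i)) = G.Λ n (Function.update d i (b i)) := by
    intro i d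
    rw [← sub_eq_zero, ← (G.Λ n).map_update_sub]
    refine Λ_slot_zero o i (fun y => ?_) d
    rw [(G.Λ n).map_update_sub, h i y, sub_self]
  have key : ∀ T : Finset (Fin n), G.Λ n (T.piecewise b a) = G.Λ n a := by
    intro T
    induction T using Finset.induction_on with
    | empty => simp
    | insert i s hi ih =>
      rw [← ih, Finset.piecewise_insert, ← h1 i]
      congr 1
      funext j
      by_cases hj : j = i
      · subst hj
        rw [Function.update_self, Finset.piecewise_eq_of_notMem _ _ _ hi]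
      · rw [Function.update_of_ne hj]
  have h2 := key Finset.univ
  rw [Finset.piecewise_univ] at h2
  exact h2.symm

theorem Λ_update_single (y : Fin n → G.Pt k) (i : Fin n) (x : G.Pt k) [DecidableEq (Fin n)] :
    G.Λ n (Function.update (fun j => Finsupp.single (y j) 1) i (Finsupp.single x 1)) =
      G.cl (Function.update y i x) := by
  rw [← Λ_single]
  congr 1
  funext j
  by_cases hj : j = i
  · subst hj; simp
  · rw [Function.update_of_ne hj, Function.update_of_ne hj]

variable {ι : Hom G G}

/-- The signs. -/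
theorem sign_slot (hι : ∀ x, G.Opp n o x (ι.map k x)) (x : G.Pt k) (i : Fin n)
    (y : Fin n → G.Pt k) :
    G.Λ n (Function.update (fun j => Finsupp.single (y j) 1) i
      (Finsupp.single (ι.map k x) 1 - Finsupp.single o 1)) =
    G.Λ n (Function.update (fun j => Finsupp.single (y j) 1) i
      ((-1 : ℚ) • (Finsupp.single x 1 - Finsupp.single o 1))) := by
  classical
  have h := hι x i y
  rw [(G.Λ n).map_update_smul, (G.Λ n).map_update_sub, (G.Λ n).map_update_sub,
    Λ_update_single, Λ_update_single, Λ_update_single]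
  rw [neg_one_smul, neg_sub, sub_eq_sub_iff_add_eq_add, ← two_smul ℚ (G.cl _), ← h, add_comm]

/-- The base element. -/
noncomputable def Dc (G : Geo k) (o : G.Pt k) {T : Finset (Fin m)} {T' : Finset (Fin n)}
    (F : {j // j ∈ T'} → {i // i ∈ T}) (x : Fin m → G.Pt k) : G.CH n :=
  G.Λ n fun j => if h : j ∈ T' then
    Finsupp.single (x (F ⟨j, h⟩)) 1 - Finsupp.single o 1 else Finsupp.single o 1

theorem Ec_act {g : Coord m n} (hι : ∀ j l, g j = some (l, true) → ∀ x,
    G.Opp n o x (ι.map k x)) {T : Finset (Fin m)}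
    {T' : Finset (Fin n)} {F : {j // j ∈ T'} → {i // i ∈ T}}
    (hF : ∀ j, (g j.1).map Prod.fst = some (F j).1) (x : Fin m → G.Pt k) :
    G.Ec o T' (g.act (ι.map k) o x) = (∏ j ∈ T', g.sgn j) • G.Dc o F x := by
  classical
  unfold Ec Dc
  rw [← (G.Λ n).map_piecewise_smul]
  refine Λ_congr o fun i y => ?_
  by_cases hi : i ∈ T'
  · rw [Finset.piecewise_eq_of_mem _ _ _ hi, Finset.piecewise_eq_of_mem _ _ _ hi, dif_pos hi]
    have h1 := hF ⟨i, hi⟩
    simp only at h1
    rcases h2 : g i with _ | ⟨l, s⟩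
    · rw [h2] at h1; simp at h1
    · rw [h2] at h1
      simp only [Option.map_some, Option.some.injEq] at h1
      cases s
      · have e1 : g.act (ι.map k) o x i = x l := by
          unfold Coord.act; rw [h2]
        have e2 : g.sgn i = 1 := by
          unfold Coord.sgn; rw [h2]
        rw [e1, e2, one_smul, h1]
      · have e1 : g.act (ι.map k) o x i = ι.map k (x l) := by
          unfold Coord.act; rw [h2]
        have e2 : g.sgn i = -1 := by
          unfold Coord.sgn; rw [h2]
        rw [e1, e2, h1]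
        exact sign_slot (hι i l h2) _ i y
  · rw [Finset.piecewise_eq_of_notMem _ _ _ hi, Finset.piecewise_eq_of_notMem _ _ _ hi,
      dif_neg hi]

/-- The base element does not depend on the bijection. -/
theorem Dc_eq (hS : G.Sw n o) {T : Finset (Fin m)} {T' : Finset (Fin n)}
    {F F₀ : {j // j ∈ T'} → {i // i ∈ T}} (hF : Function.Bijective F)
    (hF₀ : Function.Bijective F₀) (x : Fin m → G.Pt k) : G.Dc o F x = G.Dc o F₀ x := by
  classical
  let π : Equiv.Perm {j // j ∈ T'} :=
    (Equiv.ofBijective F hF).trans (Equiv.ofBijective F₀ hF₀).symm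
  have hπ : ∀ j, F₀ (π j) = F j := fun j =>
    Equiv.ofBijective_apply_symm_apply F₀ hF₀ (F j)
  have h1 := Λ_perm hS (fun j => j ∈ T') π (fun j => if h : j ∈ T' then
    Finsupp.single (x (F₀ ⟨j, h⟩)) 1 - Finsupp.single o 1 else Finsupp.single o 1)
    (fun j hj => by
      rw [dif_pos hj, deg_sub, deg_single, deg_single, sub_self])
  unfold Dc
  rw [← h1]
  congr 1
  funext j
  by_cases hj : j ∈ T'
  · have h2 : Equiv.Perm.ofSubtype π j = (π ⟨j, hj⟩ : Fin n) :=
      Equiv.Perm.ofSubtype_apply_of_mem π hj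
    rw [dif_pos hj, h2, dif_pos (π ⟨j, hj⟩).2]
    have h3 : (⟨(π ⟨j, hj⟩ : Fin n), (π ⟨j, hj⟩).2⟩ : {j // j ∈ T'}) = π ⟨j, hj⟩ := rfl
    rw [h3, hπ]
  · rw [dif_neg hj, Equiv.Perm.ofSubtype_apply_of_not_mem π hj, dif_neg hj]

open Classical in
theorem exists_F {g : Coord m n} {T : Finset (Fin m)} {T' : Finset (Fin n)}
    (h : T'.image (fun j => (g j).map Prod.fst) = T.image some) (hc : T.card = T'.card) :
    ∃ F : {j // j ∈ T'} → {i // i ∈ T}, Function.Bijective F ∧
      ∀ j, (g j.1).map Prod.fst = some (F j).1 := by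
  have h1 : ∀ j : {j // j ∈ T'}, ∃ i : {i // i ∈ T}, (g j.1).map Prod.fst = some i.1 := by
    intro j
    have h2 : (g j.1).map Prod.fst ∈ T.image some := by
      rw [← h]
      exact Finset.mem_image_of_mem _ j.2
    obtain ⟨i, hi, h3⟩ := Finset.mem_image.1 h2
    exact ⟨⟨i, hi⟩, h3.symm⟩
  choose F hF using h1
  refine ⟨F, (Fintype.bijective_iff_surjective_and_card F).2 ⟨fun i => ?_, ?_⟩, hF⟩
  · have h2 : some i.1 ∈ T'.image (fun j => (g j).map Prod.fst) := by
      rw [h]
      exact Finset.mem_image_of_mem _ i.2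
    obtain ⟨j, hj, h3⟩ := Finset.mem_image.1 h2
    refine ⟨⟨j, hj⟩, ?_⟩
    have h4 := hF ⟨j, hj⟩
    simp only at h4
    rw [h3] at h4
    exact Subtype.ext (Option.some.inj h4).symm
  · rw [Fintype.card_coe, Fintype.card_coe, hc]

theorem act_rat (hG : G.Nice) (g : Coord m n) :
    G.Rat m ≤ (G.Rat n).comap (Finsupp.lmapDomain ℚ ℚ (g.act (ι.map k) o)) := by
  refine Submodule.span_le.2 ?_
  rintro _ ⟨K, i1, i2, i3, f, P, φ, hf, h, rfl⟩
  obtain ⟨O, hO⟩ := hG.cst K o
  refine Submodule.subset_span ⟨K, i1, i2, i3, f, g.act (ι.map K) O P,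
    fun v => g.act (ι.map k) o (φ v), hf, fun v j => ?_, ?_⟩
  · change G.Sp v (g.act (ι.map K) O P j) (g.act (ι.map k) o (φ v) j)
    unfold Coord.act
    rcases g j with _ | ⟨l, s⟩
    · exact hO v
    · cases s
      · exact h v l
      · exact ι.sp v _ _ (h v l)
  · unfold Finsupp.sum
    rw [map_sum]
    refine Finset.sum_congr rfl fun v _ => ?_
    rw [Finsupp.lmapDomain_apply, Finsupp.mapDomain_single]

/-- **The action of correspondences on the graded pieces.** -/
theorem push_Fil (hG : G.Nice) (hS : G.Sw n o) (Z : Coord m n →₀ ℚ)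
    (hι : ∀ g ∈ Z.support, ∀ j l, g j = some (l, true) → ∀ x, G.Opp n o x (ι.map k x)) (hZ : ∀ (T : Finset (Fin m)) (T' : Finset (Fin n)), T.card = j →
      T'.card = j → (Z.sum fun g q => q * g.hol T T') = 0) :
    G.Fil m j ≤ (G.Fil n (j + 1)).comap (Coord.push (ι.map k) o Z) := by
  classical
  refine sup_le ?_ ?_
  · intro c hc
    refine Submodule.mem_sup_left ?_
    unfold Coord.push Finsupp.sum
    rw [LinearMap.sum_apply]
    refine Submodule.sum_mem _ fun g _ => ?_
    rw [LinearMap.smul_apply]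
    exact Submodule.smul_mem _ _ (act_rat hG g hc)
  refine Submodule.span_le.2 ?_
  rintro _ ⟨T, a, hT, ha, rfl⟩
  rw [SetLike.mem_coe, Submodule.mem_comap, mem_Fil]
  set T₀ : Finset (G.Pt k) := Finset.univ.biUnion fun i => (a i).support with hT₀def
  have hT₀ : ∀ i, (a i).support ⊆ T₀ := fun i =>
    Finset.subset_biUnion_of_mem (fun i => (a i).support) (Finset.mem_univ i)
  have ha0 : ∀ i ∈ T, ∑ z ∈ T₀, a i z = 0 := by
    intro i hi
    rw [← ha i hi]
    exact (Finset.sum_subset (hT₀ i) fun x _ hx => Finsupp.notMem_support_iff.1 hx).symm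
  set pi := Fintype.piFinset (fun _ : Fin m => T₀) with hpi
  have h1 : ∀ g : Coord m n, (G.Rat n).mkQ (Finsupp.lmapDomain ℚ ℚ (g.act (ι.map k) o) (ext a)) =
      ∑ T' : Finset (Fin n), ∑ x ∈ pi, (∏ i, a i (x i)) • G.Ec o T' (g.act (ι.map k) o x) := by
    intro g
    have h2 := map_ext a T₀ hT₀
      ((G.Rat n).mkQ.comp (Finsupp.lmapDomain ℚ ℚ (g.act (ι.map k) o)))
    rw [LinearMap.comp_apply] at h2
    rw [h2, Finset.sum_comm]
    refine Finset.sum_congr rfl fun x _ => ?_
    rw [LinearMap.comp_apply, Finsupp.lmapDomain_apply, Finsupp.mapDomain_single]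
    change _ • G.cl _ = _
    rw [cl_eq_sum o, Finset.smul_sum]
  have h2 : (G.Rat n).mkQ (Coord.push (ι.map k) o Z (ext a)) = ∑ T' : Finset (Fin n),
      ∑ g ∈ Z.support, Z g • ∑ x ∈ pi, (∏ i, a i (x i)) • G.Ec o T' (g.act (ι.map k) o x) := by
    unfold Coord.push Finsupp.sum
    rw [LinearMap.sum_apply, map_sum, Finset.sum_comm]
    refine Finset.sum_congr rfl fun g _ => ?_
    rw [LinearMap.smul_apply, map_smul, h1, Finset.smul_sum]
  rw [h2]
  refine Submodule.sum_mem _ fun T' _ => ?_
  by_cases hT' : j + 1 ≤ T'.card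
  · exact Submodule.sum_mem _ fun g _ => Submodule.smul_mem _ _ (Submodule.sum_mem _ fun x _ =>
      Submodule.smul_mem _ _ (Ec_mem hT' _))
  have hT'j : T'.card ≤ j := by omega
  -- the terms which do not cover `T` vanish
  have hno : ∀ g : Coord m n, T'.image (fun j => (g j).map Prod.fst) ≠ T.image some →
      ∑ x ∈ pi, (∏ i, a i (x i)) • G.Ec o T' (g.act (ι.map k) o x) = 0 := by
    intro g hg
    have h3 : ¬ T.image some ⊆ T'.image (fun j => (g j).map Prod.fst) := by
      intro h4
      apply hg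
      refine (Finset.eq_of_subset_of_card_le h4 ?_).symm
      refine Finset.card_image_le.trans ?_
      rw [Finset.card_image_of_injective _ (Option.some_injective _)]
      omega
    obtain ⟨z, hz, hz'⟩ := Finset.not_subset.1 h3
    obtain ⟨i₀, hi₀, rfl⟩ := Finset.mem_image.1 hz
    have h5 := sum_slot_zero T₀ i₀ (fun z => a i₀ z)
      (fun x => (∏ i ∈ Finset.univ.erase i₀, a i (x i)) • G.Ec o T' (g.act (ι.map k) o x)) ?_
      (ha0 i₀ hi₀)
    · rw [← h5]
      refine Finset.sum_congr rfl fun x _ => ?_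
      rw [smul_smul, Finset.mul_prod_erase Finset.univ (fun i => a i (x i)) (Finset.mem_univ i₀)]
    · intro x z
      congr 1
      · exact Finset.prod_congr rfl fun i hi => by
          rw [Function.update_of_ne (Finset.ne_of_mem_erase hi)]
      · unfold Ec
        congr 1
        funext l
        by_cases hl : l ∈ T'
        · rw [Finset.piecewise_eq_of_mem _ _ _ hl, Finset.piecewise_eq_of_mem _ _ _ hl]
          have h6 : (g l).map Prod.fst ≠ some i₀ := fun h6 =>
            hz' (Finset.mem_image.2 ⟨l, hl, h6⟩)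
          have h7 : g.act (ι.map k) o (Function.update x i₀ z) l = g.act (ι.map k) o x l := by
            unfold Coord.act
            rcases h8 : g l with _ | ⟨l', s⟩
            · rfl
            · rw [h8] at h6
              have h9 : l' ≠ i₀ := fun h9 => h6 (by rw [h9]; rfl)
              cases s
              · exact Function.update_of_ne h9 _ _
              · exact congrArg _ (Function.update_of_ne h9 _ _)
          rw [h7]
        · rw [Finset.piecewise_eq_of_notMem _ _ _ hl, Finset.piecewise_eq_of_notMem _ _ _ hl]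
  by_cases hc : T.card = T'.card
  · -- the terms which cover `T`
    let e : {j // j ∈ T'} ≃ {i // i ∈ T} := Finset.equivOfCardEq hc.symm
    have h3 : ∑ g ∈ Z.support, Z g • ∑ x ∈ pi, (∏ i, a i (x i)) •
        G.Ec o T' (g.act (ι.map k) o x) =
        (Z.sum fun g q => q * g.hol T T') • ∑ x ∈ pi, (∏ i, a i (x i)) • G.Dc o e x := by
      unfold Finsupp.sum
      rw [Finset.sum_smul]
      refine Finset.sum_congr rfl fun g hgZ => ?_
      change _ = (Z g * g.hol T T') • _
      by_cases hg : T'.image (fun j => (g j).map Prod.fst) = T.image some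
      · obtain ⟨F, hF, hFg⟩ := exists_F hg hc
        unfold Coord.hol
        rw [if_pos hg, mul_smul]
        congr 1
        rw [Finset.smul_sum]
        refine Finset.sum_congr rfl fun x _ => ?_
        rw [Ec_act (hι g hgZ) hFg x, Dc_eq hS hF e.bijective, smul_comm]
      · rw [hno g hg, smul_zero]
        unfold Coord.hol
        rw [if_neg hg, mul_zero, zero_smul]
    rw [h3, hZ T T' (by omega) (by omega), zero_smul]
    exact Submodule.zero_mem _
  · rw [Finset.sum_eq_zero]
    · exact Submodule.zero_mem _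
    intro g _
    rw [hno g, smul_zero]
    intro hg
    have h4 := congrArg Finset.card hg
    rw [Finset.card_image_of_injective _ (Option.some_injective _)] at h4
    have h5 := Finset.card_image_le (s := T') (f := fun j => (g j).map Prod.fst)
    omega

end Geo

end Pool.Agent.H833.EK
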