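import Pool.Agent.H833.EK.Filt

/-!
# The action of correspondences for K3 surfaces
-/

set_option autoImplicit false
set_option linter.unusedSectionVars false

namespace Pool.Agent.H833.EK

open FF Polynomial

namespace Geo

variable {k : Type} [Field k] [CharZero k] [IsAlgClosed k] {G G' : Geo k} {n : ℕ}

/-- The comparison of the Chow groups. -/
theorem Resolves.exists_psi (hG : G.Nice) {π : Hom G' G} (h : Resolves π) (n : ℕ) :
    ∃ Ψ : G.CH n →ₗ[ℚ] G'.CH n, ∀ (z : Fin n → G'.Pt k) (w : Fin n → G.Pt k),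
      (∀ j, G.Same (π.map k (z j)) (w j)) → G'.cl z = Ψ (G.cl w) := by
  classical
  obtain ⟨σ, hσ⟩ := exists_section hG h
  let L : ((Fin n → G.Pt k) →₀ ℚ) →ₗ[ℚ] G'.CH n :=
    (G'.Rat n).mkQ.comp (Finsupp.lmapDomain ℚ ℚ fun (x : Fin n → G.Pt k) j => σ (x j))
  have hLs : ∀ (x : Fin n → G.Pt k) (m : ℚ), L (Finsupp.single x m) =
      m • G'.cl fun j => σ (x j) := by
    intro x m
    change (G'.Rat n).mkQ (Finsupp.lmapDomain ℚ ℚ _ (Finsupp.single x m)) = _
    rw [Finsupp.lmapDomain_apply, Finsupp.mapDomain_single]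
    unfold cl
    rw [← map_smul, Finsupp.smul_single, smul_eq_mul, mul_one]
  have hL : G.Rat n ≤ LinearMap.ker L := by
    refine Submodule.span_le.2 ?_
    rintro _ ⟨K, i1, i2, i3, f, P, φ, hf, hφ, rfl⟩
    rw [SetLike.mem_coe, LinearMap.mem_ker]
    have h1 : ∀ j, ∃ P' : G'.Pt K, ∀ (v : Place k K) (p : G.Pt k), G.Sp v (P j) p →
      ∃ p' : G'.Pt k, G'.Sp v P' p' ∧ G.Same (π.map k p') p := fun j => h.lift K (P j)
    choose P' hP' using h1
    choose φ' hφ' hsame using fun v j => hP' j v (φ v j) (hφ v j)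
    have h2 : ∀ v, G'.cl (fun j => σ (φ v j)) = G'.cl (φ' v) := by
      intro v
      refine cl_congr fun j => RLine.eqv h.nice (h.fib _ _ ⟨φ v j, hσ _, hsame v j⟩)
    unfold Finsupp.sum
    rw [map_sum]
    have h3 := Ad.sum_eq_zero (Ad.of (G := G') (n := n) hφ') hf
    unfold Finsupp.sum at h3
    rw [← h3]
    refine Finset.sum_congr rfl fun v _ => ?_
    rw [hLs, h2]
  refine ⟨(G.Rat n).liftQ L hL, fun z w hzw => ?_⟩
  change _ = (G.Rat n).liftQ L hL (Submodule.Quotient.mk (Finsupp.single w 1))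
  rw [Submodule.liftQ_apply, hLs, one_smul]
  exact cl_congr fun j => RLine.eqv h.nice (h.fib _ _ ⟨w j, hzw j, hσ _⟩)

theorem update_same {π : Hom G' G} {y : Fin n → G'.Pt k} {w : Fin n → G.Pt k} {x : G'.Pt k}
    {p : G.Pt k} (i : Fin n) [DecidableEq (Fin n)] (hy : ∀ j, G.Same (π.map k (y j)) (w j))
    (hx : G.Same (π.map k x) p) (j : Fin n) :
    G.Same (π.map k (Function.update y i x j)) (Function.update w i p j) := by
  by_cases hj : j = i
  · subst hj
    rw [Function.update_self, Function.update_self]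
    exact hx
  · rw [Function.update_of_ne hj, Function.update_of_ne hj]
    exact hy j

/-- Opposite points on the resolution. -/
theorem Resolves.opp (hG : G.Nice) {π : Hom G' G} (h : Resolves π) {o : G.Pt k} {o' : G'.Pt k}
    (ho : G.Same (π.map k o') o) {x x' : G'.Pt k} {p : G.Pt k}
    (hx : G.Same (π.map k x') p) (hopp : G.Opp n o (π.map k x) p) : G'.Opp n o' x x' := by
  classical
  obtain ⟨Ψ, hΨ⟩ := h.exists_psi hG n
  intro i y
  have h0 : ∀ j, G.Same (π.map k (y j)) (π.map k (y j)) := fun j => same_refl hG _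
  rw [hΨ _ _ (update_same i h0 (same_refl hG _)), hΨ _ _ (update_same i h0 hx),
    hΨ _ _ (update_same i h0 ho), ← map_add, hopp i, map_smul]

/-- The words on the resolution. -/
theorem Resolves.sw (hG : G.Nice) {π : Hom G' G} (h : Resolves π) {o : G.Pt k} {o' : G'.Pt k}
    (ho : G.Same (π.map k o') o) (hS : G.Sw n o) : G'.Sw n o' := by
  classical
  obtain ⟨Ψ, hΨ⟩ := h.exists_psi hG n
  intro i i' hi y x x'
  have h0 : ∀ j, G.Same (π.map k (y j)) (π.map k (y j)) := fun j => same_refl hG _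
  have hcl₂ : ∀ (x x' : G'.Pt k) (p p' : G.Pt k), G.Same (π.map k x) p →
      G.Same (π.map k x') p' → G'.cl₂ i i' y x x' =
      Ψ (G.cl₂ i i' (fun j => π.map k (y j)) p p') := by
    intro x x' p p' hx hx'
    unfold cl₂
    exact hΨ _ _ (update_same i' (update_same i h0 hx) hx')
  have e1 := same_refl hG (π.map k x)
  have e2 := same_refl hG (π.map k x')
  unfold Wd
  rw [hcl₂ _ _ _ _ e1 e2, hcl₂ _ _ _ _ e1 ho, hcl₂ _ _ _ _ ho e2, hcl₂ _ _ _ _ e2 e1,
    hcl₂ _ _ _ _ e2 ho, hcl₂ _ _ _ _ ho e1]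
  simp only [← map_sub]
  have h1 := hS i i' hi (fun j => π.map k (y j)) (π.map k x) (π.map k x')
  unfold Wd at h1
  rw [h1, map_zero]

/-- The identity. -/
def Hom.idn (G : Geo k) : Hom G G where
  map := fun _ _ _ P => P
  sp := fun _ _ _ h => h

end Geo

section

variable {k : Type} [Field k] [CharZero k] [IsAlgClosed k] {m n j : ℕ} {e : ℕ}
  {c : Fin 5 → MvPolynomial (Fin 2) k} {o : DPt c k}

/-- The covering involution. -/
def oppHom (e : ℕ) (c : Fin 5 → MvPolynomial (Fin 2) k) : Geo.Hom (dcover e c) (dcover e c) where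
  map := fun _ _ _ P => DPt.opp P
  sp := fun _ _ _ h => DSp.opp h

theorem sw_dcover (h : Wts e c) (ho : o.y = 0) : (dcover e c).Sw n o :=
  fun _ _ hi y x x' => Wd_dcover h ho hi y x x'

theorem push_Fil_dcover (h : Wts e c) (ho : o.y = 0) (Z : Coord m n →₀ ℚ)
    (hZ : ∀ (T : Finset (Fin m)) (T' : Finset (Fin n)), T.card = j →
      T'.card = j → (Z.sum fun g q => q * g.hol T T') = 0) {z : (Fin m → DPt c k) →₀ ℚ}
    (hz : z ∈ (dcover e c).Fil m j) :
    Coord.push DPt.opp o Z z ∈ (dcover e c).Fil n (j + 1) :=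
  Geo.push_Fil (ι := oppHom e c) (dcover_nice h) (sw_dcover h ho) Z
    (fun _ _ _ _ _ x => opp_all h ho x) hZ hz

theorem push_Fil_res (h : Wts e c) (ho : o.y = 0) (Z : Coord m n →₀ ℚ)
    (hZ : ∀ (T : Finset (Fin m)) (T' : Finset (Fin n)), T.card = j →
      T'.card = j → (Z.sum fun g q => q * g.hol T T') = 0) {S : Geo k}
    {π : Geo.Hom S (dcover e c)} (hπ : Geo.Resolves π) {ι : Geo.Hom S S}
    (hι : ∀ x, (dcover e c).Same (π.map k (ι.map k x)) (DPt.opp (π.map k x))) {o' : S.Pt k}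
    (ho' : (dcover e c).Same (π.map k o') o) {z : (Fin m → S.Pt k) →₀ ℚ}
    (hz : z ∈ S.Fil m j) : Coord.push (ι.map k) o' Z z ∈ S.Fil n (j + 1) :=
  Geo.push_Fil hπ.nice (hπ.sw (dcover_nice h) ho' (sw_dcover h ho)) Z
    (fun _ _ _ _ _ x => hπ.opp (dcover_nice h) ho' (hι x) (opp_all h ho _)) hZ hz

theorem push_Fil_genusOne {G : Geo k} {a b : k[X]} (hG : G.Nice) (T₀ : GenusOne G a b)
    (ha : a.natDegree ≤ 8) (hb : b.natDegree ≤ 12) {r : k} (hr : (disc a b).eval r = 0)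
    {o' : G.Pt k} (Z : Coord m n →₀ ℚ) (hs : ∀ g ∈ Z.support, ∀ i, (g i).map Prod.snd ≠ some true)
    (hZ : ∀ (T : Finset (Fin m)) (T' : Finset (Fin n)), T.card = j →
      T'.card = j → (Z.sum fun g q => q * g.hol T T') = 0) {z : (Fin m → G.Pt k) →₀ ℚ}
    (hz : z ∈ G.Fil m j) : Coord.push id o' Z z ∈ G.Fil n (j + 1) :=
  Geo.push_Fil (ι := Geo.Hom.idn G) hG
    (fun _ _ hi _ x x' => T₀.Wd_zero hG ha hb hr hi o' x x') Z
    (fun g hg i l h1 => absurd (by rw [h1]; rfl) (hs g hg i)) hZ hz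

end

end Pool.Agent.H833.EK
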