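import Pool.Agent.H833.EK.Dens3

/-!
# Pairings on the pairs of points of elliptic surfaces vanish
-/

set_option autoImplicit false
set_option linter.unusedSectionVars false

namespace Pool.Agent.H833.EK

open FF Polynomial

variable {k : Type} [Field k] [CharZero k] [IsAlgClosed k] {a b : k[X]} {V : Type}
  [AddCommGroup V] [Module ℚ V]

/-- The three points of a fibre on a line. -/
theorem fibre_line (B : Pairing k a b V) {p : T3 k} (hp : OnS a b p)
    (h₁ : (disc a b).eval p.1 ≠ 0) {u₂ m n₀ : k} (h₂ : (disc a b).eval u₂ ≠ 0) (ξ : Fin 3 → k)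
    (hξ : ∀ x : k, x ^ 3 + a.eval u₂ * x + b.eval u₂ - (m * x + n₀) ^ 2 = ∏ i, (x - ξ i)) :
    ∑ i, B.W p (u₂, ξ i, m * ξ i + n₀) = 0 := by
  classical
  obtain ⟨N, hNt⟩ : ∃ N : Om k, Transcendental k N := ⟨_, transcendental_X'⟩
  obtain ⟨al, hal⟩ : ∃ al : k →+* Om k, al = algebraMap k (Om k) := ⟨_, rfl⟩
  obtain ⟨r, hr⟩ : ∃ r : Fin 3 → Om k, ∀ x, x ^ 3 + al (a.eval u₂) * x + al (b.eval u₂) -
      (al m * x + N) ^ 2 = ∏ i, (x - r i) := by
    obtain ⟨r, hr⟩ := exists_roots (C 1 * X ^ 3 + C (-(al m) ^ 2) * X ^ 2 +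
      C (al (a.eval u₂) - 2 * al m * N) * X + C (al (b.eval u₂) - N ^ 2) : (Om k)[X])
      (natDegree_cubic one_ne_zero)
    refine ⟨r, fun x => ?_⟩
    rw [leadingCoeff_cubic one_ne_zero] at hr
    have h3 := congrArg (eval x) hr
    rw [eval_mul, eval_C, eval_prod] at h3
    simp only [eval_sub, eval_X, eval_C, eval_add, eval_mul, eval_pow] at h3
    rw [one_mul (∏ i, _)] at h3
    rw [← h3]
    ring
  obtain ⟨K, _, _, _, i, hi⟩ := exists_FF (insert N (Finset.univ.image r))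
  obtain ⟨n', hn'⟩ := hi N (Finset.mem_insert_self _ _)
  have hr' : ∀ j, ∃ z, i z = r j := fun j => hi _ (Finset.mem_insert_of_mem
    (Finset.mem_image_of_mem _ (Finset.mem_univ _)))
  choose r' hr' using hr'
  have hi' : ∀ z : k, i (algebraMap k K z) = al z := fun z => by rw [hal]; exact i.commutes z
  have hinj : ∀ {p q : K}, i p = i q → p = q := fun {p q} h => i.toRingHom.injective h
  have htr : Transcendental k n' := transcendental_of_map i (by rw [hn']; exact hNt)
  have hG : ∀ x : K, x ^ 3 + algebraMap k K (a.eval u₂) * x + algebraMap k K (b.eval u₂) -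
      (algebraMap k K m * x + n') ^ 2 = ∏ j, (x - r' j) := by
    intro x
    apply hinj
    have h3 := hr (i x)
    simp only [map_sub, map_add, map_mul, map_pow, map_prod, hi', hn', hr']
    exact h3
  have hroot : ∀ j, r' j ^ 3 + algebraMap k K (a.eval u₂) * r' j + algebraMap k K (b.eval u₂) -
      (algebraMap k K m * r' j + n') ^ 2 = 0 := by
    intro j
    rw [hG, Finset.prod_eq_zero (Finset.mem_univ j) (sub_self _)]
  let P : Fin 3 → T3 K := fun _ => (algebraMap k K p.1, algebraMap k K p.2.1, algebraMap k K p.2.2)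
  let Q : Fin 3 → T3 K := fun j => (algebraMap k K u₂, r' j, algebraMap k K m * r' j + n')
  have hP : ∀ j, OnS a b (P j) := by
    intro j
    refine OnS_const.2 ?_
    have h3 : p.2.2 ^ 2 = p.2.1 ^ 3 + a.eval p.1 * p.2.1 + b.eval p.1 := OnS_self.1 hp
    rw [← map_pow, h3]
    simp
  have hQ : ∀ j, OnS a b (Q j) := fun j => OnS_const.2 (by linear_combination -(hroot j))
  have hsub : Transcendental k (n' - algebraMap k K n₀) := by
    intro h
    apply htr
    have := h.add (isAlgebraic_algebraMap (A := K) n₀)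
    rwa [sub_add_cancel] at this
  have hAdm : ∀ v : Place k K, ∀ j, Adm a b v (P j) (Q j) := fun v j =>
    Or.inl ⟨p.1, u₂, HasVal.const v _, HasVal.const v u₂⟩
  refine B.family P Q hP hQ hsub _ 0 (fun v hv => ⟨hAdm v, ?_⟩) (fun v hv => ⟨hAdm v, ?_⟩)
  · have hvn : HasVal v n' n₀ := by
      have h4 := (hasVal_zero_of_pos hv).add (HasVal.const v n₀)
      rwa [sub_add_cancel, zero_add] at h4
    have hρ : ∀ j, ∃ c, HasVal v (r' j) c := by
      intro j
      apply exists_hasVal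
      have e1 := HasVal.const v (a.eval u₂)
      have e2 := HasVal.const v (b.eval u₂)
      have e6 := HasVal.const v m
      refine reg_of_root (n := 3) (l := (1 : K)) (c := 1)
        ![algebraMap k K (b.eval u₂) - n' ^ 2, algebraMap k K (a.eval u₂) -
          2 * algebraMap k K m * n', -(algebraMap k K m) ^ 2] ?_ (HasVal.one v) one_ne_zero ?_
      · intro j
        fin_cases j
        · exact (e2.sub (hvn.pow 2)).reg
        · exact (e1.sub (((HasVal.ofNat v 2).mul e6).mul hvn)).reg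
        · exact (e6.pow 2).neg.reg
      · rw [Fin.sum_univ_three]
        simp only [Matrix.cons_val_zero, Matrix.cons_val_one, Matrix.cons_val_two,
          Matrix.head_cons, Matrix.tail_cons, Fin.val_zero, Fin.val_one, Fin.val_two, pow_zero,
          pow_one]
        linear_combination hroot j
    choose ρ hρ using hρ
    have hprod : ∀ x : k, ∏ j, (x - ρ j) = ∏ j, (x - ξ j) := by
      intro x
      have h5 := ((((HasVal.const v x).pow 3).add ((HasVal.const v (a.eval u₂)).mul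
        (HasVal.const v x))).add (HasVal.const v (b.eval u₂))).sub
        ((((HasVal.const v m).mul (HasVal.const v x)).add hvn).pow 2)
      rw [hG] at h5
      have h6 := (HasVal.prod (v := v) Finset.univ
        (fun j => algebraMap k K x - r' j) (fun j => x - ρ j)
        fun j _ => (HasVal.const v x).sub (hρ j))
      have h7 := h5.unique h6
      rw [hξ] at h7
      exact h7.symm
    have h8 := sum_eq_of_prod_eq ρ ξ hprod fun z => B.W p (u₂, z, m * z + n₀)
    rw [← h8]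
    refine Finset.sum_congr rfl fun j _ => ?_
    exact wv_eq (p := p) (q := (u₂, ρ j, m * ρ j + n₀))
      ⟨HasVal.const v _, HasVal.const v _, HasVal.const v _⟩
      ⟨HasVal.const v u₂, hρ j, ((HasVal.const v m).mul (hρ j)).add hvn⟩ h₁ h₂
  · refine Finset.sum_eq_zero fun j _ => wv_zero_of_not fun p' q hp' hq _ _ => ?_
    have h5 : HasVal v n' (q.2.2 - m * q.2.1) := by
      have h6 := hq.2.2.sub ((HasVal.const v m).mul hq.2.1)
      refine h6.congr ?_ rfl
      simp only [Q]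
      ring
    have h6 : v.Reg (n' - algebraMap k K n₀) := (h5.sub (HasVal.const v n₀)).reg
    rcases h6 with h6 | h6
    · rw [h6, v.ord_zero] at hv
      exact lt_irrefl _ hv
    · omega

theorem eq_zero_of_eq_neg {w : V} (hw : w = -w) : w = 0 := by
  have h4 : (2 : ℚ) • w = 0 := by
    rw [two_smul]
    nth_rewrite 2 [hw]
    exact add_neg_cancel w
  exact (smul_eq_zero.1 h4).resolve_left (by norm_num)

/-- **Main theorem on pairings.** -/
theorem Pairing.zero (B : Pairing k a b V) (ha : a.natDegree ≤ 8) (hb : b.natDegree ≤ 12)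
    {r : k} (hr : (disc a b).eval r = 0) {p q : T3 k} (hp : OnS a b p) (hq : OnS a b q)
    (h₁ : (disc a b).eval p.1 ≠ 0) (h₂ : (disc a b).eval q.1 ≠ 0) : B.W p q = 0 := by
  obtain ⟨u₁, x₁, y₁⟩ := p
  obtain ⟨u₂, x₂, y₂⟩ := q
  simp only at h₁ h₂
  by_cases hy₁ : y₁ = 0
  · have h3 := B.odd _ _ hp hq h₁ h₂
    simp only [T3.neg, hy₁, neg_zero] at h3
    subst hy₁
    exact eq_zero_of_eq_neg h3
  by_cases hy₂ : y₂ = 0
  · have h3 := B.odd_right hp hq h₁ h₂
    simp only [T3.neg, hy₂, neg_zero] at h3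
    subst hy₂
    exact eq_zero_of_eq_neg h3
  -- the value is zero if the cubic is smooth
  have hgood : ∀ x y : k, y ≠ 0 → OnS a b ((u₂, x, y) : T3 k) →
      Smo (a.eval u₁) (b.eval u₁) (a.eval u₂) (b.eval u₂) ((y / y₁) ^ 2) →
      B.W (u₁, x₁, y₁) (u₂, x, y) = 0 := by
    intro x y hy hxy hS
    have e1 := OnS_self.1 hp
    have e2 := OnS_self.1 hxy
    have ht : y / y₁ ≠ 0 := div_ne_zero hy hy₁
    have hz : onC (a.eval u₁) (b.eval u₁) (a.eval u₂) (b.eval u₂) ((y / y₁) ^ 2) (x₁, x) := by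
      unfold onC
      rw [← e1, ← e2]
      field_simp
    have h3 := gW_zero B ha hb hr h₁ h₂ ht hS hz
    have h4 := gW_eq B (u₁ := u₁) (u₂ := u₂) (t := y / y₁) (x₁ := x₁) (x₂ := x) (y := y₁) h₁ h₂ e1
      (by rw [← e1, ← e2]; field_simp)
    rw [div_mul_cancel₀ _ hy₁] at h4
    rw [h4]; exact h3
  -- the exceptional values of `y`
  have hD₁ := disc_eval a b u₁
  have hD₂ := disc_eval a b u₂
  have e1 := OnS_self.1 hp
  have e2 := OnS_self.1 hq
  set a₁ := a.eval u₁
  set a₂ := a.eval u₂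
  set b₁ := b.eval u₁
  set b₂ := b.eval u₂
  have hYfin : {y : k | y = 0 ∨ ¬ Smo a₁ b₁ a₂ b₂ ((y / y₁) ^ 2)}.Finite := by
    classical
    let D₁ := 4 * a₁ ^ 3 + 27 * b₁ ^ 2
    let D₂ := 4 * a₂ ^ 3 + 27 * b₂ ^ 2
    let pl : k[X] := (C (54 * (b₁ * b₂)) * X ^ 2 - (C D₁ * X ^ 4 + C D₂)) ^ 2 -
      C (64 * (a₁ * a₂) ^ 3) * X ^ 4
    have hpl : pl ≠ 0 := by
      intro h3
      have h4 := congrArg (eval 0) h3
      simp [pl] at h4
      apply h₂
      rw [hD₂]
      exact h4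
    have hsub : {y : k | y = 0 ∨ ¬ Smo a₁ b₁ a₂ b₂ ((y / y₁) ^ 2)} ⊆
        {0} ∪ (fun t => t * y₁) '' (pl.roots.toFinset : Set k) := by
      rintro y (hy | hy)
      · left; exact hy
      · by_cases hy0 : y = 0
        · left; exact hy0
        right
        refine ⟨y / y₁, ?_, div_mul_cancel₀ _ hy₁⟩
        rw [Finset.mem_coe, Multiset.mem_toFinset, mem_roots hpl]
        have ht : y / y₁ ≠ 0 := div_ne_zero hy0 hy₁
        set t := y / y₁
        unfold Smo at hy
        push Not at hy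
        change pl.eval t = 0
        simp only [pl, eval_sub, eval_pow, eval_mul, eval_add, eval_C, eval_X]
        have h3 : 54 * (b₁ * b₂) * t ^ 2 - (D₁ * t ^ 4 + D₂) =
            (54 * (b₁ * b₂) - (D₁ * t ^ 2 + D₂ / t ^ 2)) * t ^ 2 := by
          field_simp
        rw [h3, mul_pow, hy]
        ring
    exact ((Set.finite_singleton 0).union ((Finset.finite_toSet _).image _)).subset hsub
  -- the exceptional points of the fibre
  have hZfin : {z : k × k | z.2 ^ 2 = z.1 ^ 3 + a₂ * z.1 + b₂ ∧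
      (z.2 = 0 ∨ ¬ Smo a₁ b₁ a₂ b₂ ((z.2 / y₁) ^ 2))}.Finite := by
    have h3 : ∀ y : k, {z : k × k | z.2 ^ 2 = z.1 ^ 3 + a₂ * z.1 + b₂ ∧ z.2 = y}.Finite := by
      intro y
      have hf := cubic_finite (k := k) (A := 1) (B := 0) (C' := a₂) (D := b₂ - y ^ 2)
        (fun h1 => one_ne_zero h1.1)
      refine (hf.image fun x => ((x, y) : k × k)).subset fun z hz => ?_
      obtain ⟨h4, h5⟩ := hz
      refine ⟨z.1, ?_, Prod.ext rfl h5.symm⟩
      change 1 * z.1 ^ 3 + 0 * z.1 ^ 2 + a₂ * z.1 + (b₂ - y ^ 2) = 0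
      rw [← h5]
      linear_combination -h4
    refine (Set.Finite.biUnion hYfin fun y _ => h3 y).subset fun z hz => ?_
    exact Set.mem_biUnion (x := z.2) hz.2 ⟨hz.1, rfl⟩
  have hfin : ({m : k | 3 * x₂ ^ 2 + a₂ - 2 * m * y₂ = 0} ∪
      ((fun w : k × k => (w.2 - y₂) / (w.1 - x₂)) '' {z : k × k | z.2 ^ 2 = z.1 ^ 3 + a₂ * z.1 + b₂ ∧
      (z.2 = 0 ∨ ¬ Smo a₁ b₁ a₂ b₂ ((z.2 / y₁) ^ 2))})).Finite := by
    refine Set.Finite.union ?_ (hZfin.image _)
    have := cubic_finite (k := k) (A := 0) (B := 0) (C' := -2 * y₂)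
      (D := 3 * x₂ ^ 2 + a₂) (by
        rintro ⟨-, -, e3, -⟩
        exact (mul_ne_zero (by norm_num) hy₂) e3)
    refine this.subset fun m hm => ?_
    change 0 * m ^ 3 + 0 * m ^ 2 + (-2 * y₂) * m + (3 * x₂ ^ 2 + a₂) = 0
    have hm' : 3 * x₂ ^ 2 + a₂ - 2 * m * y₂ = 0 := hm
    linear_combination hm'
  obtain ⟨m, hm⟩ := hfin.exists_notMem
  simp only [Set.mem_union, not_or] at hm
  obtain ⟨hm2, hm3⟩ := hm
  have hm2' : 3 * x₂ ^ 2 + a₂ - 2 * m * y₂ ≠ 0 := hm2
  obtain ⟨g₁, g₂, hg⟩ := quad_roots (l := (1 : k)) (p := 3 * x₂ - m ^ 2)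
    (q := 3 * x₂ ^ 2 + a₂ - 2 * m * y₂) one_ne_zero
  have hg0 := hg 0
  have hgg : g₁ ≠ 0 ∧ g₂ ≠ 0 := by
    constructor
    · rintro rfl
      apply hm2'
      linear_combination hg0
    · rintro rfl
      apply hm2'
      linear_combination hg0
  have hall : ∀ x : k, x ^ 3 + a₂ * x + b₂ - (m * x + (y₂ - m * x₂)) ^ 2 =
        ∏ i, (x - (![x₂, x₂ + g₁, x₂ + g₂] : Fin 3 → k) i) := by
    intro x
    rw [Fin.prod_univ_three]
    simp only [Matrix.cons_val_zero, Matrix.cons_val_one, Matrix.cons_val_two, Matrix.head_cons,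
      Matrix.tail_cons]
    linear_combination (x - x₂) * hg (x - x₂) - e2
  have key := fibre_line B hp h₁ h₂ ![x₂, x₂ + g₁, x₂ + g₂] hall
  rw [Fin.sum_univ_three] at key
  simp only [Matrix.cons_val_zero, Matrix.cons_val_one, Matrix.cons_val_two, Matrix.head_cons,
    Matrix.tail_cons] at key
  have hother : ∀ g : k, g ≠ 0 → (g - g₁) * (g - g₂) = 0 →
      B.W (u₁, x₁, y₁) (u₂, x₂ + g, m * (x₂ + g) + (y₂ - m * x₂)) = 0 := by
    intro g hg0 hgr
    have e3 := hg g
    rw [hgr, mul_zero] at e3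
    have hon : (m * (x₂ + g) + (y₂ - m * x₂)) ^ 2 = (x₂ + g) ^ 3 + a₂ * (x₂ + g) + b₂ := by
      linear_combination -g * e3 + e2
    have hnot : ¬ ((m * (x₂ + g) + (y₂ - m * x₂)) = 0 ∨
        ¬ Smo a₁ b₁ a₂ b₂ (((m * (x₂ + g) + (y₂ - m * x₂)) / y₁) ^ 2)) := by
      intro hmem
      apply hm3
      refine ⟨(x₂ + g, m * (x₂ + g) + (y₂ - m * x₂)), ⟨hon, hmem⟩, ?_⟩
      simp only
      have : x₂ + g - x₂ = g := by ring
      rw [this, div_eq_iff hg0]
      ring
    push Not at hnot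
    exact hgood _ _ hnot.1 (OnS_self.2 hon) hnot.2
  rw [hother g₁ hgg.1 (by ring), hother g₂ hgg.2 (by ring), add_zero, add_zero] at key
  have : m * x₂ + (y₂ - m * x₂) = y₂ := by ring
  rw [this] at key
  exact key

end Pool.Agent.H833.EK
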