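import Pool.Agent.H833.EK.Quot2
import Pool.Agent.H833.EK.DefD

/-!
# The results on the powers, for the three classes of K3 surfaces
-/

set_option autoImplicit false
set_option linter.unusedSectionVars false

namespace Pool.Agent.H833.EK

open FF Polynomial

section

variable {k : Type} [Field k] [CharZero k] [IsAlgClosed k] {m n j : ℕ} {e : ℕ}
  {c : Fin 5 → MvPolynomial (Fin 2) k} {o : DPt c k}

theorem sact_eq {S : Type} (ι : S → S) (o : S) (g : Equiv.Perm (Fin m) × (Fin m → Bool)) :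
    (sp g).act ι o = sact ι g := by
  funext x j
  unfold Coord.act sact sp
  cases h : g.2 j <;> simp

theorem quot_dcover (h : Wts e c)
    {Γ : Set (Equiv.Perm (Fin m) × (Fin m → Bool))} (hΓ : Strict Γ) :
    QuotVoisin (dcover e c) DPt.opp m Γ := fun _ _ ha hb ha' hb' => by
  obtain ⟨o, ho⟩ := exists_ram c
  exact Geo.strict_comm (ι := oppHom e c) (dcover_nice h) (fun x => opp_all h ho x)
    (sw_dcover h ho) (sw_dcover h ho) hΓ ha hb
    (fun g hg => by rw [sact_eq]; exact ha' g hg) (fun g hg => by rw [sact_eq]; exact hb' g hg)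

theorem quot_res (h : Wts e c)
    {Γ : Set (Equiv.Perm (Fin m) × (Fin m → Bool))} (hΓ : Strict Γ) {S : Geo k}
    {π : Geo.Hom S (dcover e c)} (hπ : Geo.Resolves π) {ι : Geo.Hom S S}
    (hι : ∀ x, (dcover e c).Same (π.map k (ι.map k x)) (DPt.opp (π.map k x))) :
    QuotVoisin S (ι.map k) m Γ :=
  fun _ _ ha hb ha' hb' => by
  obtain ⟨o, ho⟩ := exists_ram c
  obtain ⟨σ, hσ⟩ := Geo.exists_section (dcover_nice h) hπ
  exact Geo.strict_comm (ι := ι) hπ.nice
    (fun x => hπ.opp (dcover_nice h) (hσ o) (hι x) (opp_all h ho _))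
    (hπ.sw (dcover_nice h) (hσ o) (sw_dcover h ho))
    (hπ.sw (dcover_nice h) (hσ o) (sw_dcover h ho))
    hΓ ha hb (fun g hg => by rw [sact_eq]; exact ha' g hg)
    (fun g hg => by rw [sact_eq]; exact hb' g hg)

theorem antiVanish {G : Geo k} (hG : G.Nice) {o : G.Pt k} (hS : G.Sw (n + 1) o) (hn : 1 ≤ n) :
    AntiVanish G n := by
  intro z hz hpr
  have h1 := Geo.anti_zero hG hS hn hz hpr
  refine ⟨h1, fun w => Submodule.sum_mem _ fun σ _ => Submodule.smul_mem _ _ ?_⟩
  exact Geo.perm_rat σ (Geo.cross_rat_left hG h1 w)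

theorem anti_dcover (h : Wts e c) (hn : 1 ≤ n) : AntiVanish (dcover e c) n := by
  obtain ⟨o, ho⟩ := exists_ram c
  exact antiVanish (dcover_nice h) (sw_dcover h ho) hn

theorem anti_res (h : Wts e c) (hn : 1 ≤ n) {S : Geo k} {π : Geo.Hom S (dcover e c)}
    (hπ : Geo.Resolves π) : AntiVanish S n := by
  obtain ⟨o, ho⟩ := exists_ram c
  obtain ⟨σ, hσ⟩ := Geo.exists_section (dcover_nice h) hπ
  exact antiVanish hπ.nice (hπ.sw (dcover_nice h) (hσ o) (sw_dcover h ho)) hn

theorem anti_genusOne {G : Geo k} {a b : k[X]} (hG : G.Nice) (T₀ : GenusOne G a b)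
    (ha : a.natDegree ≤ 8) (hb : b.natDegree ≤ 12) {r : k} (hr : (disc a b).eval r = 0)
    (hn : 1 ≤ n) : AntiVanish G n := by
  obtain ⟨K, i1, i2, i3, u, D, hu, hD⟩ := T₀.multi
  obtain ⟨v, -⟩ := exists_zero (k := k) (K := K) hu
  obtain ⟨o, -⟩ := hD v
  exact antiVanish hG (fun _ _ hi _ x x' => T₀.Wd_zero hG ha hb hr hi o x x') hn

end

end Pool.Agent.H833.EK
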