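import Pool.Agent.H833.EK.Fin

/-!
# Zero-cycles on powers of a variety, in terms of its points over function fields
-/

set_option autoImplicit false
set_option linter.unusedSectionVars false

namespace Pool.Agent.H833.EK

open FF Polynomial

namespace Geo

variable {k : Type} [Field k] [CharZero k] [IsAlgClosed k] (G : Geo k) (n : ℕ)

/-- The Chow group of zero-cycles with rational coefficients. -/
abbrev CH : Type := ((Fin n → G.Pt k) →₀ ℚ) ⧸ G.Rat n

variable {n}

/-- The class of a point. -/
noncomputable def cl (x : Fin n → G.Pt k) : G.CH n := (G.Rat n).mkQ (Finsupp.single x 1)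

/-- The functions on a curve with values in the Chow group which come from morphisms of the curve
to the variety. -/
noncomputable def Ad (K : Type) [Field K] [Algebra k K] : Submodule ℚ (Place k K → G.CH n) :=
  Submodule.span ℚ {F | ∃ (P : Fin n → G.Pt K) (φ : Place k K → Fin n → G.Pt k),
    (∀ v i, G.Sp v (P i) (φ v i)) ∧ F = fun v => G.cl (φ v)}

variable {G}

theorem Ad.of {K : Type} [Field K] [Algebra k K] {P : Fin n → G.Pt K}
    {φ : Place k K → Fin n → G.Pt k} (h : ∀ v i, G.Sp v (P i) (φ v i)) :
    (fun v => G.cl (φ v)) ∈ G.Ad (n := n) K := Submodule.subset_span ⟨P, φ, h, rfl⟩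

theorem Ad.sum_eq_zero {K : Type} [Field K] [Algebra k K] [IsFF k K] {F : Place k K → G.CH n}
    (hF : F ∈ G.Ad (n := n) K) {f : K} (hf : f ≠ 0) :
    ((divisor k f).sum fun v m => (m : ℚ) • F v) = 0 := by
  induction hF using Submodule.span_induction with
  | mem F hF =>
    obtain ⟨P, φ, h, rfl⟩ := hF
    have h1 : (divisor k f).sum (fun v m => Finsupp.single (φ v) (m : ℚ)) ∈ G.Rat n :=
      Submodule.subset_span ⟨K, _, _, inferInstance, f, P, φ, hf, h, rfl⟩
    have h2 := (Submodule.Quotient.mk_eq_zero (G.Rat n)).2 h1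
    rw [← Submodule.mkQ_apply] at h2
    unfold Finsupp.sum at h2 ⊢
    rw [map_sum] at h2
    rw [← h2]
    refine Finset.sum_congr rfl fun v _ => ?_
    unfold cl
    change ((divisor k f v : ℤ) : ℚ) • (G.Rat n).mkQ (Finsupp.single (φ v) 1) =
      (G.Rat n).mkQ (Finsupp.single (φ v) ((divisor k f v : ℤ) : ℚ))
    rw [← map_smul, Finsupp.smul_single, smul_eq_mul, mul_one]
  | zero => simp [Finsupp.sum]
  | add F G' _ _ h1 h2 =>
    unfold Finsupp.sum at *
    simp only [Pi.add_apply, smul_add, Finset.sum_add_distrib, h1, h2, add_zero]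
  | smul c F _ h1 =>
    unfold Finsupp.sum at *
    simp only [Pi.smul_apply]
    have : ∀ v : Place k K, (((divisor k f) v : ℤ) : ℚ) • c • F v =
        c • ((((divisor k f) v : ℤ) : ℚ) • F v) := fun v => smul_comm _ _ _
    simp only [this]
    rw [← Finset.smul_sum, h1, smul_zero]

/-- The families over the line are constant. -/
theorem Ad.const {K : Type} [Field K] [Algebra k K] [IsFF k K] {F : Place k K → G.CH n}
    (hF : F ∈ G.Ad (n := n) K) {f : K} (hf : Transcendental k f) {c₀ c₁ : G.CH n}
    (h₀ : ∀ v : Place k K, 0 < v.ord f → F v = c₀)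
    (h₁ : ∀ v : Place k K, v.ord f < 0 → F v = c₁) : c₀ = c₁ := by
  have h2 := Ad.sum_eq_zero hF (not_const hf)
  obtain ⟨N, hN, hN1, hN2⟩ := Pairing.ord_sum_pos (k := k) hf
  unfold Finsupp.sum at h2
  rw [← Finset.sum_filter_add_sum_filter_not _ (fun v : Place k K => 0 < v.ord f)] at h2
  have h3 : (∑ v ∈ (divisor k f).support with 0 < v.ord f, ((divisor k f v : ℤ) : ℚ) • F v) =
      N • c₀ := by
    rw [← hN1, Finset.sum_smul]
    refine Finset.sum_congr rfl fun v hv => ?_
    rw [h₀ v (Finset.mem_filter.1 hv).2, divisor_apply]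
  have h4 : (∑ v ∈ (divisor k f).support with ¬ 0 < v.ord f, ((divisor k f v : ℤ) : ℚ) • F v) =
      (-N) • c₁ := by
    rw [← hN2, Finset.sum_smul]
    refine Finset.sum_congr rfl fun v hv => ?_
    have h5 := Finset.mem_filter.1 hv
    have h6 : v.ord f ≠ 0 := Finsupp.mem_support_iff.1 h5.1
    rw [h₁ v (lt_of_le_of_ne (not_lt.1 h5.2) h6), divisor_apply]
  rw [h3, h4, neg_smul, ← sub_eq_add_neg, ← smul_sub, smul_eq_zero] at h2
  rcases h2 with h2 | h2
  · exact absurd h2 hN.ne'
  · exact sub_eq_zero.1 h2

open Classical in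
/-- A family in one slot. -/
theorem Ad.slot (hG : G.Nice) {K : Type} [Field K] [Algebra k K] (i : Fin n)
    (y : Fin n → G.Pt k) {P : G.Pt K} {φ : Place k K → G.Pt k} (h : ∀ v, G.Sp v P (φ v)) :
    (fun v => G.cl (Function.update y i (φ v))) ∈ G.Ad (n := n) K := by
  choose c hc using fun j => hG.cst K (y j)
  refine Ad.of (P := Function.update c i P) (φ := fun v => Function.update y i (φ v))
    fun v j => ?_
  by_cases hj : j = i
  · subst hj
    rw [Function.update_self, Function.update_self]
    exact h v
  · rw [Function.update_of_ne hj, Function.update_of_ne hj]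
    exact hc j v

open Classical in
/-- A family in two slots. -/
theorem Ad.slot₂ (hG : G.Nice) {K : Type} [Field K] [Algebra k K] {i i' : Fin n} (hi : i ≠ i')
    (y : Fin n → G.Pt k) {P P' : G.Pt K} {φ φ' : Place k K → G.Pt k} (h : ∀ v, G.Sp v P (φ v))
    (h' : ∀ v, G.Sp v P' (φ' v)) :
    (fun v => G.cl (Function.update (Function.update y i (φ v)) i' (φ' v))) ∈
      G.Ad (n := n) K := by
  choose c hc using fun j => hG.cst K (y j)
  refine Ad.of (P := Function.update (Function.update c i P) i' P')
    (φ := fun v => Function.update (Function.update y i (φ v)) i' (φ' v)) fun v j => ?_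
  by_cases hj' : j = i'
  · subst hj'
    rw [Function.update_self, Function.update_self]
    exact h' v
  · rw [Function.update_of_ne hj', Function.update_of_ne hj']
    by_cases hj : j = i
    · subst hj
      rw [Function.update_self, Function.update_self]
      exact h v
    · rw [Function.update_of_ne hj, Function.update_of_ne hj]
      exact hc j v

variable (G) (n) in
open Classical in
/-- Two points which can be exchanged for each other in all zero-cycles. -/
def Eqv (x x' : G.Pt k) : Prop := ∀ (i : Fin n) (y : Fin n → G.Pt k),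
  G.cl (Function.update y i x) = G.cl (Function.update y i x')

theorem Eqv.refl (x : G.Pt k) : G.Eqv n x x := fun _ _ => rfl

theorem Eqv.symm {x x' : G.Pt k} (h : G.Eqv n x x') : G.Eqv n x' x := fun i y => (h i y).symm

theorem Eqv.trans {x x' x'' : G.Pt k} (h : G.Eqv n x x') (h' : G.Eqv n x' x'') :
    G.Eqv n x x'' := fun i y => (h i y).trans (h' i y)

/-- Points which are the values of a family over the line are equivalent. -/
theorem Eqv.of_family (hG : G.Nice) {K : Type} [Field K] [Algebra k K] [IsFF k K] {P : G.Pt K}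
    {f : K} (hf : Transcendental k f) {x x' : G.Pt k}
    (h₀ : ∀ v : Place k K, 0 < v.ord f → G.Sp v P x)
    (h₁ : ∀ v : Place k K, v.ord f < 0 → G.Sp v P x') : G.Eqv n x x' := by
  classical
  intro i y
  choose ψ hψ using fun v => hG.prop K v P
  have h2 := Ad.slot hG i y (P := P) (φ := fun v => if 0 < v.ord f then x else
    if v.ord f < 0 then x' else ψ v) (fun v => by
      split_ifs with h3 h4
      · exact h₀ v h3
      · exact h₁ v h4
      · exact hψ v)
  refine Ad.const h2 hf (fun v hv => ?_) (fun v hv => ?_)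
  · rw [if_pos hv]
  · rw [if_neg (by omega), if_pos hv]

end Geo

end Pool.Agent.H833.EK
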