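import Pool.Agent.H833.EK.Voi

/-!
# Morphisms and push forwards
-/

set_option autoImplicit false
set_option linter.unusedSectionVars false

namespace Pool.Agent.H833.EK

open FF Polynomial

namespace Geo

variable {k : Type} [Field k] [CharZero k]

variable {G G' : Geo k} (H : Hom G G') (n : ℕ)

theorem Hom.rat : G.Rat n ≤ (G'.Rat n).comap
    (Finsupp.lmapDomain ℚ ℚ fun (x : Fin n → G.Pt k) j => H.map k (x j)) := by
  unfold Geo.Rat
  rw [Submodule.span_le]
  rintro _ ⟨K, i1, i2, i3, f, P, φ, hf, h, rfl⟩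
  refine Submodule.subset_span ⟨K, i1, i2, i3, f, fun j => H.map K (P j),
    fun v j => H.map k (φ v j), hf, fun v j => H.sp v _ _ (h v j), ?_⟩
  unfold Finsupp.sum
  rw [map_sum]
  refine Finset.sum_congr rfl fun v _ => ?_
  rw [Finsupp.lmapDomain_apply, Finsupp.mapDomain_single]

/-- The push forward of zero-cycles. -/
noncomputable def Hom.ch : G.CH n →ₗ[ℚ] G'.CH n := Submodule.mapQ _ _ _ (H.rat n)

theorem Hom.ch_cl {n : ℕ} (x : Fin n → G.Pt k) : H.ch n (G.cl x) = G'.cl fun j => H.map k (x j) := by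
  unfold Hom.ch cl
  rw [Submodule.mkQ_apply, Submodule.mapQ_apply, Finsupp.lmapDomain_apply,
    Finsupp.mapDomain_single]
  rfl

theorem Hom.ch_cl₂ {n : ℕ} (i i' : Fin n) (y : Fin n → G.Pt k) (x x' : G.Pt k) :
    H.ch n (G.cl₂ i i' y x x') =
      G'.cl₂ i i' (fun j => H.map k (y j)) (H.map k x) (H.map k x') := by
  classical
  unfold cl₂
  rw [Hom.ch_cl]
  congr 1
  funext j
  by_cases hj' : j = i'
  · subst hj'; simp
  · rw [Function.update_of_ne hj', Function.update_of_ne hj']
    by_cases hj : j = i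
    · subst hj; simp
    · rw [Function.update_of_ne hj, Function.update_of_ne hj]

theorem Hom.ch_Wd {n : ℕ} (i i' : Fin n) (y : Fin n → G.Pt k) (o x x' : G.Pt k) :
    H.ch n (G.Wd i i' y o x x') =
      G'.Wd i i' (fun j => H.map k (y j)) (H.map k o) (H.map k x) (H.map k x') := by
  unfold Geo.Wd
  simp only [map_sub, Hom.ch_cl₂]

variable [IsAlgClosed k]

theorem Hom.voisin {n : ℕ} (hs : Function.Surjective (H.map k)) {i i' : Fin n} (hi : i ≠ i')
    (o : G.Pt k) (h : ∀ (y : Fin n → G.Pt k) (x x' : G.Pt k), G.Wd i i' y o x x' = 0) :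
    G'.Voisin n := by
  refine voisin_of_Wd hi (H.map k o) fun y x x' => ?_
  choose g hg using hs
  have h1 := H.ch_Wd i i' (fun j => g (y j)) o (g x) (g x')
  rw [h, map_zero] at h1
  simp only [hg] at h1
  exact h1.symm

end Geo

end Pool.Agent.H833.EK
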