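import Pool.Agent.H833.EK.Final
import Pool.Agent.H833.EK.DefK

/-!
# Antisymmetric zero-cycles on the powers of quotients of powers
-/

set_option autoImplicit false
set_option linter.unusedSectionVars false

namespace Pool.Agent.H833.EK

open FF Polynomial

section

variable {S : Type} {m N : ℕ}

theorem blk_pair (σ : Equiv.Perm (Fin N)) (a : Fin N) (j : Fin m) :
    blk σ (finProdFinEquiv (a, j)) = finProdFinEquiv (σ a, j) := by
  simp [blk]

theorem inBlk_pair (i : Fin N) (g : Equiv.Perm (Fin m) × (Fin m → Bool)) (a : Fin N) (j : Fin m) :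
    (inBlk i g).1 (finProdFinEquiv (a, j)) = finProdFinEquiv (a, if a = i then g.1 j else j) := by
  simp only [inBlk, Equiv.trans_apply, Equiv.symm_apply_apply]
  congr 1
  change (a, (if a = i then g.1 else 1) j) = _
  split_ifs <;> rfl

theorem inBlk_sign (i : Fin N) (g : Equiv.Perm (Fin m) × (Fin m → Bool)) (a : Fin N) (j : Fin m) :
    (inBlk i g).2 (finProdFinEquiv (a, j)) = if a = i then g.2 j else false := by
  simp only [inBlk, Equiv.symm_apply_apply]

theorem sact_inBlk (ι : S → S) (i : Fin N) (g : Equiv.Perm (Fin m) × (Fin m → Bool))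
    (x : Fin (N * m) → S) (a : Fin N) (j : Fin m) :
    sact ι (inBlk i g) x (finProdFinEquiv (a, j)) =
      if a = i then sact ι g (fun l => x (finProdFinEquiv (a, l))) j
      else x (finProdFinEquiv (a, j)) := by
  unfold sact
  rw [inBlk_sign, inBlk_pair]
  by_cases h : a = i
  · simp only [if_pos h]
  · simp only [if_neg h, Bool.false_eq_true, if_false]

theorem blk_mul (σ τ : Equiv.Perm (Fin N)) (l : Fin (N * m)) :
    blk (m := m) σ (blk τ l) = blk (σ * τ) l := by
  obtain ⟨⟨a, j⟩, rfl⟩ := finProdFinEquiv.surjective l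
  rw [blk_pair, blk_pair, blk_pair]
  rfl

/-- A signed permutation in a block and permutations of the blocks. -/
theorem sact_blk (ι : S → S) (i : Fin N) (g : Equiv.Perm (Fin m) × (Fin m → Bool))
    (σ : Equiv.Perm (Fin N)) (x : Fin (N * m) → S) :
    sact ι (inBlk i g) (fun l => x (blk σ l)) = fun l => sact ι (inBlk (σ i) g) x (blk σ l) := by
  funext l
  obtain ⟨⟨a, j⟩, rfl⟩ := finProdFinEquiv.surjective l
  rw [sact_inBlk, blk_pair, sact_inBlk]
  by_cases h : a = i
  · subst h
    simp only [if_pos, blk_pair]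
  · rw [if_neg h, if_neg fun h' => h (σ.injective h')]

end

namespace Geo

variable {k : Type} [Field k] [CharZero k] [IsAlgClosed k] {G X : Geo k} {m n N : ℕ}

theorem sact_rat (ι : Hom G G) (hG : G.Nice) (o : G.Pt k)
    (g : Equiv.Perm (Fin n) × (Fin n → Bool)) {z : (Fin n → G.Pt k) →₀ ℚ} (hz : z ∈ G.Rat n) :
    Finsupp.mapDomain (sact (ι.map k) g) z ∈ G.Rat n := by
  have h := act_rat (ι := ι) (o := o) hG (sp g) hz
  rw [Submodule.mem_comap, Finsupp.lmapDomain_apply, sact_eq] at h
  exact h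

/-- The antisymmetrisation. -/
noncomputable def alt (z : (Fin (N * m) → G.Pt k) →₀ ℚ) : (Fin (N * m) → G.Pt k) →₀ ℚ :=
  ∑ σ : Equiv.Perm (Fin N), ((σ.sign : ℤ) : ℚ) • Finsupp.mapDomain (fun x l => x (blk σ l)) z

theorem alt_blk (τ : Equiv.Perm (Fin N)) (z : (Fin (N * m) → G.Pt k) →₀ ℚ) :
    Finsupp.mapDomain (fun x l => x (blk τ l)) (alt z) = ((τ.sign : ℤ) : ℚ) • alt z := by
  unfold alt
  rw [← Finsupp.lmapDomain_apply ℚ ℚ, map_sum, Finset.smul_sum]
  conv_rhs => rw [← Equiv.sum_comp (Equiv.mulRight τ)]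
  refine Finset.sum_congr rfl fun σ _ => ?_
  rw [map_smul, Finsupp.lmapDomain_apply, ← Finsupp.mapDomain_comp, smul_smul]
  congr 1
  · rw [Equiv.coe_mulRight, Equiv.Perm.sign_mul]
    rcases Int.units_eq_one_or (Equiv.Perm.sign τ) with h | h <;> rw [h] <;> simp
  · congr 1
    funext x l
    simp only [Function.comp, Equiv.coe_mulRight, blk_mul]

theorem alt_inv (ι : Hom G G)
    {g : Equiv.Perm (Fin m) × (Fin m → Bool)} {z : (Fin (N * m) → G.Pt k) →₀ ℚ}
    (hz : ∀ i : Fin N, Finsupp.mapDomain (sact (ι.map k) (inBlk i g)) z - z ∈ G.Rat (N * m))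
    (i : Fin N) :
    Finsupp.mapDomain (sact (ι.map k) (inBlk i g)) (alt z) - alt z ∈ G.Rat (N * m) := by
  unfold alt
  rw [← Finsupp.lmapDomain_apply ℚ ℚ (sact (ι.map k) (inBlk i g)), map_sum,
    ← Finset.sum_sub_distrib]
  refine Submodule.sum_mem _ fun σ _ => ?_
  rw [map_smul, ← smul_sub]
  refine Submodule.smul_mem _ _ ?_
  have h1 := perm_rat (blk (m := m) σ) (hz (σ i))
  rw [← Finsupp.lmapDomain_apply ℚ ℚ (fun (x : Fin (N * m) → G.Pt k) l => x (blk σ l)), map_sub,
    Finsupp.lmapDomain_apply, Finsupp.lmapDomain_apply, ← Finsupp.mapDomain_comp] at h1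
  rw [Finsupp.lmapDomain_apply, ← Finsupp.mapDomain_comp]
  have h2 : (sact (ι.map k) (inBlk i g)) ∘ (fun (x : Fin (N * m) → G.Pt k) l => x (blk σ l)) =
      (fun (x : Fin (N * m) → G.Pt k) l => x (blk σ l)) ∘ sact (ι.map k) (inBlk (σ i) g) := by
    funext x
    exact sact_blk (ι.map k) i g σ x
  rw [h2]
  exact h1

/-- The signed permutation which exchanges two blocks. -/
def mate (i i' : Fin N) (g g' : Equiv.Perm (Fin m) × (Fin m → Bool)) :
    Equiv.Perm (Fin (N * m)) × (Fin (N * m) → Bool) :=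
  ((inBlk i g).1.trans ((inBlk i' g').1.trans (blk (Equiv.swap i i'))),
    fun l => (inBlk i g).2 l || (inBlk i' g').2 l)

theorem sact_mate {S : Type} (ι : S → S) {i i' : Fin N} (hi : i ≠ i')
    (g g' : Equiv.Perm (Fin m) × (Fin m → Bool)) (x : Fin (N * m) → S) :
    sact ι (mate i i' g g') x = sact ι (inBlk i g) (sact ι (inBlk i' g')
      fun l => x (blk (Equiv.swap i i') l)) := by
  funext l
  obtain ⟨⟨a, j⟩, rfl⟩ := finProdFinEquiv.surjective l
  rw [sact_inBlk]
  unfold sact mate
  simp only [Equiv.trans_apply, inBlk_pair, inBlk_sign, blk_pair]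
  by_cases h : a = i
  · subst h
    simp only [if_true, if_neg hi, Bool.or_false, Bool.false_eq_true, if_false]
  · simp only [if_neg h, Bool.false_or]

/-- The subsets of the blocks. -/
def sub (T : Finset (Fin (N * m))) (a : Fin N) : Finset (Fin m) :=
  Finset.univ.filter fun j => finProdFinEquiv (a, j) ∈ T

theorem mem_sub {T : Finset (Fin (N * m))} {a : Fin N} {j : Fin m} :
    j ∈ sub T a ↔ finProdFinEquiv (a, j) ∈ T := by
  simp [sub]

theorem prod_sub (T : Finset (Fin (N * m))) (f : Fin (N * m) → ℚ) :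
    ∏ l ∈ T, f l = ∏ a : Fin N, ∏ j ∈ sub T a, f (finProdFinEquiv (a, j)) := by
  classical
  have h1 : ∏ l ∈ T, f l = ∏ l, if l ∈ T then f l else 1 := by
    rw [Finset.prod_ite_mem, Finset.univ_inter]
  rw [h1, ← Equiv.prod_comp finProdFinEquiv, Fintype.prod_prod_type]
  refine Finset.prod_congr rfl fun a _ => ?_
  unfold sub
  rw [Finset.prod_filter]

theorem sgT_inBlk (T : Finset (Fin (N * m))) (i : Fin N)
    (g : Equiv.Perm (Fin m) × (Fin m → Bool)) : sgT (inBlk i g) T = sgT g (sub T i) := by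
  classical
  unfold sgT
  rw [prod_sub, Finset.prod_eq_single i]
  · refine Finset.prod_congr rfl fun j _ => ?_
    rw [inBlk_sign, if_pos rfl]
  · intro a _ ha
    refine Finset.prod_eq_one fun j _ => ?_
    rw [inBlk_sign, if_neg ha]
    rfl
  · intro h
    exact absurd (Finset.mem_univ i) h

theorem sgT_mate (T : Finset (Fin (N * m))) {i i' : Fin N} (hi : i ≠ i')
    (g g' : Equiv.Perm (Fin m) × (Fin m → Bool)) :
    sgT (mate i i' g g') T = sgT g (sub T i) * sgT g' (sub T i') := by
  rw [← sgT_inBlk, ← sgT_inBlk]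
  unfold sgT
  rw [← Finset.prod_mul_distrib]
  refine Finset.prod_congr rfl fun l _ => ?_
  obtain ⟨⟨a, j⟩, rfl⟩ := finProdFinEquiv.surjective l
  unfold mate
  simp only [inBlk_sign]
  by_cases h : a = i
  · subst h
    simp only [if_true, if_neg hi, Bool.or_false, Bool.false_eq_true, if_false, mul_one]
  · simp only [if_neg h, Bool.false_or, Bool.false_eq_true, if_false, one_mul]

/-- **The birational motives of the quotients are finite-dimensional.** -/
theorem wedgeQuot (hG : G.Nice) {ι : Hom G G} {o : G.Pt k} (hS : G.Sw (N * m) o)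
    {Γ : Set (Equiv.Perm (Fin m) × (Fin m → Bool))} (hN : Exceeds Γ N)
    (hι : ∀ g ∈ Γ, ∀ j, g.2 j = true → ∀ x, G.Opp (N * m) o x (ι.map k x)) :
    WedgeQuot G (ι.map k) m Γ N := by
  classical
  intro z hz
  change alt z ∈ _
  have hinv := fun g hg => alt_inv (g := g) ι (hz g hg)
  have hblk := fun τ => alt_blk (G := G) (m := m) (N := N) τ z
  generalize alt z = y at hinv hblk
  rw [← Submodule.Quotient.mk_eq_zero, ← Submodule.mkQ_apply, sum_PT o]
  refine Finset.sum_eq_zero fun T _ => ?_
  rcases hN (sub T) with ⟨i, g, hg, hgT, hs⟩ | ⟨i, i', hi, g, hg, g', hg', h1, h2, hs⟩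
  · refine PT_zero (ι := ι) (g := sp (inBlk i g)) (r := 1) hG hS (fun l l' h => ?_)
      (sp_image _ fun l hl => ?_) ?_ ?_
    · obtain ⟨⟨a, j⟩, rfl⟩ := finProdFinEquiv.surjective l
      unfold sp at h
      simp only [Option.some.injEq, Prod.mk.injEq, inBlk_sign] at h
      have h3 := h.2
      split_ifs at h3
      exact hι g hg j h3
    · obtain ⟨⟨a, j⟩, rfl⟩ := finProdFinEquiv.surjective l
      rw [inBlk_pair]
      by_cases h : a = i
      · subst h
        rw [if_pos rfl]
        exact mem_sub.1 (hgT j (mem_sub.2 hl))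
      · rw [if_neg h]
        exact hl
    · rw [one_smul, Finsupp.lmapDomain_apply, sact_eq]
      exact hinv g hg i
    · rw [sgT_eq, sgT_inBlk, hs]
      norm_num
  · refine PT_zero (ι := ι) (g := sp (mate i i' g g')) (r := -1) hG hS (fun l l' h => ?_)
      (sp_image _ fun l hl => ?_) ?_ ?_
    · obtain ⟨⟨a, j⟩, rfl⟩ := finProdFinEquiv.surjective l
      unfold sp mate at h
      simp only [Option.some.injEq, Prod.mk.injEq, inBlk_sign, Bool.or_eq_true] at h
      rcases h.2 with h3 | h3
      · split_ifs at h3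
        exact hι g hg j h3
      · split_ifs at h3
        exact hι g' hg' j h3
    · obtain ⟨⟨a, j⟩, rfl⟩ := finProdFinEquiv.surjective l
      unfold mate
      simp only [Equiv.trans_apply, inBlk_pair, blk_pair]
      by_cases h : a = i
      · subst h
        rw [if_pos rfl, if_neg hi, Equiv.swap_apply_left]
        exact mem_sub.1 (h1 j (mem_sub.2 hl))
      · rw [if_neg h]
        by_cases h' : a = i'
        · subst h'
          rw [if_pos rfl, Equiv.swap_apply_right]
          exact mem_sub.1 (h2 j (mem_sub.2 hl))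
        · rw [if_neg h', Equiv.swap_apply_of_ne_of_ne h h']
          exact hl
    · rw [Finsupp.lmapDomain_apply, sact_eq, neg_one_smul, sub_neg_eq_add]
      have e1 : sact (ι.map k) (mate i i' g g') = sact (ι.map k) (inBlk i g) ∘
          sact (ι.map k) (inBlk i' g') ∘ fun (x : Fin (N * m) → G.Pt k) l =>
            x (blk (Equiv.swap i i') l) := by
        funext x
        exact sact_mate _ hi g g' x
      rw [e1, Finsupp.mapDomain_comp, Finsupp.mapDomain_comp, hblk, Equiv.Perm.sign_swap hi]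
      have e : (((-1 : ℤˣ) : ℤ) : ℚ) = -1 := by norm_num
      rw [e, neg_one_smul]
      have h3 := sact_rat ι hG o (inBlk i g) (hinv g' hg' i')
      have h4 := hinv g hg i
      have h5 := Submodule.neg_mem _ (Submodule.add_mem _ h3 h4)
      have h6 : ∀ w w' : (Fin (N * m) → G.Pt k) →₀ ℚ,
          Finsupp.mapDomain (sact (ι.map k) (inBlk i g)) (w - w') =
          Finsupp.mapDomain (sact (ι.map k) (inBlk i g)) w -
          Finsupp.mapDomain (sact (ι.map k) (inBlk i g)) w' := fun w w' => by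
        simp only [← Finsupp.lmapDomain_apply ℚ ℚ, map_sub]
      have h7 : ∀ w : (Fin (N * m) → G.Pt k) →₀ ℚ, Finsupp.mapDomain
          (sact (ι.map k) (inBlk i' g')) (-w) = -Finsupp.mapDomain
          (sact (ι.map k) (inBlk i' g')) w := fun w => by
        simp only [← Finsupp.lmapDomain_apply ℚ ℚ, map_neg]
      have h8 : ∀ w : (Fin (N * m) → G.Pt k) →₀ ℚ, Finsupp.mapDomain
          (sact (ι.map k) (inBlk i g)) (-w) = -Finsupp.mapDomain
          (sact (ι.map k) (inBlk i g)) w := fun w => by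
        simp only [← Finsupp.lmapDomain_apply ℚ ℚ, map_neg]
      rw [h6] at h5
      rw [h7, h8]
      convert h5 using 1
      abel
    · rw [sgT_eq, sgT_mate T hi, hs]
      norm_num

end Geo

end Pool.Agent.H833.EK
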