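import Pool.Agent.H833.EK.FFex

/-!
# Lines on the plane cubics `f₂(X₂) = λ f₁(X₁)`
-/

set_option autoImplicit false
set_option linter.unusedSectionVars false

namespace Pool.Agent.H833.EK

open FF Polynomial

section

variable {k : Type} [Field k] [CharZero k] [IsAlgClosed k]

/-- A square root. -/
noncomputable def sq (c : k) : k := (IsAlgClosed.exists_pow_nat_eq c (n := 2) (by norm_num)).choose

theorem sq_spec (c : k) : sq c ^ 2 = c :=
  (IsAlgClosed.exists_pow_nat_eq c (n := 2) (by norm_num)).choose_spec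

end

theorem exists_roots {F : Type} [Field F] [IsAlgClosed F] {d : ℕ} (p : F[X])
    (hd : p.natDegree = d) :
    ∃ r : Fin d → F, p = C p.leadingCoeff * ∏ i, (X - C (r i)) := by
  have h1 : p.Splits := IsAlgClosed.splits p
  have h2 := h1.eq_prod_roots
  have h3 : p.roots.card = d := by rw [← hd]; exact (splits_iff_card_roots.1 h1)
  obtain ⟨l, hl⟩ := Quotient.exists_rep p.roots
  have h4 : l.length = d := by rw [← h3, ← hl]; rfl
  subst h4
  refine ⟨fun i => l[i.1], ?_⟩
  have h5 : (∏ i : Fin l.length, (X - C (l[i.1]))) =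
      (Multiset.map (fun a => X - C a) p.roots).prod := by
    rw [← hl]
    change _ = (Multiset.map (fun a => X - C a) (l : Multiset F)).prod
    rw [Multiset.map_coe, Multiset.prod_coe]
    exact Fin.prod_univ_fun_getElem l fun a => X - C a
  rw [h5]
  exact h2

/-- Families of roots with the same monic polynomial are equal as multisets. -/
theorem sum_eq_of_prod_eq {F : Type} [Field F] [Infinite F] {d : ℕ} (r s : Fin d → F)
    (h : ∀ x, ∏ i, (x - r i) = ∏ i, (x - s i)) {V : Type} [AddCommMonoid V] (g : F → V) :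
    ∑ i, g (r i) = ∑ i, g (s i) := by
  have h1 : (∏ i, (X - C (r i)) : F[X]) = ∏ i, (X - C (s i)) := by
    refine Polynomial.funext fun x => ?_
    simpa [eval_prod] using h x
  have h2 : ∀ t : Fin d → F, (∏ i, (X - C (t i)) : F[X]).roots = Finset.univ.val.map t := by
    intro t
    have h3 : (∏ i, (X - C (t i)) : F[X]) = ((Finset.univ.val.map t).map fun a => X - C a).prod := by
      rw [Multiset.map_map]; rfl
    rw [h3, roots_multiset_prod_X_sub_C]
  have h3 : Finset.univ.val.map r = Finset.univ.val.map s := by rw [← h2, ← h2, h1]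
  have h4 : ∀ t : Fin d → F, ∑ i, g (t i) = ((Finset.univ.val.map t).map g).sum := by
    intro t
    rw [Multiset.map_map]; rfl
  rw [h4, h4, h3]

section

variable {k : Type} [Field k]

/-- The equation of the points of the cubic `f₂(X₂) = l f₁(X₁)` on the line `X₂ = m X₁ + n`. -/
def lineG (m l a₁ b₁ a₂ b₂ : k) {K : Type} [Field K] [Algebra k K] (n x : K) : K :=
  (algebraMap k K m * x + n) ^ 3 + algebraMap k K a₂ * (algebraMap k K m * x + n) +
    algebraMap k K b₂ - algebraMap k K l * (x ^ 3 + algebraMap k K a₁ * x + algebraMap k K b₁)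

theorem lineG_map {m l a₁ b₁ a₂ b₂ : k} {K F : Type} [Field K] [Algebra k K] [Field F]
    [Algebra k F] (i : K →ₐ[k] F) (n x : K) :
    i (lineG m l a₁ b₁ a₂ b₂ n x) = lineG m l a₁ b₁ a₂ b₂ (i n) (i x) := by
  simp [lineG]

theorem lineG_val {m l a₁ b₁ a₂ b₂ : k} {K : Type} [Field K] [Algebra k K] {v : Place k K}
    {n x : K} {n₀ x₀ : k} (hn : HasVal v n n₀) (hx : HasVal v x x₀) :
    HasVal v (lineG m l a₁ b₁ a₂ b₂ n x) (lineG m l a₁ b₁ a₂ b₂ n₀ x₀) := by
  unfold lineG
  have h1 := ((HasVal.const v m).mul hx).add hn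
  exact (((h1.pow 3).add ((HasVal.const v a₂).mul h1)).add (HasVal.const v b₂)).sub
    ((HasVal.const v l).mul (((hx.pow 3).add ((HasVal.const v a₁).mul hx)).add
      (HasVal.const v b₁)))

end

variable {k : Type} [Field k] [CharZero k] [IsAlgClosed k] {a b : k[X]} {V : Type}
  [AddCommGroup V] [Module ℚ V]

theorem OnS_const {u : k} {K : Type} [Field K] [Algebra k K] {x y : K} :
    OnS a b ((algebraMap k K u, x, y) : T3 K) ↔
      y ^ 2 = x ^ 3 + algebraMap k K (a.eval u) * x + algebraMap k K (b.eval u) := by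
  unfold OnS
  simp only [aeval_algebraMap_apply, coe_aeval_eq_eval]

theorem OnS_self {u x y : k} :
    OnS a b ((u, x, y) : T3 k) ↔ y ^ 2 = x ^ 3 + a.eval u * x + b.eval u := by
  unfold OnS
  simp only [coe_aeval_eq_eval]

/-- The pair of points of the surface which belongs to a point of the cubic. -/
noncomputable def gW (B : Pairing k a b V) (u₁ u₂ t : k) (x₁ x₂ : k) : V :=
  B.W (u₁, x₁, sq (x₁ ^ 3 + a.eval u₁ * x₁ + b.eval u₁))
    (u₂, x₂, t * sq (x₁ ^ 3 + a.eval u₁ * x₁ + b.eval u₁))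

theorem gW_eq (B : Pairing k a b V) {u₁ u₂ t x₁ x₂ y : k} (h₁ : (disc a b).eval u₁ ≠ 0)
    (h₂ : (disc a b).eval u₂ ≠ 0) (hy : y ^ 2 = x₁ ^ 3 + a.eval u₁ * x₁ + b.eval u₁)
    (hx : t ^ 2 * (x₁ ^ 3 + a.eval u₁ * x₁ + b.eval u₁) = x₂ ^ 3 + a.eval u₂ * x₂ + b.eval u₂) :
    B.W (u₁, x₁, y) (u₂, x₂, t * y) = gW B u₁ u₂ t x₁ x₂ := by
  unfold gW
  set s := sq (x₁ ^ 3 + a.eval u₁ * x₁ + b.eval u₁) with hs
  have h3 : s ^ 2 = x₁ ^ 3 + a.eval u₁ * x₁ + b.eval u₁ := sq_spec _
  have h4 : (y - s) * (y + s) = 0 := by linear_combination hy - h3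
  have h5 : OnS a b ((u₁, x₁, s) : T3 k) := OnS_self.2 h3
  have h6 : OnS a b ((u₂, x₂, t * s) : T3 k) := OnS_self.2 (by rw [← hx, ← h3]; ring)
  rcases mul_eq_zero.1 h4 with h | h
  · rw [sub_eq_zero.1 h]
  · rw [eq_neg_of_add_eq_zero_left h]
    have h7 := B.even h5 h6 h₁ h₂
    simp only [T3.neg] at h7
    rw [← h7, mul_neg]

theorem line_rel (B : Pairing k a b V) {u₁ u₂ t m n₀ : k} (h₁ : (disc a b).eval u₁ ≠ 0)
    (h₂ : (disc a b).eval u₂ ≠ 0) {d : ℕ} (L : k[X]) (hL : L.eval n₀ ≠ 0)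
    (hreg : ∀ (K : Type) [Field K] [Algebra k K] [IsFF k K] (n r : K) (v : Place k K),
      lineG m (t ^ 2) (a.eval u₁) (b.eval u₁) (a.eval u₂) (b.eval u₂) n r = 0 →
      HasVal v n n₀ → v.Reg r)
    (hdec : ∀ n : Om k, Transcendental k n → ∃ r : Fin d → Om k, ∀ x,
      lineG m (t ^ 2) (a.eval u₁) (b.eval u₁) (a.eval u₂) (b.eval u₂) n x =
        aeval n L * ∏ i, (x - r i))
    (ξ : Fin d → k) (hξ : ∀ x : k,
      lineG m (t ^ 2) (a.eval u₁) (b.eval u₁) (a.eval u₂) (b.eval u₂) n₀ x =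
        L.eval n₀ * ∏ i, (x - ξ i)) :
    ∑ i, gW B u₁ u₂ t (ξ i) (m * ξ i + n₀) = 0 := by
  classical
  obtain ⟨r, hr⟩ := hdec _ transcendental_X'
  set N : Om k := algebraMap (RatFunc k) (Om k) RatFunc.X with hN
  have hy : ∀ i, ∃ y : Om k, y ^ 2 = r i ^ 3 + algebraMap k (Om k) (a.eval u₁) * r i +
      algebraMap k (Om k) (b.eval u₁) := fun i =>
    IsAlgClosed.exists_pow_nat_eq _ (by norm_num)
  choose y hy using hy
  obtain ⟨K, _, _, _, i, hi⟩ := exists_FF (insert N (Finset.univ.image r ∪ Finset.univ.image y))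
  obtain ⟨n', hn'⟩ := hi N (Finset.mem_insert_self _ _)
  have hr' : ∀ j, ∃ z, i z = r j := fun j => hi _ (Finset.mem_insert_of_mem
    (Finset.mem_union_left _ (Finset.mem_image_of_mem _ (Finset.mem_univ _))))
  have hy' : ∀ j, ∃ z, i z = y j := fun j => hi _ (Finset.mem_insert_of_mem
    (Finset.mem_union_right _ (Finset.mem_image_of_mem _ (Finset.mem_univ _))))
  choose r' hr' using hr'
  choose y' hy' using hy'
  have hinj : ∀ {p q : K}, i p = i q → p = q := fun {p q} h => i.toRingHom.injective h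
  have htr : Transcendental k n' := transcendental_of_map i (by rw [hn']; exact transcendental_X')
  have hG : ∀ x : K, lineG m (t ^ 2) (a.eval u₁) (b.eval u₁) (a.eval u₂) (b.eval u₂) n' x =
      aeval n' L * ∏ j, (x - r' j) := by
    intro x
    apply hinj
    rw [lineG_map, hn', hr, map_mul, map_prod, ← aeval_algHom_apply, hn']
    congr 1
    exact Finset.prod_congr rfl fun j _ => by rw [map_sub, hr']
  have hroot : ∀ j, lineG m (t ^ 2) (a.eval u₁) (b.eval u₁) (a.eval u₂) (b.eval u₂) n' (r' j) =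
      0 := by
    intro j
    rw [hG, Finset.prod_eq_zero (Finset.mem_univ j) (sub_self _), mul_zero]
  have hyy : ∀ j, y' j ^ 2 = r' j ^ 3 + algebraMap k K (a.eval u₁) * r' j +
      algebraMap k K (b.eval u₁) := by
    intro j
    apply hinj
    rw [map_pow, hy', hy, map_add, map_add, map_mul, map_pow, hr']
    simp
  let P : Fin d → T3 K := fun j => (algebraMap k K u₁, r' j, y' j)
  let Q : Fin d → T3 K := fun j =>
    (algebraMap k K u₂, algebraMap k K m * r' j + n', algebraMap k K t * y' j)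
  have hP : ∀ j, OnS a b (P j) := fun j => OnS_const.2 (hyy j)
  have hQ : ∀ j, OnS a b (Q j) := by
    intro j
    refine OnS_const.2 ?_
    have h3 := hroot j
    unfold lineG at h3
    rw [map_pow] at h3
    rw [mul_pow, hyy]
    linear_combination -h3
  have hsub : Transcendental k (n' - algebraMap k K n₀) := by
    intro h
    apply htr
    have := h.add (isAlgebraic_algebraMap (A := K) n₀)
    rwa [sub_add_cancel] at this
  have hAdm : ∀ v : Place k K, ∀ j, Adm a b v (P j) (Q j) := fun v j =>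
    Or.inl ⟨u₁, u₂, HasVal.const v u₁, HasVal.const v u₂⟩
  refine B.family P Q hP hQ hsub _ 0 (fun v hv => ⟨hAdm v, ?_⟩) (fun v hv => ⟨hAdm v, ?_⟩)
  · have hvn : HasVal v n' n₀ := by
      have h4 := (hasVal_zero_of_pos hv).add (HasVal.const v n₀)
      rwa [sub_add_cancel, zero_add] at h4
    have hρ : ∀ j, ∃ c, HasVal v (r' j) c := fun j =>
      exists_hasVal (hreg K n' (r' j) v (hroot j) hvn)
    choose ρ hρ using hρ
    have hprod : ∀ x : k, ∏ j, (x - ρ j) = ∏ j, (x - ξ j) := by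
      intro x
      have h5 := lineG_val (m := m) (l := t ^ 2) (a₁ := a.eval u₁) (b₁ := b.eval u₁)
        (a₂ := a.eval u₂) (b₂ := b.eval u₂) hvn (HasVal.const v x)
      rw [hG] at h5
      have h6 := (hvn.aeval L).mul (HasVal.prod (v := v) Finset.univ
        (fun j => algebraMap k K x - r' j) (fun j => x - ρ j)
        fun j _ => (HasVal.const v x).sub (hρ j))
      have h7 := h5.unique h6
      rw [hξ] at h7
      exact (mul_left_cancel₀ hL h7).symm
    have h8 := sum_eq_of_prod_eq ρ ξ hprod fun z => gW B u₁ u₂ t z (m * z + n₀)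
    rw [← h8]
    refine Finset.sum_congr rfl fun j _ => ?_
    obtain ⟨η, hη, hη2⟩ : ∃ η, HasVal v (y' j) η ∧
        η ^ 2 = ρ j ^ 3 + a.eval u₁ * ρ j + b.eval u₁ := by
      have h9 : HasVal v (y' j ^ 2) (ρ j ^ 3 + a.eval u₁ * ρ j + b.eval u₁) := by
        rw [hyy]
        exact (((hρ j).pow 3).add ((HasVal.const v _).mul (hρ j))).add (HasVal.const v _)
      obtain ⟨η, hη, h10⟩ := h9.of_pow two_ne_zero
      exact ⟨η, hη, h10⟩
    have h11 : lineG m (t ^ 2) (a.eval u₁) (b.eval u₁) (a.eval u₂) (b.eval u₂) n₀ (ρ j) = 0 := by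
      have h12 := lineG_val (m := m) (l := t ^ 2) (a₁ := a.eval u₁) (b₁ := b.eval u₁)
        (a₂ := a.eval u₂) (b₂ := b.eval u₂) hvn (hρ j)
      rw [hroot] at h12
      exact h12.unique (HasVal.zero v)
    rw [wv_eq (p := (u₁, ρ j, η)) (q := (u₂, m * ρ j + n₀, t * η))
      ⟨HasVal.const v u₁, hρ j, hη⟩ ⟨HasVal.const v u₂, ((HasVal.const v m).mul (hρ j)).add hvn,
        (HasVal.const v t).mul hη⟩ h₁ h₂]
    refine gW_eq B h₁ h₂ hη2 ?_
    unfold lineG at h11
    simp only [Algebra.algebraMap_self, RingHom.id_apply] at h11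
    linear_combination -h11
  · refine Finset.sum_eq_zero fun j _ => wv_zero_of_not fun p q hp hq _ _ => ?_
    have h5 : HasVal v n' (q.2.1 - m * p.2.1) := by
      have h6 := hq.2.1.sub ((HasVal.const v m).mul hp.2.1)
      refine h6.congr ?_ rfl
      simp only [P, Q]
      ring
    have h6 : v.Reg (n' - algebraMap k K n₀) := (h5.sub (HasVal.const v n₀)).reg
    rcases h6 with h6 | h6
    · rw [h6, v.ord_zero] at hv
      exact lt_irrefl _ hv
    · omega

end Pool.Agent.H833.EK
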