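import Pool.Agent.H833.EK.Lines

/-!
# Lines on the plane cubics: three points, and two points on a line in an asymptotic direction
-/

set_option autoImplicit false
set_option linter.unusedSectionVars false

namespace Pool.Agent.H833.EK

open FF Polynomial

variable {k : Type} [Field k] [CharZero k] [IsAlgClosed k] {a b : k[X]} {V : Type}
  [AddCommGroup V] [Module ℚ V]

theorem not_const {K : Type} [Field K] [Algebra k K] {n : K} (h : Transcendental k n) : n ≠ 0 := by
  rintro rfl
  exact h isAlgebraic_zero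

/-- The three points of the cubic on a line. -/
theorem line3 (B : Pairing k a b V) {u₁ u₂ t m n₀ : k} (h₁ : (disc a b).eval u₁ ≠ 0)
    (h₂ : (disc a b).eval u₂ ≠ 0) (hm : m ^ 3 - t ^ 2 ≠ 0) (ξ : Fin 3 → k)
    (hξ : ∀ x : k, (m * x + n₀) ^ 3 + a.eval u₂ * (m * x + n₀) + b.eval u₂ -
      t ^ 2 * (x ^ 3 + a.eval u₁ * x + b.eval u₁) = (m ^ 3 - t ^ 2) * ∏ i, (x - ξ i)) :
    ∑ i, gW B u₁ u₂ t (ξ i) (m * ξ i + n₀) = 0 := by
  have hm' : ∀ {K : Type} [Field K] [Algebra k K], algebraMap k K (m ^ 3 - t ^ 2) ≠ 0 :=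
    fun {K} _ _ => (_root_.map_ne_zero _).2 hm
  refine line_rel B h₁ h₂ (C (m ^ 3 - t ^ 2)) (by simpa using hm) ?_ ?_ ξ ?_
  · intro K _ _ _ n r v hr hn
    refine reg_of_root (n := 3) (c := m ^ 3 - t ^ 2)
      ![n ^ 3 + algebraMap k K (a.eval u₂) * n + algebraMap k K (b.eval u₂) -
          algebraMap k K (t ^ 2) * algebraMap k K (b.eval u₁),
        3 * algebraMap k K m * n ^ 2 + algebraMap k K (a.eval u₂) * algebraMap k K m -
          algebraMap k K (t ^ 2) * algebraMap k K (a.eval u₁),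
        3 * algebraMap k K m ^ 2 * n] ?_ (HasVal.const v _) hm ?_
    · intro i
      have e1 := HasVal.const v (a.eval u₂)
      have e2 := HasVal.const v (b.eval u₂)
      have e3 := HasVal.const v (t ^ 2)
      have e4 := HasVal.const v (b.eval u₁)
      have e5 := HasVal.const v (a.eval u₁)
      have e6 := HasVal.const v m
      fin_cases i
      · exact ((((hn.pow 3).add (e1.mul hn)).add e2).sub (e3.mul e4)).reg
      · exact (((((HasVal.ofNat v 3).mul e6).mul (hn.pow 2)).add (e1.mul e6)).sub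
          (e3.mul e5)).reg
      · exact (((HasVal.ofNat v 3).mul (e6.pow 2)).mul hn).reg
    · unfold lineG at hr
      rw [Fin.sum_univ_three]
      simp only [Matrix.cons_val_zero, Matrix.cons_val_one, Matrix.cons_val_two, Matrix.head_cons,
        Matrix.tail_cons, Fin.val_zero, Fin.val_one, Fin.val_two, pow_zero, pow_one]
      rw [map_sub, map_pow]
      simp only [map_pow] at hr ⊢
      linear_combination hr
  · intro n hn
    let p : (Om k)[X] := C (algebraMap k (Om k) (m ^ 3 - t ^ 2)) * X ^ 3 +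
      C (3 * algebraMap k (Om k) m ^ 2 * n) * X ^ 2 +
      C (3 * algebraMap k (Om k) m * n ^ 2 + algebraMap k (Om k) (a.eval u₂) *
        algebraMap k (Om k) m - algebraMap k (Om k) (t ^ 2) * algebraMap k (Om k) (a.eval u₁)) * X +
      C (n ^ 3 + algebraMap k (Om k) (a.eval u₂) * n + algebraMap k (Om k) (b.eval u₂) -
          algebraMap k (Om k) (t ^ 2) * algebraMap k (Om k) (b.eval u₁))
    obtain ⟨r, hr⟩ := exists_roots p (natDegree_cubic hm')
    refine ⟨r, fun x => ?_⟩
    rw [leadingCoeff_cubic hm'] at hr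
    have h3 := congrArg (eval x) hr
    rw [eval_mul, eval_C, eval_prod] at h3
    simp only [eval_sub, eval_X, eval_C] at h3
    rw [aeval_C, ← h3]
    simp only [p, eval_add, eval_mul, eval_C, eval_pow, eval_X]
    unfold lineG
    simp only [map_sub, map_pow]
    ring
  · intro x
    rw [eval_C, ← hξ]
    unfold lineG
    simp only [Algebra.algebraMap_self, RingHom.id_apply]

/-- The two points of the cubic on a line in an asymptotic direction. -/
theorem line2 (B : Pairing k a b V) {u₁ u₂ t m n₀ x₁ x₂ : k} (h₁ : (disc a b).eval u₁ ≠ 0)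
    (h₂ : (disc a b).eval u₂ ≠ 0) (hm : m ^ 3 = t ^ 2) (hm0 : m ≠ 0) (hn0 : n₀ ≠ 0)
    (hx : (m * x₁ + n₀) ^ 3 + a.eval u₂ * (m * x₁ + n₀) + b.eval u₂ -
      t ^ 2 * (x₁ ^ 3 + a.eval u₁ * x₁ + b.eval u₁) = 0)
    (hs : 3 * m ^ 2 * n₀ * (x₁ + x₂) + (3 * m * n₀ ^ 2 + a.eval u₂ * m - t ^ 2 * a.eval u₁) = 0) :
    gW B u₁ u₂ t x₁ (m * x₁ + n₀) + gW B u₁ u₂ t x₂ (m * x₂ + n₀) = 0 := by
  have h3 : (3 : k) ≠ 0 := by norm_num
  have h3m : 3 * m ^ 2 ≠ 0 := mul_ne_zero h3 (pow_ne_zero 2 hm0)
  have key := line_rel B h₁ h₂ (C (3 * m ^ 2) * X : k[X]) (n₀ := n₀) (m := m) (t := t) ?_ ?_ ?_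
    ![x₁, x₂] ?_
  · rw [Fin.sum_univ_two] at key
    exact key
  · rw [eval_mul, eval_C, eval_X]
    exact mul_ne_zero h3m hn0
  · intro K _ _ _ n r v hr hn
    refine reg_of_root (n := 2) (c := 3 * m ^ 2 * n₀) (l := 3 * algebraMap k K m ^ 2 * n)
      ![n ^ 3 + algebraMap k K (a.eval u₂) * n + algebraMap k K (b.eval u₂) -
          algebraMap k K (t ^ 2) * algebraMap k K (b.eval u₁),
        3 * algebraMap k K m * n ^ 2 + algebraMap k K (a.eval u₂) * algebraMap k K m -
          algebraMap k K (t ^ 2) * algebraMap k K (a.eval u₁)] ?_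
      (((HasVal.ofNat v 3).mul ((HasVal.const v m).pow 2)).mul hn) (mul_ne_zero h3m hn0) ?_
    · intro i
      have e1 := HasVal.const v (a.eval u₂)
      have e2 := HasVal.const v (b.eval u₂)
      have e3 := HasVal.const v (t ^ 2)
      have e4 := HasVal.const v (b.eval u₁)
      have e5 := HasVal.const v (a.eval u₁)
      have e6 := HasVal.const v m
      fin_cases i
      · exact ((((hn.pow 3).add (e1.mul hn)).add e2).sub (e3.mul e4)).reg
      · exact (((((HasVal.ofNat v 3).mul e6).mul (hn.pow 2)).add (e1.mul e6)).sub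
          (e3.mul e5)).reg
    · unfold lineG at hr
      rw [Fin.sum_univ_two]
      simp only [Matrix.cons_val_zero, Matrix.cons_val_one, Fin.val_zero, Fin.val_one, pow_zero,
        pow_one]
      have h5 : algebraMap k K m ^ 3 = algebraMap k K (t ^ 2) := by rw [← map_pow, hm]
      linear_combination hr - r ^ 3 * h5
  · intro n hn
    have hl : 3 * algebraMap k (Om k) m ^ 2 * n ≠ 0 := by
      refine mul_ne_zero ?_ (not_const hn)
      have : (algebraMap k (Om k)) (3 * m ^ 2) ≠ 0 := (_root_.map_ne_zero _).2 h3m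
      rwa [map_mul, map_pow, map_ofNat] at this
    let p : (Om k)[X] := C (3 * algebraMap k (Om k) m ^ 2 * n) * X ^ 2 +
      C (3 * algebraMap k (Om k) m * n ^ 2 + algebraMap k (Om k) (a.eval u₂) *
        algebraMap k (Om k) m - algebraMap k (Om k) (t ^ 2) * algebraMap k (Om k) (a.eval u₁)) * X +
      C (n ^ 3 + algebraMap k (Om k) (a.eval u₂) * n + algebraMap k (Om k) (b.eval u₂) -
          algebraMap k (Om k) (t ^ 2) * algebraMap k (Om k) (b.eval u₁))
    obtain ⟨r, hr⟩ := exists_roots p (natDegree_quadratic hl)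
    refine ⟨r, fun x => ?_⟩
    rw [leadingCoeff_quadratic hl] at hr
    have h3 := congrArg (eval x) hr
    rw [eval_mul, eval_C, eval_prod] at h3
    simp only [eval_sub, eval_X, eval_C] at h3
    have h5 : algebraMap k (Om k) m ^ 3 = algebraMap k (Om k) (t ^ 2) := by rw [← map_pow, hm]
    rw [map_mul, aeval_C, aeval_X, map_mul, map_pow, map_ofNat, ← h3]
    simp only [p, eval_add, eval_mul, eval_C, eval_pow, eval_X]
    unfold lineG
    linear_combination x ^ 3 * h5
  · intro x
    rw [eval_mul, eval_C, eval_X, Fin.prod_univ_two]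
    unfold lineG
    simp only [Algebra.algebraMap_self, RingHom.id_apply, Matrix.cons_val_zero, Matrix.cons_val_one]
    linear_combination hx + (x - x₁) * hs + (x ^ 3 - x₁ ^ 3) * hm

end Pool.Agent.H833.EK
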