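import Pool.Agent.H833.EK.Curve

/-!
# The values of the pairing vanish at the general point
-/

set_option autoImplicit false
set_option linter.unusedSectionVars false

namespace Pool.Agent.H833.EK

open FF Polynomial

section conic

variable {k : Type} [Field k] [CharZero k] [IsAlgClosed k]

theorem conic_fin (k₁ k₂ s₀ : k) (hs : s₀ ≠ 0) : ∃ μ : k, ∀ (K : Type) [Field K] [Algebra k K]
    (v : Place k K) (m s : K), m ^ 2 - algebraMap k K k₂ ≠ 0 →
    s * (m ^ 2 - algebraMap k K k₂) = 2 * m + algebraMap k K k₁ → HasVal v m μ →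
    HasVal v s s₀ := by
  have h1 := sq_spec (1 + s₀ * (s₀ * k₂ + k₁))
  obtain ⟨μ, hμ⟩ : ∃ μ : k, s₀ * (μ ^ 2 - k₂) = 2 * μ + k₁ := by
    refine ⟨(1 + sq (1 + s₀ * (s₀ * k₂ + k₁))) / s₀, ?_⟩
    field_simp
    linear_combination h1
  by_cases h2 : μ ^ 2 - k₂ = 0
  · refine ⟨2 / s₀ - μ, ?_⟩
    intro K _ _ v m s hm hsm hv
    have e2 : k₂ = μ ^ 2 := by linear_combination -h2
    have e1 : k₁ = -2 * μ := by
      rw [h2, mul_zero] at hμ
      linear_combination -hμ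
    rw [e2, map_pow] at hm hsm
    rw [e1, map_mul, map_neg, map_ofNat] at hsm
    have h3 : m - algebraMap k K μ ≠ 0 := by
      intro h3
      apply hm
      rw [sub_eq_zero.1 h3]; ring
    have h4 : s * (m + algebraMap k K μ) = 2 := by
      apply mul_left_cancel₀ h3
      linear_combination hsm
    have h5 : HasVal v (m + algebraMap k K μ) (2 / s₀) := by
      have := hv.add (HasVal.const v μ)
      rwa [sub_add_cancel] at this
    have h6 : (2 : k) / s₀ ≠ 0 := div_ne_zero (by norm_num) hs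
    have h7 := (HasVal.ofNat v 2).div h5 h6
    refine h7.congr ?_ ?_
    · rw [div_eq_iff (h5.ne_zero h6)]
      exact h4.symm
    · field_simp
  · refine ⟨μ, ?_⟩
    intro K _ _ v m s hm hsm hv
    have h5 := (((HasVal.ofNat v 2).mul hv).add (HasVal.const v k₁)).div
      ((hv.pow 2).sub (HasVal.const v k₂)) h2
    refine h5.congr ?_ ?_
    · rw [div_eq_iff hm]
      exact hsm.symm
    · rw [div_eq_iff h2]
      exact hμ.symm

theorem conic_inf (k₁ k₂ : k) : ∃ μ : k, ∀ (K : Type) [Field K] [Algebra k K]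
    (v : Place k K) (m s : K), m ^ 2 - algebraMap k K k₂ ≠ 0 →
    s * (m ^ 2 - algebraMap k K k₂) = 2 * m + algebraMap k K k₁ → HasVal v m μ →
    ∀ c, ¬ HasVal v s c := by
  have h1 := sq_spec k₂
  obtain ⟨μ, hμ⟩ : ∃ μ : k, μ ^ 2 = k₂ := ⟨_, h1⟩
  by_cases h2 : 2 * μ + k₁ = 0
  · refine ⟨-μ, ?_⟩
    intro K _ _ v m s hm hsm hv c hc
    have e1 : k₁ = -2 * μ := by linear_combination h2
    rw [← hμ, map_pow] at hm hsm
    rw [e1, map_mul, map_neg, map_ofNat] at hsm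
    have h3 : m - algebraMap k K μ ≠ 0 := by
      intro h3
      apply hm
      rw [sub_eq_zero.1 h3]; ring
    have h4 : s * (m + algebraMap k K μ) = 2 := by
      apply mul_left_cancel₀ h3
      linear_combination hsm
    have h5 := hc.mul (hv.add (HasVal.const v μ))
    rw [h4] at h5
    have h6 := h5.unique (HasVal.ofNat v 2)
    rw [neg_add_cancel, mul_zero] at h6
    exact two_ne_zero h6.symm
  · refine ⟨μ, ?_⟩
    intro K _ _ v m s hm hsm hv c hc
    have h5 := hc.mul ((hv.pow 2).sub (HasVal.const v k₂))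
    rw [hsm] at h5
    have h6 := h5.unique (((HasVal.ofNat v 2).mul hv).add (HasVal.const v k₁))
    rw [hμ, sub_self, mul_zero] at h6
    exact h2 h6.symm

end conic

variable {k : Type} [Field k] [CharZero k] [IsAlgClosed k] {a b : k[X]} {V : Type}
  [AddCommGroup V] [Module ℚ V]

theorem quad_vals {K : Type} [Field K] [Algebra k K] [IsFF k K] {v : Place k K} {U₁ U₂ E₁ E₂ : K}
    {e₁ e₂ : k} (h₁ : U₁ + U₂ = E₁) (h₂ : U₁ * U₂ = E₂) (hE₁ : HasVal v E₁ e₁)
    (hE₂ : HasVal v E₂ e₂) : ∃ u₁ u₂, HasVal v U₁ u₁ ∧ HasVal v U₂ u₂ ∧ u₁ + u₂ = e₁ ∧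
      u₁ * u₂ = e₂ := by
  have key : ∀ U : K, U ^ 2 - E₁ * U + E₂ = 0 → v.Reg U := by
    intro U hU
    refine reg_of_root (n := 2) (l := (1 : K)) (c := 1) ![E₂, -E₁] ?_ (HasVal.one v) one_ne_zero ?_
    · intro j
      fin_cases j
      · exact hE₂.reg
      · exact hE₁.neg.reg
    · rw [Fin.sum_univ_two]
      simp only [Matrix.cons_val_zero, Matrix.cons_val_one, Fin.val_zero, Fin.val_one, pow_zero,
        pow_one]
      linear_combination hU
  obtain ⟨u₁, hu₁⟩ := exists_hasVal (key U₁ (by rw [← h₁, ← h₂]; ring))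
  obtain ⟨u₂, hu₂⟩ := exists_hasVal (key U₂ (by rw [← h₁, ← h₂]; ring))
  refine ⟨u₁, u₂, hu₁, hu₂, ?_, ?_⟩
  · have := hu₁.add hu₂
    rw [h₁] at this
    exact this.unique hE₁
  · have := hu₁.mul hu₂
    rw [h₂] at this
    exact this.unique hE₂

theorem exists_split (M : Multiset k) (h : M.card ≤ 24) :
    ∃ M₁ M₂ : Multiset k, M = M₁ + M₂ ∧ M₁.card ≤ 12 ∧ M₂.card ≤ 12 := by
  obtain ⟨l, rfl⟩ := Quotient.exists_rep M
  refine ⟨(l.take 12 : List k), (l.drop 12 : List k), ?_, ?_, ?_⟩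
  · rw [Multiset.coe_add, List.take_append_drop]; rfl
  · rw [Multiset.coe_card, List.length_take]; omega
  · have : l.length ≤ 24 := h
    rw [Multiset.coe_card, List.length_drop]; omega

theorem exists_const_of_isAlgebraic {K : Type} [Field K] [Algebra k K] {s : K}
    (h : IsAlgebraic k s) : ∃ c : k, algebraMap k K c = s := by
  have h1 : (minpoly k s).degree = 1 :=
    IsAlgClosed.degree_eq_one_of_irreducible k (minpoly.irreducible h.isIntegral)
  exact minpoly.mem_range_of_degree_eq_one k s h1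

/-- **Vanishing.** -/
theorem Wt_zero (B : Pairing k a b V) (ha : a.natDegree ≤ 8) (hb : b.natDegree ≤ 12) {r : k}
    (hr : (disc a b).eval r = 0) {u₁ u₂ ν ν' x η : k} (h : Good a b u₁ u₂ ν x η)
    (h' : Good a b u₁ u₂ ν' x η)
    (hν : (disc a b).eval u₁ * (ν * ν') ^ 6 = (disc a b).eval u₂) (hη : η ≠ 0)
    (hΔ : (54 * (b.eval u₁ * b.eval u₂) - ((disc a b).eval u₁ * ν ^ 6 +
      (disc a b).eval u₂ / ν ^ 6)) ^ 2 ≠ 64 * (a.eval u₁ * a.eval u₂) ^ 3) :
    Wt B u₁ u₂ ν x η = 0 := by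
  classical
  have h0 := h.ν0
  have h0' := h'.ν0
  have heq := (eqJ_iff (A₁ := a.eval u₁) (A₂ := a.eval u₂) (B₁ := b.eval u₁) (B₂ := b.eval u₂)
    (x := x) (η := η) h0).1 h.eq
  rw [← disc_eval, ← disc_eval] at heq
  have hD₁0 := h.d₁
  have hD₂0 := h.d₂
  obtain ⟨D, hD⟩ : ∃ D, D = disc a b := ⟨_, rfl⟩
  have hDdeg : D.natDegree ≤ 24 := by
    rw [hD]
    unfold disc
    refine (natDegree_add_le _ _).trans (max_le ?_ ?_)
    · have : (4 : k[X]) = C 4 := rfl
      rw [this]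
      refine (natDegree_C_mul_le _ _).trans (natDegree_pow_le.trans ?_)
      omega
    · have : (27 : k[X]) = C 27 := rfl
      rw [this]
      refine (natDegree_C_mul_le _ _).trans (natDegree_pow_le.trans ?_)
      omega
  obtain ⟨M₁, M₂, hM, hM₁, hM₂⟩ := exists_split D.roots ((card_roots' D).trans hDdeg)
  have hnmD : ∀ {R : Type} [CommRing R] [Algebra k R] (p q : R), nm D p q =
      algebraMap k R (D.leadingCoeff ^ 2) * (LM M₁ p q * LM M₂ p q) := by
    intro R _ _ p q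
    unfold nm
    rw [hM, LM_add]
  rw [← hD] at hD₁0 hD₂0 heq hν hr hΔ
  have hbase : D.leadingCoeff ^ 2 * (LM M₁ (u₁ + u₂) (u₁ * u₂) * LM M₂ (u₁ + u₂) (u₁ * u₂)) =
      D.eval u₁ * D.eval u₂ := by
    have h1 := hnmD (u₁ + u₂) (u₁ * u₂)
    rw [nm_eq] at h1
    simp only [coe_aeval_eq_eval, Algebra.algebraMap_self, RingHom.id_apply] at h1
    exact h1.symm
  obtain ⟨L₁, hL₁⟩ : ∃ L, L = LM M₁ (u₁ + u₂) (u₁ * u₂) := ⟨_, rfl⟩
  obtain ⟨L₂, hL₂⟩ : ∃ L, L = LM M₂ (u₁ + u₂) (u₁ * u₂) := ⟨_, rfl⟩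
  rw [← hL₁, ← hL₂] at hbase
  have hprod : D.eval u₁ * D.eval u₂ ≠ 0 := mul_ne_zero hD₁0 hD₂0
  have hL₁0 : L₁ ≠ 0 := by
    rintro rfl
    rw [zero_mul, mul_zero] at hbase
    exact hprod hbase.symm
  have hL₂0 : L₂ ≠ 0 := by
    rintro rfl
    rw [mul_zero, mul_zero] at hbase
    exact hprod hbase.symm
  obtain ⟨τ₁, hτ₁⟩ : ∃ τ, τ = D.eval u₁ * ν ^ 6 / L₁ := ⟨_, rfl⟩
  obtain ⟨τ₂, hτ₂⟩ : ∃ τ, τ = D.eval u₂ / ν ^ 6 / L₂ := ⟨_, rfl⟩
  have hτL₁ : τ₁ * L₁ = D.eval u₁ * ν ^ 6 := by rw [hτ₁]; field_simp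
  have hτL₂ : τ₂ * L₂ = D.eval u₂ / ν ^ 6 := by rw [hτ₂]; field_simp
  have hτ₁0 : τ₁ ≠ 0 := by
    rw [hτ₁]
    exact div_ne_zero (mul_ne_zero hD₁0 (pow_ne_zero 6 h0)) hL₁0
  have hττ : τ₁ * τ₂ = D.leadingCoeff ^ 2 := by
    apply mul_right_cancel₀ (mul_ne_zero hL₁0 hL₂0)
    rw [hbase]
    calc τ₁ * τ₂ * (L₁ * L₂) = (τ₁ * L₁) * (τ₂ * L₂) := by ring
      _ = _ := by rw [hτL₁, hτL₂]; field_simp
  have hnmA : nm a (u₁ + u₂) (u₁ * u₂) = a.eval u₁ * a.eval u₂ := by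
    rw [nm_eq]; simp only [coe_aeval_eq_eval]
  have hnmB : nm b (u₁ + u₂) (u₁ * u₂) = b.eval u₁ * b.eval u₂ := by
    rw [nm_eq]; simp only [coe_aeval_eq_eval]
  have heq' : η ^ 2 = FF4 a b M₁ M₂ τ₁ τ₂ (u₁ + u₂) (u₁ * u₂) x := by
    unfold FF4
    rw [hnmA, hnmB, ← hL₁, ← hL₂]
    simp only [Algebra.algebraMap_self, RingHom.id_apply]
    rw [hτL₁, hτL₂]
    exact heq
  obtain ⟨c₁, c₂, k₁, k₂, x', g, hc, hx', hg, hcurve⟩ := exists_rat_curve a b ha hb M₁ M₂ hM₁ hM₂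
    τ₁ τ₂ (u₁ + u₂) (u₁ * u₂) x η heq' hη (by
      rw [hnmA, hnmB, ← hL₁, ← hL₂, hτL₁, hτL₂]; exact hΔ)
  -- the equation at an arbitrary element
  have hcurve' : ∀ {R : Type} [CommRing R] [Algebra k R] (s : R),
      (1 + algebraMap k R k₁ * s + algebraMap k R k₂ * s ^ 2) * (aeval s g) ^ 2 =
      FF4 a b M₁ M₂ τ₁ τ₂ (algebraMap k R (u₁ + u₂) + algebraMap k R c₁ * s)
        (algebraMap k R (u₁ * u₂) + algebraMap k R c₂ * s) (aeval s x') := by
    intro R _ _ s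
    have h1 := congrArg (aeval s) hcurve
    rw [FF4_map] at h1
    simpa using h1
  -- the functions
  obtain ⟨m, hmt⟩ : ∃ m : Om k, Transcendental k m := ⟨_, transcendental_X'⟩
  obtain ⟨al, hal⟩ : ∃ al : k →+* Om k, al = algebraMap k (Om k) := ⟨_, rfl⟩
  have halg : ∀ c : k, IsAlgebraic k (al c) := fun c => by rw [hal]; exact isAlg_const c
  have hm2 : m ^ 2 - al k₂ ≠ 0 := by
    intro h1
    apply hmt
    have h2 : IsAlgebraic k (m ^ 2) := by
      rw [sub_eq_zero.1 h1]; exact halg _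
    exact h2.of_pow (by norm_num)
  obtain ⟨s, hs⟩ : ∃ s : Om k, s * (m ^ 2 - al k₂) = 2 * m + al k₁ :=
    ⟨(2 * m + al k₁) / (m ^ 2 - al k₂), div_mul_cancel₀ _ hm2⟩
  have hst : Transcendental k s := by
    intro h1
    obtain ⟨c, hc⟩ := exists_const_of_isAlgebraic h1
    rw [← hal] at hc
    rw [← hc] at hs
    apply hmt
    refine ⟨C c * X ^ 2 - C 2 * X - C (c * k₂ + k₁), ?_, ?_⟩
    · intro h2
      have h3 := congrArg (fun p => coeff p 1) h2
      simp at h3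
    · simp only [map_sub, map_mul, aeval_C, map_pow, aeval_X, map_add, ← hal, map_ofNat]
      linear_combination hs
  have hpoly : ∀ p : k[X], p.eval 0 ≠ 0 → aeval s p ≠ 0 := by
    intro p hp h1
    apply hst
    refine ⟨p, ?_, h1⟩
    rintro rfl
    simp at hp
  obtain ⟨E₁, hE₁⟩ : ∃ E : Om k, E = al (u₁ + u₂) + al c₁ * s := ⟨_, rfl⟩
  obtain ⟨E₂, hE₂⟩ : ∃ E : Om k, E = al (u₁ * u₂) + al c₂ * s := ⟨_, rfl⟩
  have hLMs : ∀ M : Multiset k, LM M (u₁ + u₂) (u₁ * u₂) ≠ 0 → LM M E₁ E₂ ≠ 0 := by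
    intro M hM0
    have h1 := hpoly (LM M (C (u₁ + u₂) + C c₁ * X) (C (u₁ * u₂) + C c₂ * X)) (by
      have h2 : (LM M (C (u₁ + u₂) + C c₁ * X) (C (u₁ * u₂) + C c₂ * X) : k[X]).eval 0 =
          LM M (u₁ + u₂) (u₁ * u₂) := by
        have h3 := LM_map (aeval (0 : k)) M (C (u₁ + u₂) + C c₁ * X) (C (u₁ * u₂) + C c₂ * X)
        simpa [coe_aeval_eq_eval] using h3
      rw [h2]; exact hM0)
    have h2 : aeval s (LM M (C (u₁ + u₂) + C c₁ * X) (C (u₁ * u₂) + C c₂ * X)) = LM M E₁ E₂ := by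
      rw [LM_map, hE₁, hE₂]
      simp only [map_add, map_mul, aeval_C, aeval_X, hal]
    rw [← h2]; exact h1
  have hLs₁ : LM M₁ E₁ E₂ ≠ 0 := hLMs M₁ (by rw [← hL₁]; exact hL₁0)
  have hLs₂ : LM M₂ E₁ E₂ ≠ 0 := hLMs M₂ (by rw [← hL₂]; exact hL₂0)
  obtain ⟨δ, hδ⟩ := IsAlgClosed.exists_pow_nat_eq (E₁ ^ 2 - 4 * E₂) (n := 2) (by norm_num)
  obtain ⟨U₁, hU₁⟩ : ∃ U : Om k, U = (E₁ + δ) / 2 := ⟨_, rfl⟩
  obtain ⟨U₂, hU₂⟩ : ∃ U : Om k, U = (E₁ - δ) / 2 := ⟨_, rfl⟩
  have hsum : U₁ + U₂ = E₁ := by rw [hU₁, hU₂]; ring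
  have hmul : U₁ * U₂ = E₂ := by
    rw [hU₁, hU₂]
    linear_combination -hδ / 4
  have hDD : aeval U₁ D * aeval U₂ D = al D.leadingCoeff ^ 2 * (LM M₁ E₁ E₂ * LM M₂ E₁ E₂) := by
    rw [← nm_eq, hsum, hmul, hnmD, ← map_pow, hal]
  have hlc : D.leadingCoeff ≠ 0 := by
    intro h1
    rw [h1] at hbase
    apply hprod
    rw [← hbase]; ring
  have hlc' : al D.leadingCoeff ≠ 0 := (_root_.map_ne_zero _).2 hlc
  have hDU : aeval U₁ D * aeval U₂ D ≠ 0 := by
    rw [hDD]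
    exact mul_ne_zero (pow_ne_zero 2 hlc') (mul_ne_zero hLs₁ hLs₂)
  have hDU₁ := left_ne_zero_of_mul hDU
  have hτ₁' : al τ₁ ≠ 0 := (_root_.map_ne_zero _).2 hτ₁0
  obtain ⟨N, hN⟩ := IsAlgClosed.exists_pow_nat_eq (al τ₁ * LM M₁ E₁ E₂ / aeval U₁ D) (n := 6)
    (by norm_num)
  have hN0 : N ≠ 0 := by
    rintro rfl
    rw [zero_pow (by norm_num)] at hN
    exact div_ne_zero (mul_ne_zero hτ₁' hLs₁) hDU₁ hN.symm
  have hDN : aeval U₁ D * N ^ 6 = al τ₁ * LM M₁ E₁ E₂ := by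
    rw [hN]; field_simp
  have hDN2 : aeval U₂ D / N ^ 6 = al τ₂ * LM M₂ E₁ E₂ := by
    have e1 : al τ₁ * al τ₂ = al D.leadingCoeff ^ 2 := by rw [← map_mul, hττ, map_pow]
    rw [div_eq_iff (pow_ne_zero 6 hN0)]
    apply mul_left_cancel₀ hDU₁
    rw [hDD, ← e1]
    linear_combination -(al τ₂ * LM M₂ E₁ E₂) * hDN
  obtain ⟨Y, hY⟩ : ∃ Y : Om k, Y = (m * s - 1) * aeval s g := ⟨_, rfl⟩
  have hEq : EqJ (αL₁ a U₁ N) (αL₂ a U₂ N) (βL b U₁ U₂ N) (aeval s x') Y := by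
    unfold αL₁ αL₂ βL
    rw [eqJ_iff hN0, ← disc_aeval, ← disc_aeval, ← hD, hDN, hDN2, ← nm_eq a, ← nm_eq b, hsum, hmul]
    have h1 := hcurve' s
    rw [← hal, ← hE₁, ← hE₂] at h1
    unfold FF4 at h1
    rw [← hal] at h1
    rw [← h1, hY]
    have h2 : (m * s - 1) ^ 2 = 1 + al k₁ * s + al k₂ * s ^ 2 := by
      linear_combination s * hs
    rw [mul_pow, h2]
  obtain ⟨y, hy⟩ := IsAlgClosed.exists_pow_nat_eq
    ((pp₁ (αL₁ a U₁ N) (αL₂ a U₂ N) (βL b U₁ U₂ N) (aeval s x') Y / N) ^ 3 +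
    aeval U₁ a * (pp₁ (αL₁ a U₁ N) (αL₂ a U₂ N) (βL b U₁ U₂ N) (aeval s x') Y / N) +
      aeval U₁ b) (n := 2) (by norm_num)
  have F1 : PreFam a b U₁ U₂ N (aeval s x') Y y := ⟨hN0, hEq, hy⟩
  obtain ⟨K, _, _, _, i, hi⟩ := exists_FF ({m, s, U₁, U₂, N, y} : Finset (Om k))
  obtain ⟨m', hm'⟩ := hi m (by simp)
  obtain ⟨s', hs'⟩ := hi s (by simp)
  obtain ⟨U₁', hU₁'⟩ := hi U₁ (by simp)
  obtain ⟨U₂', hU₂'⟩ := hi U₂ (by simp)
  obtain ⟨N', hN'⟩ := hi N (by simp)
  obtain ⟨y', hy'⟩ := hi y (by simp)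
  have hi' : ∀ z : k, i (algebraMap k K z) = al z := fun z => by rw [hal]; exact i.commutes z
  have hinj : ∀ {p q : K}, i p = i q → p = q := fun {p q} h => i.toRingHom.injective h
  have hm't : Transcendental k m' := transcendental_of_map i (by rw [hm']; exact hmt)
  have hm2' : m' ^ 2 - algebraMap k K k₂ ≠ 0 := by
    intro h1
    apply hm2
    rw [← hm', ← hi', ← map_pow, ← map_sub, h1, map_zero]
  have hs'' : s' * (m' ^ 2 - algebraMap k K k₂) = 2 * m' + algebraMap k K k₁ := by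
    apply hinj
    simp only [map_mul, map_sub, map_pow, map_add, hi', hm', hs', map_ofNat]
    exact hs
  have hsum' : U₁' + U₂' = algebraMap k K (u₁ + u₂) + algebraMap k K c₁ * s' := by
    apply hinj
    rw [map_add, hU₁', hU₂', hsum, hE₁]
    simp only [map_add, map_mul, hi', hs']
  have hmul' : U₁' * U₂' = algebraMap k K (u₁ * u₂) + algebraMap k K c₂ * s' := by
    apply hinj
    rw [map_mul, hU₁', hU₂', hmul, hE₂]
    simp only [map_add, map_mul, hi', hs']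
  have hDN' : aeval U₁' D * N' ^ 6 = algebraMap k K τ₁ *
      LM M₁ (algebraMap k K (u₁ + u₂) + algebraMap k K c₁ * s')
        (algebraMap k K (u₁ * u₂) + algebraMap k K c₂ * s') := by
    apply hinj
    rw [map_mul, map_mul, map_pow, LM_map, ← aeval_algHom_apply, hU₁', hN', hDN, hi', hE₁, hE₂]
    simp only [map_add, map_mul, hi', hs']
  have G1 : PreFam a b U₁' U₂' N' (aeval s' x') ((m' * s' - 1) * aeval s' g) y' := by
    apply PreFam.of_map i
    rw [map_mul, map_sub, map_mul, map_one, ← aeval_algHom_apply, ← aeval_algHom_apply, hU₁',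
      hU₂', hN', hy', hs', hm', ← hY]
    exact F1
  clear hi F1 hy hEq hDN2 hDN hN0 hN hDU₁ hDU hDD hmul hsum hδ hLs₁ hLs₂ hLMs hpoly hst
  -- the poles of `m`: the given point
  have hbasept : ∀ v : Place k K, v.ord m' < 0 → ∃ v₁ v₂ μ : k,
      ValAt v U₁' U₂' N' (aeval s' x') ((m' * s' - 1) * aeval s' g) v₁ v₂ μ x η ∧
      Good a b v₁ v₂ μ x η ∧ Wt B v₁ v₂ μ x η = Wt B u₁ u₂ ν x η := by
    intro v hv
    have hm0 : m' ≠ 0 := by
      rintro rfl
      rw [v.ord_zero] at hv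
      exact lt_irrefl _ hv
    have hn : HasVal v m'⁻¹ 0 := hasVal_zero_of_pos (by rw [v.ord_inv]; omega)
    have hden : HasVal v (1 - algebraMap k K k₂ * m'⁻¹ ^ 2) 1 := by
      have := (HasVal.one v).sub ((HasVal.const v k₂).mul (hn.pow 2))
      refine this.congr rfl ?_
      ring
    have hden0 := hden.ne_zero one_ne_zero
    have hms : HasVal v (m' * s') 2 := by
      have h1 := (((HasVal.ofNat v 2).add ((HasVal.const v k₁).mul hn)).div hden one_ne_zero)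
      refine h1.congr ?_ (by ring)
      rw [div_eq_iff hden0]
      field_simp
      linear_combination -hs''
    have hsv : HasVal v s' 0 := by
      have h1 := hms.mul hn
      refine h1.congr ?_ (by ring)
      field_simp
    have hE₁v : HasVal v (algebraMap k K (u₁ + u₂) + algebraMap k K c₁ * s') (u₁ + u₂) := by
      have h1 := (HasVal.const v (u₁ + u₂)).add ((HasVal.const v c₁).mul hsv)
      exact h1.congr rfl (by ring)
    have hE₂v : HasVal v (algebraMap k K (u₁ * u₂) + algebraMap k K c₂ * s') (u₁ * u₂) := by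
      have h1 := (HasVal.const v (u₁ * u₂)).add ((HasVal.const v c₂).mul hsv)
      exact h1.congr rfl (by ring)
    obtain ⟨v₁, v₂, hv₁, hv₂, hvs, hvm⟩ := quad_vals hsum' hmul' hE₁v hE₂v
    have hX : HasVal v (aeval s' x') x := by
      have := hsv.aeval x'
      rwa [hx'] at this
    have hYv : HasVal v ((m' * s' - 1) * aeval s' g) η := by
      have := (hms.sub (HasVal.one v)).mul (hsv.aeval g)
      rw [hg] at this
      exact this.congr rfl (by ring)
    have hLMv : HasVal v (LM M₁ (algebraMap k K (u₁ + u₂) + algebraMap k K c₁ * s')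
        (algebraMap k K (u₁ * u₂) + algebraMap k K c₂ * s')) L₁ := by
      rw [hL₁]
      unfold LM
      refine HasVal.multisetProd M₁ _ _ fun α _ => ?_
      unfold fac
      exact (((HasVal.const v α).pow 2).sub ((HasVal.const v α).mul hE₁v)).add hE₂v
    have hcase : (v₁ = u₁ ∧ v₂ = u₂) ∨ (v₁ = u₂ ∧ v₂ = u₁) := by
      have h1 : (v₁ - u₁) * (v₁ - u₂) = 0 := by linear_combination v₁ * hvs - hvm
      rcases mul_eq_zero.1 h1 with h2 | h2
      · left
        have h3 := sub_eq_zero.1 h2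
        refine ⟨h3, ?_⟩
        rw [h3] at hvs
        exact add_left_cancel hvs
      · right
        have h3 := sub_eq_zero.1 h2
        refine ⟨h3, ?_⟩
        rw [h3, add_comm u₁ u₂] at hvs
        exact add_left_cancel hvs
    have hNv : D.eval v₁ ≠ 0 → ∃ μ, HasVal v N' μ ∧ D.eval v₁ * μ ^ 6 = D.eval u₁ * ν ^ 6 := by
      intro hDv
      have h1 : HasVal v (N' ^ 6) (D.eval u₁ * ν ^ 6 / D.eval v₁) := by
        have h2 := ((HasVal.const v τ₁).mul hLMv).div (hv₁.aeval D) hDv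
        refine h2.congr ?_ (by rw [hτL₁])
        rw [div_eq_iff ((hv₁.aeval D).ne_zero hDv), ← hDN']
        ring
      obtain ⟨μ, hμ, hμ2⟩ := h1.of_pow (by norm_num)
      refine ⟨μ, hμ, ?_⟩
      rw [hμ2]
      field_simp
    rcases hcase with ⟨rfl, rfl⟩ | ⟨rfl, rfl⟩
    · obtain ⟨μ, hμ, hμ2⟩ := hNv hD₁0
      have hμ6 : μ ^ 6 = ν ^ 6 := mul_left_cancel₀ hD₁0 hμ2
      exact ⟨v₁, v₂, μ, ⟨hv₁, hv₂, hμ, hX, hYv⟩, h.six hμ6, Wt_six B h hμ6⟩
    · obtain ⟨μ, hμ, hμ2⟩ := hNv hD₂0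
      obtain ⟨hsw, hgsw⟩ := Wt_swap B h'
      have hμ6 : μ ^ 6 = ν'⁻¹ ^ 6 := by
        apply mul_left_cancel₀ hD₂0
        rw [hμ2, ← hν]
        field_simp
      refine ⟨v₁, v₂, μ, ⟨hv₁, hv₂, hμ, hX, hYv⟩, hgsw.six hμ6, ?_⟩
      rw [Wt_six B hgsw hμ6, hsw]
      have heps := Wt_eps B h h' (by rw [← hD]; exact hν)
      exact (eq_neg_of_add_eq_zero_left heps).symm
  -- a point over a root of the discriminant
  obtain ⟨μ₀, hμ₀⟩ : ∃ μ₀ : k, ∀ v : Place k K, HasVal v m' μ₀ →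
      (Adm a b v (PL a b U₁' U₂' N' (aeval s' x') ((m' * s' - 1) * aeval s' g) y')
        (QL a b U₁' U₂' N' (aeval s' x') ((m' * s' - 1) * aeval s' g) y')) ∧
      wv a b B.W v (PL a b U₁' U₂' N' (aeval s' x') ((m' * s' - 1) * aeval s' g) y')
        (QL a b U₁' U₂' N' (aeval s' x') ((m' * s' - 1) * aeval s' g) y') = 0 := by
    rw [hD] at hr
    by_cases hcr : c₂ - c₁ * r = 0
    · -- the parameter `s` goes to infinity
      have hc₁ : c₁ ≠ 0 := by
        rcases hc with h1 | h1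
        · exact h1
        · rintro rfl
          apply h1
          linear_combination hcr
      obtain ⟨μ, hμ⟩ := conic_inf k₁ k₂
      refine ⟨μ, fun v hv => ?_⟩
      have hsinf := hμ K v m' s' hm2' hs'' hv
      have hq0 : (r - u₁) * (r - u₂) ≠ 0 := by
        refine mul_ne_zero (fun h1 => ?_) (fun h1 => ?_)
        · apply hD₁0
          rw [← sub_eq_zero.1 h1, hD]; exact hr
        · apply hD₂0
          rw [← sub_eq_zero.1 h1, hD]; exact hr
      have hprod' : (U₁' - algebraMap k K r) * (U₂' - algebraMap k K r) =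
          algebraMap k K ((r - u₁) * (r - u₂)) := by
        have e1 : algebraMap k K c₂ - algebraMap k K c₁ * algebraMap k K r = 0 := by
          rw [← map_mul, ← map_sub, hcr, map_zero]
        simp only [map_mul, map_sub, map_add] at hsum' hmul' ⊢
        linear_combination hmul' - algebraMap k K r * hsum' + s' * e1
      -- if one of the two functions is not regular the other one has the value `r`
      have hone : ∀ P Q : K, (P - algebraMap k K r) * (Q - algebraMap k K r) =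
          algebraMap k K ((r - u₁) * (r - u₂)) → ¬ v.Reg P → HasVal v Q r := by
        intro P Q hPQ hP
        have h1 : ¬ v.Reg (P - algebraMap k K r) := by
          intro h1
          apply hP
          have := v.reg_add h1 (v.reg_const r)
          rwa [sub_add_cancel] at this
        obtain ⟨h2, h3⟩ := not_reg_iff.1 h1
        have h4 : HasVal v (P - algebraMap k K r)⁻¹ 0 :=
          hasVal_zero_of_pos (by rw [v.ord_inv]; omega)
        have h5 := ((HasVal.const v ((r - u₁) * (r - u₂))).mul h4).add (HasVal.const v r)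
        refine h5.congr ?_ (by ring)
        rw [← hPQ]
        field_simp
        ring
      have hnot : ¬ v.Reg U₁' ∨ ¬ v.Reg U₂' := by
        by_contra hcon
        push Not at hcon
        obtain ⟨d₁, hd₁⟩ := exists_hasVal hcon.1
        obtain ⟨d₂, hd₂⟩ := exists_hasVal hcon.2
        have h1 := ((hd₁.add hd₂).sub (HasVal.const v (u₁ + u₂))).div (HasVal.const v c₁) hc₁
        apply hsinf _ (h1.congr ?_ rfl)
        have h2 : algebraMap k K c₁ ≠ 0 := (_root_.map_ne_zero _).2 hc₁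
        rw [hsum']
        field_simp
        ring
      rcases hnot with h1 | h1
      · have h2 := hone U₁' U₂' hprod' h1
        exact ⟨Or.inr (Or.inr ⟨r, h2, hr⟩), wv_zero_of_not fun p q hp _ _ _ => h1 hp.1.reg⟩
      · have h2 := hone U₂' U₁' (by rw [mul_comm]; exact hprod') h1
        exact ⟨Or.inr (Or.inl ⟨r, h2, hr⟩), wv_zero_of_not fun p q _ hq _ _ => h1 hq.1.reg⟩
    · -- a finite value of `s`
      have hq0 : (r - u₁) * (r - u₂) ≠ 0 := by
        refine mul_ne_zero (fun h1 => ?_) (fun h1 => ?_)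
        · apply hD₁0
          rw [← sub_eq_zero.1 h1, hD]; exact hr
        · apply hD₂0
          rw [← sub_eq_zero.1 h1, hD]; exact hr
      obtain ⟨s₀, hs₀⟩ : ∃ s₀ : k, s₀ * (c₂ - c₁ * r) = -((r - u₁) * (r - u₂)) :=
        ⟨-((r - u₁) * (r - u₂)) / (c₂ - c₁ * r), div_mul_cancel₀ _ hcr⟩
      have hs₀0 : s₀ ≠ 0 := by
        rintro rfl
        rw [zero_mul] at hs₀
        exact hq0 (neg_eq_zero.1 hs₀.symm)
      obtain ⟨μ, hμ⟩ := conic_fin k₁ k₂ s₀ hs₀0
      refine ⟨μ, fun v hv => ?_⟩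
      have hsv := hμ K v m' s' hm2' hs'' hv
      have hE₁v := (HasVal.const v (u₁ + u₂)).add ((HasVal.const v c₁).mul hsv)
      have hE₂v := (HasVal.const v (u₁ * u₂)).add ((HasVal.const v c₂).mul hsv)
      obtain ⟨v₁, v₂, hv₁, hv₂, hvs, hvm⟩ := quad_vals hsum' hmul' hE₁v hE₂v
      refine ⟨Or.inl ⟨v₁, v₂, hv₁, hv₂⟩, wv_zero_of_not fun p q hp hq hp0 hq0' => ?_⟩
      have e1 : p.1 = v₁ := hp.1.unique hv₁
      have e2 : q.1 = v₂ := hq.1.unique hv₂
      have h1 : (r - v₁) * (r - v₂) = 0 := by linear_combination -r * hvs + hvm + hs₀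
      rcases mul_eq_zero.1 h1 with h2 | h2
      · apply hp0
        rw [e1, ← sub_eq_zero.1 h2]; exact hr
      · apply hq0'
        rw [e2, ← sub_eq_zero.1 h2]; exact hr
  -- conclusion
  have hft : Transcendental k (m' - algebraMap k K μ₀) := by
    intro h1
    apply hm't
    have := h1.add (isAlg_const (K := K) μ₀)
    rwa [sub_add_cancel] at this
  have hpole : ∀ v : Place k K, v.ord (m' - algebraMap k K μ₀) < 0 → v.ord m' < 0 := by
    intro v hv
    by_contra hcon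
    have h1 : v.Reg m' := Or.inr (not_lt.1 hcon)
    have h2 : v.Reg (m' - algebraMap k K μ₀) := by
      obtain ⟨c, hc⟩ := exists_hasVal h1
      exact (hc.sub (HasVal.const v μ₀)).reg
    rcases h2 with h2 | h2
    · rw [h2, v.ord_zero] at hv
      exact lt_irrefl _ hv
    · omega
  have hzero : ∀ v : Place k K, 0 < v.ord (m' - algebraMap k K μ₀) → HasVal v m' μ₀ := by
    intro v hv
    have h4 := (hasVal_zero_of_pos hv).add (HasVal.const v μ₀)
    rwa [sub_add_cancel, zero_add] at h4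
  have hfam0 : IsFam a b U₁' U₂' N' (aeval s' x') ((m' * s' - 1) * aeval s' g) y' := by
    have hinvt : Transcendental k m'⁻¹ := by
      intro h1
      apply hm't
      have := h1.inv
      rwa [inv_inv] at this
    obtain ⟨v, hv⟩ := exists_zero hinvt
    rw [v.ord_inv] at hv
    obtain ⟨v₁, v₂, μ, h1, h2, -⟩ := hbasept v (by omega)
    exact G1.isFam h1 h2
  have hfin := B.family (ι := Unit)
    (P := fun _ => PL a b U₁' U₂' N' (aeval s' x') ((m' * s' - 1) * aeval s' g) y')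
    (Q := fun _ => QL a b U₁' U₂' N' (aeval s' x') ((m' * s' - 1) * aeval s' g) y')
    (fun _ => hfam0.onP) (fun _ => hfam0.onQ) hft 0 (Wt B u₁ u₂ ν x η)
    (fun v hv => ⟨fun _ => (hμ₀ v (hzero v hv)).1, by
      rw [Fintype.sum_unique]; exact (hμ₀ v (hzero v hv)).2⟩)
    (fun v hv => by
      obtain ⟨v₁, v₂, μ, h1, h2, h3⟩ := hbasept v (hpole v hv)
      refine ⟨fun _ => Or.inl ⟨v₁, v₂, h1.h₁, h1.h₂⟩, ?_⟩
      rw [Fintype.sum_unique, wv_fam B hfam0 h1 h2]
      exact h3)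
  exact hfin.symm

end Pool.Agent.H833.EK
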