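import Pool.Agent.H833.EK.FibrMain
import Pool.Agent.H833.EK.DefC
import Pool.Agent.H833.EK.DefD

/-!
# Exterior products of zero-cycles
-/

set_option autoImplicit false
set_option linter.unusedSectionVars false

namespace Pool.Agent.H833.EK

open FF Polynomial

section

variable {S V : Type} {n : ℕ} [AddCommGroup V] [Module ℚ V]

theorem ext_apply (a : Fin n → (S →₀ ℚ)) (x : Fin n → S) : ext a x = ∏ i, a i (x i) := by
  classical
  unfold ext
  rw [Finsupp.finsetSum_apply]
  by_cases hx : x ∈ Fintype.piFinset fun i => (a i).support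
  · rw [Finset.sum_eq_single_of_mem x hx]
    · rw [Finsupp.single_eq_same]
    · intro y _ hy
      rw [Finsupp.single_apply, if_neg hy]
  · rw [Finset.sum_eq_zero]
    · rw [Fintype.mem_piFinset] at hx
      push Not at hx
      obtain ⟨i, hi⟩ := hx
      symm
      refine Finset.prod_eq_zero (Finset.mem_univ i) ?_
      exact Finsupp.notMem_support_iff.1 hi
    · intro y hy
      rw [Finsupp.single_apply, if_neg]
      rintro rfl
      exact hx hy

theorem ext_single (x : Fin n → S) (m : Fin n → ℚ) :
    ext (fun i => Finsupp.single (x i) (m i)) = Finsupp.single x (∏ i, m i) := by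
  classical
  ext y
  rw [ext_apply, Finsupp.single_apply]
  by_cases h : x = y
  · subst h
    simp
  · rw [if_neg h]
    obtain ⟨i, hi⟩ := Function.ne_iff.1 h
    exact Finset.prod_eq_zero (Finset.mem_univ i) (by rw [Finsupp.single_apply, if_neg hi])

/-- The exterior product as a multilinear map. -/
noncomputable def extM (S : Type) (n : ℕ) :
    MultilinearMap ℚ (fun _ : Fin n => S →₀ ℚ) ((Fin n → S) →₀ ℚ) where
  toFun := ext
  map_update_add' := by
    intro _ m i p q
    ext x
    have h : ∀ r : S →₀ ℚ, (fun j => Function.update m i r j (x j)) =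
        Function.update (fun j => m j (x j)) i (r (x i)) := by
      intro r
      funext j
      by_cases hj : j = i
      · subst hj; simp
      · simp [Function.update_of_ne hj]
    rw [Finsupp.add_apply, ext_apply, ext_apply, ext_apply, h, h, h,
      Finset.prod_update_of_mem (Finset.mem_univ i), Finset.prod_update_of_mem (Finset.mem_univ i),
      Finset.prod_update_of_mem (Finset.mem_univ i), Finsupp.add_apply, add_mul]
  map_update_smul' := by
    intro _ m i c p
    ext x
    have h : ∀ r : S →₀ ℚ, (fun j => Function.update m i r j (x j)) =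
        Function.update (fun j => m j (x j)) i (r (x i)) := by
      intro r
      funext j
      by_cases hj : j = i
      · subst hj; simp
      · simp [Function.update_of_ne hj]
    rw [Finsupp.smul_apply, ext_apply, ext_apply, h, h,
      Finset.prod_update_of_mem (Finset.mem_univ i), Finset.prod_update_of_mem (Finset.mem_univ i),
      Finsupp.smul_apply, smul_eq_mul, smul_eq_mul, mul_assoc]

@[simp] theorem extM_apply (a : Fin n → (S →₀ ℚ)) : extM S n a = ext a := rfl

open Classical in
/-- An expression which is symmetric in two slots takes the same values on products whose factors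
in these slots have degree zero. -/
theorem swap_eq (L : ((Fin n → S) →₀ ℚ) →ₗ[ℚ] V) {i i' : Fin n} (hi : i ≠ i')
    (g : (Fin n → S) → S → V) (hg : ∀ x z w, g (Function.update x i z) w = g x w)
    (hg' : ∀ x z w, g (Function.update x i' z) w = g x w)
    (h : ∀ x : Fin n → S, L (Finsupp.single x 1) -
      L (Finsupp.single (fun j => x (Equiv.swap i i' j)) 1) = g x (x i) - g x (x i'))
    (b : Fin n → (S →₀ ℚ)) (hb1 : deg (b i) = 0) (hb2 : deg (b i') = 0) :
    L (ext b) = L (ext fun j => b (Equiv.swap i i' j)) := by
  set T : Finset S := Finset.univ.biUnion fun i => (b i).support with hTdef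
  have hb : ∀ i, (b i).support ⊆ T := fun i =>
    Finset.subset_biUnion_of_mem (fun i => (b i).support) (Finset.mem_univ i)
  have hb0 : ∀ j, deg (b j) = 0 → ∑ z ∈ T, b j z = 0 := by
    intro j hj
    rw [← hj]
    exact (Finset.sum_subset (hb j) fun x _ hx => Finsupp.notMem_support_iff.1 hx).symm
  set τ : Equiv.Perm (Fin n) := Equiv.swap i i' with hτ
  have hττ : ∀ j, τ (τ j) = j := fun j => Equiv.swap_apply_self i i' j
  rw [map_ext b T hb L, map_ext (fun j => b (τ j)) T (fun j => hb _) L]
  have h2 : ∑ x ∈ Fintype.piFinset (fun _ : Fin n => T),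
      (∏ j, b (τ j) (x j)) • L (Finsupp.single x 1) =
      ∑ x ∈ Fintype.piFinset (fun _ : Fin n => T),
      (∏ j, b j (x j)) • L (Finsupp.single (fun j => x (τ j)) 1) := by
    refine Finset.sum_nbij' (fun x j => x (τ j)) (fun x j => x (τ j)) ?_ ?_ ?_ ?_ ?_
    · intro x hx
      rw [Fintype.mem_piFinset] at hx ⊢
      exact fun j => hx _
    · intro x hx
      rw [Fintype.mem_piFinset] at hx ⊢
      exact fun j => hx _
    · intro x _
      funext j
      simp only [hττ]
    · intro x _
      funext j
      simp only [hττ]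
    · intro x _
      simp only [hττ]
      congr 1
      rw [← Equiv.prod_comp τ]
      simp only [hττ]
  rw [h2, ← sub_eq_zero, ← Finset.sum_sub_distrib]
  have h3 : ∀ x : Fin n → S, (∏ j, b j (x j)) • L (Finsupp.single x 1) -
      (∏ j, b j (x j)) • L (Finsupp.single (fun j => x (τ j)) 1) =
      b i' (x i') • ((∏ j ∈ Finset.univ.erase i', b j (x j)) • g x (x i)) -
      b i (x i) • ((∏ j ∈ Finset.univ.erase i, b j (x j)) • g x (x i')) := by
    intro x
    have e1 := Finset.mul_prod_erase Finset.univ (fun j => b j (x j)) (Finset.mem_univ i')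
    have e2 := Finset.mul_prod_erase Finset.univ (fun j => b j (x j)) (Finset.mem_univ i)
    try simp only at e1
    try simp only at e2
    rw [← smul_sub, h x, smul_sub, smul_smul, smul_smul, e1, e2]
  simp only [h3]
  rw [Finset.sum_sub_distrib, sum_slot_zero T i' (fun z => b i' z)
    (fun x => (∏ j ∈ Finset.univ.erase i', b j (x j)) • g x (x i)) ?_ (hb0 i' hb2),
    sum_slot_zero T i (fun z => b i z)
    (fun x => (∏ j ∈ Finset.univ.erase i, b j (x j)) • g x (x i')) ?_ (hb0 i hb1), sub_zero]
  · intro x z
    rw [hg, Function.update_of_ne hi.symm]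
    congr 1
    exact Finset.prod_congr rfl fun j hj => by
      rw [Function.update_of_ne (Finset.ne_of_mem_erase hj)]
  · intro x z
    rw [hg', Function.update_of_ne hi]
    congr 1
    exact Finset.prod_congr rfl fun j hj => by
      rw [Function.update_of_ne (Finset.ne_of_mem_erase hj)]

end

namespace Geo

variable {k : Type} [Field k] [CharZero k] [IsAlgClosed k] {G : Geo k} {n : ℕ}

variable (G) (n) in
/-- All words vanish. -/
def Sw (o : G.Pt k) : Prop := ∀ i i' : Fin n, i ≠ i' → ∀ (y : Fin n → G.Pt k) (x x' : G.Pt k),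
  G.Wd i i' y o x x' = 0

variable (G) (n) in
/-- The class of an exterior product. -/
noncomputable def Λ : MultilinearMap ℚ (fun _ : Fin n => G.Pt k →₀ ℚ) (G.CH n) :=
  (G.Rat n).mkQ.compMultilinearMap (extM (G.Pt k) n)

theorem Λ_apply (a : Fin n → (G.Pt k →₀ ℚ)) : G.Λ n a = (G.Rat n).mkQ (ext a) := rfl

theorem Λ_single (x : Fin n → G.Pt k) : (G.Λ n fun i => Finsupp.single (x i) 1) = G.cl x := by
  rw [Λ_apply, ext_single, Finset.prod_const_one]
  rfl

/-- Transpositions. -/
theorem Λ_swap {o : G.Pt k} (h : G.Sw n o) {i i' : Fin n} (b : Fin n → (G.Pt k →₀ ℚ))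
    (hb1 : deg (b i) = 0) (hb2 : deg (b i') = 0) :
    (G.Λ n fun j => b (Equiv.swap i i' j)) = G.Λ n b := by
  classical
  by_cases hi : i = i'
  · subst hi
    congr 1
    funext j
    rw [Equiv.swap_self]
    rfl
  symm
  refine swap_eq (G.Rat n).mkQ hi (fun x z => G.cl₂ i i' x z o - G.cl₂ i i' x o z) ?_ ?_ ?_ b
    hb1 hb2
  · intro x z w
    simp only [cl₂, Function.update_idem]
  · intro x z w
    simp only [cl₂]
    rw [Function.update_comm (Ne.symm hi) z w x, Function.update_comm (Ne.symm hi) z o x]
    simp only [Function.update_idem]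
  · intro x
    change G.cl x - G.cl (fun j => x (Equiv.swap i i' j)) = _
    have h1 : G.cl x = G.cl₂ i i' x (x i) (x i') := by
      unfold cl₂
      congr 1
      funext j
      by_cases hj' : j = i'
      · subst hj'; simp
      · by_cases hj : j = i
        · subst hj; rw [Function.update_of_ne hj']; simp
        · rw [Function.update_of_ne hj', Function.update_of_ne hj]
    have h2 : G.cl (fun j => x (Equiv.swap i i' j)) = G.cl₂ i i' x (x i') (x i) := by
      unfold cl₂
      congr 1
      funext j
      by_cases hj' : j = i'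
      · subst hj'; simp
      · by_cases hj : j = i
        · subst hj; rw [Function.update_of_ne hj']; simp
        · rw [Function.update_of_ne hj', Function.update_of_ne hj,
            Equiv.swap_apply_of_ne_of_ne hj hj']
    have h3 := h i i' hi x (x i) (x i')
    unfold Wd at h3
    rw [h1, h2]
    rw [← sub_eq_zero, ← h3]
    abel

/-- Permutations of the slots whose factors have degree zero. -/
theorem Λ_perm {o : G.Pt k} (h : G.Sw n o) (p : Fin n → Prop) [DecidablePred p]
    (π : Equiv.Perm {j // p j}) (b : Fin n → (G.Pt k →₀ ℚ)) (hb : ∀ j, p j → deg (b j) = 0) :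
    (G.Λ n fun j => b (Equiv.Perm.ofSubtype π j)) = G.Λ n b := by
  classical
  induction π using Equiv.Perm.swap_induction_on generalizing b with
  | one =>
    congr 1
    funext j
    rw [map_one]
    rfl
  | swap_mul f x y hxy ih =>
    have h1 : (fun j => b (Equiv.Perm.ofSubtype (Equiv.swap x y * f) j)) =
        fun j => (fun l => b (Equiv.swap (x : Fin n) y l)) (Equiv.Perm.ofSubtype f j) := by
      funext j
      rw [map_mul, Equiv.Perm.mul_apply, Equiv.Perm.ofSubtype_swap_eq]
    rw [h1]
    refine (ih (fun l => b (Equiv.swap (x : Fin n) y l)) ?_).trans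
      (Λ_swap h b (hb x x.2) (hb y y.2))
    intro j hj
    refine hb _ ?_
    by_cases h2 : j = x
    · subst h2; rw [Equiv.swap_apply_left]; exact y.2
    by_cases h3 : j = y
    · subst h3; rw [Equiv.swap_apply_right]; exact x.2
    rw [Equiv.swap_apply_of_ne_of_ne h2 h3]
    exact hj

end Geo

end Pool.Agent.H833.EK
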