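import Pool.Agent.H833.EK.Kim2
import Pool.Agent.H833.EK.DefM

/-!
# Chow-Künneth decompositions and zero-cycles on powers
-/

set_option autoImplicit false
set_option linter.unusedSectionVars false

namespace Pool.Agent.H833.EK

open FF Polynomial

namespace Geo

variable {k : Type} [Field k] [CharZero k] [IsAlgClosed k] {G : Geo k} {m n : ℕ} {o : G.Pt k}
  {ι : Hom G G}

theorem push_rat (hG : G.Nice) (Z : Coord m n →₀ ℚ) {z : (Fin m → G.Pt k) →₀ ℚ}
    (hz : z ∈ G.Rat m) : Coord.push (ι.map k) o Z z ∈ G.Rat n := by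
  unfold Coord.push Finsupp.sum
  rw [LinearMap.sum_apply]
  refine Submodule.sum_mem _ fun g _ => ?_
  rw [LinearMap.smul_apply]
  exact Submodule.smul_mem _ _ (act_rat (ι := ι) (o := o) hG g hz)

theorem rat_le_Fil (j : ℕ) : G.Rat m ≤ G.Fil m j := le_sup_left

theorem Fil_top : G.Fil m (m + 1) = G.Rat m := by
  unfold Fil
  refine le_antisymm (sup_le le_rfl (Submodule.span_le.2 ?_)) le_sup_left
  rintro _ ⟨T, a, hT, -, -⟩
  have := T.card_le_univ
  rw [Fintype.card_fin] at this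
  omega

theorem Fil_anti {i j : ℕ} (h : i ≤ j) : G.Fil m j ≤ G.Fil m i := by
  unfold Fil
  refine sup_le_sup le_rfl (Submodule.span_mono ?_)
  rintro _ ⟨T, a, hT, ha, rfl⟩
  exact ⟨T, a, h.trans hT, ha, rfl⟩

theorem Fil_zero : G.Fil m 0 = ⊤ := by
  rw [eq_top_iff]
  intro z _
  refine Submodule.mem_sup_right ?_
  induction z using Finsupp.induction_linear with
  | zero => exact Submodule.zero_mem _
  | add a b h1 h2 => exact Submodule.add_mem _ (h1 trivial) (h2 trivial)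
  | single x q =>
    have h1 : Finsupp.single x q = q • ext fun i => Finsupp.single (x i) 1 := by
      rw [ext_single, Finset.prod_const_one, Finsupp.smul_single, smul_eq_mul, mul_one]
    rw [h1]
    exact Submodule.smul_mem _ _ (Submodule.subset_span ⟨∅, _, Nat.zero_le _,
      fun i hi => absurd hi (Finset.notMem_empty i), rfl⟩)

theorem Fil_big {j : ℕ} (h : m < j) : G.Fil m j = G.Rat m :=
  le_antisymm ((Fil_anti h).trans Fil_top.le) (rat_le_Fil j)

/-- **The filtration does not depend on the decomposition.** -/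
theorem ckFil_eq (hG : G.Nice) (hS : G.Sw m o) {e : Coord m m →₀ ℚ}
    {π : Fin (4 * m + 1) → (Coord m m →₀ ℚ)}
    (hι : ∀ a, ∀ g ∈ (π a).support, ∀ j l, g j = some (l, true) → ∀ x, G.Opp m o x (ι.map k x))
    (h : CKDec G (ι.map k) o m e π) (ν : ℕ) : ckFil G (ι.map k) o m π ν =
      G.Rat m ⊔ (G.Fil m ((ν + 1) / 2)).map (Coord.push (ι.map k) o e) := by
  -- the operators raise the filtration
  have hup : ∀ (a : Fin (4 * m + 1)) (i : ℕ), (a : ℕ) + 2 * i ≠ 4 * m → ∀ z ∈ G.Fil m i,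
      Coord.push (ι.map k) o (π a) z ∈ G.Fil m (i + 1) := by
    intro a i hai z hz
    refine push_Fil hG hS (π a) (hι a) ?_ hz
    intro T T' hT hT'
    rw [h.forms a i T T' hT hT', if_neg hai]
  -- images of the idempotents
  have him : ∀ (a : Fin (4 * m + 1)) (j : ℕ), (∀ i < j, (a : ℕ) + 2 * i ≠ 4 * m) →
      ∀ z, Coord.push (ι.map k) o (π a) z ∈ G.Fil m j := by
    intro a j
    induction j with
    | zero =>
      intro _ z
      rw [Fil_zero]
      trivial
    | succ j ih =>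
      intro hj z
      have h1 := hup a j (hj j (Nat.lt_succ_self j)) _
        (ih (fun i hi => hj i (hi.trans (Nat.lt_succ_self j))) z)
      have h2 := rat_le_Fil (j + 1) (h.idem a z)
      have h3 := Submodule.sub_mem _ h1 h2
      rwa [sub_sub_cancel] at h3
  -- the vanishing on the small steps
  have hvan : ∀ (a : Fin (4 * m + 1)) (j : ℕ), (∀ i, j ≤ i → (a : ℕ) + 2 * i ≠ 4 * m) →
      ∀ z ∈ G.Fil m j, Coord.push (ι.map k) o (π a) z ∈ G.Rat m := by
    intro a j hj z hz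
    have h1 : ∀ d, Coord.push (ι.map k) o (π a) z ∈ G.Fil m (j + 1 + d) := by
      intro d
      induction d with
      | zero => exact hup a j (hj j le_rfl) z hz
      | succ d ih =>
        have h2 := hup a (j + 1 + d) (hj _ (by omega)) _ ih
        have h3 := rat_le_Fil (j + 1 + (d + 1)) (h.idem a z)
        have h4 := Submodule.sub_mem _ h2 h3
        rwa [sub_sub_cancel] at h4
    have h2 := h1 m
    rwa [Fil_big (by omega)] at h2
  -- the idempotents as multiples of `e`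
  have he : ∀ a z, Coord.push (ι.map k) o e (Coord.push (ι.map k) o (π a) z) -
      Coord.push (ι.map k) o (π a) z ∈ G.Rat m := by
    intro a z
    have h1 := h.sum (Coord.push (ι.map k) o (π a) z)
    rw [← Finset.add_sum_erase _ _ (Finset.mem_univ a)] at h1
    have h2 : ∑ b ∈ Finset.univ.erase a, Coord.push (ι.map k) o (π b)
        (Coord.push (ι.map k) o (π a) z) ∈ G.Rat m :=
      Submodule.sum_mem _ fun b hb => h.orth b a z (Finset.ne_of_mem_erase hb)
    have h3 := Submodule.add_mem _ (Submodule.sub_mem _ h2 h1) (h.idem a z)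
    convert h3 using 1
    abel
  apply le_antisymm
  · unfold ckFil
    refine sup_le le_sup_left (iSup_le ?_)
    rintro ⟨a, ha⟩ _ ⟨z, rfl⟩
    have h1 : Coord.push (ι.map k) o (π a) z ∈ G.Fil m ((ν + 1) / 2) :=
      him a _ (fun i hi => by omega) z
    have h2 := Submodule.mem_sup_left (T := (G.Fil m ((ν + 1) / 2)).map
      (Coord.push (ι.map k) o e)) (he a z)
    have h3 := Submodule.mem_sup_right (S := G.Rat m)
      (Submodule.mem_map_of_mem (f := Coord.push (ι.map k) o e) h1)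
    have h4 := Submodule.sub_mem _ h3 h2
    rwa [sub_sub_cancel] at h4
  · refine sup_le le_sup_left ?_
    rintro _ ⟨z, hz, rfl⟩
    have h1 : ∑ a, Coord.push (ι.map k) o (π a) z ∈ ckFil G (ι.map k) o m π ν := by
      refine Submodule.sum_mem _ fun a _ => ?_
      by_cases ha : (a : ℕ) + ν ≤ 4 * m
      · exact Submodule.mem_sup_right (Submodule.mem_iSup_of_mem ⟨a, ha⟩ ⟨z, rfl⟩)
      · refine Submodule.mem_sup_left (hvan a _ (fun i hi => ?_) z hz)
        omega
    have h2 := Submodule.sub_mem _ h1 (Submodule.mem_sup_left (h.sum z))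
    rwa [sub_sub_cancel] at h2

/-- The filtration ends after `2 m` steps. -/
theorem ckFil_big (hG : G.Nice) (hS : G.Sw m o) {e : Coord m m →₀ ℚ}
    {π : Fin (4 * m + 1) → (Coord m m →₀ ℚ)}
    (hι : ∀ a, ∀ g ∈ (π a).support, ∀ j l, g j = some (l, true) → ∀ x, G.Opp m o x (ι.map k x))
    (h : CKDec G (ι.map k) o m e π) {ν : ℕ} (hν : 2 * m < ν) :
    ckFil G (ι.map k) o m π ν = G.Rat m := by
  rw [ckFil_eq hG hS hι h ν, Fil_big (by omega), sup_eq_left]
  rintro _ ⟨z, hz, rfl⟩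
  exact push_rat hG e hz

theorem Sw.of_ref {o : G.Pt k} (h : G.Sw n o) (o' : G.Pt k) : G.Sw n o' :=
  fun i i' hi y x x' => Wd_ref (h i i' hi y) o' x x'

end Geo

section

variable {k : Type} [Field k] [CharZero k] [IsAlgClosed k] {m : ℕ} {e : Coord m m →₀ ℚ}
  {π : Fin (4 * m + 1) → (Coord m m →₀ ℚ)}

theorem EllK3.ck {S : Geo k} (h : EllK3 S) {o : S.Pt k}
    (hs : ∀ a, ∀ g ∈ (π a).support, ∀ i, (g i).map Prod.snd ≠ some true)
    (hπ : CKDec S id o m e π) (ν : ℕ) :
    ckFil S id o m π ν = S.Rat m ⊔ (S.Fil m ((ν + 1) / 2)).map (Coord.push id o e) := by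
  obtain ⟨hS, o', ho⟩ := h.sw
  exact Geo.ckFil_eq (ι := Geo.Hom.idn S) hS ((ho m).of_ref o)
    (fun a g hg j l h1 => absurd (by rw [h1]; rfl) (hs a g hg j)) hπ ν

theorem ck_dcover {d : ℕ} {c : Fin 5 → MvPolynomial (Fin 2) k} (hc : Wts d c) {o : DPt c k}
    (ho : o.y = 0) (hπ : CKDec (dcover d c) DPt.opp o m e π) (ν : ℕ) :
    ckFil (dcover d c) DPt.opp o m π ν = (dcover d c).Rat m ⊔
      ((dcover d c).Fil m ((ν + 1) / 2)).map (Coord.push DPt.opp o e) :=
  Geo.ckFil_eq (ι := oppHom d c) (dcover_nice hc) (sw_dcover hc ho)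
    (fun _ _ _ _ _ _ x => opp_all hc ho x) hπ ν

theorem ck_res {d : ℕ} {c : Fin 5 → MvPolynomial (Fin 2) k} (hc : Wts d c) {o : DPt c k}
    (ho : o.y = 0) {S : Geo k} {ρ : Geo.Hom S (dcover d c)} (hρ : Geo.Resolves ρ)
    {ι : Geo.Hom S S} {o' : S.Pt k}
    (hι : ∀ x, (dcover d c).Same (ρ.map k (ι.map k x)) (DPt.opp (ρ.map k x)))
    (ho' : (dcover d c).Same (ρ.map k o') o) (hπ : CKDec S (ι.map k) o' m e π) (ν : ℕ) :
    ckFil S (ι.map k) o' m π ν = S.Rat m ⊔
      (S.Fil m ((ν + 1) / 2)).map (Coord.push (ι.map k) o' e) :=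
  Geo.ckFil_eq (ι := ι) hρ.nice (hρ.sw (dcover_nice hc) ho' (sw_dcover hc ho))
    (fun _ _ _ _ _ _ x => hρ.opp (dcover_nice hc) ho' (hι x) (opp_all hc ho _)) hπ ν

theorem EllK3.ck_big {S : Geo k} (h : EllK3 S) {o : S.Pt k}
    (hs : ∀ a, ∀ g ∈ (π a).support, ∀ i, (g i).map Prod.snd ≠ some true)
    (hπ : CKDec S id o m e π) {ν : ℕ} (hν : 2 * m < ν) : ckFil S id o m π ν = S.Rat m := by
  obtain ⟨hS, o', ho⟩ := h.sw
  exact Geo.ckFil_big (ι := Geo.Hom.idn S) hS ((ho m).of_ref o)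
    (fun a g hg j l h1 => absurd (by rw [h1]; rfl) (hs a g hg j)) hπ hν

theorem ck_dcover_big {d : ℕ} {c : Fin 5 → MvPolynomial (Fin 2) k} (hc : Wts d c) {o : DPt c k}
    (ho : o.y = 0) (hπ : CKDec (dcover d c) DPt.opp o m e π) {ν : ℕ} (hν : 2 * m < ν) :
    ckFil (dcover d c) DPt.opp o m π ν = (dcover d c).Rat m :=
  Geo.ckFil_big (ι := oppHom d c) (dcover_nice hc) (sw_dcover hc ho)
    (fun _ _ _ _ _ _ x => opp_all hc ho x) hπ hν

theorem ck_res_big {d : ℕ} {c : Fin 5 → MvPolynomial (Fin 2) k} (hc : Wts d c) {o : DPt c k}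
    (ho : o.y = 0) {S : Geo k} {ρ : Geo.Hom S (dcover d c)} (hρ : Geo.Resolves ρ)
    {ι : Geo.Hom S S} {o' : S.Pt k}
    (hι : ∀ x, (dcover d c).Same (ρ.map k (ι.map k x)) (DPt.opp (ρ.map k x)))
    (ho' : (dcover d c).Same (ρ.map k o') o) (hπ : CKDec S (ι.map k) o' m e π) {ν : ℕ}
    (hν : 2 * m < ν) : ckFil S (ι.map k) o' m π ν = S.Rat m :=
  Geo.ckFil_big (ι := ι) hρ.nice (hρ.sw (dcover_nice hc) ho' (sw_dcover hc ho))
    (fun _ _ _ _ _ _ x => hρ.opp (dcover_nice hc) ho' (hι x) (opp_all hc ho _)) hπ hν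

end

end Pool.Agent.H833.EK
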