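import Pool.Agent.H833.EK.DMain
import Pool.Agent.H833.EK.DefP
import Pool.Graph.R_seed8.H952R2.Sextic.CommonZero

/-!
# Double planes
-/

set_option autoImplicit false
set_option linter.unusedSectionVars false

namespace Pool.Agent.H833.EK

open FF Polynomial

section

variable {k : Type} [Field k]

/-- The form `F` in the coordinates given by the matrix `A`. -/
noncomputable def chg (A : Matrix (Fin 3) (Fin 3) k) (F : MvPolynomial (Fin 3) k) :
    MvPolynomial (Fin 3) k :=
  MvPolynomial.aeval (fun i => MvPolynomial.C (A i 0) * MvPolynomial.X 0 +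
    MvPolynomial.C (A i 1) * MvPolynomial.X 1 + MvPolynomial.C (A i 2) * MvPolynomial.X 2) F

variable {F : MvPolynomial (Fin 3) k} {N : ℕ}

theorem chg_hom (A : Matrix (Fin 3) (Fin 3) k) (hF : F.IsHomogeneous N) :
    (chg A F).IsHomogeneous N := by
  unfold chg
  have h1 := hF.aeval (S := k) (n := 1) (τ := Fin 3)
    (fun i => MvPolynomial.C (A i 0) * MvPolynomial.X 0 +
    MvPolynomial.C (A i 1) * MvPolynomial.X 1 + MvPolynomial.C (A i 2) * MvPolynomial.X 2)
    (fun i => ((MvPolynomial.isHomogeneous_C_mul_X _ _).add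
      (MvPolynomial.isHomogeneous_C_mul_X _ _)).add (MvPolynomial.isHomogeneous_C_mul_X _ _))
  rw [one_mul] at h1
  exact h1

theorem aeval_chg (A : Matrix (Fin 3) (Fin 3) k) (F : MvPolynomial (Fin 3) k) {K : Type}
    [Field K] [Algebra k K] (z : Fin 3 → K) : MvPolynomial.aeval z (chg A F) =
      MvPolynomial.aeval (fun i => algebraMap k K (A i 0) * z 0 + algebraMap k K (A i 1) * z 1 +
        algebraMap k K (A i 2) * z 2) F := by
  unfold chg
  rw [← AlgHom.comp_apply, MvPolynomial.comp_aeval]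
  congr 2
  funext i
  simp

/-- The coefficients with respect to the first variable. -/
noncomputable def cof (F : MvPolynomial (Fin 3) k) (l : ℕ) : MvPolynomial (Fin 2) k :=
  (MvPolynomial.finSuccEquiv k 2 F).coeff l

theorem aeval_eq_sum (F : MvPolynomial (Fin 3) k) {K : Type} [Field K] [Algebra k K] (v s t : K)
    {M : ℕ} (hM : (MvPolynomial.finSuccEquiv k 2 F).natDegree < M) :
    MvPolynomial.aeval ![v, s, t] F = ∑ l ∈ Finset.range M, fv (cof F l) s t * v ^ l := by
  have h1 : (MvPolynomial.aeval ![v, s, t] : MvPolynomial (Fin 3) k →ₐ[k] K).toRingHom =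
      (Polynomial.eval₂RingHom (MvPolynomial.aeval ![s, t] :
        MvPolynomial (Fin 2) k →ₐ[k] K).toRingHom v).comp
        (MvPolynomial.finSuccEquiv k 2).toAlgHom.toRingHom := by
    refine MvPolynomial.ringHom_ext (fun r => ?_) fun i => ?_
    · have h2 : MvPolynomial.finSuccEquiv k 2 (MvPolynomial.C r) =
          Polynomial.C (MvPolynomial.C r) := by
        have := (MvPolynomial.finSuccEquiv k 2).commutes r
        rw [MvPolynomial.algebraMap_eq] at this
        rw [this]
        rfl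
      simp [h2]
    · refine Fin.cases ?_ (fun j => ?_) i
      · simp [MvPolynomial.finSuccEquiv_X_zero]
      · have h2 := MvPolynomial.finSuccEquiv_X_succ (R := k) (n := 2) (j := j)
        simp [h2]
  have h2 := congrArg (fun φ => φ F) h1
  have h3 : MvPolynomial.aeval ![v, s, t] F = Polynomial.eval₂ (MvPolynomial.aeval ![s, t] :
        MvPolynomial (Fin 2) k →ₐ[k] K).toRingHom v (MvPolynomial.finSuccEquiv k 2 F) := h2
  rw [h3, Polynomial.eval₂_eq_sum_range' _ hM]
  rfl

theorem cof_hom (hF : F.IsHomogeneous N) {i j : ℕ} (h : i + j = N) : (cof F i).IsHomogeneous j :=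
  hF.finSuccEquiv_coeff_isHomogeneous i j h

theorem natDegree_fse (hF : F.IsHomogeneous N) :
    (MvPolynomial.finSuccEquiv k 2 F).natDegree ≤ N := by
  rw [MvPolynomial.natDegree_finSuccEquiv]
  exact (MvPolynomial.degreeOf_le_totalDegree F 0).trans hF.totalDegree_le

/-- If the form vanishes at the point `(1, 0, 0)`, then its degree with respect to the first
variable is small. -/
theorem natDegree_lt (hF : F.IsHomogeneous N) (h0 : MvPolynomial.aeval ![(1 : k), 0, 0] F = 0) :
    cof F N = 0 := by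
  have h1 := cof_hom (i := N) hF (add_zero N)
  rw [← MvPolynomial.totalDegree_zero_iff_isHomogeneous,
    MvPolynomial.totalDegree_eq_zero_iff_eq_C] at h1
  rw [aeval_eq_sum F 1 0 0 (Nat.lt_succ_of_le (natDegree_fse hF)), Finset.sum_range_succ] at h0
  have h2 : ∑ l ∈ Finset.range N, fv (cof F l) (0 : k) 0 * 1 ^ l = 0 := by
    refine Finset.sum_eq_zero fun l hl => ?_
    have hl' := Finset.mem_range.1 hl
    have h3 := fv_smul (cof_hom (i := l) (j := N - l) hF (by omega)) (0 : k) 0 0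
    rw [mul_zero, zero_pow (by omega), zero_mul] at h3
    rw [h3, zero_mul]
  rw [h2, zero_add, one_pow, mul_one, h1] at h0
  unfold fv at h0
  rw [MvPolynomial.aeval_C] at h0
  rw [h1]
  have h3 : MvPolynomial.coeff 0 (cof F N) = 0 := h0
  rw [h3, MvPolynomial.C_0]

theorem natDegree_lt' (hF : F.IsHomogeneous (N + 1))
    (h0 : MvPolynomial.aeval ![(1 : k), 0, 0] F = 0) :
    (MvPolynomial.finSuccEquiv k 2 F).natDegree ≤ N := by
  refine Polynomial.natDegree_le_iff_coeff_eq_zero.2 fun m hm => ?_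
  rcases Nat.lt_or_ge (N + 1) m with h1 | h1
  · exact Polynomial.coeff_eq_zero_of_natDegree_lt ((natDegree_fse hF).trans_lt h1)
  · have h2 : m = N + 1 := by omega
    rw [h2]
    exact natDegree_lt hF h0

/-- The coefficients of the quartic. -/
noncomputable def pc (F : MvPolynomial (Fin 3) k) : Fin 5 → MvPolynomial (Fin 2) k :=
  fun j => cof F (4 - j)

theorem wts_pc (hF : F.IsHomogeneous 6) : Wts 1 (pc F) := by
  intro j
  right
  refine ⟨2 + j, cof_hom hF ?_, ?_⟩
  · have := j.2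
    omega
  · ring

variable [CharZero k] [IsAlgClosed k] {A B : Matrix (Fin 3) (Fin 3) k}

theorem sum_pc (F : MvPolynomial (Fin 3) k)
    (hd : (MvPolynomial.finSuccEquiv k 2 F).natDegree ≤ 4) (hF : F.IsHomogeneous 6) {K : Type}
    [Field K] [Algebra k K] (v w s t : K) :
    MvPolynomial.aeval ![v, w * s, w * t] F = w ^ 2 * qf (fc (pc F) s t) v w := by
  rw [aeval_eq_sum F v (w * s) (w * t) (Nat.lt_succ_of_le hd)]
  have h1 : ∀ l m, l + m = 6 → fv (cof F l) (w * s) (w * t) = w ^ m * fv (cof F l) s t :=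
    fun l m h => fv_smul (cof_hom hF h) w s t
  rw [Finset.sum_range_succ, Finset.sum_range_succ, Finset.sum_range_succ, Finset.sum_range_succ,
    Finset.sum_range_succ, Finset.sum_range_zero, h1 0 6 rfl, h1 1 5 rfl, h1 2 4 rfl, h1 3 3 rfl,
    h1 4 2 rfl]
  unfold qf fc pc
  have e0 : (4 - ((0 : Fin 5) : ℕ)) = 4 := rfl
  have e1 : (4 - ((1 : Fin 5) : ℕ)) = 3 := rfl
  have e2 : (4 - ((2 : Fin 5) : ℕ)) = 2 := rfl
  have e3 : (4 - ((3 : Fin 5) : ℕ)) = 1 := rfl
  have e4 : (4 - ((4 : Fin 5) : ℕ)) = 0 := rfl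
  rw [e0, e1, e2, e3, e4]
  ring

/-- The map to the plane. -/
noncomputable def px (A : Matrix (Fin 3) (Fin 3) k) {K : Type} [Field K] [Algebra k K]
    (v s' t' : K) : Fin 3 → K :=
  fun i => algebraMap k K (A i 0) * v + algebraMap k K (A i 1) * s' + algebraMap k K (A i 2) * t'

theorem px_inj (hBA : B * A = 1) {K : Type} [Field K] [Algebra k K] {v s' t' : K}
    (h : px A v s' t' = 0) : v = 0 ∧ s' = 0 ∧ t' = 0 := by
  have h1 : ∀ i, algebraMap k K (A i 0) * v + algebraMap k K (A i 1) * s' +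
      algebraMap k K (A i 2) * t' = 0 := fun i => congrFun h i
  have h2 : ∀ i j, B i 0 * A 0 j + B i 1 * A 1 j + B i 2 * A 2 j = (1 : Matrix _ _ k) i j := by
    intro i j
    rw [← hBA, Matrix.mul_apply, Fin.sum_univ_three]
  have h3 : ∀ i j, algebraMap k K (B i 0) * algebraMap k K (A 0 j) + algebraMap k K (B i 1) *
      algebraMap k K (A 1 j) + algebraMap k K (B i 2) * algebraMap k K (A 2 j) =
      algebraMap k K ((1 : Matrix _ _ k) i j) := by
    intro i j
    rw [← h2]
    simp only [map_add, map_mul]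
  have h4 : ∀ i, algebraMap k K ((1 : Matrix (Fin 3) (Fin 3) k) i 0) * v +
      algebraMap k K ((1 : Matrix (Fin 3) (Fin 3) k) i 1) * s' +
      algebraMap k K ((1 : Matrix (Fin 3) (Fin 3) k) i 2) * t' = 0 := by
    intro i
    rw [← h3, ← h3, ← h3]
    linear_combination algebraMap k K (B i 0) * h1 0 + algebraMap k K (B i 1) * h1 1 +
      algebraMap k K (B i 2) * h1 2
  refine ⟨?_, ?_, ?_⟩
  · simpa using h4 0
  · simpa using h4 1
  · simpa using h4 2

theorem px_surj (hAB : A * B = 1) (x : Fin 3 → k) : ∃ v s' t' : k, x = px A v s' t' := by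
  have h2 : ∀ i j, A i 0 * B 0 j + A i 1 * B 1 j + A i 2 * B 2 j = (1 : Matrix _ _ k) i j := by
    intro i j
    rw [← hAB, Matrix.mul_apply, Fin.sum_univ_three]
  refine ⟨∑ j, B 0 j * x j, ∑ j, B 1 j * x j, ∑ j, B 2 j * x j, ?_⟩
  funext i
  change x i = A i 0 * (∑ j, B 0 j * x j) + A i 1 * (∑ j, B 1 j * x j) +
    A i 2 * (∑ j, B 2 j * x j)
  rw [Finset.mul_sum, Finset.mul_sum, Finset.mul_sum, ← Finset.sum_add_distrib,
    ← Finset.sum_add_distrib]
  have h3 : ∀ j, A i 0 * (B 0 j * x j) + A i 1 * (B 1 j * x j) + A i 2 * (B 2 j * x j) =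
      (1 : Matrix _ _ k) i j * x j := by
    intro j
    rw [← h2]; ring
  simp only [h3, Matrix.one_apply, ite_mul, one_mul, zero_mul]
  simp

/-- The morphism from the double cover of the blow up of the plane at a point to the double
plane. -/
noncomputable def blow (A B : Matrix (Fin 3) (Fin 3) k) (hBA : B * A = 1)
    (F : MvPolynomial (Fin 3) k) (hF : F.IsHomogeneous 6)
    (hd : (MvPolynomial.finSuccEquiv k 2 (chg A F)).natDegree ≤ 4) :
    Geo.Hom (dcover 1 (pc (chg A F))) (dplane F) where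
  map := fun K _ _ P =>
    { x := px A P.v (P.w * P.s) (P.w * P.t)
      t := P.w * P.y
      ne := by
        intro h
        obtain ⟨h1, h2, h3⟩ := px_inj hBA h
        have hw : P.w ≠ 0 := fun hw => P.fib ⟨h1, hw⟩
        exact P.base ⟨(mul_eq_zero.1 h2).resolve_left hw, (mul_eq_zero.1 h3).resolve_left hw⟩
      eq := by
        have h1 := sum_pc (chg A F) hd (chg_hom A hF) P.v P.w P.s P.t
        rw [aeval_chg] at h1
        have h2 : MvPolynomial.aeval (px A P.v (P.w * P.s) (P.w * P.t)) F =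
            P.w ^ 2 * qf (fc (pc (chg A F)) P.s P.t) P.v P.w := h1
        rw [h2, mul_pow, P.eq'] }
  sp := by
    rintro K _ _ a P p ⟨ρ, μ, hρ, hμ, hs, ht, hv, hw, hy⟩
    refine ⟨ρ * μ, mul_ne_zero hρ hμ, fun i => ?_, ?_⟩
    · refine ((((HasVal.const a (A i 0)).mul hv).add ((HasVal.const a (A i 1)).mul
        (hw.mul hs))).add ((HasVal.const a (A i 2)).mul (hw.mul ht))).congr ?_ rfl
      change _ = ρ * μ * (algebraMap k K (A i 0) * P.v + algebraMap k K (A i 1) * (P.w * P.s) +
        algebraMap k K (A i 2) * (P.w * P.t))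
      ring
    · refine (hw.mul hy).congr ?_ rfl
      change _ = (ρ * μ) ^ 3 * (P.w * P.y)
      ring

theorem blow_surj (hAB : A * B = 1) (hBA : B * A = 1) (hF : F.IsHomogeneous 6)
    (hd : (MvPolynomial.finSuccEquiv k 2 (chg A F)).natDegree ≤ 4) :
    Function.Surjective ((blow A B hBA F hF hd).map k) := by
  intro x
  obtain ⟨v, s', t', hx⟩ := px_surj hAB x.x
  have hext : ∀ z : PPt F k, z.x = x.x → z.t = x.t → z = x := by
    rintro ⟨a1, a2, _, _⟩ h1 h2
    cases x
    simp only at h1 h2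
    subst h1; subst h2
    rfl
  by_cases hst : s' = 0 ∧ t' = 0
  · obtain ⟨rfl, rfl⟩ := hst
    have hv : v ≠ 0 := by
      rintro rfl
      apply x.ne
      rw [hx]
      funext i
      simp [px]
    obtain ⟨y, hy⟩ := IsAlgClosed.exists_pow_nat_eq (qf (fc (pc (chg A F)) (1 : k) 0) v 0)
      (n := 2) (by norm_num)
    refine ⟨⟨1, 0, v, 0, y, fun hh => one_ne_zero hh.1, fun hh => hv hh.1, hy⟩, hext _ ?_ ?_⟩
    · change px A v (0 * 1) (0 * 0) = x.x
      rw [hx, zero_mul, zero_mul]
    · change 0 * y = x.t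
      have h1 := x.eq
      have h2 := sum_pc (chg A F) hd (chg_hom A hF) v 0 1 0
      rw [aeval_chg] at h2
      have h3 : MvPolynomial.aeval (px A v (0 * 1) (0 * 0)) F =
          0 ^ 2 * qf (fc (pc (chg A F)) (1 : k) 0) v 0 := h2
      rw [hx] at h1
      rw [zero_mul, zero_mul] at h3
      rw [h3, zero_pow two_ne_zero, zero_mul] at h1
      rw [zero_mul]
      exact (pow_eq_zero_iff two_ne_zero |>.1 h1).symm
  · have h2 := sum_pc (chg A F) hd (chg_hom A hF) v 1 s' t'
    rw [aeval_chg] at h2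
    have h3 : MvPolynomial.aeval (px A v (1 * s') (1 * t')) F =
        1 ^ 2 * qf (fc (pc (chg A F)) s' t') v 1 := h2
    rw [one_mul, one_mul, one_pow, one_mul, ← hx] at h3
    refine ⟨⟨s', t', v, 1, x.t, hst, fun hh => one_ne_zero hh.2, ?_⟩, hext _ ?_ ?_⟩
    · exact x.eq.trans h3
    · change px A v (1 * s') (1 * t') = x.x
      rw [hx, one_mul, one_mul]
    · change 1 * x.t = x.t
      rw [one_mul]

theorem voisin_dplane' {n : ℕ} (hn : 2 ≤ n) (hAB : A * B = 1) (hBA : B * A = 1)
    (hF : F.IsHomogeneous 6)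
    (hd : (MvPolynomial.finSuccEquiv k 2 (chg A F)).natDegree ≤ 4) : (dplane F).Voisin n := by
  obtain ⟨o, ho⟩ := exists_ram (pc (chg A F))
  have hi : (⟨0, by omega⟩ : Fin n) ≠ ⟨1, by omega⟩ := by
    intro hh
    have := congrArg Fin.val hh
    simp at this
  exact (blow A B hBA F hF hd).voisin (blow_surj hAB hBA hF hd) hi o
    fun y x x' => Wd_dcover (wts_pc (chg_hom A hF)) ho hi y x x'

/-- A point can be moved to `(1, 0, 0)`. -/
theorem exists_matrix {p : Fin 3 → k} (hp : p ≠ 0) : ∃ A B : Matrix (Fin 3) (Fin 3) k,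
    A * B = 1 ∧ B * A = 1 ∧ ∀ i, A i 0 = p i := by
  have h : ∃ i, p i ≠ 0 := by
    by_contra hcon
    push Not at hcon
    exact hp (funext hcon)
  obtain ⟨A, hA, hdet⟩ : ∃ A : Matrix (Fin 3) (Fin 3) k, (∀ i, A i 0 = p i) ∧ A.det ≠ 0 := by
    obtain ⟨i, hi⟩ := h
    fin_cases i
    · refine ⟨!![p 0, 0, 0; p 1, 1, 0; p 2, 0, 1], fun i => by fin_cases i <;> rfl, ?_⟩
      rw [Matrix.det_fin_three]
      simpa using hi
    · refine ⟨!![p 0, 1, 0; p 1, 0, 0; p 2, 0, 1], fun i => by fin_cases i <;> rfl, ?_⟩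
      rw [Matrix.det_fin_three]
      simpa using hi
    · refine ⟨!![p 0, 1, 0; p 1, 0, 1; p 2, 0, 0], fun i => by fin_cases i <;> rfl, ?_⟩
      rw [Matrix.det_fin_three]
      simpa using hi
  exact ⟨A, A⁻¹, Matrix.mul_nonsing_inv A (isUnit_iff_ne_zero.2 hdet),
    Matrix.nonsing_inv_mul A (isUnit_iff_ne_zero.2 hdet), hA⟩

theorem aeval_zero_of_hom (hF : F.IsHomogeneous (N + 1)) : MvPolynomial.eval (0 : Fin 3 → k) F = 0 := by
  rw [MvPolynomial.eval_zero]
  rw [MvPolynomial.constantCoeff_eq]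
  refine hF.coeff_eq_zero ?_
  simp

theorem chg_mul (A : Matrix (Fin 3) (Fin 3) k) (F G : MvPolynomial (Fin 3) k) :
    chg A (F * G) = chg A F * chg A G := by
  unfold chg; rw [map_mul]

/-- **Voisin's conjecture for double planes branched along a quintic and a line.** -/
theorem voisin_quintic_line {n : ℕ} (hn : 2 ≤ n) {q l : MvPolynomial (Fin 3) k}
    (hq : q.IsHomogeneous 5) (hl : l.IsHomogeneous 1) : (dplane (q * l)).Voisin n := by
  obtain ⟨p, hp, hp'⟩ := Pool.Agent.H952R2.Sextic.exists_common_zero (K := k) (ι := Fin 3)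
    (κ := Fin 2) (by simp) ![q, l] (by
      intro j
      fin_cases j
      · exact aeval_zero_of_hom hq
      · exact aeval_zero_of_hom hl)
  obtain ⟨A, B, hAB, hBA, hA⟩ := exists_matrix hp
  have hev : ∀ G : MvPolynomial (Fin 3) k, MvPolynomial.eval p G = 0 →
      MvPolynomial.aeval ![(1 : k), 0, 0] (chg A G) = 0 := by
    intro G hG
    rw [aeval_chg]
    have h1 : (fun i => algebraMap k k (A i 0) * (![(1 : k), 0, 0] : Fin 3 → k) 0 +
        algebraMap k k (A i 1) * (![(1 : k), 0, 0] : Fin 3 → k) 1 +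
        algebraMap k k (A i 2) * (![(1 : k), 0, 0] : Fin 3 → k) 2) = p := by
      funext i
      simp [hA]
    rw [h1]
    exact hG
  have h1 := natDegree_lt' (N := 4) (chg_hom A hq) (hev q (hp' 0))
  have h2 := natDegree_lt' (N := 0) (chg_hom A hl) (hev l (hp' 1))
  refine voisin_dplane' hn hAB hBA (hq.mul hl) ?_
  rw [chg_mul, map_mul]
  exact Polynomial.natDegree_mul_le.trans (Nat.add_le_add h1 h2)

end

end Pool.Agent.H833.EK
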