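import Pool.Agent.H833.EK.Res

/-!
# Resolutions of double planes
-/

set_option autoImplicit false
set_option linter.unusedSectionVars false

namespace Pool.Agent.H833.EK

open FF Polynomial

section

variable {k : Type} [Field k] [CharZero k] [IsAlgClosed k] {F : MvPolynomial (Fin 3) k}

theorem hasVal_mv {K : Type} [Field K] [Algebra k K] {a : Place k K} {x : Fin 3 → K}
    {x₀ : Fin 3 → k} (hx : ∀ i, HasVal a (x i) (x₀ i)) (F : MvPolynomial (Fin 3) k) :
    HasVal a (MvPolynomial.aeval x F) (MvPolynomial.aeval x₀ F) := by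
  induction F using MvPolynomial.induction_on with
  | C a =>
    rw [MvPolynomial.aeval_C, MvPolynomial.aeval_C]
    exact HasVal.const _ a
  | add p q hp hq => rw [map_add, map_add]; exact hp.add hq
  | mul_X p i hp =>
    rw [map_mul, map_mul, MvPolynomial.aeval_X, MvPolynomial.aeval_X]
    exact hp.mul (hx i)

theorem exists_prim3 {K : Type} [Field K] [Algebra k K] [IsFF k K] (a : Place k K)
    {x : Fin 3 → K} (h : x ≠ 0) : ∃ (r : K) (x₀ : Fin 3 → k), r ≠ 0 ∧
      (∀ i, HasVal a (r * x i) (x₀ i)) ∧ x₀ ≠ 0 := by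
  classical
  have h1 : (Finset.univ.filter fun i => x i ≠ 0).Nonempty := by
    by_contra hcon
    rw [Finset.not_nonempty_iff_eq_empty] at hcon
    apply h
    funext i
    by_contra hi
    have : i ∈ (Finset.univ.filter fun i => x i ≠ 0) :=
      Finset.mem_filter.2 ⟨Finset.mem_univ _, hi⟩
    rw [hcon] at this
    exact absurd this (Finset.notMem_empty _)
  obtain ⟨j, hj, hmin⟩ := Finset.exists_min_image _ (fun i => a.ord (x i)) h1
  have hj0 : x j ≠ 0 := (Finset.mem_filter.1 hj).2
  have h2 : ∀ i, ∃ z, HasVal a ((x j)⁻¹ * x i) z := by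
    intro i
    by_cases hi : x i = 0
    · exact ⟨0, by rw [hi, mul_zero]; exact HasVal.zero a⟩
    · refine exists_hasVal ?_
      rw [a.reg_iff (mul_ne_zero (inv_ne_zero hj0) hi), a.ord_mul (inv_ne_zero hj0) hi, a.ord_inv]
      have := hmin i (by simp [hi])
      omega
  choose x₀ hx₀ using h2
  refine ⟨(x j)⁻¹, x₀, inv_ne_zero hj0, hx₀, fun h3 => ?_⟩
  have h4 := hx₀ j
  rw [inv_mul_cancel₀ hj0, h3] at h4
  exact one_ne_zero (h4.unique (HasVal.one a)).symm

/-- The constant point. -/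
noncomputable def PPt.cst (K : Type) [Field K] [Algebra k K] (p : PPt F k) : PPt F K where
  x := fun i => algebraMap k K (p.x i)
  t := algebraMap k K p.t
  ne := by
    intro h
    apply p.ne
    funext i
    exact (map_eq_zero (algebraMap k K)).1 (congrFun h i)
  eq := by
    rw [← map_pow, p.eq]
    exact (MvPolynomial.aeval_algebraMap_apply K p.x F).symm

theorem dplane_nice (hF : F.IsHomogeneous 6) : (dplane F).Nice where
  cst := fun K _ _ p => ⟨PPt.cst K p, fun a => ⟨1, one_ne_zero, fun i => by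
    rw [one_mul]; exact HasVal.const a _, by
    rw [one_pow, one_mul]; exact HasVal.const a _⟩⟩
  prop := fun K _ _ _ a P => by
    obtain ⟨r, x₀, hr, hx, hx0⟩ := exists_prim3 a P.ne
    have h1 := hasVal_mv hx F
    have h2 : MvPolynomial.aeval (fun i => r * P.x i) F = (r ^ 3 * P.t) ^ 2 := by
      rw [mul_pow, P.eq, ← pow_mul]
      rw [MvPolynomial.aeval_def, MvPolynomial.aeval_def, MvPolynomial.eval₂_eq',
        MvPolynomial.eval₂_eq', Finset.mul_sum]
      refine Finset.sum_congr rfl fun d hd => ?_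
      have h3 := hF (MvPolynomial.mem_support_iff.1 hd)
      rw [Finsupp.weight_apply, Finsupp.sum_fintype _ _ (by simp), Fin.sum_univ_three] at h3
      have h4 : d 0 + d 1 + d 2 = 6 := by simpa using h3
      rw [Fin.prod_univ_three, Fin.prod_univ_three]
      have h5 : r ^ (3 * 2) = r ^ d 0 * r ^ d 1 * r ^ d 2 := by
        rw [← pow_add, ← pow_add, h4]
      rw [h5]
      ring
    rw [h2] at h1
    obtain ⟨t₀, ht, ht2⟩ := h1.of_pow two_ne_zero
    exact ⟨⟨x₀, t₀, hx0, ht2⟩, r, hr, hx, ht⟩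

theorem Wd_quintic_line {n : ℕ} {i i' : Fin n} (hi : i ≠ i') {q l : MvPolynomial (Fin 3) k}
    (hq : q.IsHomogeneous 5) (hl : l.IsHomogeneous 1) : ∃ o : PPt (q * l) k,
    ∀ (y : Fin n → (dplane (q * l)).Pt k) (x x' : PPt (q * l) k),
      (dplane (q * l)).Wd i i' y o x x' = 0 := by
  obtain ⟨p, hp, hp'⟩ := Pool.Agent.H952R2.Sextic.exists_common_zero (K := k) (ι := Fin 3)
    (κ := Fin 2) (by simp) ![q, l] (by
      intro j
      fin_cases j
      · exact aeval_zero_of_hom hq
      · exact aeval_zero_of_hom hl)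
  obtain ⟨A, B, hAB, hBA, hA⟩ := exists_matrix hp
  have hev : ∀ G : MvPolynomial (Fin 3) k, MvPolynomial.eval p G = 0 →
      MvPolynomial.aeval ![(1 : k), 0, 0] (chg A G) = 0 := by
    intro G hG
    rw [aeval_chg]
    have h1 : (fun i => algebraMap k k (A i 0) * (![(1 : k), 0, 0] : Fin 3 → k) 0 +
        algebraMap k k (A i 1) * (![(1 : k), 0, 0] : Fin 3 → k) 1 +
        algebraMap k k (A i 2) * (![(1 : k), 0, 0] : Fin 3 → k) 2) = p := by
      funext i
      simp [hA]
    rw [h1]
    exact hG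
  have h1 := natDegree_lt' (N := 4) (chg_hom A hq) (hev q (hp' 0))
  have h2 := natDegree_lt' (N := 0) (chg_hom A hl) (hev l (hp' 1))
  have hF := hq.mul hl
  have hd : (MvPolynomial.finSuccEquiv k 2 (chg A (q * l))).natDegree ≤ 4 := by
    rw [chg_mul, map_mul]
    exact Polynomial.natDegree_mul_le.trans (Nat.add_le_add h1 h2)
  obtain ⟨o, ho⟩ := exists_ram (pc (chg A (q * l)))
  refine ⟨(blow A B hBA (q * l) hF hd).map k o, fun y x x' => ?_⟩
  have hs := blow_surj hAB hBA hF hd
  obtain ⟨z, rfl⟩ := hs x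
  obtain ⟨z', rfl⟩ := hs x'
  obtain ⟨w, rfl⟩ : ∃ w : Fin n → (dcover 1 (pc (chg A (q * l)))).Pt k,
      (fun j => (blow A B hBA (q * l) hF hd).map k (w j)) = y := by
    choose g hg using hs
    exact ⟨fun j => g (y j), funext fun j => hg (y j)⟩
  have h3 := (blow A B hBA (q * l) hF hd).ch_Wd i i' w o z z'
  have h4 := congrArg ((blow A B hBA (q * l) hF hd).ch n)
    (Wd_dcover (wts_pc (chg_hom A hF)) ho hi w z z')
  rw [map_zero] at h4
  exact h3.symm.trans h4

theorem voisin_quintic_line_res {n : ℕ} (hn : 2 ≤ n) {q l : MvPolynomial (Fin 3) k}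
    (hq : q.IsHomogeneous 5) (hl : l.IsHomogeneous 1) {S : Geo k}
    {π : Geo.Hom S (dplane (q * l))} (hπ : Geo.Resolves π) : S.Voisin n := by
  have hi : (⟨0, by omega⟩ : Fin n) ≠ ⟨1, by omega⟩ := by
    intro hh
    have := congrArg Fin.val hh
    simp at this
  obtain ⟨o, ho⟩ := Wd_quintic_line hi hq hl
  exact hπ.voisin (dplane_nice (hq.mul hl)) hi (o := o) ho

end

end Pool.Agent.H833.EK
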