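import Pool.Agent.H833.EK.Lines2

/-!
# Parametrisation of the points of the cubics by the points of the Jacobian curves
-/

set_option autoImplicit false
set_option linter.unusedSectionVars false

namespace Pool.Agent.H833.EK

section

variable {F : Type} [Field F]

/-- A factor of the denominator. -/
def qq (α₁ α₂ x : F) : F := x ^ 2 + (α₁ + α₂) * x + α₁ ^ 2 - α₁ * α₂ + α₂ ^ 2

/-- The first coordinate. -/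
def pp₁ (α₁ α₂ β x η : F) : F := (η * (α₁ - 2 * α₂ - x) + 9 * β * (x + α₁)) / (6 * qq α₁ α₂ x)

/-- The second coordinate. -/
def pp₂ (α₁ α₂ β x η : F) : F := (η * (α₂ - 2 * α₁ - x) - 9 * β * (x + α₂)) / (6 * qq α₁ α₂ x)

/-- The equation of the Jacobian curve. -/
def EqJ (α₁ α₂ β x η : F) : Prop :=
  η ^ 2 = 4 * x ^ 3 - 12 * α₁ * α₂ * x - (4 * α₁ ^ 3 + 4 * α₂ ^ 3 + 27 * β ^ 2)

variable [CharZero F]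

theorem pp_curve {α₁ α₂ β x η : F} (h : EqJ α₁ α₂ β x η) (hq : qq α₁ α₂ x ≠ 0) :
    pp₂ α₁ α₂ β x η ^ 3 + α₂ * pp₂ α₁ α₂ β x η + β =
      pp₁ α₁ α₂ β x η ^ 3 + α₁ * pp₁ α₁ α₂ β x η := by
  unfold EqJ at h
  have h2 : pp₂ α₁ α₂ β x η * (6 * qq α₁ α₂ x) = η * (α₂ - 2 * α₁ - x) - 9 * β * (x + α₂) := by
    unfold pp₂; field_simp
  have h1 : pp₁ α₁ α₂ β x η * (6 * qq α₁ α₂ x) = η * (α₁ - 2 * α₂ - x) + 9 * β * (x + α₁) := by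
    unfold pp₁; field_simp
  set P := pp₁ α₁ α₂ β x η
  set R := pp₂ α₁ α₂ β x η
  have h6 : (6 * qq α₁ α₂ x) ^ 3 ≠ 0 := pow_ne_zero 3 (mul_ne_zero (by norm_num) hq)
  refine mul_left_cancel₀ h6 ?_
  have e2 : (6 * qq α₁ α₂ x) ^ 3 * (R ^ 3 + α₂ * R + β) = (R * (6 * qq α₁ α₂ x)) ^ 3 +
      α₂ * (6 * qq α₁ α₂ x) ^ 2 * (R * (6 * qq α₁ α₂ x)) + β * (6 * qq α₁ α₂ x) ^ 3 := by ring
  have e1 : (6 * qq α₁ α₂ x) ^ 3 * (P ^ 3 + α₁ * P) = (P * (6 * qq α₁ α₂ x)) ^ 3 +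
      α₁ * (6 * qq α₁ α₂ x) ^ 2 * (P * (6 * qq α₁ α₂ x)) := by ring
  rw [e2, e1, h1, h2]
  unfold qq
  linear_combination 9 * (x ^ 2 + (α₁ + α₂) * x + α₁ ^ 2 - α₁ * α₂ + α₂ ^ 2) *
    ((α₂ - α₁) * η - 3 * β * (2 * x + α₁ + α₂)) * h

/-- The product of the three linear factors. -/
def Lam (α₁ α₂ x : F) : F := x ^ 3 - 3 * α₁ * α₂ * x - α₁ ^ 3 - α₂ ^ 3

theorem Lam_eq {α₁ α₂ x ω : F} (hω : ω ^ 2 + ω + 1 = 0) : Lam α₁ α₂ x =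
    (x - α₁ - α₂) * (x - ω * α₁ - ω ^ 2 * α₂) * (x - ω ^ 2 * α₁ - ω * α₂) := by
  unfold Lam
  grind

theorem qq_eq {α₁ α₂ x ω : F} (hω : ω ^ 2 + ω + 1 = 0) : qq α₁ α₂ x =
    (x - ω * α₁ - ω ^ 2 * α₂) * (x - ω ^ 2 * α₁ - ω * α₂) := by
  unfold qq
  grind

theorem qq_eq' {α₁ α₂ x ω : F} (hω : ω ^ 2 + ω + 1 = 0) : qq (ω ^ 2 * α₁) (ω * α₂) x =
    (x - α₁ - α₂) * (x - ω * α₁ - ω ^ 2 * α₂) := by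
  unfold qq
  grind

theorem line_a {α₁ α₂ β x η ω : F} (hω : ω ^ 2 + ω + 1 = 0) (hΛ : Lam α₁ α₂ x ≠ 0) :
    ω * pp₂ (ω ^ 2 * α₁) (ω * α₂) β x η - pp₁ (ω ^ 2 * α₁) (ω * α₂) β x η =
      ((1 - ω) * η + 9 * ω ^ 2 * β) / (6 * (x - ω * α₁ - ω ^ 2 * α₂)) := by
  rw [Lam_eq hω] at hΛ
  have h2 := right_ne_zero_of_mul (left_ne_zero_of_mul hΛ)
  have h1 := left_ne_zero_of_mul (left_ne_zero_of_mul hΛ)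
  unfold pp₂ pp₁
  rw [qq_eq' hω]
  field_simp
  grind

theorem line_b {α₁ α₂ β x η ω : F} (hω : ω ^ 2 + ω + 1 = 0) (hΛ : Lam α₁ α₂ x ≠ 0) :
    pp₂ α₁ α₂ β x (-η) - ω * pp₁ α₁ α₂ β x (-η) =
      ((1 - ω) * η + 9 * ω ^ 2 * β) / (6 * (x - ω * α₁ - ω ^ 2 * α₂)) := by
  rw [Lam_eq hω] at hΛ
  have h2 := right_ne_zero_of_mul (left_ne_zero_of_mul hΛ)
  have h3 := right_ne_zero_of_mul hΛ
  unfold pp₂ pp₁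
  rw [qq_eq hω]
  obtain ⟨l₁, hl₁⟩ : ∃ l, l = x - ω * α₁ - ω ^ 2 * α₂ := ⟨_, rfl⟩
  obtain ⟨l₂, hl₂⟩ : ∃ l, l = x - ω ^ 2 * α₁ - ω * α₂ := ⟨_, rfl⟩
  rw [← hl₁] at h2 ⊢
  rw [← hl₂] at h3 ⊢
  field_simp
  subst hl₁ hl₂
  clear h2 h3 hΛ
  grind

theorem line_n {α₁ α₂ β x η ω : F} (hω : ω ^ 2 + ω + 1 = 0) (hΛ : Lam α₁ α₂ x ≠ 0)
    (h : EqJ α₁ α₂ β x η) :
    ((1 - ω) * η + 9 * ω ^ 2 * β) / (6 * (x - ω * α₁ - ω ^ 2 * α₂)) ≠ 0 := by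
  have hΛ' := hΛ
  rw [Lam_eq hω] at hΛ
  have h2 := right_ne_zero_of_mul (left_ne_zero_of_mul hΛ)
  refine div_ne_zero (fun h0 => ?_) (mul_ne_zero (by norm_num) h2)
  have h5 : ((1 - ω) * η + 9 * ω ^ 2 * β) * ((1 - ω) * η - 9 * ω ^ 2 * β) =
      -12 * ω * Lam α₁ α₂ x := by
    unfold EqJ at h
    unfold Lam
    grind
  rw [h0, zero_mul] at h5
  have hω0 : ω ≠ 0 := by
    rintro rfl
    simp at hω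
  exact (mul_ne_zero (mul_ne_zero (by norm_num) hω0) hΛ') h5.symm

theorem line_sum {α₁ α₂ β x η ω : F} (hω : ω ^ 2 + ω + 1 = 0) (hΛ : Lam α₁ α₂ x ≠ 0)
    (h : EqJ α₁ α₂ β x η) :
    3 * ω ^ 2 * (((1 - ω) * η + 9 * ω ^ 2 * β) / (6 * (x - ω * α₁ - ω ^ 2 * α₂))) *
      (ω ^ 2 * pp₁ (ω ^ 2 * α₁) (ω * α₂) β x η + pp₁ α₁ α₂ β x (-η)) +
      (3 * ω * (((1 - ω) * η + 9 * ω ^ 2 * β) / (6 * (x - ω * α₁ - ω ^ 2 * α₂))) ^ 2 + α₂ * ω -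
        α₁) = 0 := by
  rw [Lam_eq hω] at hΛ
  have h2 := right_ne_zero_of_mul (left_ne_zero_of_mul hΛ)
  have h3 := right_ne_zero_of_mul hΛ
  have h1 := left_ne_zero_of_mul (left_ne_zero_of_mul hΛ)
  unfold EqJ at h
  unfold pp₁
  rw [qq_eq' hω, qq_eq (α₁ := α₁) hω]
  obtain ⟨l₀, hl₀⟩ : ∃ l, l = x - α₁ - α₂ := ⟨_, rfl⟩
  obtain ⟨l₁, hl₁⟩ : ∃ l, l = x - ω * α₁ - ω ^ 2 * α₂ := ⟨_, rfl⟩
  obtain ⟨l₂, hl₂⟩ : ∃ l, l = x - ω ^ 2 * α₁ - ω * α₂ := ⟨_, rfl⟩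
  rw [← hl₀] at h1 ⊢
  rw [← hl₁] at h2 ⊢
  rw [← hl₂] at h3 ⊢
  field_simp
  subst hl₀ hl₁ hl₂
  clear h1 h2 h3 hΛ
  grind

theorem pp₁_swap (α₁ α₂ β x η : F) : pp₁ α₂ α₁ (-β) x η = pp₂ α₁ α₂ β x η := by
  unfold pp₁ pp₂ qq
  congr 1 <;> ring

theorem pp₂_swap (α₁ α₂ β x η : F) : pp₂ α₂ α₁ (-β) x η = pp₁ α₁ α₂ β x η := by
  unfold pp₁ pp₂ qq
  congr 1 <;> ring

theorem pp₁_neg (α₁ α₂ β x η : F) : pp₁ α₁ α₂ (-β) x (-η) = -pp₁ α₁ α₂ β x η := by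
  unfold pp₁
  rw [← neg_div]
  congr 1; ring

theorem pp₂_neg (α₁ α₂ β x η : F) : pp₂ α₁ α₂ (-β) x (-η) = -pp₂ α₁ α₂ β x η := by
  unfold pp₂
  rw [← neg_div]
  congr 1; ring

theorem EqJ.neg {α₁ α₂ β x η : F} (h : EqJ α₁ α₂ β x η) : EqJ α₁ α₂ β x (-η) := by
  unfold EqJ at *
  rw [neg_sq]; exact h

theorem EqJ.neg' {α₁ α₂ β x η : F} (h : EqJ α₁ α₂ β x η) : EqJ α₁ α₂ (-β) x η := by
  unfold EqJ at *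
  rw [neg_sq]; exact h

theorem EqJ.swap {α₁ α₂ β x η : F} (h : EqJ α₁ α₂ β x η) : EqJ α₂ α₁ β x η := by
  unfold EqJ at *
  rw [h]; ring

theorem Lam_swap (α₁ α₂ x : F) : Lam α₂ α₁ x = Lam α₁ α₂ x := by
  unfold Lam; ring

theorem qq_ne_zero {α₁ α₂ x : F} (h : Lam α₁ α₂ x ≠ 0) : qq α₁ α₂ x ≠ 0 := by
  have h1 : Lam α₁ α₂ x = (x - α₁ - α₂) * qq α₁ α₂ x := by
    unfold Lam qq; ring
  rw [h1] at h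
  exact right_ne_zero_of_mul h

/-- The inverse of the parametrisation. -/
theorem exists_param {α₁ α₂ β p₁ p₂ : F} (h : p₂ ^ 3 + α₂ * p₂ + β = p₁ ^ 3 + α₁ * p₁)
    (hd : p₂ - p₁ ≠ 0) : ∃ x η : F, EqJ α₁ α₂ β x η ∧
      (p₂ - p₁) * (2 * x + α₁ + α₂) = -3 * ((α₂ - α₁) * (p₁ + p₂) + 2 * β) ∧
      (qq α₁ α₂ x ≠ 0 → pp₁ α₁ α₂ β x η = p₁ ∧ pp₂ α₁ α₂ β x η = p₂) := by
  obtain ⟨x, hx⟩ : ∃ x : F, (p₂ - p₁) * (2 * x + α₁ + α₂) =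
      -3 * ((α₂ - α₁) * (p₁ + p₂) + 2 * β) := by
    refine ⟨(-3 * ((α₂ - α₁) * (p₁ + p₂) + 2 * β) / (p₂ - p₁) - α₁ - α₂) / 2, ?_⟩
    have h1 : 2 * ((-3 * ((α₂ - α₁) * (p₁ + p₂) + 2 * β) / (p₂ - p₁) - α₁ - α₂) / 2) + α₁ + α₂ =
      -3 * ((α₂ - α₁) * (p₁ + p₂) + 2 * β) / (p₂ - p₁) := by ring
    rw [h1]
    exact mul_div_cancel₀ _ hd
  obtain ⟨η, hη⟩ : ∃ η : F, 2 * η = -3 * ((2 * x + α₁ + α₂) * (p₁ + p₂) -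
      (α₂ - α₁) * (p₂ - p₁)) := ⟨-3 * ((2 * x + α₁ + α₂) * (p₁ + p₂) -
      (α₂ - α₁) * (p₂ - p₁)) / 2, by ring⟩
  refine ⟨x, η, ?_, hx, fun hq => ?_⟩
  · unfold EqJ
    have h4 : (4 * (p₂ - p₁) : F) ≠ 0 := mul_ne_zero (by norm_num) hd
    refine mul_left_cancel₀ h4 ?_
    grind
  · have h6 : (6 * qq α₁ α₂ x : F) ≠ 0 := mul_ne_zero (by norm_num) hq
    unfold pp₁ pp₂
    rw [div_eq_iff h6, div_eq_iff h6]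
    unfold qq
    constructor <;> grind

end

end Pool.Agent.H833.EK
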