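import Pool.Agent.H833.EK.DGeo

/-!
# Binary quartics
-/

set_option autoImplicit false
set_option linter.unusedSectionVars false

namespace Pool.Agent.H833.EK

open Polynomial

section

variable {R : Type} [CommRing R]

/-- The invariant `I` of a binary quartic. -/
def qI (A : Fin 5 → R) : R := 12 * A 0 * A 4 - 3 * A 1 * A 3 + A 2 ^ 2

/-- The invariant `J` of a binary quartic. -/
def qJ (A : Fin 5 → R) : R :=
  72 * A 0 * A 2 * A 4 + 9 * A 1 * A 2 * A 3 - 27 * A 0 * A 3 ^ 2 - 27 * A 4 * A 1 ^ 2 -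
    2 * A 2 ^ 3

/-- The quartic covariant. -/
def q4 (A : Fin 5 → R) (v w : R) : R :=
  (3 * A 1 ^ 2 - 8 * A 0 * A 2) * v ^ 4 + 4 * (A 1 * A 2 - 6 * A 0 * A 3) * v ^ 3 * w +
    2 * (2 * A 2 ^ 2 - 24 * A 0 * A 4 - 3 * A 1 * A 3) * v ^ 2 * w ^ 2 +
    4 * (A 2 * A 3 - 6 * A 1 * A 4) * v * w ^ 3 + (3 * A 3 ^ 2 - 8 * A 2 * A 4) * w ^ 4

/-- The sextic covariant. -/
def q6 (A : Fin 5 → R) (v w : R) : R :=
  (A 1 ^ 3 + 8 * A 0 ^ 2 * A 3 - 4 * A 0 * A 1 * A 2) * v ^ 6 +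
    2 * (16 * A 0 ^ 2 * A 4 + 2 * A 0 * A 1 * A 3 - 4 * A 0 * A 2 ^ 2 + A 1 ^ 2 * A 2) *
      v ^ 5 * w +
    5 * (8 * A 0 * A 1 * A 4 + A 1 ^ 2 * A 3 - 4 * A 0 * A 2 * A 3) * v ^ 4 * w ^ 2 +
    20 * (A 1 ^ 2 * A 4 - A 0 * A 3 ^ 2) * v ^ 3 * w ^ 3 -
    5 * (8 * A 0 * A 3 * A 4 + A 1 * A 3 ^ 2 - 4 * A 1 * A 2 * A 4) * v ^ 2 * w ^ 4 -
    2 * (16 * A 0 * A 4 ^ 2 + 2 * A 1 * A 3 * A 4 - 4 * A 2 ^ 2 * A 4 + A 2 * A 3 ^ 2) *
      v * w ^ 5 -
    (A 3 ^ 3 + 8 * A 1 * A 4 ^ 2 - 4 * A 2 * A 3 * A 4) * w ^ 6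

theorem syzygy (A : Fin 5 → R) (v w : R) :
    27 * q6 A v w ^ 2 = q4 A v w ^ 3 - 48 * qI A * qf A v w ^ 2 * q4 A v w -
      64 * qJ A * qf A v w ^ 3 := by
  unfold q6 q4 qI qJ qf
  ring

theorem qf_hom (A : Fin 5 → R) (r v w : R) : qf A (r * v) (r * w) = r ^ 4 * qf A v w := by
  unfold qf; ring

theorem q4_hom (A : Fin 5 → R) (r v w : R) : q4 A (r * v) (r * w) = r ^ 4 * q4 A v w := by
  unfold q4; ring

theorem q6_hom (A : Fin 5 → R) (r v w : R) : q6 A (r * v) (r * w) = r ^ 6 * q6 A v w := by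
  unfold q6; ring

/-- A binary quadratic form. -/
def qd (Q : Fin 3 → R) (v w : R) : R := Q 0 * v ^ 2 + Q 1 * v * w + Q 2 * w ^ 2

/-- The discriminant of a quadratic form. -/
def dd (Q : Fin 3 → R) : R := Q 1 ^ 2 - 4 * Q 0 * Q 2

/-- The product of two quadratic forms. -/
def mulQ (Q P : Fin 3 → R) : Fin 5 → R :=
  ![Q 0 * P 0, Q 0 * P 1 + Q 1 * P 0, Q 0 * P 2 + Q 1 * P 1 + Q 2 * P 0, Q 1 * P 2 + Q 2 * P 1,
    Q 2 * P 2]

theorem qf_mulQ (Q P : Fin 3 → R) (v w : R) : qf (mulQ Q P) v w = qd Q v w * qd P v w := by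
  unfold qf qd mulQ
  simp
  ring

/-- The coefficients of the bilinear form attached to a pencil of quadratic forms. -/
def ka (Q P : Fin 3 → R) : R := P 0 * Q 1 - Q 0 * P 1
def kb (Q P : Fin 3 → R) : R := P 0 * Q 2 - Q 0 * P 2
def kc (Q P : Fin 3 → R) : R := P 1 * Q 2 - Q 1 * P 2

/-- The resultant. -/
def kR (Q P : Fin 3 → R) : R := kb Q P ^ 2 - ka Q P * kc Q P

/-- The bilinear form attached to a pencil of quadratic forms. -/
def kD (Q P : Fin 3 → R) (v w v' w' : R) : R :=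
  ka Q P * v * v' + kb Q P * (v * w' + v' * w) + kc Q P * w * w'

/-- The involution attached to a pencil of quadratic forms. -/
def kv (Q P : Fin 3 → R) (v w : R) : R := -(kb Q P * v + kc Q P * w)
def kw (Q P : Fin 3 → R) (v w : R) : R := ka Q P * v + kb Q P * w

theorem kD_eq (Q P : Fin 3 → R) (v w v' w' : R) :
    qd P v w * qd Q v' w' - qd Q v w * qd P v' w' = (v * w' - v' * w) * kD Q P v w v' w' := by
  unfold kD ka kb kc qd
  ring

theorem kD_kv (Q P : Fin 3 → R) (v w v' w' : R) :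
    kD Q P v w v' w' = v' * kw Q P v w - w' * kv Q P v w := by
  unfold kD kw kv
  ring

theorem kv_kv (Q P : Fin 3 → R) (v w : R) :
    kv Q P (kv Q P v w) (kw Q P v w) = kR Q P * v := by
  unfold kv kw kR
  ring

theorem kw_kw (Q P : Fin 3 → R) (v w : R) :
    kw Q P (kv Q P v w) (kw Q P v w) = kR Q P * w := by
  unfold kv kw kR
  ring

theorem qd_left (Q P : Fin 3 → R) (v w : R) :
    qd Q (kv Q P v w) (kw Q P v w) = kR Q P * qd Q v w := by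
  unfold kv kw kR qd ka kb kc
  ring

theorem qd_right (Q P : Fin 3 → R) (v w : R) :
    qd P (kv Q P v w) (kw Q P v w) = kR Q P * qd P v w := by
  unfold kv kw kR qd ka kb kc
  ring

theorem kD_kap (Q P : Fin 3 → R) (v w : R) :
    kD Q P (kv Q P v w) (kw Q P v w) (kv Q P v w) (kw Q P v w) = -(kR Q P * kD Q P v w v w) := by
  unfold kD kv kw kR
  ring

theorem q4_mulQ (Q P : Fin 3 → R) (v w : R) :
    q4 (mulQ Q P) v w = 3 * dd Q * qd P v w ^ 2 + 3 * dd P * qd Q v w ^ 2 +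
      (4 * (Q 0 * P 2 + P 0 * Q 2) - 2 * Q 1 * P 1) * (qd Q v w * qd P v w) := by
  unfold q4 mulQ dd qd
  simp
  ring

theorem q6_mulQ (Q P : Fin 3 → R) (v w : R) :
    q6 (mulQ Q P) v w = kD Q P v w v w * (dd Q * qd P v w ^ 2 - dd P * qd Q v w ^ 2) := by
  unfold q6 mulQ dd qd kD ka kb kc
  simp
  ring

theorem disc_mulQ (Q P : Fin 3 → R) :
    4 * qI (mulQ Q P) ^ 3 - qJ (mulQ Q P) ^ 2 = 27 * dd Q * dd P * kR Q P ^ 2 := by
  unfold qI qJ mulQ dd kR ka kb kc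
  simp
  ring

theorem q6_kap (Q P : Fin 3 → R) (v w : R) :
    q6 (mulQ Q P) (kv Q P v w) (kw Q P v w) = -(kR Q P ^ 3 * q6 (mulQ Q P) v w) := by
  rw [q6_mulQ, q6_mulQ, kD_kap, qd_left, qd_right]
  ring

/-- The equality of the first coordinates of the images in the Jacobian. -/
theorem q4_eq (Q P : Fin 3 → R) (v w v' w' : R) :
    q4 (mulQ Q P) v w * qf (mulQ Q P) v' w' - q4 (mulQ Q P) v' w' * qf (mulQ Q P) v w =
      3 * ((v * w' - v' * w) * kD Q P v w v' w') *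
        (dd Q * qd P v w * qd P v' w' - dd P * qd Q v w * qd Q v' w') := by
  rw [q4_mulQ, q4_mulQ, qf_mulQ, qf_mulQ, ← kD_eq]
  ring

/-- The product of two linear forms. -/
def mulL (p q p' q' : R) : Fin 3 → R := ![p * p', p * q' + q * p', q * q']

theorem qd_mulL (p q p' q' v w : R) :
    qd (mulL p q p' q') v w = (p * v + q * w) * (p' * v + q' * w) := by
  unfold qd mulL
  simp
  ring

theorem dd_mulL (p q p' q' : R) : dd (mulL p q p' q') = (p * q' - p' * q) ^ 2 := by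
  unfold dd mulL
  simp
  ring

theorem kR_mulL (p₀ q₀ p₁ q₁ p₂ q₂ p₃ q₃ : R) :
    kR (mulL p₀ q₀ p₁ q₁) (mulL p₂ q₂ p₃ q₃) =
      (p₀ * q₂ - p₂ * q₀) * (p₀ * q₃ - p₃ * q₀) * ((p₁ * q₂ - p₂ * q₁) * (p₁ * q₃ - p₃ * q₁)) := by
  unfold kR ka kb kc mulL
  simp
  ring

theorem kD_mul_kD (p₀ q₀ p₁ q₁ p₂ q₂ p₃ q₃ v w v' w' : R) :
    dd (mulL p₀ q₀ p₁ q₁) * qd (mulL p₂ q₂ p₃ q₃) v w * qd (mulL p₂ q₂ p₃ q₃) v' w' -
      dd (mulL p₂ q₂ p₃ q₃) * qd (mulL p₀ q₀ p₁ q₁) v w * qd (mulL p₀ q₀ p₁ q₁) v' w' =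
    kD (mulL p₀ q₀ p₂ q₂) (mulL p₁ q₁ p₃ q₃) v w v' w' *
      kD (mulL p₀ q₀ p₃ q₃) (mulL p₁ q₁ p₂ q₂) v w v' w' := by
  rw [qd_mulL, qd_mulL, qd_mulL, qd_mulL, dd_mulL, dd_mulL]
  unfold kD ka kb kc mulL
  simp
  ring

/-- The product of four linear forms. -/
def mul4 (p q : Fin 4 → R) : Fin 5 → R :=
  mulQ (mulL (p 0) (q 0) (p 1) (q 1)) (mulL (p 2) (q 2) (p 3) (q 3))

theorem mul4_eq₁ (p q : Fin 4 → R) :
    mul4 p q = mulQ (mulL (p 0) (q 0) (p 2) (q 2)) (mulL (p 1) (q 1) (p 3) (q 3)) := by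
  unfold mul4 mulQ mulL
  funext j
  fin_cases j <;> simp <;> ring

theorem mul4_eq₂ (p q : Fin 4 → R) :
    mul4 p q = mulQ (mulL (p 0) (q 0) (p 3) (q 3)) (mulL (p 1) (q 1) (p 2) (q 2)) := by
  unfold mul4 mulQ mulL
  funext j
  fin_cases j <;> simp <;> ring

theorem disc_mul4 (p q : Fin 4 → R) :
    4 * qI (mul4 p q) ^ 3 - qJ (mul4 p q) ^ 2 = 27 * (p 0 * q 1 - p 1 * q 0) ^ 2 *
      (p 2 * q 3 - p 3 * q 2) ^ 2 * ((p 0 * q 2 - p 2 * q 0) * (p 0 * q 3 - p 3 * q 0) *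
        ((p 1 * q 2 - p 2 * q 1) * (p 1 * q 3 - p 3 * q 1))) ^ 2 := by
  unfold mul4
  rw [disc_mulQ, dd_mulL, dd_mulL, kR_mulL]

end

section

variable {k : Type} [Field k] [IsAlgClosed k]

theorem fac2 (a b c : k) : ∃ p q p' q' : k, a = p * p' ∧ b = p * q' + q * p' ∧ c = q * q' := by
  by_cases ha : a = 0
  · exact ⟨0, 1, b, c, by rw [ha]; ring, by ring, by ring⟩
  · obtain ⟨x, hx⟩ := IsAlgClosed.exists_eval₂_eq_zero_of_injective (RingHom.id k)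
      (RingHom.id k).injective (C a * X ^ 2 + C b * X + C c) (by
        rw [degree_quadratic ha]; decide)
    simp only [eval₂_add, eval₂_mul, eval₂_C, eval₂_pow, eval₂_X, RingHom.id_apply] at hx
    exact ⟨1, -x, a, b + a * x, by ring, by ring, by linear_combination hx⟩

theorem fac3 (a b c d : k) : ∃ p q a' b' c' : k, a = p * a' ∧ b = p * b' + q * a' ∧
    c = p * c' + q * b' ∧ d = q * c' := by
  by_cases ha : a = 0
  · exact ⟨0, 1, b, c, d, by rw [ha]; ring, by ring, by ring, by ring⟩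
  · obtain ⟨x, hx⟩ := IsAlgClosed.exists_eval₂_eq_zero_of_injective (RingHom.id k)
      (RingHom.id k).injective (C a * X ^ 3 + C b * X ^ 2 + C c * X + C d) (by
        rw [degree_cubic ha]; decide)
    simp only [eval₂_add, eval₂_mul, eval₂_C, eval₂_pow, eval₂_X, RingHom.id_apply] at hx
    exact ⟨1, -x, a, b + a * x, c + (b + a * x) * x, by ring, by ring, by ring,
      by linear_combination hx⟩

theorem fac4 (a b c d e : k) : ∃ p q a' b' c' d' : k, a = p * a' ∧ b = p * b' + q * a' ∧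
    c = p * c' + q * b' ∧ d = p * d' + q * c' ∧ e = q * d' := by
  by_cases ha : a = 0
  · exact ⟨0, 1, b, c, d, e, by rw [ha]; ring, by ring, by ring, by ring, by ring⟩
  · have hdeg : (C a * X ^ 4 + (C b * X ^ 3 + C c * X ^ 2 + C d * X + C e) : k[X]).degree = 4 := by
      rw [degree_add_eq_left_of_degree_lt]
      · rw [degree_C_mul_X_pow 4 ha]; rfl
      · rw [degree_C_mul_X_pow 4 ha]
        exact lt_of_le_of_lt degree_cubic_le (by decide)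
    obtain ⟨x, hx⟩ := IsAlgClosed.exists_eval₂_eq_zero_of_injective (RingHom.id k)
      (RingHom.id k).injective
      (C a * X ^ 4 + (C b * X ^ 3 + C c * X ^ 2 + C d * X + C e)) (by
        rw [hdeg]; decide)
    simp only [eval₂_add, eval₂_mul, eval₂_C, eval₂_pow, eval₂_X, RingHom.id_apply] at hx
    exact ⟨1, -x, a, b + a * x, c + (b + a * x) * x, d + (c + (b + a * x) * x) * x, by ring,
      by ring, by ring, by ring, by linear_combination hx⟩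

/-- A binary quartic is a product of linear forms. -/
theorem exists_mul4 (A : Fin 5 → k) : ∃ p q : Fin 4 → k, A = mul4 p q := by
  obtain ⟨p₀, q₀, a', b', c', d', h0, h1, h2, h3, h4⟩ := fac4 (A 0) (A 1) (A 2) (A 3) (A 4)
  obtain ⟨p₁, q₁, a'', b'', c'', g0, g1, g2, g3⟩ := fac3 a' b' c' d'
  obtain ⟨p₂, q₂, p₃, q₃, f0, f1, f2⟩ := fac2 a'' b'' c''
  subst f0; subst f1; subst f2; subst g0; subst g1; subst g2; subst g3
  refine ⟨![p₀, p₁, p₂, p₃], ![q₀, q₁, q₂, q₃], ?_⟩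
  unfold mul4 mulQ mulL
  funext j
  fin_cases j <;> simp [h0, h1, h2, h3, h4] <;> ring

/-- A binary quartic has a zero. -/
theorem exists_zero4 (A : Fin 5 → k) : ∃ v w : k, ¬(v = 0 ∧ w = 0) ∧ qf A v w = 0 := by
  obtain ⟨p₀, q₀, a', b', c', d', h0, h1, h2, h3, h4⟩ := fac4 (A 0) (A 1) (A 2) (A 3) (A 4)
  by_cases h : p₀ = 0 ∧ q₀ = 0
  · obtain ⟨rfl, rfl⟩ := h
    refine ⟨1, 0, by simp, ?_⟩
    unfold qf
    rw [h0]
    ring
  · refine ⟨q₀, -p₀, ?_, ?_⟩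
    · rintro ⟨e1, e2⟩
      exact h ⟨neg_eq_zero.1 e2, e1⟩
    · unfold qf
      rw [h0, h1, h2, h3, h4]
      ring

end

end Pool.Agent.H833.EK
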