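import Pool.Agent.H833.EK.FiltRes

/-!
# Invariant zero-cycles on the powers
-/

set_option autoImplicit false
set_option linter.unusedSectionVars false

namespace Pool.Agent.H833.EK

open FF Polynomial

section

variable {S : Type} {m n : ℕ}

theorem append_eq_iff {x : Fin m → S} {y : Fin n → S} {w : Fin (m + n) → S} :
    Fin.append x y = w ↔ x = (fun i => w (Fin.castAdd n i)) ∧ y = fun i => w (Fin.natAdd m i) := by
  constructor
  · rintro rfl
    exact ⟨funext fun i => (Fin.append_left x y i).symm, funext fun i => (Fin.append_right x y i).symm⟩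
  · rintro ⟨rfl, rfl⟩
    exact Fin.append_castAdd_natAdd

theorem cross_apply (a : (Fin m → S) →₀ ℚ) (b : (Fin n → S) →₀ ℚ) (w : Fin (m + n) → S) :
    cross a b w = a (fun i => w (Fin.castAdd n i)) * b (fun i => w (Fin.natAdd m i)) := by
  classical
  unfold cross
  rw [Finsupp.sum_apply, Finsupp.sum]
  have h1 : ∀ x, (b.sum fun y q => Finsupp.single (Fin.append x y) (a x * q)) w =
      if x = (fun i => w (Fin.castAdd n i)) then a x * b (fun i => w (Fin.natAdd m i)) else 0 := by
    intro x
    rw [Finsupp.sum_apply, Finsupp.sum]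
    split_ifs with hx
    · rw [Finset.sum_eq_single (fun i => w (Fin.natAdd m i))]
      · rw [Finsupp.single_apply, if_pos (append_eq_iff.2 ⟨hx, rfl⟩)]
      · intro y _ hy
        rw [Finsupp.single_apply, if_neg]
        intro h
        exact hy (append_eq_iff.1 h).2
      · intro h
        rw [Finsupp.notMem_support_iff.1 h, mul_zero, Finsupp.single_zero]
        rfl
    · refine Finset.sum_eq_zero fun y _ => ?_
      rw [Finsupp.single_apply, if_neg]
      intro h
      exact hx (append_eq_iff.1 h).1
  simp only [h1]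
  rw [Finset.sum_ite_eq']
  split_ifs with h2
  · rfl
  · rw [Finsupp.notMem_support_iff.1 h2, zero_mul]

theorem ext_append (a : Fin m → (S →₀ ℚ)) (b : Fin n → (S →₀ ℚ)) :
    ext (Fin.append a b) = cross (ext a) (ext b) := by
  ext w
  rw [ext_apply, cross_apply, ext_apply, ext_apply, Fin.prod_univ_add]
  simp only [Fin.append_left, Fin.append_right]

theorem cross_add_left (a a' : (Fin m → S) →₀ ℚ) (b : (Fin n → S) →₀ ℚ) :
    cross (a + a') b = cross a b + cross a' b := by
  ext w
  simp only [cross_apply, Finsupp.add_apply, add_mul]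

theorem cross_smul_left (r : ℚ) (a : (Fin m → S) →₀ ℚ) (b : (Fin n → S) →₀ ℚ) :
    cross (r • a) b = r • cross a b := by
  ext w
  simp only [cross_apply, Finsupp.smul_apply, smul_eq_mul, mul_assoc]

theorem cross_add_right (a : (Fin m → S) →₀ ℚ) (b b' : (Fin n → S) →₀ ℚ) :
    cross a (b + b') = cross a b + cross a b' := by
  ext w
  simp only [cross_apply, Finsupp.add_apply, mul_add]

theorem cross_smul_right (r : ℚ) (a : (Fin m → S) →₀ ℚ) (b : (Fin n → S) →₀ ℚ) :
    cross a (r • b) = r • cross a b := by
  ext w
  simp only [cross_apply, Finsupp.smul_apply, smul_eq_mul]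
  ring

/-- The exterior product as a bilinear map. -/
noncomputable def crossL (S : Type) (m n : ℕ) :
    ((Fin m → S) →₀ ℚ) →ₗ[ℚ] ((Fin n → S) →₀ ℚ) →ₗ[ℚ] ((Fin (m + n) → S) →₀ ℚ) :=
  LinearMap.mk₂ ℚ cross cross_add_left cross_smul_left cross_add_right cross_smul_right

theorem crossL_apply (a : (Fin m → S) →₀ ℚ) (b : (Fin n → S) →₀ ℚ) :
    crossL S m n a b = cross a b := rfl

theorem cross_single (x : Fin m → S) (p : ℚ) (y : Fin n → S) (q : ℚ) :
    cross (Finsupp.single x p) (Finsupp.single y q) =
      Finsupp.single (Fin.append x y) (p * q) := by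
  unfold cross
  rw [Finsupp.sum_single_index, Finsupp.sum_single_index]
  · simp
  · simp

end

namespace Geo

variable {k : Type} [Field k] [CharZero k] [IsAlgClosed k] {G : Geo k} {m n j : ℕ}

theorem cross_rat_left (hG : G.Nice) {a : (Fin m → G.Pt k) →₀ ℚ} (ha : a ∈ G.Rat m)
    (b : (Fin n → G.Pt k) →₀ ℚ) : cross a b ∈ G.Rat (m + n) := by
  induction b using Finsupp.induction_linear with
  | zero =>
    have h : cross a (0 : (Fin n → G.Pt k) →₀ ℚ) = 0 := (crossL (G.Pt k) m n a).map_zero
    rw [h]; exact Submodule.zero_mem _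
  | add b b' h1 h2 => rw [cross_add_right]; exact Submodule.add_mem _ h1 h2
  | single y q =>
    have h : G.Rat m ≤ (G.Rat (m + n)).comap
        ((crossL (G.Pt k) m n).flip (Finsupp.single y q)) := by
      refine Submodule.span_le.2 ?_
      rintro _ ⟨K, i1, i2, i3, f, P, φ, hf, hφ, rfl⟩
      choose Y hY using fun j => hG.cst K (y j)
      rw [SetLike.mem_coe, Submodule.mem_comap]
      have h1 : (crossL (G.Pt k) m n).flip (Finsupp.single y q)
          ((divisor k f).sum fun v m => Finsupp.single (φ v) (m : ℚ)) =
          q • (divisor k f).sum fun v m => Finsupp.single (Fin.append (φ v) y) (m : ℚ) := by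
        unfold Finsupp.sum
        rw [map_sum, Finset.smul_sum]
        refine Finset.sum_congr rfl fun v _ => ?_
        rw [LinearMap.flip_apply, crossL_apply, cross_single, Finsupp.smul_single, smul_eq_mul,
          mul_comm]
      rw [h1]
      refine Submodule.smul_mem _ _ (Submodule.subset_span ⟨K, i1, i2, i3, f, Fin.append P Y,
        fun v => Fin.append (φ v) y, hf, fun v i => ?_, rfl⟩)
      refine Fin.addCases (fun i => ?_) (fun i => ?_) i
      · simp only [Fin.append_left]; exact hφ v i
      · simp only [Fin.append_right]; exact hY i v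
    exact h ha

theorem cross_rat_right (hG : G.Nice) (a : (Fin m → G.Pt k) →₀ ℚ)
    {b : (Fin n → G.Pt k) →₀ ℚ} (hb : b ∈ G.Rat n) : cross a b ∈ G.Rat (m + n) := by
  induction a using Finsupp.induction_linear with
  | zero =>
    have h : cross (0 : (Fin m → G.Pt k) →₀ ℚ) b = 0 :=
      ((crossL (G.Pt k) m n).flip b).map_zero
    rw [h]; exact Submodule.zero_mem _
  | add b b' h1 h2 => rw [cross_add_left]; exact Submodule.add_mem _ h1 h2
  | single x p =>
    have h : G.Rat n ≤ (G.Rat (m + n)).comap
        (crossL (G.Pt k) m n (Finsupp.single x p)) := by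
      refine Submodule.span_le.2 ?_
      rintro _ ⟨K, i1, i2, i3, f, P, φ, hf, hφ, rfl⟩
      choose X hX using fun j => hG.cst K (x j)
      rw [SetLike.mem_coe, Submodule.mem_comap]
      have h1 : crossL (G.Pt k) m n (Finsupp.single x p)
          ((divisor k f).sum fun v m => Finsupp.single (φ v) (m : ℚ)) =
          p • (divisor k f).sum fun v m => Finsupp.single (Fin.append x (φ v)) (m : ℚ) := by
        unfold Finsupp.sum
        rw [map_sum, Finset.smul_sum]
        refine Finset.sum_congr rfl fun v _ => ?_
        rw [crossL_apply, cross_single, Finsupp.smul_single, smul_eq_mul]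
      rw [h1]
      refine Submodule.smul_mem _ _ (Submodule.subset_span ⟨K, i1, i2, i3, f, Fin.append X P,
        fun v => Fin.append x (φ v), hf, fun v i => ?_, rfl⟩)
      refine Fin.addCases (fun i => ?_) (fun i => ?_) i
      · simp only [Fin.append_left]; exact hX i v
      · simp only [Fin.append_right]; exact hφ v i
    exact h hb

variable {o : G.Pt k}

theorem Ec_ad (hG : G.Nice) {K : Type} [Field K] [Algebra k K] {P : Fin n → G.Pt K}
    {φ : Place k K → Fin n → G.Pt k} (h : ∀ v i, G.Sp v (P i) (φ v i)) (T : Finset (Fin n)) :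
    (fun v => G.Ec o T (φ v)) ∈ G.Ad (n := n) K := by
  classical
  obtain ⟨O, hO⟩ := hG.cst K o
  have key : ∀ (T : Finset (Fin n)) (Q : Fin n → G.Pt K) (ψ : Place k K → Fin n → G.Pt k),
      (∀ v i, G.Sp v (Q i) (ψ v i)) →
      (fun v => G.Λ n (T.piecewise (fun j => Finsupp.single (φ v j) 1 - Finsupp.single o 1)
        (fun j => Finsupp.single (ψ v j) 1))) ∈ G.Ad (n := n) K := by
    intro T
    induction T using Finset.induction_on with
    | empty =>
      intro Q ψ hψ
      simp only [Finset.piecewise_empty, Λ_single]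
      exact Ad.of hψ
    | insert i s hi ih =>
      intro Q ψ hψ
      have h1 : ∀ (R : G.Pt K) (r : Place k K → G.Pt k), (∀ v, G.Sp v R (r v)) →
          (fun v => G.Λ n (Function.update (s.piecewise
            (fun j => Finsupp.single (φ v j) 1 - Finsupp.single o 1)
            (fun j => Finsupp.single (ψ v j) 1)) i (Finsupp.single (r v) 1))) ∈
            G.Ad (n := n) K := by
        intro R r hR
        have h2 := ih (Function.update Q i R) (fun v => Function.update (ψ v) i (r v)) (by
          intro v l
          by_cases hl : l = i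
          · subst hl
            rw [Function.update_self, Function.update_self]
            exact hR v
          · rw [Function.update_of_ne hl, Function.update_of_ne hl]
            exact hψ v l)
        convert h2 using 3 with v
        funext l
        by_cases hl : l = i
        · subst hl
          rw [Function.update_self, Finset.piecewise_eq_of_notMem _ _ _ hi, Function.update_self]
        · rw [Function.update_of_ne hl]
          by_cases hls : l ∈ s
          · rw [Finset.piecewise_eq_of_mem _ _ _ hls, Finset.piecewise_eq_of_mem _ _ _ hls]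
          · rw [Finset.piecewise_eq_of_notMem _ _ _ hls, Finset.piecewise_eq_of_notMem _ _ _ hls,
              Function.update_of_ne hl]
      have h3 := Submodule.sub_mem _ (h1 (P i) (fun v => φ v i) (fun v => h v i)) (h1 O _ hO)
      convert h3 using 1
      funext v
      rw [Finset.piecewise_insert]
      exact (G.Λ n).map_update_sub _ _ _ _
  exact key T (fun _ => O) (fun _ _ => o) fun v _ => hO v

variable (G) (n) in
/-- The components of a zero-cycle. -/
noncomputable def PT (o : G.Pt k) (T : Finset (Fin n)) : ((Fin n → G.Pt k) →₀ ℚ) →ₗ[ℚ] G.CH n :=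
  Finsupp.linearCombination ℚ fun x => G.Ec o T x

theorem PT_rat (hG : G.Nice) (T : Finset (Fin n)) {z : (Fin n → G.Pt k) →₀ ℚ}
    (hz : z ∈ G.Rat n) : G.PT n o T z = 0 := by
  have h : G.Rat n ≤ LinearMap.ker (G.PT n o T) := by
    refine Submodule.span_le.2 ?_
    rintro _ ⟨K, i1, i2, i3, f, P, φ, hf, hφ, rfl⟩
    rw [SetLike.mem_coe, LinearMap.mem_ker]
    have h3 := Ad.sum_eq_zero (Ec_ad (o := o) hG hφ T) hf
    unfold Finsupp.sum at h3 ⊢
    rw [map_sum, ← h3]
    refine Finset.sum_congr rfl fun v _ => ?_
    unfold PT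
    rw [Finsupp.linearCombination_single]
  exact h hz

theorem sum_PT (o : G.Pt k) (z : (Fin n → G.Pt k) →₀ ℚ) :
    (G.Rat n).mkQ z = ∑ T : Finset (Fin n), G.PT n o T z := by
  induction z using Finsupp.induction_linear with
  | zero => simp
  | add a b h1 h2 => simp only [map_add, h1, h2, Finset.sum_add_distrib]
  | single x c =>
    have h1 : (G.Rat n).mkQ (Finsupp.single x c) = c • G.cl x := by
      unfold cl
      rw [← map_smul, Finsupp.smul_single, smul_eq_mul, mul_one]
    rw [h1, cl_eq_sum o, Finset.smul_sum]
    refine Finset.sum_congr rfl fun T _ => ?_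
    unfold PT
    rw [Finsupp.linearCombination_single]

open Classical in
theorem PT_act {ι : Hom G G} (hS : G.Sw n o) {g : Coord n n}
    (hι : ∀ j l, g j = some (l, true) → ∀ x, G.Opp n o x (ι.map k x)) {T : Finset (Fin n)}
    (hT : T.image (fun j => (g j).map Prod.fst) = T.image some) (z : (Fin n → G.Pt k) →₀ ℚ) :
    G.PT n o T (Finsupp.lmapDomain ℚ ℚ (g.act (ι.map k) o) z) = (∏ j ∈ T, g.sgn j) •
      G.PT n o T z := by
  obtain ⟨F, hF, hFg⟩ := exists_F hT rfl
  have h1 : ∀ x, G.Ec o T (g.act (ι.map k) o x) = (∏ j ∈ T, g.sgn j) • G.Ec o T x := by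
    intro x
    have e1 := Ec_act hι hFg x
    have e2 : G.Ec o T x = G.Dc o (T' := T) (T := T) id x := by
      unfold Ec Dc
      congr 1
    rw [e1, e2, Dc_eq hS hF Function.bijective_id x]
  induction z using Finsupp.induction_linear with
  | zero => simp
  | add a b h1 h2 => rw [map_add, map_add, map_add, h1, h2, smul_add]
  | single x c =>
    rw [Finsupp.lmapDomain_apply, Finsupp.mapDomain_single]
    unfold PT
    rw [Finsupp.linearCombination_single, Finsupp.linearCombination_single, h1, smul_comm]

open Classical in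
/-- The components of an eigenvector. -/
theorem PT_zero (hG : G.Nice) {ι : Hom G G} (hS : G.Sw n o) {g : Coord n n}
    (hι : ∀ j l, g j = some (l, true) → ∀ x, G.Opp n o x (ι.map k x)) {T : Finset (Fin n)}
    (hT : T.image (fun j => (g j).map Prod.fst) = T.image some) {z : (Fin n → G.Pt k) →₀ ℚ}
    {r : ℚ} (hz : Finsupp.lmapDomain ℚ ℚ (g.act (ι.map k) o) z - r • z ∈ G.Rat n)
    (hr : ∏ j ∈ T, g.sgn j ≠ r) : G.PT n o T z = 0 := by
  have h1 := PT_rat (o := o) hG T hz
  rw [map_sub, map_smul, PT_act hS hι hT, ← sub_smul] at h1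
  exact (smul_eq_zero.1 h1).resolve_left (sub_ne_zero.2 hr)

/-- The total degree. -/
theorem PT_empty (z : (Fin n → G.Pt k) →₀ ℚ) (hz : (z.sum fun _ q => q) = 0) :
    G.PT n o ∅ z = 0 := by
  unfold PT
  rw [Finsupp.linearCombination_apply]
  have h1 : ∀ x : Fin n → G.Pt k, G.Ec o ∅ x = G.cl fun _ => o := by
    intro x
    unfold Ec
    rw [Finset.piecewise_empty, Λ_single]
  simp only [h1]
  unfold Finsupp.sum at hz ⊢
  rw [← Finset.sum_smul, hz, zero_smul]

/-- The top component as a cycle. -/
noncomputable def top (o : G.Pt k) (z : (Fin n → G.Pt k) →₀ ℚ) : (Fin n → G.Pt k) →₀ ℚ :=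
  z.sum fun x q => q • ext fun i => Finsupp.single (x i) 1 - Finsupp.single o 1

theorem mkQ_top (z : (Fin n → G.Pt k) →₀ ℚ) :
    (G.Rat n).mkQ (top o z) = G.PT n o Finset.univ z := by
  unfold top PT Finsupp.sum
  rw [map_sum, Finsupp.linearCombination_apply, Finsupp.sum]
  refine Finset.sum_congr rfl fun x _ => ?_
  rw [map_smul]
  congr 1
  unfold Ec
  rw [Finset.piecewise_univ]
  rfl

/-- Products of cycles which are equal to their top components commute. -/
theorem cross_comm (hG : G.Nice) (hS : G.Sw (m + m) o) {a b : (Fin m → G.Pt k) →₀ ℚ}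
    (ha : a - top o a ∈ G.Rat m) (hb : b - top o b ∈ G.Rat m) :
    cross a b - cross b a ∈ G.Rat (m + m) := by
  classical
  have h1 : (G.Rat (m + m)).mkQ (cross a b) = (G.Rat (m + m)).mkQ (cross (top o a) (top o b)) := by
    rw [← sub_eq_zero, ← map_sub, Submodule.mkQ_apply, Submodule.Quotient.mk_eq_zero]
    have e1 := cross_rat_left hG ha b
    have e2 := cross_rat_right hG (top o a) hb
    have e3 : cross a b - cross (top o a) (top o b) =
        cross (a - top o a) b + cross (top o a) (b - top o b) := by
      ext w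
      simp only [cross_apply, Finsupp.add_apply, Finsupp.sub_apply]
      ring
    rw [e3]
    exact Submodule.add_mem _ e1 e2
  have h2 : (G.Rat (m + m)).mkQ (cross b a) = (G.Rat (m + m)).mkQ (cross (top o b) (top o a)) := by
    rw [← sub_eq_zero, ← map_sub, Submodule.mkQ_apply, Submodule.Quotient.mk_eq_zero]
    have e1 := cross_rat_left hG hb a
    have e2 := cross_rat_right hG (top o b) ha
    have e3 : cross b a - cross (top o b) (top o a) =
        cross (b - top o b) a + cross (top o b) (a - top o a) := by
      ext w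
      simp only [cross_apply, Finsupp.add_apply, Finsupp.sub_apply]
      ring
    rw [e3]
    exact Submodule.add_mem _ e1 e2
  have h3 : ∀ x y : Fin m → G.Pt k, (G.Rat (m + m)).mkQ
      (cross (ext fun i => Finsupp.single (x i) 1 - Finsupp.single o 1)
        (ext fun i => Finsupp.single (y i) 1 - Finsupp.single o 1)) =
      (G.Rat (m + m)).mkQ (cross (ext fun i => Finsupp.single (y i) 1 - Finsupp.single o 1)
        (ext fun i => Finsupp.single (x i) 1 - Finsupp.single o 1)) := by
    intro x y
    rw [← ext_append, ← ext_append, ← Λ_apply, ← Λ_apply]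
    let π : Equiv.Perm (Fin (m + m)) := finAddFlip
    let π' : Equiv.Perm {j : Fin (m + m) // True} :=
      ((Equiv.Set.univ (Fin (m + m))).symm.permCongr π : Equiv.Perm (Set.univ : Set (Fin (m + m))))
    have h4 := Λ_perm hS (fun _ => True) π' (Fin.append
      (fun i => Finsupp.single (x i) 1 - Finsupp.single o 1)
      (fun i => Finsupp.single (y i) 1 - Finsupp.single o 1)) (fun j _ => by
        refine Fin.addCases (fun i => ?_) (fun i => ?_) j
        · rw [Fin.append_left, deg_sub, deg_single, deg_single, sub_self]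
        · rw [Fin.append_right, deg_sub, deg_single, deg_single, sub_self])
    rw [← h4]
    congr 1
    funext j
    rw [Equiv.Perm.ofSubtype_apply_of_mem π' trivial]
    change Fin.append _ _ (π j) = _
    refine Fin.addCases (fun i => ?_) (fun i => ?_) j
    · have : π (Fin.castAdd m i) = Fin.natAdd m i := finAddFlip_apply_castAdd i m
      rw [this, Fin.append_right, Fin.append_left]
    · have : π (Fin.natAdd m i) = Fin.castAdd m i := finAddFlip_apply_natAdd i m
      rw [this, Fin.append_right, Fin.append_left]
  rw [← Submodule.Quotient.mk_eq_zero, ← Submodule.mkQ_apply, map_sub, h1, h2, sub_eq_zero]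
  have h5 : ∀ a b : (Fin m → G.Pt k) →₀ ℚ, cross (top o a) (top o b) =
      ∑ x ∈ a.support, ∑ y ∈ b.support, (a x * b y) •
        cross (ext fun i => Finsupp.single (x i) 1 - Finsupp.single o 1)
        (ext fun i => Finsupp.single (y i) 1 - Finsupp.single o 1) := by
    intro a b
    change crossL _ _ _ (top o a) (top o b) = _
    unfold top Finsupp.sum
    rw [map_sum, Finset.sum_comm]
    refine Finset.sum_congr rfl fun y _ => ?_
    rw [map_smul, map_sum, LinearMap.sum_apply, Finset.smul_sum]
    refine Finset.sum_congr rfl fun x _ => ?_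
    rw [map_smul, LinearMap.smul_apply, smul_smul, mul_comm (b y)]
    rfl
  rw [h5, h5, map_sum, map_sum]
  simp only [map_sum, map_smul]
  rw [Finset.sum_comm]
  refine Finset.sum_congr rfl fun y _ => Finset.sum_congr rfl fun x _ => ?_
  rw [h3, mul_comm]

end Geo

end Pool.Agent.H833.EK
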