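import Pool.Agent.H833.EK.Quot

/-!
# Quotients of powers, and antisymmetric zero-cycles
-/

set_option autoImplicit false
set_option linter.unusedSectionVars false

namespace Pool.Agent.H833.EK

open FF Polynomial

/-- The automorphism of the `m`-th power of a variety with an involution `ι` given by a signed
permutation `(σ, s)`: the component with index `j` is `x_σ(j)` or `ι x_σ(j)`, according to the
value of `s j`. -/
def sp {m : ℕ} (g : Equiv.Perm (Fin m) × (Fin m → Bool)) : Coord m m := fun j =>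
  some (g.1 j, g.2 j)

theorem sp_image {m : ℕ} (g : Equiv.Perm (Fin m) × (Fin m → Bool)) {T : Finset (Fin m)}
    [DecidableEq (Option (Fin m))] (hT : ∀ j ∈ T, g.1 j ∈ T) :
    T.image (fun j => (sp g j).map Prod.fst) = T.image some := by
  have h1 : T.image (fun j => (sp g j).map Prod.fst) ⊆ T.image some := by
    intro z hz
    obtain ⟨j, hj, rfl⟩ := Finset.mem_image.1 hz
    exact Finset.mem_image_of_mem _ (hT j hj)
  refine Finset.eq_of_subset_of_card_le h1 ?_
  rw [Finset.card_image_of_injective _ (Option.some_injective _),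
    Finset.card_image_of_injective]
  intro i j hij
  exact g.1.injective (Option.some_injective _ hij)

theorem sgT_eq {m : ℕ} (g : Equiv.Perm (Fin m) × (Fin m → Bool)) (T : Finset (Fin m)) :
    ∏ j ∈ T, (sp g).sgn j = sgT g T := by
  unfold sgT
  refine Finset.prod_congr rfl fun j _ => ?_
  unfold Coord.sgn sp
  cases g.2 j <;> rfl

namespace Geo

variable {k : Type} [Field k] [CharZero k] [IsAlgClosed k] {G : Geo k} {m n j : ℕ} {o : G.Pt k}
  {ι : Hom G G}

/-- Invariant cycles. -/
theorem strict_top (hG : G.Nice) (hι : ∀ x, G.Opp m o x (ι.map k x)) (hS : G.Sw m o)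
    {Γ : Set (Equiv.Perm (Fin m) × (Fin m → Bool))}
    (hΓ : ∀ T : Finset (Fin m), T.Nonempty → T ≠ Finset.univ →
      ∃ g ∈ Γ, (∀ j ∈ T, g.1 j ∈ T) ∧ sgT g T = -1)
    {a : (Fin m → G.Pt k) →₀ ℚ} (ha : (a.sum fun _ q => q) = 0)
    (hinv : ∀ g ∈ Γ, Finsupp.mapDomain ((sp g).act (ι.map k) o) a - a ∈ G.Rat m) :
    a - top o a ∈ G.Rat m := by
  classical
  rw [← Submodule.Quotient.mk_eq_zero, ← Submodule.mkQ_apply, map_sub, mkQ_top, sum_PT o,
    Finset.sum_eq_single Finset.univ, sub_self]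
  · intro T _ hT
    rcases T.eq_empty_or_nonempty with rfl | hne
    · exact PT_empty a ha
    · obtain ⟨g, hg, hgT, hs⟩ := hΓ T hne hT
      refine PT_zero (ι := ι) (g := sp g) (r := 1) hG hS (fun _ _ _ x => hι x)
        (sp_image g hgT) ?_ ?_
      · rw [one_smul]
        exact hinv g hg
      · rw [sgT_eq, hs]
        norm_num
  · intro h
    exact absurd (Finset.mem_univ _) h

/-- **The conjecture of Voisin for the quotients.** -/
theorem strict_comm (hG : G.Nice) (hι : ∀ x, G.Opp m o x (ι.map k x)) (hS : G.Sw m o)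
    (hS' : G.Sw (m + m) o) {Γ : Set (Equiv.Perm (Fin m) × (Fin m → Bool))}
    (hΓ : ∀ T : Finset (Fin m), T.Nonempty → T ≠ Finset.univ →
      ∃ g ∈ Γ, (∀ j ∈ T, g.1 j ∈ T) ∧ sgT g T = -1)
    {a b : (Fin m → G.Pt k) →₀ ℚ} (ha : (a.sum fun _ q => q) = 0) (hb : (b.sum fun _ q => q) = 0)
    (hinva : ∀ g ∈ Γ, Finsupp.mapDomain ((sp g).act (ι.map k) o) a - a ∈ G.Rat m)
    (hinvb : ∀ g ∈ Γ, Finsupp.mapDomain ((sp g).act (ι.map k) o) b - b ∈ G.Rat m) :
    cross a b - cross b a ∈ G.Rat (m + m) :=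
  cross_comm hG hS' (strict_top hG hι hS hΓ ha hinva) (strict_top hG hι hS hΓ hb hinvb)

/-- Antisymmetric cycles. -/
theorem anti_zero (hG : G.Nice) (hS : G.Sw (n + 1) o) (hn : 1 ≤ n)
    {z : (Fin (n + 1) → G.Pt k) →₀ ℚ}
    (hz : ∀ σ : Equiv.Perm (Fin (n + 1)),
      Finsupp.mapDomain (fun x j => x (σ j)) z - ((σ.sign : ℤ) : ℚ) • z ∈ G.Rat (n + 1))
    (hpr : Finsupp.mapDomain (fun x (j : Fin n) => x j.castSucc) z ∈ G.Rat n) :
    z ∈ G.Rat (n + 1) := by
  classical
  rw [← Submodule.Quotient.mk_eq_zero, ← Submodule.mkQ_apply, sum_PT o]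
  refine Finset.sum_eq_zero fun T _ => ?_
  -- two slots on the same side
  have key : ∀ i i' : Fin (n + 1), i ≠ i' → (i ∈ T ↔ i' ∈ T) → G.PT (n + 1) o T z = 0 := by
    intro i i' hi hT
    have hact : (sp (Equiv.swap i i', fun _ => false)).act ((Hom.idn G).map k) o =
        fun (x : Fin (n + 1) → G.Pt k) j => x (Equiv.swap i i' j) := rfl
    refine PT_zero (ι := Hom.idn G) (g := sp (Equiv.swap i i', fun _ => false)) (r := -1) hG hS
      (fun _ _ h => ?_) (sp_image _ fun j hj => ?_) ?_ ?_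
    · exfalso
      unfold sp at h
      simp at h
    · change Equiv.swap i i' j ∈ T
      by_cases h1 : j = i
      · subst h1; rw [Equiv.swap_apply_left]; exact hT.1 hj
      by_cases h2 : j = i'
      · subst h2; rw [Equiv.swap_apply_right]; exact hT.2 hj
      rw [Equiv.swap_apply_of_ne_of_ne h1 h2]; exact hj
    · have h1 := hz (Equiv.swap i i')
      rw [Equiv.Perm.sign_swap hi] at h1
      rw [hact]
      have e : (((-1 : ℤˣ) : ℤ) : ℚ) = -1 := by norm_num
      rw [e] at h1
      exact h1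
    · rw [sgT_eq]
      unfold sgT
      simp only [Bool.false_eq_true, if_false, Finset.prod_const_one]
      norm_num
  by_cases hex : ∃ i i' : Fin (n + 1), i ≠ i' ∧ (i ∈ T ↔ i' ∈ T)
  · obtain ⟨i, i', hi, hT⟩ := hex
    exact key i i' hi hT
  push Not at hex
  -- two slots
  have hn1 : n = 1 := by
    by_contra hn1
    have h0 := hex ⟨0, by omega⟩ ⟨1, by omega⟩ (by simp)
    have h1 := hex ⟨0, by omega⟩ ⟨2, by omega⟩ (by simp)
    have h2 := hex ⟨1, by omega⟩ ⟨2, by omega⟩ (by simp)
    tauto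
  subst hn1
  -- expressions which only depend on the first coordinate
  have hL : ∀ T' : Finset (Fin 2), ∑ x ∈ z.support, z x • G.Ec o T' (fun _ => x 0) = 0 := by
    intro T'
    have h1 : G.Rat 1 ≤ LinearMap.ker (Finsupp.linearCombination ℚ
        fun x : Fin 1 → G.Pt k => G.Ec o T' (fun _ : Fin 2 => x 0)) := by
      refine Submodule.span_le.2 ?_
      rintro _ ⟨K, i1, i2, i3, f, P, φ, hf, hφ, rfl⟩
      rw [SetLike.mem_coe, LinearMap.mem_ker]
      have h3 := Ad.sum_eq_zero (Ec_ad (o := o) hG (P := fun _ => P 0)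
        (φ := fun v _ => φ v 0) (fun v _ => hφ v 0) T') hf
      unfold Finsupp.sum at h3 ⊢
      rw [map_sum, ← h3]
      refine Finset.sum_congr rfl fun v _ => ?_
      rw [Finsupp.linearCombination_single]
    have h2 := h1 hpr
    rw [LinearMap.mem_ker, Finsupp.linearCombination_mapDomain,
      Finsupp.linearCombination_apply] at h2
    exact h2
  have hdep : ∀ (T' : Finset (Fin 2)) (x x' : Fin 2 → G.Pt k), (∀ j ∈ T', x j = x' j) →
      G.Ec o T' x = G.Ec o T' x' := by
    intro T' x x' h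
    unfold Ec
    congr 1
    funext j
    by_cases hj : j ∈ T'
    · rw [Finset.piecewise_eq_of_mem _ _ _ hj, Finset.piecewise_eq_of_mem _ _ _ hj, h j hj]
    · rw [Finset.piecewise_eq_of_notMem _ _ _ hj, Finset.piecewise_eq_of_notMem _ _ _ hj]
  have h01 := hex 0 1 (by simp)
  by_cases h0 : (0 : Fin 2) ∈ T
  · have h1 : (1 : Fin 2) ∉ T := by tauto
    rw [← hL T]
    unfold PT
    rw [Finsupp.linearCombination_apply]
    refine Finset.sum_congr rfl fun x _ => ?_
    change z x • G.Ec o T x = _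
    rw [hdep T x (fun _ => x 0)]
    intro j hj
    fin_cases j
    · rfl
    · exact absurd hj h1
  · have h1 : (1 : Fin 2) ∈ T := by tauto
    have h2 := PT_rat (o := o) hG T (hz (Equiv.swap 0 1))
    rw [Equiv.Perm.sign_swap (by simp)] at h2
    have e : (((-1 : ℤˣ) : ℤ) : ℚ) = -1 := by norm_num
    rw [e, map_sub, map_smul, neg_one_smul, sub_neg_eq_add] at h2
    have h3 : G.PT 2 o T (Finsupp.mapDomain (fun x j => x (Equiv.swap 0 1 j)) z) = 0 := by
      rw [← hL T]
      unfold PT
      rw [Finsupp.linearCombination_mapDomain, Finsupp.linearCombination_apply]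
      refine Finset.sum_congr rfl fun x _ => ?_
      change z x • G.Ec o T (fun j => x (Equiv.swap 0 1 j)) = _
      rw [hdep T (fun j => x (Equiv.swap 0 1 j)) (fun _ => x 0)]
      intro j hj
      fin_cases j
      · exact absurd hj h0
      · change x (Equiv.swap 0 1 1) = x 0
        rw [Equiv.swap_apply_right]
    rw [h3, zero_add] at h2
    exact h2

/-- Permutations preserve rational equivalence. -/
theorem perm_rat (σ : Equiv.Perm (Fin n)) {z : (Fin n → G.Pt k) →₀ ℚ} (hz : z ∈ G.Rat n) :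
    Finsupp.mapDomain (fun x j => x (σ j)) z ∈ G.Rat n := by
  have h : G.Rat n ≤ (G.Rat n).comap
      (Finsupp.lmapDomain ℚ ℚ fun (x : Fin n → G.Pt k) j => x (σ j)) := by
    refine Submodule.span_le.2 ?_
    rintro _ ⟨K, i1, i2, i3, f, P, φ, hf, hφ, rfl⟩
    refine Submodule.subset_span ⟨K, i1, i2, i3, f, fun j => P (σ j), fun v j => φ v (σ j), hf,
      fun v j => hφ v (σ j), ?_⟩
    unfold Finsupp.sum
    rw [map_sum]
    refine Finset.sum_congr rfl fun v _ => ?_
    rw [Finsupp.lmapDomain_apply, Finsupp.mapDomain_single]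
  exact h hz

end Geo

end Pool.Agent.H833.EK
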