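import Pool.Agent.H833.EK.Plane

/-!
# Resolutions of singularities
-/

set_option autoImplicit false
set_option linter.unusedSectionVars false

namespace Pool.Agent.H833.EK

open FF Polynomial

namespace Geo

variable {k : Type} [Field k]

variable [CharZero k] [IsAlgClosed k] {G G' : Geo k} {n : ℕ}

theorem RLine.eqv (hG : G.Nice) {x x' : G.Pt k} (h : Relation.EqvGen G.RLine x x') :
    G.Eqv n x x' := by
  induction h with
  | rel x x' h =>
    obtain ⟨P, h1, h2⟩ := h
    exact Eqv.of_family hG RatFunc.transcendental_X h1 h2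
  | refl x => exact Eqv.refl x
  | symm x y _ ih => exact ih.symm
  | trans x y z _ _ ih1 ih2 => exact ih1.trans ih2

open Classical in
theorem cl_congr {z z' : Fin n → G.Pt k} (h : ∀ j, G.Eqv n (z j) (z' j)) : G.cl z = G.cl z' := by
  have key : ∀ T : Finset (Fin n), G.cl (fun j => if j ∈ T then z' j else z j) = G.cl z := by
    intro T
    induction T using Finset.induction_on with
    | empty => simp
    | insert a T ha ih =>
      rw [← ih]
      have e1 : (fun j => if j ∈ insert a T then z' j else z j) =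
          Function.update (fun j => if j ∈ T then z' j else z j) a (z' a) := by
        funext j
        by_cases hj : j = a
        · subst hj; simp
        · rw [Function.update_of_ne hj]
          simp [Finset.mem_insert, hj]
      have e2 : (fun j => if j ∈ T then z' j else z j) =
          Function.update (fun j => if j ∈ T then z' j else z j) a (z a) := by
        funext j
        by_cases hj : j = a
        · subst hj; simp [ha]
        · rw [Function.update_of_ne hj]
      rw [e1]
      conv_rhs => rw [e2]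
      exact (h a a _).symm
  have h1 := key Finset.univ
  simp only [Finset.mem_univ, if_true] at h1
  exact h1.symm

theorem Wd_ref {i i' : Fin n} {y : Fin n → G.Pt k} {o : G.Pt k}
    (h : ∀ x x', G.Wd i i' y o x x' = 0) (o' x x' : G.Pt k) : G.Wd i i' y o' x x' = 0 := by
  have h1 := h x x'
  have h2 := h x o'
  have h3 := h o' x'
  have h4 : G.Wd i i' y o' x x' = G.Wd i i' y o x x' - G.Wd i i' y o x o' - G.Wd i i' y o o' x' := by
    unfold Wd
    abel
  rw [h4, h1, h2, h3]
  simp

/-- The classes on the resolution. -/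
theorem exists_section (hG : G.Nice) {π : Hom G' G} (h : Resolves π) : ∃ σ : G.Pt k → G'.Pt k,
    ∀ x, G.Same (π.map k (σ x)) x := by
  have h1 : ∀ x : G.Pt k, ∃ x' : G'.Pt k, G.Same (π.map k x') x := by
    intro x
    obtain ⟨P, hP⟩ := hG.cst (RatFunc k) x
    obtain ⟨v, -⟩ := exists_zero (k := k) (K := RatFunc k) RatFunc.transcendental_X
    obtain ⟨P', hP'⟩ := h.lift (RatFunc k) P
    obtain ⟨p', -, hp'⟩ := hP' v x (hP v)
    exact ⟨p', hp'⟩
  choose σ hσ using h1
  exact ⟨σ, hσ⟩

theorem same_refl (hG : G.Nice) (x : G.Pt k) : G.Same x x := by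
  obtain ⟨P, hP⟩ := hG.cst (RatFunc k) x
  obtain ⟨v, -⟩ := exists_zero (k := k) (K := RatFunc k) RatFunc.transcendental_X
  exact ⟨RatFunc k, _, _, v, P, hP v, hP v⟩

/-- The conjecture for a resolution. -/
theorem Resolves.voisin (hG : G.Nice) {π : Hom G' G} (h : Resolves π) {i i' : Fin n} (hi : i ≠ i')
    {o : G.Pt k} (hW : ∀ y x x', G.Wd i i' y o x x' = 0) : G'.Voisin n := by
  classical
  obtain ⟨σ, hσ⟩ := exists_section hG h
  let L : ((Fin n → G.Pt k) →₀ ℚ) →ₗ[ℚ] G'.CH n :=
    (G'.Rat n).mkQ.comp (Finsupp.lmapDomain ℚ ℚ fun (x : Fin n → G.Pt k) j => σ (x j))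
  have hLs : ∀ (x : Fin n → G.Pt k) (m : ℚ), L (Finsupp.single x m) =
      m • G'.cl fun j => σ (x j) := by
    intro x m
    change (G'.Rat n).mkQ (Finsupp.lmapDomain ℚ ℚ _ (Finsupp.single x m)) = _
    rw [Finsupp.lmapDomain_apply, Finsupp.mapDomain_single]
    unfold cl
    rw [← map_smul, Finsupp.smul_single, smul_eq_mul, mul_one]
  have hL : G.Rat n ≤ LinearMap.ker L := by
    unfold Geo.Rat
    rw [Submodule.span_le]
    rintro _ ⟨K, i1, i2, i3, f, P, φ, hf, hφ, rfl⟩
    change L _ = 0
    have h1 : ∀ j, ∃ P' : G'.Pt K, ∀ (v : Place k K) (p : G.Pt k), G.Sp v (P j) p →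
      ∃ p' : G'.Pt k, G'.Sp v P' p' ∧ G.Same (π.map k p') p := fun j => h.lift K (P j)
    choose P' hP' using h1
    choose φ' hφ' hsame using fun v j => hP' j v (φ v j) (hφ v j)
    have h2 : ∀ v, G'.cl (fun j => σ (φ v j)) = G'.cl (φ' v) := by
      intro v
      refine cl_congr fun j => RLine.eqv h.nice (h.fib _ _ ⟨φ v j, hσ _, hsame v j⟩)
    unfold Finsupp.sum
    rw [map_sum]
    have h3 := Ad.sum_eq_zero (Ad.of (G := G') (n := n) hφ') hf
    unfold Finsupp.sum at h3
    rw [← h3]
    refine Finset.sum_congr rfl fun v _ => ?_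
    rw [hLs, h2]
  let Ψ : G.CH n →ₗ[ℚ] G'.CH n := (G.Rat n).liftQ L hL
  have hΨ : ∀ x : Fin n → G.Pt k, Ψ (G.cl x) = G'.cl fun j => σ (x j) := by
    intro x
    change (G.Rat n).liftQ L hL (Submodule.Quotient.mk (Finsupp.single x 1)) = _
    rw [Submodule.liftQ_apply, hLs, one_smul]
  have hσπ : ∀ z : G'.Pt k, G'.Eqv n z (σ (π.map k z)) := fun z =>
    RLine.eqv h.nice (h.fib _ _ ⟨π.map k z, same_refl hG _, hσ _⟩)
  have hcl : ∀ z : Fin n → G'.Pt k, G'.cl z = Ψ (G.cl fun j => π.map k (z j)) := by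
    intro z
    rw [hΨ]
    exact cl_congr fun j => hσπ (z j)
  have hcl₂ : ∀ (y : Fin n → G'.Pt k) (x x' : G'.Pt k), G'.cl₂ i i' y x x' =
      Ψ (G.cl₂ i i' (fun j => π.map k (y j)) (π.map k x) (π.map k x')) := by
    intro y x x'
    unfold cl₂
    rw [hcl]
    congr 2
    funext j
    by_cases hj' : j = i'
    · subst hj'; simp
    · rw [Function.update_of_ne hj', Function.update_of_ne hj']
      by_cases hj : j = i
      · subst hj; simp
      · rw [Function.update_of_ne hj, Function.update_of_ne hj]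
  refine voisin_of_Wd hi (σ o) fun y x x' => ?_
  unfold Wd
  simp only [hcl₂]
  have h1 := Wd_ref (hW fun j => π.map k (y j)) (π.map k (σ o)) (π.map k x) (π.map k x')
  unfold Wd at h1
  simp only [← map_sub]
  rw [h1, map_zero]

end Geo

section

variable {k : Type} [Field k] [CharZero k] [IsAlgClosed k] {n : ℕ}

theorem voisin_dcover_res {e : ℕ} {c : Fin 5 → MvPolynomial (Fin 2) k} (h : Wts e c)
    (hn : 2 ≤ n) {S : Geo k} {π : Geo.Hom S (dcover e c)} (hπ : Geo.Resolves π) : S.Voisin n := by
  obtain ⟨o, ho⟩ := exists_ram c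
  have hi : (⟨0, by omega⟩ : Fin n) ≠ ⟨1, by omega⟩ := by
    intro hh
    have := congrArg Fin.val hh
    simp at this
  exact hπ.voisin (dcover_nice h) hi (o := o) fun y x x' => Wd_dcover h ho hi y x x'

end

end Pool.Agent.H833.EK
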