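import Pool.Agent.H833.EK.Wt

/-!
# Families of points of the Jacobian curves and their values
-/

set_option autoImplicit false
set_option linter.unusedSectionVars false

namespace Pool.Agent.H833.EK

open FF Polynomial

variable {k : Type} [Field k] [CharZero k] [IsAlgClosed k] {a b : k[X]} {V : Type}
  [AddCommGroup V] [Module ℚ V]

section

variable {K : Type} [Field K] [Algebra k K]

/-- The coefficients for functions `U₁`, `U₂`, `N`. -/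
noncomputable def αL₁ (a : k[X]) (U₁ N : K) : K := aeval U₁ a * N ^ 2

noncomputable def αL₂ (a : k[X]) (U₂ N : K) : K := aeval U₂ a / N ^ 2

noncomputable def βL (b : k[X]) (U₁ U₂ N : K) : K := aeval U₂ b / N ^ 3 - aeval U₁ b * N ^ 3

/-- The first point. -/
noncomputable def PL (a b : k[X]) (U₁ U₂ N X E y : K) : T3 K :=
  (U₁, pp₁ (αL₁ a U₁ N) (αL₂ a U₂ N) (βL b U₁ U₂ N) X E / N, y)

/-- The second point. -/
noncomputable def QL (a b : k[X]) (U₁ U₂ N X E y : K) : T3 K :=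
  (U₂, pp₂ (αL₁ a U₁ N) (αL₂ a U₂ N) (βL b U₁ U₂ N) X E * N, N ^ 3 * y)

/-- The equations of a family. -/
structure IsFam (a b : k[X]) (U₁ U₂ N X E y : K) : Prop where
  N0 : N ≠ 0
  eq : EqJ (αL₁ a U₁ N) (αL₂ a U₂ N) (βL b U₁ U₂ N) X E
  qq : qq (αL₁ a U₁ N) (αL₂ a U₂ N) X ≠ 0
  y : y ^ 2 = (pp₁ (αL₁ a U₁ N) (αL₂ a U₂ N) (βL b U₁ U₂ N) X E / N) ^ 3 +
    aeval U₁ a * (pp₁ (αL₁ a U₁ N) (αL₂ a U₂ N) (βL b U₁ U₂ N) X E / N) + aeval U₁ b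

variable {U₁ U₂ N X E y : K}

theorem IsFam.onP (h : IsFam a b U₁ U₂ N X E y) : OnS a b (PL a b U₁ U₂ N X E y) := h.y

theorem IsFam.onQ (h : IsFam a b U₁ U₂ N X E y) : OnS a b (QL a b U₁ U₂ N X E y) := by
  have : CharZero K := charZero_of_injective_algebraMap (algebraMap k K).injective
  have h1 := pp_curve h.eq h.qq
  have h0 := h.N0
  have h2 := h.y
  unfold OnS QL
  simp only
  set P := pp₁ (αL₁ a U₁ N) (αL₂ a U₂ N) (βL b U₁ U₂ N) X E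
  set Q := pp₂ (αL₁ a U₁ N) (αL₂ a U₂ N) (βL b U₁ U₂ N) X E
  rw [mul_pow, h2]
  unfold αL₁ αL₂ βL at h1
  field_simp at h1 ⊢
  linear_combination -h1

/-- The values of a family at a place. -/
structure ValAt (v : Place k K) (U₁ U₂ N X E : K) (u₁ u₂ ν x η : k) : Prop where
  h₁ : HasVal v U₁ u₁
  h₂ : HasVal v U₂ u₂
  hN : HasVal v N ν
  hX : HasVal v X x
  hE : HasVal v E η

variable {v : Place k K} {u₁ u₂ ν x η : k}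

theorem ValAt.α₁ (h : ValAt v U₁ U₂ N X E u₁ u₂ ν x η) :
    HasVal v (αL₁ a U₁ N) (α₁ a u₁ ν) := (h.h₁.aeval a).mul (h.hN.pow 2)

theorem ValAt.α₂ (h : ValAt v U₁ U₂ N X E u₁ u₂ ν x η) (hν : ν ≠ 0) :
    HasVal v (αL₂ a U₂ N) (α₂ a u₂ ν) := (h.h₂.aeval a).div (h.hN.pow 2) (pow_ne_zero 2 hν)

theorem ValAt.β (h : ValAt v U₁ U₂ N X E u₁ u₂ ν x η) (hν : ν ≠ 0) :
    HasVal v (βL b U₁ U₂ N) (ββ b u₁ u₂ ν) :=
  ((h.h₂.aeval b).div (h.hN.pow 3) (pow_ne_zero 3 hν)).sub ((h.h₁.aeval b).mul (h.hN.pow 3))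

theorem ValAt.qq (h : ValAt v U₁ U₂ N X E u₁ u₂ ν x η) (hν : ν ≠ 0) :
    HasVal v (qq (αL₁ a U₁ N) (αL₂ a U₂ N) X) (qq (EK.α₁ a u₁ ν) (EK.α₂ a u₂ ν) x) := by
  have h1 := h.α₁ (a := a)
  have h2 := h.α₂ (a := a) hν
  unfold EK.qq
  exact ((((h.hX.pow 2).add ((h1.add h2).mul h.hX)).add (h1.pow 2)).sub (h1.mul h2)).add (h2.pow 2)

theorem ValAt.pp₁ (h : ValAt v U₁ U₂ N X E u₁ u₂ ν x η) (hg : Good a b u₁ u₂ ν x η) :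
    HasVal v (pp₁ (αL₁ a U₁ N) (αL₂ a U₂ N) (βL b U₁ U₂ N) X E)
      (pp₁ (EK.α₁ a u₁ ν) (EK.α₂ a u₂ ν) (ββ b u₁ u₂ ν) x η) := by
  have h1 := h.α₁ (a := a)
  have h2 := h.α₂ (a := a) hg.ν0
  have h3 := h.β (b := b) hg.ν0
  have h4 := h.qq (a := a) hg.ν0
  unfold EK.pp₁
  exact ((h.hE.mul ((h1.sub ((HasVal.ofNat v 2).mul h2)).sub h.hX)).add
    (((HasVal.ofNat v 9).mul h3).mul (h.hX.add h1))).div ((HasVal.ofNat v 6).mul h4)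
    (mul_ne_zero (by norm_num) (qq_ne_zero hg.lam))

theorem ValAt.pp₂ (h : ValAt v U₁ U₂ N X E u₁ u₂ ν x η) (hg : Good a b u₁ u₂ ν x η) :
    HasVal v (pp₂ (αL₁ a U₁ N) (αL₂ a U₂ N) (βL b U₁ U₂ N) X E)
      (pp₂ (EK.α₁ a u₁ ν) (EK.α₂ a u₂ ν) (ββ b u₁ u₂ ν) x η) := by
  have h1 := h.α₁ (a := a)
  have h2 := h.α₂ (a := a) hg.ν0
  have h3 := h.β (b := b) hg.ν0
  have h4 := h.qq (a := a) hg.ν0
  unfold EK.pp₂
  exact ((h.hE.mul ((h2.sub ((HasVal.ofNat v 2).mul h1)).sub h.hX)).sub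
    (((HasVal.ofNat v 9).mul h3).mul (h.hX.add h2))).div ((HasVal.ofNat v 6).mul h4)
    (mul_ne_zero (by norm_num) (qq_ne_zero hg.lam))

end

section

variable {K : Type} [Field K] [Algebra k K] [IsFF k K] {U₁ U₂ N X E y : K} {v : Place k K}
  {u₁ u₂ ν x η : k}

/-- The value of the pairing for a family. -/
theorem wv_fam (B : Pairing k a b V) (hf : IsFam a b U₁ U₂ N X E y)
    (h : ValAt v U₁ U₂ N X E u₁ u₂ ν x η) (hg : Good a b u₁ u₂ ν x η) :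
    wv a b B.W v (PL a b U₁ U₂ N X E y) (QL a b U₁ U₂ N X E y) = Wt B u₁ u₂ ν x η := by
  have e1 := h.pp₁ hg
  have e2 := h.pp₂ hg
  have hx1 := e1.div h.hN hg.ν0
  have hx2 := e2.mul h.hN
  obtain ⟨s, hs, hs2⟩ : ∃ s, HasVal v y s ∧
      s ^ 2 = (pp₁ (α₁ a u₁ ν) (α₂ a u₂ ν) (ββ b u₁ u₂ ν) x η / ν) ^ 3 +
        a.eval u₁ * (pp₁ (α₁ a u₁ ν) (α₂ a u₂ ν) (ββ b u₁ u₂ ν) x η / ν) + b.eval u₁ := by
    have h9 : HasVal v (y ^ 2)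
        ((pp₁ (α₁ a u₁ ν) (α₂ a u₂ ν) (ββ b u₁ u₂ ν) x η / ν) ^ 3 +
        a.eval u₁ * (pp₁ (α₁ a u₁ ν) (α₂ a u₂ ν) (ββ b u₁ u₂ ν) x η / ν) + b.eval u₁) := by
      rw [hf.y]
      exact ((hx1.pow 3).add ((h.h₁.aeval a).mul hx1)).add (h.h₁.aeval b)
    obtain ⟨s, hs, h10⟩ := h9.of_pow two_ne_zero
    exact ⟨s, hs, h10⟩
  rw [wv_eq (p := (u₁, pp₁ (α₁ a u₁ ν) (α₂ a u₂ ν) (ββ b u₁ u₂ ν) x η / ν, s))
    (q := (u₂, pp₂ (α₁ a u₁ ν) (α₂ a u₂ ν) (ββ b u₁ u₂ ν) x η * ν, ν ^ 3 * s))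
    ⟨h.h₁, hx1, hs⟩ ⟨h.h₂, hx2, (h.hN.pow 3).mul hs⟩ hg.d₁ hg.d₂]
  exact gW_eq B hg.d₁ hg.d₂ hs2 hg.curve

end

theorem Good.six {u₁ u₂ ν x η : k} (h : Good a b u₁ u₂ ν x η) {ν' : k} (hν : ν' ^ 6 = ν ^ 6) :
    Good a b u₁ u₂ ν' x η := by
  have h0 := h.ν0
  have h4 : ν' ≠ 0 := by
    rintro rfl
    apply pow_ne_zero 6 h0
    rw [← hν]; ring
  have f1 : α₁ a u₁ ν' ^ 3 = α₁ a u₁ ν ^ 3 := by
    unfold α₁; linear_combination (a.eval u₁) ^ 3 * hν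
  have f2 : α₂ a u₂ ν' ^ 3 = α₂ a u₂ ν ^ 3 := by
    unfold α₂
    rw [div_pow, div_pow]
    congr 1
    linear_combination hν
  have f3 : α₁ a u₁ ν' * α₂ a u₂ ν' = α₁ a u₁ ν * α₂ a u₂ ν := by
    unfold α₁ α₂; field_simp
  have f4 : ββ b u₁ u₂ ν' ^ 2 = ββ b u₁ u₂ ν ^ 2 := by
    have g1 : ∀ μ : k, μ ≠ 0 → ββ b u₁ u₂ μ ^ 2 = (b.eval u₂) ^ 2 / μ ^ 6 + (b.eval u₁) ^ 2 * μ ^ 6
        - 2 * b.eval u₁ * b.eval u₂ := by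
      intro μ hμ
      unfold ββ; field_simp; ring
    rw [g1 _ h4, g1 _ h0, hν]
  refine ⟨h.d₁, h.d₂, h4, ?_, ?_⟩
  · have := h.eq
    unfold EqJ at this ⊢
    rw [this]
    linear_combination 12 * x * f3 + 4 * f1 + 4 * f2 + 27 * f4
  · have := h.lam
    have f5 : Lam (α₁ a u₁ ν') (α₂ a u₂ ν') x = Lam (α₁ a u₁ ν) (α₂ a u₂ ν) x := by
      unfold Lam
      linear_combination -3 * x * f3 - f1 - f2
    rw [f5]; exact this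

theorem exists_zero {K : Type} [Field K] [Algebra k K] [IsFF k K] {f : K}
    (hf : Transcendental k f) : ∃ v : Place k K, 0 < v.ord f := by
  obtain ⟨N, hN, h1, -⟩ := Pairing.ord_sum_pos (k := k) hf
  by_contra hcon
  push Not at hcon
  rw [Finset.sum_eq_zero (fun v hv => absurd (Finset.mem_filter.1 hv).2 (not_lt.2 (hcon v)))] at h1
  exact hN.ne h1

/-- The equation of the Jacobian curve in terms of the discriminants. -/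
theorem eqJ_iff {F : Type} [Field F] {A₁ A₂ B₁ B₂ N x η : F} (hN : N ≠ 0) :
    EqJ (A₁ * N ^ 2) (A₂ / N ^ 2) (B₂ / N ^ 3 - B₁ * N ^ 3) x η ↔
      η ^ 2 = 4 * x ^ 3 - 12 * (A₁ * A₂) * x + 54 * (B₁ * B₂) -
        ((4 * A₁ ^ 3 + 27 * B₁ ^ 2) * N ^ 6 + (4 * A₂ ^ 3 + 27 * B₂ ^ 2) / N ^ 6) := by
  unfold EqJ
  have : 4 * x ^ 3 - 12 * (A₁ * N ^ 2) * (A₂ / N ^ 2) * x -
      (4 * (A₁ * N ^ 2) ^ 3 + 4 * (A₂ / N ^ 2) ^ 3 + 27 * (B₂ / N ^ 3 - B₁ * N ^ 3) ^ 2) =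
      4 * x ^ 3 - 12 * (A₁ * A₂) * x + 54 * (B₁ * B₂) -
        ((4 * A₁ ^ 3 + 27 * B₁ ^ 2) * N ^ 6 + (4 * A₂ ^ 3 + 27 * B₂ ^ 2) / N ^ 6) := by
    field_simp
    ring
  rw [this]

theorem disc_eval (a b : k[X]) (u : k) :
    (disc a b).eval u = 4 * (a.eval u) ^ 3 + 27 * (b.eval u) ^ 2 := by
  unfold disc
  simp [eval_mul, eval_add, eval_pow]

theorem disc_aeval {K : Type} [Field K] [Algebra k K] (a b : k[X]) (u : K) :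
    aeval u (disc a b) = 4 * (aeval u a) ^ 3 + 27 * (aeval u b) ^ 2 := by
  unfold disc
  rw [map_add, map_mul, map_mul, map_pow, map_pow, map_ofNat, map_ofNat]

end Pool.Agent.H833.EK
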