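import Pool.Graph.R_pool_sql_team_seeded_1acbe0a2.Y107.VC.Key
import Pool.Agent.H833.EK.DefA

/-!
# Values of functions at places
-/

set_option autoImplicit false
set_option linter.unusedSectionVars false

namespace Pool.Agent.H833.EK

open FF Polynomial
open Pool.Agent.W603.LV (deg_one)

section

variable {k K : Type} [Field k] [Field K] [Algebra k K]

variable {v : Place k K} {f g : K} {c d : k}

theorem hasVal_iff : HasVal v f c ↔ v.Reg f ∧ v.red f = algebraMap k v.RF c := by
  have hc : v.red (algebraMap k K c) = algebraMap k v.RF c := rfl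
  constructor
  · rintro (h | h)
    · rw [h]; exact ⟨v.reg_const c, rfl⟩
    · have h1 : v.Reg (f - algebraMap k K c) := Or.inr h.le
      have h2 : f = (f - algebraMap k K c) + algebraMap k K c := by ring
      rw [h2]
      refine ⟨v.reg_add h1 (v.reg_const c), ?_⟩
      rw [v.red_add h1 (v.reg_const c), (v.red_eq_zero_iff h1).2 (Or.inr h), zero_add, hc]
  · rintro ⟨h1, h2⟩
    have h3 : v.Reg (f - algebraMap k K c) := by
      rw [sub_eq_add_neg]; exact v.reg_add h1 (v.reg_neg (v.reg_const c))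
    have h4 : v.red (f - algebraMap k K c) = 0 := by
      rw [sub_eq_add_neg, v.red_add h1 (v.reg_neg (v.reg_const c)), v.red_neg (v.reg_const c),
        h2, hc, add_neg_cancel]
    rcases (v.red_eq_zero_iff h3).1 h4 with h5 | h5
    · exact Or.inl (sub_eq_zero.1 h5)
    · exact Or.inr h5

theorem HasVal.reg (h : HasVal v f c) : v.Reg f := (hasVal_iff.1 h).1

theorem HasVal.red (h : HasVal v f c) : v.red f = algebraMap k v.RF c := (hasVal_iff.1 h).2

theorem HasVal.const (v : Place k K) (c : k) : HasVal v (algebraMap k K c) c := Or.inl rfl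

theorem HasVal.add (hf : HasVal v f c) (hg : HasVal v g d) : HasVal v (f + g) (c + d) :=
  hasVal_iff.2 ⟨v.reg_add hf.reg hg.reg, by
    rw [v.red_add hf.reg hg.reg, hf.red, hg.red, map_add]⟩

theorem HasVal.mul (hf : HasVal v f c) (hg : HasVal v g d) : HasVal v (f * g) (c * d) :=
  hasVal_iff.2 ⟨v.reg_mul hf.reg hg.reg, by
    rw [v.red_mul hf.reg hg.reg, hf.red, hg.red, map_mul]⟩

theorem HasVal.neg (hf : HasVal v f c) : HasVal v (-f) (-c) :=
  hasVal_iff.2 ⟨v.reg_neg hf.reg, by rw [v.red_neg hf.reg, hf.red, map_neg]⟩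

theorem HasVal.sub (hf : HasVal v f c) (hg : HasVal v g d) : HasVal v (f - g) (c - d) := by
  rw [sub_eq_add_neg, sub_eq_add_neg]; exact hf.add hg.neg

theorem HasVal.one (v : Place k K) : HasVal v (1 : K) 1 := by
  have := HasVal.const v (1 : k)
  rwa [map_one] at this

theorem HasVal.zero (v : Place k K) : HasVal v (0 : K) 0 := by
  have := HasVal.const v (0 : k)
  rwa [map_zero] at this

theorem HasVal.natCast (v : Place k K) (n : ℕ) : HasVal v (n : K) n := by
  have := HasVal.const v (n : k)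
  rwa [map_natCast] at this

theorem HasVal.ofNat (v : Place k K) (n : ℕ) [n.AtLeastTwo] :
    HasVal v (OfNat.ofNat n : K) (OfNat.ofNat n : k) := by
  have := HasVal.natCast v (OfNat.ofNat n : ℕ)
  rwa [Nat.cast_ofNat, Nat.cast_ofNat] at this

theorem HasVal.pow (hf : HasVal v f c) (n : ℕ) : HasVal v (f ^ n) (c ^ n) := by
  induction n with
  | zero => rw [pow_zero, pow_zero]; exact HasVal.one v
  | succ n ih => rw [pow_succ, pow_succ]; exact ih.mul hf

theorem HasVal.unique (hf : HasVal v f c) (hg : HasVal v f d) : c = d :=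
  (algebraMap k v.RF).injective (hf.red.symm.trans hg.red)

theorem HasVal.congr (hf : HasVal v f c) (h : f = g) (h' : c = d) : HasVal v g d := by
  subst h; subst h'; exact hf

theorem HasVal.ne_zero (hf : HasVal v f c) (hc : c ≠ 0) : f ≠ 0 := by
  rintro rfl
  exact hc (hf.unique (HasVal.zero v))

theorem HasVal.ord_pos (hf : HasVal v f 0) (h0 : f ≠ 0) : 0 < v.ord f := by
  have h1 := hf.red
  rw [map_zero, v.red_eq_zero_iff hf.reg] at h1
  exact h1.resolve_left h0

theorem HasVal.ord_eq (hf : HasVal v f c) (hc : c ≠ 0) : v.ord f = 0 := by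
  have h0 := hf.ne_zero hc
  have h1 := (v.reg_iff h0).1 hf.reg
  rcases h1.lt_or_eq with h | h
  · exfalso
    have h2 := (v.red_eq_zero_iff hf.reg).2 (Or.inr h)
    rw [hf.red] at h2
    exact hc ((map_eq_zero _).1 h2)
  · exact h.symm

theorem hasVal_zero_of_pos (h : 0 < v.ord f) : HasVal v f 0 := by
  have h1 : v.Reg f := Or.inr h.le
  exact hasVal_iff.2 ⟨h1, by rw [map_zero]; exact (v.red_eq_zero_iff h1).2 (Or.inr h)⟩

theorem HasVal.inv (hf : HasVal v f c) (hc : c ≠ 0) : HasVal v f⁻¹ c⁻¹ := by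
  have h0 := hf.ne_zero hc
  have h1 : v.Reg f⁻¹ := Or.inr (by rw [v.ord_inv, hf.ord_eq hc]; simp)
  refine hasVal_iff.2 ⟨h1, ?_⟩
  have h2 : v.red f * v.red f⁻¹ = 1 := by
    rw [← v.red_mul hf.reg h1, mul_inv_cancel₀ h0, v.red_one]
  rw [map_inv₀, ← hf.red]
  exact eq_inv_of_mul_eq_one_right h2

theorem HasVal.div (hf : HasVal v f c) (hg : HasVal v g d) (hd : d ≠ 0) :
    HasVal v (f / g) (c / d) := by
  rw [div_eq_mul_inv, div_eq_mul_inv]; exact hf.mul (hg.inv hd)

theorem HasVal.aeval (hf : HasVal v f c) (p : k[X]) : HasVal v (aeval f p) (p.eval c) := by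
  induction p using Polynomial.induction_on' with
  | add p q hp hq => rw [map_add, eval_add]; exact hp.add hq
  | monomial n a =>
    rw [aeval_monomial, eval_monomial]
    exact (HasVal.const v a).mul (hf.pow n)

theorem HasVal.prod {ι : Type} (s : Finset ι) (F : ι → K) (C : ι → k)
    (h : ∀ i ∈ s, HasVal v (F i) (C i)) : HasVal v (∏ i ∈ s, F i) (∏ i ∈ s, C i) := by
  classical
  induction s using Finset.induction_on with
  | empty => simpa using HasVal.one v
  | insert a s ha ih =>
    rw [Finset.prod_insert ha, Finset.prod_insert ha]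
    exact (h a (Finset.mem_insert_self _ _)).mul
      (ih fun i hi => h i (Finset.mem_insert_of_mem hi))

theorem HasVal.multisetProd {ι : Type} (s : Multiset ι) (F : ι → K) (C : ι → k)
    (h : ∀ i ∈ s, HasVal v (F i) (C i)) : HasVal v (s.map F).prod (s.map C).prod := by
  induction s using Multiset.induction_on with
  | empty => simpa using HasVal.one v
  | cons a s ih =>
    rw [Multiset.map_cons, Multiset.map_cons, Multiset.prod_cons, Multiset.prod_cons]
    exact (h a (Multiset.mem_cons_self _ _)).mul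
      (ih fun i hi => h i (Multiset.mem_cons_of_mem hi))

theorem not_reg_iff : ¬ v.Reg f ↔ f ≠ 0 ∧ v.ord f < 0 := by
  unfold Place.Reg
  push Not
  rfl

theorem reg_of_pow_reg {n : ℕ} (hn : n ≠ 0) (h : v.Reg (f ^ n)) : v.Reg f := by
  by_contra hc
  obtain ⟨h0, h1⟩ := not_reg_iff.1 hc
  have h2 := (v.reg_iff (pow_ne_zero n h0)).1 h
  rw [v.ord_pow] at h2
  have : (0 : ℤ) < n := by exact_mod_cast Nat.pos_of_ne_zero hn
  nlinarith

end

section

variable {k K : Type} [Field k] [Field K] [Algebra k K] [CharZero k] [IsAlgClosed k] [IsFF k K]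
  {v : Place k K} {f g : K} {c d : k}

theorem exists_hasVal (h : v.Reg f) : ∃ c, HasVal v f c := by
  have h1 : Function.Surjective (algebraMap k v.RF) :=
    (IsAlgClosed.algebraMap_bijective_of_isIntegral (k := k) (K := v.RF)).2
  obtain ⟨c, hc⟩ := h1 (v.red f)
  exact ⟨c, hasVal_iff.2 ⟨h, hc.symm⟩⟩

theorem HasVal.of_pow {n : ℕ} (hn : n ≠ 0) (h : HasVal v (f ^ n) c) :
    ∃ d, HasVal v f d ∧ d ^ n = c := by
  obtain ⟨d, hd⟩ := exists_hasVal (reg_of_pow_reg hn h.reg)
  exact ⟨d, hd, (hd.pow n).unique h⟩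

/-- A root of a polynomial with regular coefficients whose leading coefficient is a unit. -/
theorem reg_of_root {n : ℕ} {r : K} (a : Fin n → K) (ha : ∀ i, v.Reg (a i)) {l : K}
    (hl : HasVal v l c) (hc : c ≠ 0)
    (h : l * r ^ n + ∑ i : Fin n, a i * r ^ (i : ℕ) = 0) : v.Reg r := by
  by_contra hcon
  obtain ⟨h0, h1⟩ := not_reg_iff.1 hcon
  have hl0 := hl.ne_zero hc
  rcases Nat.eq_zero_or_pos n with rfl | hn
  · simp at h
    exact hl0 h
  have h2 : ∀ s : Finset (Fin n), Pool.Agent.W603.LV.Ge v (((n : ℤ) - 1) * v.ord r)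
      (∑ i ∈ s, a i * r ^ (i : ℕ)) := by
    intro s
    refine Pool.Agent.W603.LV.Ge.sum _ _ fun i _ => ?_
    have h3 : Pool.Agent.W603.LV.Ge v 0 (a i) := ha i
    have h4 : Pool.Agent.W603.LV.Ge v (((n : ℤ) - 1) * v.ord r) (r ^ (i : ℕ)) := by
      right
      rw [v.ord_pow]
      have h5 : ((i : ℕ) : ℤ) ≤ (n : ℤ) - 1 := by
        have := i.2
        omega
      nlinarith
    have h6 := h3.mul h4
    rwa [zero_add] at h6
  have h3 := h2 Finset.univ
  have h4 : (∑ i : Fin n, a i * r ^ (i : ℕ)) = -(l * r ^ n) := by linear_combination h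
  rw [h4] at h3
  have h5 := h3.neg
  rw [neg_neg] at h5
  rcases h5 with h5 | h5
  · exact (mul_ne_zero hl0 (pow_ne_zero n h0)) h5
  · rw [v.ord_mul hl0 (pow_ne_zero n h0), v.ord_pow, hl.ord_eq hc] at h5
    nlinarith

end

end Pool.Agent.H833.EK
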