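import Pool.Agent.H833.EK.Word

/-!
# From words in two slots to the conjecture of Voisin
-/

set_option autoImplicit false
set_option linter.unusedSectionVars false

namespace Pool.Agent.H833.EK

open FF Polynomial

section

variable {S V : Type} {n : ℕ} [AddCommGroup V] [Module ℚ V]

open Classical in
theorem sum_slot_zero (T : Finset S) (j : Fin n) (β : S → ℚ) (H : (Fin n → S) → V)
    (hH : ∀ x z, H (Function.update x j z) = H x) (hβ : ∑ z ∈ T, β z = 0) :
    ∑ x ∈ Fintype.piFinset (fun _ : Fin n => T), β (x j) • H x = 0 := by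
  have h1 : ∑ p ∈ (Fintype.piFinset (fun _ : Fin n => T)) ×ˢ T, β (p.1 j) • H p.1 =
      ∑ p ∈ (Fintype.piFinset (fun _ : Fin n => T)) ×ˢ T, β p.2 • H p.1 := by
    refine Finset.sum_nbij' (fun p => (Function.update p.1 j p.2, p.1 j))
      (fun p => (Function.update p.1 j p.2, p.1 j)) ?_ ?_ ?_ ?_ ?_
    · intro p hp
      rw [Finset.mem_product, Fintype.mem_piFinset] at hp ⊢
      refine ⟨fun i => ?_, hp.1 j⟩
      by_cases hi : i = j
      · subst hi; simpa using hp.2
      · simpa [Function.update_of_ne hi] using hp.1 i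
    · intro p hp
      rw [Finset.mem_product, Fintype.mem_piFinset] at hp ⊢
      refine ⟨fun i => ?_, hp.1 j⟩
      by_cases hi : i = j
      · subst hi; simpa using hp.2
      · simpa [Function.update_of_ne hi] using hp.1 i
    · intro p _
      simp
    · intro p _
      simp
    · intro p _
      simp only [hH]
  rw [Finset.sum_product, Finset.sum_product] at h1
  have h2 : ∑ x ∈ Fintype.piFinset (fun _ : Fin n => T), ∑ z ∈ T, β z • H x = 0 := by
    refine Finset.sum_eq_zero fun x _ => ?_
    rw [← Finset.sum_smul, hβ, zero_smul]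
  rw [h2] at h1
  simp only [Finset.sum_const] at h1
  rw [← Finset.smul_sum] at h1
  rcases Finset.eq_empty_or_nonempty T with rfl | hT
  · have : Nonempty (Fin n) := ⟨j⟩
    rw [Finset.sum_eq_zero]
    intro x hx
    rw [Fintype.mem_piFinset] at hx
    exact absurd (hx j) (Finset.notMem_empty _)
  · rw [← Nat.cast_smul_eq_nsmul ℚ, smul_eq_zero] at h1
    rcases h1 with h1 | h1
    · exact absurd (Nat.cast_eq_zero.1 h1) (Finset.card_pos.2 hT).ne'
    · exact h1

theorem map_ext (a : Fin n → (S →₀ ℚ)) (T : Finset S) (hT : ∀ i, (a i).support ⊆ T)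
    (L : ((Fin n → S) →₀ ℚ) →ₗ[ℚ] V) :
    L (ext a) = ∑ x ∈ Fintype.piFinset (fun _ : Fin n => T),
      (∏ i, a i (x i)) • L (Finsupp.single x 1) := by
  classical
  unfold ext
  rw [map_sum]
  have h1 : ∀ x : Fin n → S, L (Finsupp.single x (∏ i, a i (x i))) =
      (∏ i, a i (x i)) • L (Finsupp.single x 1) := fun x => by
    rw [← map_smul, Finsupp.smul_single, smul_eq_mul, mul_one]
  simp only [h1]
  refine Finset.sum_subset (Fintype.piFinset_subset _ _ hT) fun x _ hx => ?_
  rw [Fintype.mem_piFinset] at hx
  push Not at hx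
  obtain ⟨i, hi⟩ := hx
  have h2 : ∏ i, a i (x i) = 0 :=
    Finset.prod_eq_zero (Finset.mem_univ i) (Finsupp.notMem_support_iff.1 hi)
  rw [h2, zero_smul]

open Classical in
/-- The alternating sum of a multilinear expression which is symmetric in two slots vanishes. -/
theorem alt_zero (L : ((Fin n → S) →₀ ℚ) →ₗ[ℚ] V) {i i' : Fin n} (hi : i ≠ i')
    (g : (Fin n → S) → S → V) (hg : ∀ x z w, g (Function.update x i z) w = g x w)
    (hg' : ∀ x z w, g (Function.update x i' z) w = g x w)
    (h : ∀ x : Fin n → S, L (Finsupp.single x 1) -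
      L (Finsupp.single (fun j => x (Equiv.swap i i' j)) 1) = g x (x i) - g x (x i'))
    (a : Fin n → (S →₀ ℚ)) (ha : ∀ i, ((a i).sum fun _ m => m) = 0) :
    L (∑ σ : Equiv.Perm (Fin n), ((σ.sign : ℤ) : ℚ) • ext (fun i => a (σ i))) = 0 := by
  set T : Finset S := Finset.univ.biUnion fun i => (a i).support with hTdef
  have hT : ∀ i, (a i).support ⊆ T := fun i =>
    Finset.subset_biUnion_of_mem (fun i => (a i).support) (Finset.mem_univ i)
  have haT : ∀ j, ∑ z ∈ T, a j z = 0 := by
    intro j
    rw [← ha j]
    exact (Finset.sum_subset (hT j) fun x _ hx => Finsupp.notMem_support_iff.1 hx).symm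
  set τ : Equiv.Perm (Fin n) := Equiv.swap i i' with hτ
  have hττ : ∀ j, τ (τ j) = j := fun j => Equiv.swap_apply_self i i' j
  -- the value of the exterior products
  have h1 : ∀ b : Fin n → (S →₀ ℚ), (∀ i, (b i).support ⊆ T) → (∀ j, ∑ z ∈ T, b j z = 0) →
      L (ext b) = L (ext fun j => b (τ j)) := by
    intro b hb hb0
    rw [map_ext b T hb L, map_ext (fun j => b (τ j)) T (fun j => hb _) L]
    have h2 : ∑ x ∈ Fintype.piFinset (fun _ : Fin n => T),
        (∏ j, b (τ j) (x j)) • L (Finsupp.single x 1) =
        ∑ x ∈ Fintype.piFinset (fun _ : Fin n => T),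
        (∏ j, b j (x j)) • L (Finsupp.single (fun j => x (τ j)) 1) := by
      refine Finset.sum_nbij' (fun x j => x (τ j)) (fun x j => x (τ j)) ?_ ?_ ?_ ?_ ?_
      · intro x hx
        rw [Fintype.mem_piFinset] at hx ⊢
        exact fun j => hx _
      · intro x hx
        rw [Fintype.mem_piFinset] at hx ⊢
        exact fun j => hx _
      · intro x _
        funext j
        simp only [hττ]
      · intro x _
        funext j
        simp only [hττ]
      · intro x _
        simp only [hττ]
        congr 1
        rw [← Equiv.prod_comp τ]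
        simp only [hττ]
    rw [h2, ← sub_eq_zero, ← Finset.sum_sub_distrib]
    have h3 : ∀ x : Fin n → S, (∏ j, b j (x j)) • L (Finsupp.single x 1) -
        (∏ j, b j (x j)) • L (Finsupp.single (fun j => x (τ j)) 1) =
        b i' (x i') • ((∏ j ∈ Finset.univ.erase i', b j (x j)) • g x (x i)) -
        b i (x i) • ((∏ j ∈ Finset.univ.erase i, b j (x j)) • g x (x i')) := by
      intro x
      have e1 := Finset.mul_prod_erase Finset.univ (fun j => b j (x j)) (Finset.mem_univ i')
      have e2 := Finset.mul_prod_erase Finset.univ (fun j => b j (x j)) (Finset.mem_univ i)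
      try simp only at e1
      try simp only at e2
      rw [← smul_sub, h x, smul_sub, smul_smul, smul_smul, e1, e2]
    simp only [h3]
    rw [Finset.sum_sub_distrib, sum_slot_zero T i' (fun z => b i' z)
      (fun x => (∏ j ∈ Finset.univ.erase i', b j (x j)) • g x (x i)) ?_ (hb0 i'),
      sum_slot_zero T i (fun z => b i z)
      (fun x => (∏ j ∈ Finset.univ.erase i, b j (x j)) • g x (x i')) ?_ (hb0 i), sub_zero]
    · intro x z
      rw [hg, Function.update_of_ne hi.symm]
      congr 1
      exact Finset.prod_congr rfl fun j hj => by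
        rw [Function.update_of_ne (Finset.ne_of_mem_erase hj)]
    · intro x z
      rw [hg', Function.update_of_ne hi]
      congr 1
      exact Finset.prod_congr rfl fun j hj => by
        rw [Function.update_of_ne (Finset.ne_of_mem_erase hj)]
  rw [map_sum]
  simp only [map_smul]
  have h2 : ∑ σ : Equiv.Perm (Fin n), ((σ.sign : ℤ) : ℚ) • L (ext fun j => a (σ j)) =
      -∑ σ : Equiv.Perm (Fin n), ((σ.sign : ℤ) : ℚ) • L (ext fun j => a (σ j)) := by
    conv_lhs => rw [← Equiv.sum_comp (Equiv.mulRight τ)]
    rw [← Finset.sum_neg_distrib]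
    refine Finset.sum_congr rfl fun σ _ => ?_
    have h3 := h1 (fun j => a (σ j)) (fun j => hT _) (fun j => haT _)
    simp only [Equiv.coe_mulRight, Equiv.Perm.mul_apply, Equiv.Perm.sign_mul]
    rw [h3, hτ, Equiv.Perm.sign_swap hi]
    simp
  have h3 : (2 : ℚ) • ∑ σ : Equiv.Perm (Fin n), ((σ.sign : ℤ) : ℚ) • L (ext fun j => a (σ j)) =
      0 := by
    rw [two_smul]
    nth_rewrite 1 [h2]
    exact neg_add_cancel _
  exact (smul_eq_zero.1 h3).resolve_left two_ne_zero

end

namespace Geo

variable {k : Type} [Field k] [CharZero k] [IsAlgClosed k] {G : Geo k} {n : ℕ}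

/-- The conjecture follows from the vanishing of the words in two slots. -/
theorem voisin_of_Wd {i i' : Fin n} (hi : i ≠ i') (o : G.Pt k)
    (h : ∀ (y : Fin n → G.Pt k) (x x' : G.Pt k), G.Wd i i' y o x x' = 0) : G.Voisin n := by
  classical
  intro a ha
  rw [← Submodule.Quotient.mk_eq_zero, ← Submodule.mkQ_apply]
  refine alt_zero (G.Rat n).mkQ hi (fun x z => G.cl₂ i i' x z o - G.cl₂ i i' x o z) ?_ ?_ ?_ a ha
  · intro x z w
    simp only [cl₂, Function.update_idem]
  · intro x z w
    simp only [cl₂]
    rw [Function.update_comm hi.symm z w x, Function.update_comm hi.symm z o x]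
    simp only [Function.update_idem]
  · intro x
    change G.cl x - G.cl (fun j => x (Equiv.swap i i' j)) = _
    have h1 : G.cl x = G.cl₂ i i' x (x i) (x i') := by
      unfold cl₂
      congr 1
      funext j
      by_cases hj' : j = i'
      · subst hj'; simp
      · by_cases hj : j = i
        · subst hj; rw [Function.update_of_ne hj']; simp
        · rw [Function.update_of_ne hj', Function.update_of_ne hj]
    have h2 : G.cl (fun j => x (Equiv.swap i i' j)) = G.cl₂ i i' x (x i') (x i) := by
      unfold cl₂
      congr 1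
      funext j
      by_cases hj' : j = i'
      · subst hj'; simp
      · by_cases hj : j = i
        · subst hj; rw [Function.update_of_ne hj']; simp
        · rw [Function.update_of_ne hj', Function.update_of_ne hj,
            Equiv.swap_apply_of_ne_of_ne hj hj']
    have h3 := h x (x i) (x i')
    unfold Wd at h3
    rw [h1, h2]
    rw [← sub_eq_zero, ← h3]
    abel

end Geo

end Pool.Agent.H833.EK
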