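import Pool.Agent.H833.EK.Geo

/-!
# Words in two slots, and pairings
-/

set_option autoImplicit false
set_option linter.unusedSectionVars false

namespace Pool.Agent.H833.EK

open FF Polynomial

namespace Geo

variable {k : Type} [Field k] [CharZero k] [IsAlgClosed k] {G : Geo k} {n : ℕ}

variable (G) in
open Classical in
/-- The class of a point with the coordinates `x`, `x'` in the slots `i`, `i'`. -/
noncomputable def cl₂ (i i' : Fin n) (y : Fin n → G.Pt k) (x x' : G.Pt k) : G.CH n :=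
  G.cl (Function.update (Function.update y i x) i' x')

variable (G) in
/-- The antisymmetrised class of `(x - o) × (x' - o)`. -/
noncomputable def Wd (i i' : Fin n) (y : Fin n → G.Pt k) (o x x' : G.Pt k) : G.CH n :=
  (G.cl₂ i i' y x x' - G.cl₂ i i' y x o - G.cl₂ i i' y o x') -
    (G.cl₂ i i' y x' x - G.cl₂ i i' y x' o - G.cl₂ i i' y o x)

variable {i i' : Fin n} {y : Fin n → G.Pt k} {o : G.Pt k}

theorem Wd_alt (x x' : G.Pt k) : G.Wd i i' y o x' x = -G.Wd i i' y o x x' := by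
  unfold Wd; abel

theorem cl₂_right {x x' x'' : G.Pt k} (h : G.Eqv n x' x'') :
    G.cl₂ i i' y x x' = G.cl₂ i i' y x x'' := h i' _

theorem cl₂_comm_update (hi : i ≠ i') (x x' : G.Pt k) : G.cl₂ i i' y x x' = G.cl₂ i' i y x' x := by
  unfold cl₂
  rw [Function.update_comm hi]

theorem cl₂_left (hi : i ≠ i') {x x' x'' : G.Pt k} (h : G.Eqv n x' x'') :
    G.cl₂ i i' y x' x = G.cl₂ i i' y x'' x := by
  rw [cl₂_comm_update hi, cl₂_comm_update hi]
  exact cl₂_right h

theorem Wd_left (hi : i ≠ i') {x x' x'' : G.Pt k} (h : G.Eqv n x' x'') :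
    G.Wd i i' y o x' x = G.Wd i i' y o x'' x := by
  unfold Wd
  rw [cl₂_left hi h, cl₂_right h, cl₂_left hi h, cl₂_right h]

theorem Wd_zero_left (hi : i ≠ i') {x x' : G.Pt k} (h : G.Eqv n x' o) :
    G.Wd i i' y o x' x = 0 := by
  rw [Wd_left hi h]
  unfold Wd
  abel

theorem Wd_zero_right (hi : i ≠ i') {x x' : G.Pt k} (h : G.Eqv n x' o) :
    G.Wd i i' y o x x' = 0 := by
  rw [Wd_alt, Wd_zero_left hi h, neg_zero]

theorem Wd_right (hi : i ≠ i') {x x' x'' : G.Pt k} (h : G.Eqv n x' x'') :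
    G.Wd i i' y o x x' = G.Wd i i' y o x x'' := by
  rw [Wd_alt, Wd_left hi h, ← Wd_alt]

variable (G) (n) in
open Classical in
/-- `[x] + [x'] = 2 [o]` in all slots. -/
def Opp (o x x' : G.Pt k) : Prop := ∀ (i : Fin n) (y : Fin n → G.Pt k),
  G.cl (Function.update y i x) + G.cl (Function.update y i x') =
    (2 : ℚ) • G.cl (Function.update y i o)

theorem Wd_opp (hi : i ≠ i') {x x' x'' : G.Pt k} (h : G.Opp n o x' x'') :
    G.Wd i i' y o x'' x = -G.Wd i i' y o x' x := by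
  have h1 : ∀ z, G.cl₂ i i' y z x'' = (2 : ℚ) • G.cl₂ i i' y z o - G.cl₂ i i' y z x' := fun z =>
    eq_sub_of_add_eq' (h i' _)
  have h2 : ∀ z, G.cl₂ i i' y x'' z = (2 : ℚ) • G.cl₂ i i' y o z - G.cl₂ i i' y x' z := by
    intro z
    rw [cl₂_comm_update hi, cl₂_comm_update hi o, cl₂_comm_update hi x']
    exact eq_sub_of_add_eq' (h i _)
  unfold Wd
  rw [h1, h1, h2, h2]
  simp only [two_smul]
  abel

theorem Ad.Wd (hG : G.Nice) {K : Type} [Field K] [Algebra k K] (hi : i ≠ i')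
    {P P' : G.Pt K} {φ φ' : Place k K → G.Pt k} (h : ∀ v, G.Sp v P (φ v))
    (h' : ∀ v, G.Sp v P' (φ' v)) :
    (fun v => G.Wd i i' y o (φ v) (φ' v)) ∈ G.Ad (n := n) K := by
  obtain ⟨O, hO⟩ := hG.cst K o
  have e1 := Ad.slot₂ hG hi y h h'
  have e2 := Ad.slot₂ hG hi y h hO
  have e3 := Ad.slot₂ hG hi y hO h'
  have e4 := Ad.slot₂ hG hi y h' h
  have e5 := Ad.slot₂ hG hi y h' hO
  have e6 := Ad.slot₂ hG hi y hO h
  exact Submodule.sub_mem _ (Submodule.sub_mem _ (Submodule.sub_mem _ e1 e2) e3)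
    (Submodule.sub_mem _ (Submodule.sub_mem _ e4 e5) e6)

end Geo

end Pool.Agent.H833.EK
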