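import Pool.Agent.H833.EK.Pts

/-!
# The value of a pairing as a function on the Jacobian curves
-/

set_option autoImplicit false
set_option linter.unusedSectionVars false

namespace Pool.Agent.H833.EK

open FF Polynomial

variable {k : Type} [Field k] [CharZero k] [IsAlgClosed k] {a b : k[X]} {V : Type}
  [AddCommGroup V] [Module ℚ V]

/-- The coefficients for the parameter `ν`. -/
noncomputable def α₁ (a : k[X]) (u₁ ν : k) : k := a.eval u₁ * ν ^ 2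

noncomputable def α₂ (a : k[X]) (u₂ ν : k) : k := a.eval u₂ / ν ^ 2

noncomputable def ββ (b : k[X]) (u₁ u₂ ν : k) : k := b.eval u₂ / ν ^ 3 - b.eval u₁ * ν ^ 3

/-- The value of the pairing. -/
noncomputable def Wt (B : Pairing k a b V) (u₁ u₂ ν x η : k) : V :=
  gW B u₁ u₂ (ν ^ 3) (pp₁ (α₁ a u₁ ν) (α₂ a u₂ ν) (ββ b u₁ u₂ ν) x η / ν)
    (pp₂ (α₁ a u₁ ν) (α₂ a u₂ ν) (ββ b u₁ u₂ ν) x η * ν)

/-- The data for which the value is under control. -/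
structure Good (a b : k[X]) (u₁ u₂ ν x η : k) : Prop where
  d₁ : (disc a b).eval u₁ ≠ 0
  d₂ : (disc a b).eval u₂ ≠ 0
  ν0 : ν ≠ 0
  eq : EqJ (α₁ a u₁ ν) (α₂ a u₂ ν) (ββ b u₁ u₂ ν) x η
  lam : Lam (α₁ a u₁ ν) (α₂ a u₂ ν) x ≠ 0

variable {u₁ u₂ ν x η : k}

theorem Good.neg (h : Good a b u₁ u₂ ν x η) : Good a b u₁ u₂ ν x (-η) :=
  ⟨h.d₁, h.d₂, h.ν0, h.eq.neg, h.lam⟩

theorem Good.curve (h : Good a b u₁ u₂ ν x η) :
    (ν ^ 3) ^ 2 * ((pp₁ (α₁ a u₁ ν) (α₂ a u₂ ν) (ββ b u₁ u₂ ν) x η / ν) ^ 3 +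
      a.eval u₁ * (pp₁ (α₁ a u₁ ν) (α₂ a u₂ ν) (ββ b u₁ u₂ ν) x η / ν) + b.eval u₁) =
    (pp₂ (α₁ a u₁ ν) (α₂ a u₂ ν) (ββ b u₁ u₂ ν) x η * ν) ^ 3 +
      a.eval u₂ * (pp₂ (α₁ a u₁ ν) (α₂ a u₂ ν) (ββ b u₁ u₂ ν) x η * ν) + b.eval u₂ := by
  have h1 := pp_curve h.eq (qq_ne_zero h.lam)
  set P := pp₁ (α₁ a u₁ ν) (α₂ a u₂ ν) (ββ b u₁ u₂ ν) x η
  set Q := pp₂ (α₁ a u₁ ν) (α₂ a u₂ ν) (ββ b u₁ u₂ ν) x η
  unfold α₁ α₂ ββ at h1
  have h0 := h.ν0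
  field_simp at h1 ⊢
  linear_combination -h1

theorem gW_neg (B : Pairing k a b V) {t x₁ x₂ : k} (h₁ : (disc a b).eval u₁ ≠ 0)
    (h₂ : (disc a b).eval u₂ ≠ 0)
    (hx : t ^ 2 * (x₁ ^ 3 + a.eval u₁ * x₁ + b.eval u₁) = x₂ ^ 3 + a.eval u₂ * x₂ + b.eval u₂) :
    gW B u₁ u₂ (-t) x₁ x₂ = -gW B u₁ u₂ t x₁ x₂ := by
  unfold gW
  set s := sq (x₁ ^ 3 + a.eval u₁ * x₁ + b.eval u₁) with hs
  have h3 : s ^ 2 = x₁ ^ 3 + a.eval u₁ * x₁ + b.eval u₁ := sq_spec _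
  have h5 : OnS a b ((u₁, x₁, s) : T3 k) := OnS_self.2 h3
  have h6 : OnS a b ((u₂, x₂, t * s) : T3 k) := OnS_self.2 (by rw [← hx, ← h3]; ring)
  have h7 := B.odd_right h5 h6 h₁ h₂
  simp only [T3.neg] at h7
  rw [neg_mul]; exact h7

theorem gW_swap (B : Pairing k a b V) {t x₁ x₂ : k} (h₁ : (disc a b).eval u₁ ≠ 0)
    (h₂ : (disc a b).eval u₂ ≠ 0) (ht : t ≠ 0)
    (hx : t ^ 2 * (x₁ ^ 3 + a.eval u₁ * x₁ + b.eval u₁) = x₂ ^ 3 + a.eval u₂ * x₂ + b.eval u₂) :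
    gW B u₂ u₁ t⁻¹ x₂ x₁ = -gW B u₁ u₂ t x₁ x₂ := by
  set s := sq (x₁ ^ 3 + a.eval u₁ * x₁ + b.eval u₁) with hs
  have h3 : s ^ 2 = x₁ ^ 3 + a.eval u₁ * x₁ + b.eval u₁ := sq_spec _
  have h5 : OnS a b ((u₁, x₁, s) : T3 k) := OnS_self.2 h3
  have h6 : OnS a b ((u₂, x₂, t * s) : T3 k) := OnS_self.2 (by rw [← hx, ← h3]; ring)
  have h7 := B.alt _ _ h5 h6 h₁ h₂
  have h8 := gW_eq B (u₁ := u₂) (u₂ := u₁) (t := t⁻¹) (x₁ := x₂) (x₂ := x₁) (y := t * s) h₂ h₁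
    (by rw [← hx, ← h3]; ring) (by rw [← hx]; field_simp)
  have h9 : t⁻¹ * (t * s) = s := by field_simp
  rw [h9] at h8
  rw [← h8, h7]
  rfl

theorem Wt_omega (B : Pairing k a b V) (h : Good a b u₁ u₂ ν x η) {ω : k}
    (hω : ω ^ 2 + ω + 1 = 0) : Wt B u₁ u₂ (ω * ν) x η + Wt B u₁ u₂ ν x (-η) = 0 := by
  have hν := h.ν0
  have hω0 : ω ≠ 0 := by
    rintro rfl
    simp at hω
  have hω3 : ω ^ 3 = 1 := by linear_combination (ω - 1) * hω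
  have e1 : α₁ a u₁ (ω * ν) = ω ^ 2 * α₁ a u₁ ν := by unfold α₁; ring
  have e2 : α₂ a u₂ (ω * ν) = ω * α₂ a u₂ ν := by
    unfold α₂; field_simp; rw [hω3, mul_one]
  have e3 : ββ b u₁ u₂ (ω * ν) = ββ b u₁ u₂ ν := by
    unfold ββ; rw [mul_pow, hω3, one_mul]
  have e4 : (ω * ν) ^ 3 = ν ^ 3 := by rw [mul_pow, hω3, one_mul]
  have l1 := line_a hω h.lam (β := ββ b u₁ u₂ ν) (η := η)
  have l2 := line_b hω h.lam (β := ββ b u₁ u₂ ν) (η := η)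
  have l3 := line_n hω h.lam h.eq
  have l4 := line_sum hω h.lam h.eq
  have c1 := h.neg.curve
  unfold Wt
  rw [e1, e2, e3, e4]
  rw [← l2] at l3 l4
  set A := α₁ a u₁ ν with hA
  set A' := α₂ a u₂ ν with hA'
  set β := ββ b u₁ u₂ ν with hβ
  set P := pp₁ A A' β x (-η) with hP
  set Q := pp₂ A A' β x (-η) with hQ
  set P' := pp₁ (ω ^ 2 * A) (ω * A') β x η with hP'
  set Q' := pp₂ (ω ^ 2 * A) (ω * A') β x η with hQ'
  have l5 : ω * Q' - P' = Q - ω * P := l1.trans l2.symm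
  have k1 := line2 B (u₁ := u₁) (u₂ := u₂) (t := ν ^ 3) (m := ω * ν ^ 2) (n₀ := ν * (Q - ω * P))
    (x₁ := P / ν) (x₂ := P' / (ω * ν)) h.d₁ h.d₂ (by rw [mul_pow, hω3]; ring)
    (mul_ne_zero hω0 (pow_ne_zero 2 hν)) (mul_ne_zero hν l3) ?_ ?_
  · have f1 : ω * ν ^ 2 * (P / ν) + ν * (Q - ω * P) = Q * ν := by field_simp; ring
    have f2 : ω * ν ^ 2 * (P' / (ω * ν)) + ν * (Q - ω * P) = Q' * (ω * ν) := by
      rw [← l5]; field_simp; ring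
    rw [f1, f2] at k1
    rw [add_comm]; exact k1
  · have f1 : ω * ν ^ 2 * (P / ν) + ν * (Q - ω * P) = Q * ν := by field_simp; ring
    rw [f1]
    linear_combination -c1
  · have f3 : a.eval u₁ = A / ν ^ 2 := by rw [hA]; unfold α₁; field_simp
    have f4 : a.eval u₂ = A' * ν ^ 2 := by rw [hA']; unfold α₂; field_simp
    have f5 : P' / (ω * ν) = ω ^ 2 * P' / ν := by
      rw [div_eq_div_iff (mul_ne_zero hω0 hν) hν]
      linear_combination -(P' * ν) * hω3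
    rw [f3, f4, f5]
    field_simp
    linear_combination ν ^ 4 * l4

theorem exists_omega (k : Type) [Field k] [CharZero k] [IsAlgClosed k] :
    ∃ ω : k, ω ^ 2 + ω + 1 = 0 := by
  refine ⟨(-1 + sq (-3)) / 2, ?_⟩
  have h := sq_spec (-3 : k)
  have h4 : (4 : k) ≠ 0 := by norm_num
  linear_combination h / 4

theorem Good.omega (h : Good a b u₁ u₂ ν x η) {ω : k} (hω : ω ^ 2 + ω + 1 = 0) :
    Good a b u₁ u₂ (ω * ν) x η := by
  have hν := h.ν0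
  have hω0 : ω ≠ 0 := by
    rintro rfl
    simp at hω
  have hω3 : ω ^ 3 = 1 := by linear_combination (ω - 1) * hω
  have e1 : α₁ a u₁ (ω * ν) = ω ^ 2 * α₁ a u₁ ν := by unfold α₁; ring
  have e2 : α₂ a u₂ (ω * ν) = ω * α₂ a u₂ ν := by
    unfold α₂; field_simp; rw [hω3, mul_one]
  have e3 : ββ b u₁ u₂ (ω * ν) = ββ b u₁ u₂ ν := by
    unfold ββ; rw [mul_pow, hω3, one_mul]
  refine ⟨h.d₁, h.d₂, mul_ne_zero hω0 hν, ?_, ?_⟩
  · have h1 := h.eq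
    rw [e1, e2, e3]
    unfold EqJ at h1 ⊢
    rw [h1]
    linear_combination (12 * α₁ a u₁ ν * α₂ a u₂ ν * x + 4 * α₁ a u₁ ν ^ 3 * (ω ^ 3 + 1) +
      4 * α₂ a u₂ ν ^ 3) * hω3
  · have h1 := h.lam
    rw [e1, e2]
    have h2 : Lam (ω ^ 2 * α₁ a u₁ ν) (ω * α₂ a u₂ ν) x = Lam (α₁ a u₁ ν) (α₂ a u₂ ν) x := by
      unfold Lam
      linear_combination (-3 * α₁ a u₁ ν * α₂ a u₂ ν * x - α₁ a u₁ ν ^ 3 * (ω ^ 3 + 1) -
        α₂ a u₂ ν ^ 3) * hω3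
    rw [h2]; exact h1

/-- The value is odd. -/
theorem Wt_neg (B : Pairing k a b V) (h : Good a b u₁ u₂ ν x η) :
    Wt B u₁ u₂ ν x (-η) = -Wt B u₁ u₂ ν x η ∧
    ∀ ω : k, ω ^ 2 + ω + 1 = 0 → Wt B u₁ u₂ (ω * ν) x η = Wt B u₁ u₂ ν x η := by
  have key : ∀ ω : k, ω ^ 2 + ω + 1 = 0 → Wt B u₁ u₂ (ω * ν) x η = Wt B u₁ u₂ ν x η := by
    intro ω hω
    have hω3 : ω ^ 3 = 1 := by linear_combination (ω - 1) * hω
    have hω' : (ω ^ 2) ^ 2 + ω ^ 2 + 1 = 0 := by linear_combination (ω ^ 2 - ω + 1) * hω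
    -- from `ω ν`: rotate by `ω` and by `ω ^ 2`
    have g1 := h.omega hω'
    have r1 := Wt_omega B g1 hω
    have r2 := Wt_omega B g1 hω'
    have e1 : ω * (ω ^ 2 * ν) = ν := by linear_combination ν * hω3
    have e2 : ω ^ 2 * (ω ^ 2 * ν) = ω * ν := by linear_combination ω * ν * hω3
    rw [e1] at r1
    rw [e2] at r2
    exact add_right_cancel (r2.trans r1.symm)
  refine ⟨?_, key⟩
  obtain ⟨ω, hω⟩ := exists_omega k
  have r := Wt_omega B h hω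
  rw [key ω hω] at r
  exact eq_neg_of_add_eq_zero_right r

/-- The value depends on `ν ^ 6` only. -/
theorem Wt_six (B : Pairing k a b V) (h : Good a b u₁ u₂ ν x η) {ν' : k} (hν : ν' ^ 6 = ν ^ 6) :
    Wt B u₁ u₂ ν' x η = Wt B u₁ u₂ ν x η := by
  have h0 := h.ν0
  -- cube roots
  have hcube : ∀ μ : k, μ ^ 3 = ν ^ 3 → Wt B u₁ u₂ μ x η = Wt B u₁ u₂ ν x η := by
    intro μ hμ
    have h1 : (μ / ν - 1) * ((μ / ν) ^ 2 + μ / ν + 1) = 0 := by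
      have h2 : (μ / ν) ^ 3 = 1 := by rw [div_pow, hμ, div_self (pow_ne_zero 3 h0)]
      linear_combination h2
    rcases mul_eq_zero.1 h1 with h2 | h2
    · have h3 : μ = ν := by
        have := sub_eq_zero.1 h2
        rwa [div_eq_one_iff_eq h0] at this
      rw [h3]
    · have h3 : μ / ν * ν = μ := div_mul_cancel₀ _ h0
      rw [← h3]
      exact (Wt_neg B h).2 _ h2
  have h1 : (ν' ^ 3 - ν ^ 3) * (ν' ^ 3 + ν ^ 3) = 0 := by linear_combination hν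
  rcases mul_eq_zero.1 h1 with h2 | h2
  · exact hcube ν' (sub_eq_zero.1 h2)
  · -- the sign
    have h3 : (-ν') ^ 3 = ν ^ 3 := by linear_combination -h2
    rw [← hcube (-ν') h3]
    have h4 : ν' ≠ 0 := by
      rintro rfl
      apply pow_ne_zero 6 h0
      rw [← hν]; ring
    have e1 : α₁ a u₁ (-ν') = α₁ a u₁ ν' := by unfold α₁; ring
    have e2 : α₂ a u₂ (-ν') = α₂ a u₂ ν' := by unfold α₂; rw [neg_sq]
    have e3 : ββ b u₁ u₂ (-ν') = -ββ b u₁ u₂ ν' := by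
      unfold ββ
      have : (-ν') ^ 3 = -ν' ^ 3 := by ring
      rw [this, div_neg]; ring
    have g1 : Good a b u₁ u₂ (-ν') x η := by
      have f1 : α₁ a u₁ (-ν') ^ 3 = α₁ a u₁ ν ^ 3 := by
        unfold α₁; linear_combination (a.eval u₁) ^ 3 * hν
      have f2 : α₂ a u₂ (-ν') ^ 3 = α₂ a u₂ ν ^ 3 := by
        unfold α₂
        rw [div_pow, div_pow]
        congr 1
        linear_combination hν
      have f3 : α₁ a u₁ (-ν') * α₂ a u₂ (-ν') = α₁ a u₁ ν * α₂ a u₂ ν := by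
        unfold α₁ α₂; field_simp
      have f4 : ββ b u₁ u₂ (-ν') ^ 2 = ββ b u₁ u₂ ν ^ 2 := by
        unfold ββ
        rw [h3]
      refine ⟨h.d₁, h.d₂, neg_ne_zero.2 h4, ?_, ?_⟩
      · have := h.eq
        unfold EqJ at this ⊢
        rw [this]
        linear_combination 12 * x * f3 + 4 * f1 + 4 * f2 + 27 * f4
      · have := h.lam
        have f5 : Lam (α₁ a u₁ (-ν')) (α₂ a u₂ (-ν')) x = Lam (α₁ a u₁ ν) (α₂ a u₂ ν) x := by
          unfold Lam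
          linear_combination -3 * x * f3 - f1 - f2
        rw [f5]; exact this
    have g2 : Good a b u₁ u₂ ν' x η := by
      have := g1
      refine ⟨h.d₁, h.d₂, h4, ?_, ?_⟩
      · have t := g1.eq
        rw [e1, e2, e3] at t
        have t2 := t.neg'
        rwa [neg_neg] at t2
      · have t := g1.lam
        rwa [e1, e2] at t
    have r1 := (Wt_neg B g1).1
    have r2 : Wt B u₁ u₂ (-ν') x (-η) = -Wt B u₁ u₂ ν' x η := by
      unfold Wt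
      rw [e1, e2, e3, pp₁_neg, pp₂_neg]
      have e4 : (-ν') ^ 3 = -ν' ^ 3 := by ring
      rw [e4, neg_div_neg_eq, neg_mul_neg]
      exact gW_neg B h.d₁ h.d₂ g2.curve
    rw [r2] at r1
    exact neg_injective r1

/-- Exchange of the two points. -/
theorem Wt_swap (B : Pairing k a b V) (h : Good a b u₁ u₂ ν x η) :
    Wt B u₂ u₁ ν⁻¹ x η = -Wt B u₁ u₂ ν x η ∧ Good a b u₂ u₁ ν⁻¹ x η := by
  have h0 := h.ν0
  have e1 : α₁ a u₂ ν⁻¹ = α₂ a u₂ ν := by unfold α₁ α₂; field_simp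
  have e2 : α₂ a u₁ ν⁻¹ = α₁ a u₁ ν := by unfold α₁ α₂; field_simp
  have e3 : ββ b u₂ u₁ ν⁻¹ = -ββ b u₁ u₂ ν := by unfold ββ; field_simp; ring
  constructor
  · unfold Wt
    rw [e1, e2, e3, pp₁_swap, pp₂_swap, inv_pow, div_inv_eq_mul, ← div_eq_mul_inv]
    exact gW_swap B h.d₁ h.d₂ (pow_ne_zero 3 h0) h.curve
  · refine ⟨h.d₂, h.d₁, inv_ne_zero h0, ?_, ?_⟩
    · rw [e1, e2, e3]
      exact h.eq.swap.neg'
    · rw [e1, e2, Lam_swap]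
      exact h.lam

end Pool.Agent.H833.EK
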